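import Pool.Agent.H978D.Defs

set_option autoImplicit false

namespace Pool.Agent.H978D

open Pool.Agent.MPe9218d

/-- TARGET -/
theorem pc_zero : pc 0 = 0 := by
  simp [pc]

theorem pc_bit (n : ℕ) : pc (2 * n + 1) = pc n + 1 := by
  unfold pc
  rw [Nat.digits_def' (by norm_num) (by omega), List.sum_cons]
  have h1 : (2 * n + 1) % 2 = 1 := by omega
  have h2 : (2 * n + 1) / 2 = n := by omega
  rw [h1, h2, add_comm]

/-- TARGET -/
theorem pc_two_mul (n : ℕ) : pc (2 * n) = pc n := by
  rcases Nat.eq_zero_or_pos n with rfl | hn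
  · simp
  unfold pc
  rw [Nat.digits_def' (by norm_num) (by omega), List.sum_cons]
  have h1 : (2 * n) % 2 = 0 := by omega
  have h2 : (2 * n) / 2 = n := by omega
  rw [h1, h2, zero_add]

/-- TARGET -/
theorem pc_pow (i : ℕ) : pc (2 ^ i) = 1 := by
  induction i with
  | zero => simpa [pc_zero] using pc_bit 0
  | succ i ih => rw [pow_succ, mul_comm, pc_two_mul, ih]

theorem pc_add_le_aux (n : ℕ) : ∀ x y : ℕ, x + y = n → pc (x + y) ≤ pc x + pc y := by
  induction n using Nat.strong_induction_on with
  | _ n ih =>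
    intro x y hxy
    rcases Nat.eq_zero_or_pos n with h0 | hpos
    · have hx : x = 0 := by omega
      have hy : y = 0 := by omega
      subst hx; subst hy
      simp [pc_zero]
    · rcases Nat.even_or_odd' x with ⟨a, ha | ha⟩ <;> rcases Nat.even_or_odd' y with ⟨b, hb | hb⟩
      · have h1 := ih (a + b) (by omega) a b rfl
        rw [ha, hb, ← mul_add, pc_two_mul, pc_two_mul, pc_two_mul]
        exact h1
      · have h1 := ih (a + b) (by omega) a b rfl
        rw [ha, hb, show 2 * a + (2 * b + 1) = 2 * (a + b) + 1 by ring, pc_bit, pc_bit, pc_two_mul]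
        omega
      · have h1 := ih (a + b) (by omega) a b rfl
        rw [ha, hb, show 2 * a + 1 + 2 * b = 2 * (a + b) + 1 by ring, pc_bit, pc_bit, pc_two_mul]
        omega
      · -- both odd
        have h1 := ih (a + (b + 1)) (by omega) a (b + 1) rfl
        have h2 := ih (b + 1) (by omega) b 1 rfl
        have h3 : pc 1 = 1 := by simpa using pc_pow 0
        rw [ha, hb, show 2 * a + 1 + (2 * b + 1) = 2 * (a + (b + 1)) by ring, pc_bit, pc_bit, pc_two_mul]
        omega

/-- TARGET -/
theorem pc_add_le (x y : ℕ) : pc (x + y) ≤ pc x + pc y := pc_add_le_aux (x + y) x y rfl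

/-- TARGET -/
theorem pc_top {i r : ℕ} (h : r < 2 ^ i) : pc (2 ^ i + r) = 1 + pc r := by
  induction i generalizing r with
  | zero =>
    have : r = 0 := by simpa using h
    subst this
    simpa [pc_zero] using pc_pow 0
  | succ i ih =>
    rw [pow_succ] at h
    rcases Nat.even_or_odd' r with ⟨b, hb | hb⟩
    · rw [hb, show 2 ^ (i + 1) + 2 * b = 2 * (2 ^ i + b) by ring, pc_two_mul, pc_two_mul]
      exact ih (by omega)
    · rw [hb, show 2 ^ (i + 1) + (2 * b + 1) = 2 * (2 ^ i + b) + 1 by ring, pc_bit, pc_bit,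
        ih (by omega)]
      ring

/-- TARGET -/
theorem pc_pos {n : ℕ} (h : 0 < n) : 1 ≤ pc n := by
  induction n using Nat.strong_induction_on with
  | _ n ih =>
    rcases Nat.even_or_odd' n with ⟨b, hb | hb⟩
    · rw [hb, pc_two_mul]
      exact ih b (by omega) (by omega)
    · rw [hb, pc_bit]
      omega

/-- TARGET -/
theorem pc_one {n : ℕ} (h : pc n = 1) : ∃ i, n = 2 ^ i := by
  induction n using Nat.strong_induction_on with
  | _ n ih =>
    rcases Nat.even_or_odd' n with ⟨b, hb | hb⟩
    · have hb0 : 0 < b := by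
        rcases Nat.eq_zero_or_pos b with h0 | h0
        · rw [hb, h0, mul_zero, pc_zero] at h
          omega
        · exact h0
      rw [hb, pc_two_mul] at h
      obtain ⟨i, hi⟩ := ih b (by omega) h
      exact ⟨i + 1, by rw [hb, hi]; ring⟩
    · rw [hb, pc_bit] at h
      have hb0 : b = 0 := by
        by_contra hne
        have := pc_pos (Nat.pos_of_ne_zero hne)
        omega
      exact ⟨0, by rw [hb, hb0]; norm_num⟩

/-- TARGET -/
theorem pc_two {n : ℕ} (h : pc n = 2) : ∃ i j, i < j ∧ n = 2 ^ i + 2 ^ j := by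
  induction n using Nat.strong_induction_on with
  | _ n ih =>
    rcases Nat.even_or_odd' n with ⟨b, hb | hb⟩
    · have hb0 : 0 < b := by
        rcases Nat.eq_zero_or_pos b with h0 | h0
        · rw [hb, h0, mul_zero, pc_zero] at h
          omega
        · exact h0
      rw [hb, pc_two_mul] at h
      obtain ⟨i, j, hij, hi⟩ := ih b (by omega) h
      exact ⟨i + 1, j + 1, by omega, by rw [hb, hi]; ring⟩
    · rw [hb, pc_bit] at h
      obtain ⟨j, hj⟩ := pc_one (n := b) (by omega)
      exact ⟨0, j + 1, by omega, by rw [hb, hj]; ring⟩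

end Pool.Agent.H978D
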