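import Pool.Agent.H978D.Defs
import Pool.Agent.H978D.D1

set_option autoImplicit false

namespace Pool.Agent.H978D

open Pool.Agent.MPe9218d









/-- TARGET -/
theorem pc_high {k n : ℕ} (hk : 3 ≤ k) (h1 : 15 * 2 ^ k < 8 * n) (h2 : n < 2 * 2 ^ k) :
    5 ≤ pc n := by
  obtain ⟨m, rfl⟩ := Nat.exists_eq_add_of_le hk
  have e3 : 2 ^ (3 + m) = 8 * 2 ^ m := by ring
  have e2 : 2 ^ (2 + m) = 4 * 2 ^ m := by ring
  have e1 : 2 ^ (1 + m) = 2 * 2 ^ m := by ring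
  obtain ⟨r, hr⟩ : ∃ r, n = 2 ^ (3 + m) + (2 ^ (2 + m) + (2 ^ (1 + m) + (2 ^ m + r))) := by
    refine ⟨n - 15 * 2 ^ m, ?_⟩
    rw [e3] at h1
    rw [e3, e2, e1]
    omega
  have hpos : 0 < r := by
    rw [e3] at h1
    rw [e3, e2, e1] at hr
    omega
  have hlt : r < 2 ^ m := by
    rw [e3] at h2
    rw [e3, e2, e1] at hr
    omega
  rw [hr, pc_top (i := 3 + m) (by rw [e3, e2, e1]; omega),
    pc_top (i := 2 + m) (by rw [e2, e1]; omega),
    pc_top (i := 1 + m) (by rw [e1]; omega), pc_top hlt]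
  have := pc_pos hpos
  omega

/-- TARGET -/
theorem pc_split {n : ℕ} (h : 3 ≤ pc n) : ∃ i j r, j < i ∧ r < 2 ^ j ∧ 1 ≤ r ∧
    n = 2 ^ i + 2 ^ j + r ∧ pc n = 2 + pc r := by
  have hn : n ≠ 0 := by
    rintro rfl
    rw [pc_zero] at h
    omega
  have hi1 : 2 ^ (Nat.log 2 n) ≤ n := Nat.pow_log_le_self 2 hn
  have hi2 : n < 2 ^ (Nat.log 2 n + 1) := Nat.lt_pow_succ_log_self (by norm_num) n
  obtain ⟨m, hm⟩ := Nat.exists_eq_add_of_le hi1
  have hmlt : m < 2 ^ (Nat.log 2 n) := by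
    rw [pow_succ] at hi2
    omega
  have hpn : pc n = 1 + pc m := by
    conv_lhs => rw [hm]
    exact pc_top hmlt
  have hm0 : m ≠ 0 := by
    rintro rfl
    rw [pc_zero] at hpn
    omega
  have hj1 : 2 ^ (Nat.log 2 m) ≤ m := Nat.pow_log_le_self 2 hm0
  have hj2 : m < 2 ^ (Nat.log 2 m + 1) := Nat.lt_pow_succ_log_self (by norm_num) m
  obtain ⟨r, hr⟩ := Nat.exists_eq_add_of_le hj1
  have hrlt : r < 2 ^ (Nat.log 2 m) := by
    rw [pow_succ] at hj2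
    omega
  have hpm : pc m = 1 + pc r := by
    conv_lhs => rw [hr]
    exact pc_top hrlt
  have hr0 : r ≠ 0 := by
    rintro rfl
    rw [pc_zero] at hpm
    omega
  have hji : Nat.log 2 m < Nat.log 2 n :=
    (Nat.pow_lt_pow_iff_right (by norm_num : 1 < 2)).1 (lt_of_le_of_lt hj1 hmlt)
  refine ⟨Nat.log 2 n, Nat.log 2 m, r, hji, hrlt, Nat.pos_of_ne_zero hr0, ?_, ?_⟩
  · omega
  · omega

end Pool.Agent.H978D
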