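import Pool.Agent.H978D.Defs
import Pool.Agent.H978D.D1

set_option autoImplicit false

namespace Pool.Agent.H978D

open Pool.Agent.MPe9218d









/-- TARGET -/
theorem TS_finite (k L Y : ℕ) : (TS k L Y).Finite := by
  apply Set.Finite.subset (Finset.finite_toSet
    ((Finset.range (L + 1) ×ˢ Finset.range (k + 1)).powerset))
  rintro T ⟨h1, h2, h3⟩
  simp only [Finset.mem_coe, Finset.mem_powerset]
  intro p hp
  have h4 : p.1 ≤ L := by
    rw [← h2]
    exact Finset.single_le_sum (f := fun p : ℕ × ℕ => p.1) (fun _ _ => Nat.zero_le _) hp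
  have h5 := (h1 p hp).2
  simp only [Finset.mem_product, Finset.mem_range]
  omega

/-- TARGET -/
theorem TS_card {k L Y : ℕ} {T : Finset (ℕ × ℕ)} (h : T ∈ TS k L Y) :
    T.card ≤ L ∧ pc Y ≤ T.card ∧ L ≤ Y * L ∧ (1 ≤ L → 1 ≤ Y) ∧ (1 ≤ Y → 1 ≤ L) := by
  obtain ⟨h1, h2, h3⟩ := h
  have hc : T.card ≤ L := by
    rw [← h2, Finset.card_eq_sum_ones]
    exact Finset.sum_le_sum fun p hp => (h1 p hp).1
  have hp : ∀ S : Finset (ℕ × ℕ), pc (∑ p ∈ S, 2 ^ p.2) ≤ S.card := by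
    intro S
    induction S using Finset.induction_on with
    | empty => simp [pc_zero]
    | insert a S ha ih =>
      rw [Finset.sum_insert ha, Finset.card_insert_of_notMem ha]
      have h4 := pc_add_le (2 ^ a.2) (∑ p ∈ S, 2 ^ p.2)
      rw [pc_pow] at h4
      omega
  have hLY : 1 ≤ L → 1 ≤ Y := by
    intro hL
    obtain ⟨p, hpT⟩ : T.Nonempty := by
      rw [Finset.nonempty_iff_ne_empty]
      rintro rfl
      simp at h2
      omega
    rw [← h3]
    calc 1 ≤ 2 ^ p.2 := Nat.one_le_two_pow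
      _ ≤ ∑ p ∈ T, 2 ^ p.2 :=
        Finset.single_le_sum (f := fun p : ℕ × ℕ => 2 ^ p.2) (fun _ _ => Nat.zero_le _) hpT
  have hYL : 1 ≤ Y → 1 ≤ L := by
    intro hY
    obtain ⟨p, hpT⟩ : T.Nonempty := by
      rw [Finset.nonempty_iff_ne_empty]
      rintro rfl
      simp at h3
      omega
    rw [← h2]
    calc 1 ≤ p.1 := (h1 p hpT).1
      _ ≤ ∑ p ∈ T, p.1 :=
        Finset.single_le_sum (f := fun p : ℕ × ℕ => p.1) (fun _ _ => Nat.zero_le _) hpT
  refine ⟨hc, ?_, ?_, hLY, hYL⟩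
  · rw [← h3]; exact hp T
  · rcases Nat.eq_zero_or_pos L with h0 | h0
    · rw [h0]; omega
    · exact Nat.le_mul_of_pos_left L (hLY h0)

/-- TARGET -/
theorem TS_one {k Y : ℕ} {T : Finset (ℕ × ℕ)} (h : T ∈ TS k 1 Y) : Pw k Y := by
  have hc := (TS_card h).1
  obtain ⟨h1, h2, h3⟩ := h
  have hT : T.card = 1 := by
    rcases Nat.eq_zero_or_pos T.card with h0 | h0
    · rw [Finset.card_eq_zero] at h0
      rw [h0] at h2
      simp at h2
    · omega
  obtain ⟨p, rfl⟩ := Finset.card_eq_one.1 hT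
  rw [Finset.sum_singleton] at h3
  exact ⟨p.2, (h1 p (Finset.mem_singleton_self p)).2, h3.symm⟩

end Pool.Agent.H978D
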