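import Pool.Agent.H978D.Defs
import Pool.Agent.H978D.D3

set_option autoImplicit false

namespace Pool.Agent.H978D

open Pool.Agent.MPe9218d


theorem J8982_le (k : ℕ) (S : Finset (ℕ × ℕ)) (hS : ∀ p ∈ S, 1 ≤ p.1 ∧ p.2 ≤ k) (hn : (1, k) ∉ S) :
    2 * ∑ p ∈ S, 2 ^ p.2 ≤ 2 ^ k * ∑ p ∈ S, p.1 := by
  rw [Finset.mul_sum, Finset.mul_sum]
  apply Finset.sum_le_sum
  rintro ⟨q, i⟩ hp
  obtain ⟨h1, h2⟩ := hS _ hp
  simp only at h1 h2 ⊢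
  by_cases hq : 2 ≤ q
  · have h3 : 2 ^ i ≤ 2 ^ k := Nat.pow_le_pow_right (by norm_num) h2
    calc 2 * 2 ^ i ≤ 2 * 2 ^ k := Nat.mul_le_mul_left 2 h3
      _ = 2 ^ k * 2 := by ring
      _ ≤ 2 ^ k * q := Nat.mul_le_mul_left _ hq
  · have hq1 : q = 1 := by omega
    subst hq1
    have hik : i ≠ k := by
      intro h
      subst h
      exact hn hp
    have h3 : i + 1 ≤ k := by omega
    calc 2 * 2 ^ i = 2 ^ (i + 1) := by ring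
      _ ≤ 2 ^ k := Nat.pow_le_pow_right (by norm_num) h3
      _ = 2 ^ k * 1 := by ring

/-- TARGET -/
theorem TS_bound {k L Y : ℕ} {T : Finset (ℕ × ℕ)} (h : T ∈ TS k L Y) :
    2 * Y ≤ 2 ^ k * (L + 1) := by
  obtain ⟨h1, h2, h3⟩ := h
  subst h2
  subst h3
  by_cases hm : (1, k) ∈ T
  · have h4 := J8982_le k (T.erase (1, k)) (fun p hp => h1 p (Finset.mem_of_mem_erase hp))
      (Finset.notMem_erase _ _)
    have h5 := Finset.add_sum_erase T (fun p : ℕ × ℕ => p.1) hm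
    have h6 := Finset.add_sum_erase T (fun p : ℕ × ℕ => 2 ^ p.2) hm
    simp only at h5 h6
    rw [← h5, ← h6]
    calc 2 * (2 ^ k + ∑ x ∈ T.erase (1, k), 2 ^ x.2) = 2 * 2 ^ k + 2 * ∑ x ∈ T.erase (1, k), 2 ^ x.2 := by ring
      _ ≤ 2 * 2 ^ k + 2 ^ k * ∑ x ∈ T.erase (1, k), x.1 := Nat.add_le_add_left h4 _
      _ = 2 ^ k * (1 + ∑ x ∈ T.erase (1, k), x.1 + 1) := by ring
  · have h4 := J8982_le k T h1 hm
    calc 2 * ∑ p ∈ T, 2 ^ p.2 ≤ 2 ^ k * ∑ p ∈ T, p.1 := h4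
      _ ≤ 2 ^ k * (∑ p ∈ T, p.1 + 1) := Nat.mul_le_mul_left _ (Nat.le_succ _)

end Pool.Agent.H978D
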