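import Pool.Agent.H978D.Defs
import Pool.Agent.H978D.D1
import Pool.Agent.H978D.D2
import Pool.Agent.H978D.D3

set_option autoImplicit false

namespace Pool.Agent.H978D

open Pool.Agent.MPe9218d













/-- a member of `TS k (pc Y) Y` is the image of a finite set of exponents -/
theorem TS_uniq_image {k L Y : ℕ} (h : pc Y = L) {T : Finset (ℕ × ℕ)} (hT : T ∈ TS k L Y) :
    ∃ I : Finset ℕ, T = I.map ⟨fun i => (1, i), fun _ _ e => (Prod.mk.inj e).2⟩ ∧
      ∑ i ∈ I, 2 ^ i = Y := by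
  obtain ⟨h1, h2, -⟩ := TS_card hT
  obtain ⟨hq, hL, hY⟩ := hT
  have hcard : T.card = L := by omega
  have hone : ∀ p ∈ T, p.1 = 1 := by
    by_contra hcon
    push Not at hcon
    obtain ⟨p, hp, hp1⟩ := hcon
    have h3 : ∑ p ∈ T, 1 < ∑ p ∈ T, p.1 :=
      Finset.sum_lt_sum (fun r hr => (hq r hr).1)
        ⟨p, hp, lt_of_le_of_ne (hq p hp).1 (Ne.symm hp1)⟩
    rw [hL, Finset.sum_const, smul_eq_mul, mul_one, hcard] at h3
    exact lt_irrefl _ h3
  have hTI : T = (T.image Prod.snd).map ⟨fun i => (1, i), fun _ _ e => (Prod.mk.inj e).2⟩ := by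
    ext ⟨q, i⟩
    rw [Finset.mem_map]
    constructor
    · intro hp
      refine ⟨i, Finset.mem_image.2 ⟨(q, i), hp, rfl⟩, ?_⟩
      have : q = 1 := hone _ hp
      rw [this]
      rfl
    · rintro ⟨j, hj, hji⟩
      obtain ⟨⟨r, m⟩, hr, hrm⟩ := Finset.mem_image.1 hj
      have h4 : r = 1 := hone _ hr
      have h5 : m = j := hrm
      have h6 : ((1 : ℕ), j) = (q, i) := hji
      rw [← h6, ← h5, ← h4]
      exact hr
  refine ⟨T.image Prod.snd, hTI, ?_⟩
  conv_rhs => rw [← hY, hTI]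
  rw [Finset.sum_map]
  rfl

/-- TARGET -/
theorem TS_uniq {k L Y : ℕ} (h : pc Y = L) : (TS k L Y).ncard ≤ 1 := by
  by_cases hfin : (TS k L Y).Finite
  · rw [Set.ncard_le_one hfin]
    intro T hT T' hT'
    obtain ⟨I, hI, hIY⟩ := TS_uniq_image h hT
    obtain ⟨I', hI', hIY'⟩ := TS_uniq_image h hT'
    have hII : I = I' :=
      Finset.geomSum_injective (n := 2) le_rfl (hIY.trans hIY'.symm)
    rw [hI, hI', hII]
  · rw [Set.Infinite.ncard hfin]
    exact Nat.zero_le _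

end Pool.Agent.H978D
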