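import Pool.Agent.H978D.Defs
import Pool.Agent.H978D.D1
import Pool.Agent.H978D.D2
import Pool.Agent.H978D.D3
import Pool.Agent.H978D.D4
import Pool.Agent.H978D.D5

set_option autoImplicit false

namespace Pool.Agent.H978D

open Pool.Agent.MPe9218d
















theorem D6_pc_sum (S : Finset ℕ) : pc (∑ i ∈ S, 2 ^ i) = S.card := by
  induction S using Finset.induction_on_max with
  | empty => simp [pc_zero]
  | insert a S ha ih =>
    have hnot : a ∉ S := fun h => lt_irrefl _ (ha a h)
    rw [Finset.sum_insert hnot, Finset.card_insert_of_notMem hnot,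
      pc_top (Nat.geomSum_lt le_rfl ha), ih]
    omega

/-- TARGET -/
theorem TS_two_card (k Y : ℕ) : (TS k 2 Y).ncard ≤ 1 := by
  by_cases hpc : pc Y = 2
  · exact TS_uniq hpc
  · rw [Set.ncard_le_one (TS_finite k 2 Y)]
    have key : ∀ T ∈ TS k 2 Y, ∃ i, T = {(2, i)} ∧ Y = 2 ^ i := by
      intro T hT
      obtain ⟨hc1, -, -, -, -⟩ := TS_card hT
      obtain ⟨h1, h2, h3⟩ := hT
      have hc0 : T.card ≠ 0 := by
        intro h0
        rw [Finset.card_eq_zero] at h0
        subst h0
        simp at h2
      have hc : T.card = 1 ∨ T.card = 2 := by omega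
      rcases hc with hc | hc
      · obtain ⟨⟨q, i⟩, rfl⟩ := Finset.card_eq_one.1 hc
        simp only [Finset.sum_singleton] at h2 h3
        subst h2
        exact ⟨i, rfl, h3.symm⟩
      · exfalso
        obtain ⟨⟨q, i⟩, ⟨r, j⟩, hne, rfl⟩ := Finset.card_eq_two.1 hc
        have a1 := (h1 (q, i) (by simp)).1
        have a2 := (h1 (r, j) (by simp)).1
        rw [Finset.sum_pair hne] at h2 h3
        simp only at a1 a2 h2 h3
        have hq : q = 1 := by omega
        have hr : r = 1 := by omega
        subst hq hr
        have hij : i ≠ j := by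
          rintro rfl
          exact hne rfl
        apply hpc
        have := D6_pc_sum {i, j}
        rw [Finset.sum_pair hij, Finset.card_pair hij, h3] at this
        exact this
    intro A hA B hB
    obtain ⟨i, rfl, hi⟩ := key A hA
    obtain ⟨j, rfl, hj⟩ := key B hB
    have : i = j := Nat.pow_right_injective le_rfl (hi.symm.trans hj)
    rw [this]

/-- TARGET -/
theorem TS_three_card {k Y : ℕ} (h : 2 ≤ pc Y) : (TS k 3 Y).ncard ≤ 2 := by
  by_cases hpc : pc Y = 3
  · exact (TS_uniq hpc).trans (by norm_num)
  by_cases hpc2 : pc Y = 2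
  · obtain ⟨i, j, hij, hY⟩ := pc_two hpc2
    have hsub : TS k 3 Y ⊆ {{(1, i), (2, j)}, {(1, j), (2, i)}} := by
      intro T hT
      obtain ⟨hc1, hc2, -, -, -⟩ := TS_card hT
      obtain ⟨h1, h2, h3⟩ := hT
      have hcc : T.card = 2 ∨ T.card = 3 := by omega
      -- the case of two elements
      have two : ∀ a b : ℕ, 2 ^ a + 2 ^ b = Y →
          ({(1, a), (2, b)} : Finset (ℕ × ℕ)) ∈
            ({{(1, i), (2, j)}, {(1, j), (2, i)}} : Set (Finset (ℕ × ℕ))) := by
        intro a b hab
        have hne : a ≠ b := by
          rintro rfl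
          have : Y = 2 ^ (a + 1) := by rw [← hab]; ring
          rw [this, pc_pow] at hpc2
          omega
        have hs : (∑ t ∈ ({a, b} : Finset ℕ), 2 ^ t) = ∑ t ∈ ({i, j} : Finset ℕ), 2 ^ t := by
          rw [Finset.sum_pair hne, Finset.sum_pair hij.ne, hab, hY]
        have he : ({a, b} : Finset ℕ) = {i, j} := Finset.geomSum_injective le_rfl hs
        have ha : a ∈ ({i, j} : Finset ℕ) := by rw [← he]; simp
        have hb : b ∈ ({i, j} : Finset ℕ) := by rw [← he]; simp
        simp only [Finset.mem_insert, Finset.mem_singleton] at ha hb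
        rcases ha with rfl | rfl <;> rcases hb with rfl | rfl
        · exact absurd rfl hne
        · left; rfl
        · right; rfl
        · exact absurd rfl hne
      rcases hcc with hc | hc
      · obtain ⟨⟨q, a⟩, ⟨r, b⟩, hne, rfl⟩ := Finset.card_eq_two.1 hc
        have a1 := (h1 (q, a) (by simp)).1
        have a2 := (h1 (r, b) (by simp)).1
        rw [Finset.sum_pair hne] at h2 h3
        simp only at a1 a2 h2 h3
        have hq : (q = 1 ∧ r = 2) ∨ (q = 2 ∧ r = 1) := by omega
        rcases hq with ⟨rfl, rfl⟩ | ⟨rfl, rfl⟩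
        · exact two a b h3
        · have h7 := two b a (by omega)
          have h8 : ({(2, a), (1, b)} : Finset (ℕ × ℕ)) = {(1, b), (2, a)} :=
            Finset.pair_comm _ _
          rw [h8]
          exact h7
      · exfalso
        have hone : ∀ p ∈ T, p.1 = 1 := by
          have hs : ∑ p ∈ T, (p.1 - 1) = 0 := by
            have h4 : ∑ p ∈ T, (p.1 - 1) + ∑ _p ∈ T, 1 = ∑ p ∈ T, p.1 := by
              rw [← Finset.sum_add_distrib]
              apply Finset.sum_congr rfl
              intro p hp
              have := (h1 p hp).1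
              omega
            rw [h2] at h4
            simp only [Finset.sum_const, hc, smul_eq_mul] at h4
            omega
          intro p hp
          have := (Finset.sum_eq_zero_iff.1 hs) p hp
          have := (h1 p hp).1
          omega
        have hinj : Set.InjOn Prod.snd (T : Set (ℕ × ℕ)) := by
          intro p hp q hq hpq
          exact Prod.ext ((hone p hp).trans (hone q hq).symm) hpq
        have h5 := D6_pc_sum (T.image Prod.snd)
        rw [Finset.sum_image hinj, Finset.card_image_of_injOn hinj, h3, hc] at h5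
        omega
    refine (Set.ncard_le_ncard hsub (Set.toFinite _)).trans ?_
    exact (Set.ncard_insert_le _ _).trans (by rw [Set.ncard_singleton])
  · have : TS k 3 Y = ∅ := by
      rw [Set.eq_empty_iff_forall_notMem]
      intro T hT
      obtain ⟨hc1, hc2, -, -, -⟩ := TS_card hT
      omega
    rw [this]
    simp

end Pool.Agent.H978D
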