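import Pool.Agent.H978D.Defs
import Pool.Agent.H978D.D1
import Pool.Agent.H978D.D2
import Pool.Agent.H978D.D3
import Pool.Agent.H978D.D4
import Pool.Agent.H978D.D5
import Pool.Agent.H978D.D6

set_option autoImplicit false

namespace Pool.Agent.H978D

open Pool.Agent.MPe9218d


















theorem D7_le {i k : ℕ} (h : i ≤ k) : i = k ∨ 2 * 2 ^ i ≤ 2 ^ k := by
  rcases h.lt_or_eq with h | h
  · right
    calc 2 * 2 ^ i = 2 ^ (i + 1) := by ring
      _ ≤ 2 ^ k := Nat.pow_le_pow_right (by norm_num) h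
  · exact Or.inl h

theorem D7_ne {a b : ℕ} (h : a ≠ b) : 2 * 2 ^ a ≤ 2 ^ b ∨ 2 * 2 ^ b ≤ 2 ^ a := by
  rcases lt_or_gt_of_ne h with h | h
  · rcases D7_le h.le with h' | h'
    · exact absurd h' h.ne
    · exact Or.inl h'
  · rcases D7_le h.le with h' | h'
    · exact absurd h' h.ne
    · exact Or.inr h'

theorem D7_pk {i k : ℕ} (h : i ≤ k) : 2 ^ i ≤ 2 ^ k := Nat.pow_le_pow_right (by norm_num) h

/-- TARGET -/
theorem TS_three_top {k Y : ℕ} {T : Finset (ℕ × ℕ)} (h : T ∈ TS k 3 Y)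
    (hY : 2 * 2 ^ k ≤ Y) : T = {(1, k), (2, k)} ∧ Y = 2 * 2 ^ k := by
  have hc := (TS_card h).1
  obtain ⟨h1, h2, h3⟩ := h
  have hk : 0 < 2 ^ k := by positivity
  obtain h0 | h0 | h0 | h0 : T.card = 0 ∨ T.card = 1 ∨ T.card = 2 ∨ T.card = 3 := by omega
  · rw [Finset.card_eq_zero] at h0
    subst h0
    simp at h2
  · obtain ⟨x, rfl⟩ := Finset.card_eq_one.1 h0
    simp only [Finset.sum_singleton] at h2 h3
    have := D7_pk (h1 x (by simp)).2
    omega
  · obtain ⟨⟨q, a⟩, ⟨r, b⟩, hxy, rfl⟩ := Finset.card_eq_two.1 h0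
    rw [Finset.sum_pair hxy] at h2 h3
    have hx := h1 (q, a) (by simp)
    have hy := h1 (r, b) (by simp)
    simp only at h2 h3 hx hy
    have e1 := D7_pk hx.2
    have e2 := D7_pk hy.2
    have ea : a = k := by
      rcases D7_le hx.2 with h | h
      · exact h
      · omega
    have eb : b = k := by
      rcases D7_le hy.2 with h | h
      · exact h
      · omega
    subst ea
    subst eb
    refine ⟨?_, by omega⟩
    obtain ⟨rfl, rfl⟩ | ⟨rfl, rfl⟩ : (q = 1 ∧ r = 2) ∨ (q = 2 ∧ r = 1) := by omega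
    · rfl
    · exact Finset.pair_comm _ _
  · obtain ⟨⟨q, a⟩, ⟨r, b⟩, ⟨t, c⟩, hxy, hxz, hyz, rfl⟩ := Finset.card_eq_three.1 h0
    rw [Finset.sum_insert (by simp [hxy, hxz]), Finset.sum_pair hyz] at h2 h3
    have hx := h1 (q, a) (by simp)
    have hy := h1 (r, b) (by simp)
    have hz := h1 (t, c) (by simp)
    simp only at h2 h3 hx hy hz
    have e1 := D7_pk hx.2
    have e2 := D7_pk hy.2
    have e3 := D7_pk hz.2
    obtain ⟨rfl, rfl, rfl⟩ : q = 1 ∧ r = 1 ∧ t = 1 := by omega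
    have n1 := D7_ne (a := a) (b := b) (fun h => hxy (by rw [h]))
    have n2 := D7_ne (a := a) (b := c) (fun h => hxz (by rw [h]))
    have n3 := D7_ne (a := b) (b := c) (fun h => hyz (by rw [h]))
    have p1 : 0 < 2 ^ a := by positivity
    have p2 : 0 < 2 ^ b := by positivity
    have p3 : 0 < 2 ^ c := by positivity
    omega

theorem D7_four {k Y : ℕ} {T : Finset (ℕ × ℕ)} (h : T ∈ TS k 4 Y) (hc : T.card = 4) :
    Y < 2 * 2 ^ k := by
  obtain ⟨h1, h2, h3⟩ := h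
  have hq : ∀ p ∈ T, p.1 = 1 := by
    intro p hp
    by_contra hne
    have hp1 : 1 < p.1 := by have := (h1 p hp).1; omega
    have : ∑ p ∈ T, 1 < ∑ p ∈ T, p.1 :=
      Finset.sum_lt_sum (fun p hp => (h1 p hp).1) ⟨p, hp, hp1⟩
    rw [h2, Finset.sum_const, hc] at this
    simp at this
  have hinj : Set.InjOn Prod.snd (T : Set (ℕ × ℕ)) := by
    intro x hx y hy hxy
    exact Prod.ext ((hq x hx).trans (hq y hy).symm) hxy
  rw [← h3, ← Finset.sum_image (g := Prod.snd) (f := fun i => 2 ^ i) hinj]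
  have := Nat.geomSum_lt (m := 2) (n := k + 1) (s := T.image Prod.snd) le_rfl (by
    intro i hi
    obtain ⟨p, hp, rfl⟩ := Finset.mem_image.1 hi
    have := (h1 p hp).2
    omega)
  calc ∑ i ∈ T.image Prod.snd, 2 ^ i < 2 ^ (k + 1) := this
    _ = 2 * 2 ^ k := by ring

/-- the general step: `u, v` have `q = 1`, the third has `q = 2` -/
theorem D7_key {k Y u v z : ℕ} (hY : 2 * 2 ^ k < Y) (hu : u ≤ k) (hv : v ≤ k) (hz : z ≤ k)
    (huv : u ≠ v) (hs : 2 ^ u + 2 ^ v + 2 ^ z = Y) :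
    z = k ∧ ((u = k ∧ v < k) ∨ (v = k ∧ u < k)) := by
  have d1 := D7_le hu
  have d2 := D7_le hv
  have d3 := D7_le hz
  have d4 := D7_ne huv
  have d5 := D7_pk hu
  have d6 := D7_pk hv
  have d7 := D7_pk hz
  have d8 : 0 < 2 ^ u := by positivity
  have d9 : 0 < 2 ^ v := by positivity
  have hz' : z = k := by
    rcases d3 with d3 | d3
    · exact d3
    · omega
  refine ⟨hz', ?_⟩
  subst hz'
  rcases d1 with d1 | d1
  · left
    exact ⟨d1, by omega⟩
  · rcases d2 with d2 | d2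
    · right
      exact ⟨d2, by omega⟩
    · omega

/-- TARGET -/
theorem TS_four_top {k Y : ℕ} {T : Finset (ℕ × ℕ)} (h : T ∈ TS k 4 Y)
    (hY : 2 * 2 ^ k < Y) : ∃ i, i < k ∧ T = {(1, k), (2, k), (1, i)} ∧ Y = 2 * 2 ^ k + 2 ^ i := by
  have hc := (TS_card h).1
  have hk : 0 < 2 ^ k := by positivity
  obtain h0 | h0 | h0 | h0 | h0 : T.card = 0 ∨ T.card = 1 ∨ T.card = 2 ∨ T.card = 3 ∨ T.card = 4 := by
    omega
  · obtain ⟨h1, h2, h3⟩ := h
    rw [Finset.card_eq_zero] at h0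
    subst h0
    simp at h2
  · obtain ⟨h1, h2, h3⟩ := h
    obtain ⟨x, rfl⟩ := Finset.card_eq_one.1 h0
    simp only [Finset.sum_singleton] at h2 h3
    have := D7_pk (h1 x (by simp)).2
    omega
  · obtain ⟨h1, h2, h3⟩ := h
    obtain ⟨⟨q, a⟩, ⟨r, b⟩, hxy, rfl⟩ := Finset.card_eq_two.1 h0
    rw [Finset.sum_pair hxy] at h2 h3
    have hx := h1 (q, a) (by simp)
    have hy := h1 (r, b) (by simp)
    simp only at h2 h3 hx hy
    have e1 := D7_pk hx.2
    have e2 := D7_pk hy.2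
    omega
  · obtain ⟨h1, h2, h3⟩ := h
    obtain ⟨⟨q, a⟩, ⟨r, b⟩, ⟨t, c⟩, hxy, hxz, hyz, rfl⟩ := Finset.card_eq_three.1 h0
    rw [Finset.sum_insert (by simp [hxy, hxz]), Finset.sum_pair hyz] at h2 h3
    have hx := h1 (q, a) (by simp)
    have hy := h1 (r, b) (by simp)
    have hz := h1 (t, c) (by simp)
    simp only at h2 h3 hx hy hz
    have e1 := D7_pk hx.2
    have e2 := D7_pk hy.2
    have e3 := D7_pk hz.2
    have p1 : 0 < 2 ^ a := by positivity
    have p2 : 0 < 2 ^ b := by positivity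
    have p3 : 0 < 2 ^ c := by positivity
    obtain ⟨rfl, rfl, rfl⟩ | ⟨rfl, rfl, rfl⟩ | ⟨rfl, rfl, rfl⟩ :
        (q = 1 ∧ r = 1 ∧ t = 2) ∨ (q = 1 ∧ r = 2 ∧ t = 1) ∨ (q = 2 ∧ r = 1 ∧ t = 1) := by omega
    · obtain ⟨rfl, ⟨rfl, hb⟩ | ⟨rfl, ha⟩⟩ := D7_key hY hx.2 hy.2 hz.2 (fun h => hxy (by rw [h])) (by omega)
      · refine ⟨b, hb, ?_, by omega⟩
        ext p
        simp only [Finset.mem_insert, Finset.mem_singleton]
        tauto
      · refine ⟨a, ha, ?_, by omega⟩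
        ext p
        simp only [Finset.mem_insert, Finset.mem_singleton]
        tauto
    · obtain ⟨rfl, ⟨rfl, hb⟩ | ⟨rfl, ha⟩⟩ := D7_key hY hx.2 hz.2 hy.2 (fun h => hxz (by rw [h])) (by omega)
      · refine ⟨c, hb, ?_, by omega⟩
        ext p
        simp only [Finset.mem_insert, Finset.mem_singleton]
        try tauto
      · refine ⟨a, ha, ?_, by omega⟩
        ext p
        simp only [Finset.mem_insert, Finset.mem_singleton]
        tauto
    · obtain ⟨rfl, ⟨rfl, hb⟩ | ⟨rfl, ha⟩⟩ := D7_key hY hy.2 hz.2 hx.2 (fun h => hyz (by rw [h])) (by omega)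
      · refine ⟨c, hb, ?_, by omega⟩
        ext p
        simp only [Finset.mem_insert, Finset.mem_singleton]
        tauto
      · refine ⟨b, ha, ?_, by omega⟩
        ext p
        simp only [Finset.mem_insert, Finset.mem_singleton]
        tauto
  · have := D7_four h h0
    omega

end Pool.Agent.H978D
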