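import Pool.Agent.H978D.Defs
import Pool.Agent.H978D.D1
import Pool.Agent.H978D.D2
import Pool.Agent.H978D.D3

set_option autoImplicit false

namespace Pool.Agent.H978D

open Pool.Agent.MPe9218d













/-- the part of a pair -/
def d8V (M : ℕ) (p : ℕ × ℕ) : ℕ := p.1 * M - 2 ^ p.2

/-- the sets of pairs that stand for partitions of n -/
def d8X (k M n : ℕ) : Set (Finset (ℕ × ℕ)) := {T | ∃ L Y, T ∈ TS k L Y ∧ n + Y = L * M}

/-- the list of parts -/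
noncomputable def d8F (M : ℕ) (T : Finset (ℕ × ℕ)) : List ℕ := (T.image (d8V M)).sort (· ≥ ·)

theorem d8_lt {k M : ℕ} (hM : 2 ^ k < M) {p : ℕ × ℕ} (h1 : 1 ≤ p.1) (h2 : p.2 ≤ k) :
    2 ^ p.2 < M ∧ M ≤ p.1 * M := by
  refine ⟨lt_of_le_of_lt (Nat.pow_le_pow_right (by norm_num) h2) hM, ?_⟩
  exact Nat.le_mul_of_pos_left M h1

theorem d8_add {k M : ℕ} (hM : 2 ^ k < M) {p : ℕ × ℕ} (h1 : 1 ≤ p.1) (h2 : p.2 ≤ k) :
    d8V M p + 2 ^ p.2 = p.1 * M := by
  have := d8_lt hM h1 h2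
  unfold d8V
  omega

theorem d8_inj {k M : ℕ} (hM : 2 ^ k < M) {p p' : ℕ × ℕ} (h1 : 1 ≤ p.1) (h2 : p.2 ≤ k)
    (h1' : 1 ≤ p'.1) (h2' : p'.2 ≤ k) (h : d8V M p = d8V M p') : p = p' := by
  have a1 := d8_add hM h1 h2
  have a2 := d8_add hM h1' h2'
  have b1 := d8_lt hM h1 h2
  have b2 := d8_lt hM h1' h2'
  have c1 : 1 ≤ 2 ^ p.2 := Nat.one_le_two_pow
  have c2 : 1 ≤ 2 ^ p'.2 := Nat.one_le_two_pow
  have hq : p.1 = p'.1 := by
    rcases lt_trichotomy p.1 p'.1 with h3 | h3 | h3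
    · exfalso
      have h4 : (p.1 + 1) * M ≤ p'.1 * M := Nat.mul_le_mul_right M h3
      rw [Nat.add_mul, one_mul] at h4
      omega
    · exact h3
    · exfalso
      have h4 : (p'.1 + 1) * M ≤ p.1 * M := Nat.mul_le_mul_right M h3
      rw [Nat.add_mul, one_mul] at h4
      omega
  have h5 : 2 ^ p.2 = 2 ^ p'.2 := by
    rw [hq] at a1
    omega
  have h6 : p.2 = p'.2 := Nat.pow_right_injective le_rfl h5
  exact Prod.ext hq h6

theorem d8_sum {k M n L Y : ℕ} (hM : 2 ^ k < M) {T : Finset (ℕ × ℕ)} (hT : T ∈ TS k L Y)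
    (hn : n + Y = L * M) : ∑ p ∈ T, d8V M p = n := by
  obtain ⟨h1, h2, h3⟩ := hT
  have h4 : ∑ p ∈ T, d8V M p + Y = L * M := by
    rw [← h3, ← Finset.sum_add_distrib, ← h2, Finset.sum_mul]
    exact Finset.sum_congr rfl fun p hp => d8_add hM (h1 p hp).1 (h1 p hp).2
  omega

theorem d8_mem {k M n : ℕ} (hM : 2 ^ k < M) {T : Finset (ℕ × ℕ)} (hT : T ∈ d8X k M n) :
    d8F M T ∈ ASet (a M) (k + 1) M n := by
  obtain ⟨L, Y, hT, hn⟩ := hT
  have hs := d8_sum hM hT hn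
  have h1 := hT.1
  have hmem : ∀ e, e ∈ d8F M T ↔ ∃ p ∈ T, d8V M p = e := by
    intro e
    unfold d8F
    rw [Finset.mem_sort, Finset.mem_image]
  have hinj : Set.InjOn (d8V M) (T : Set (ℕ × ℕ)) := by
    intro p hp p' hp' h
    exact d8_inj hM (h1 p hp).1 (h1 p hp).2 (h1 p' hp').1 (h1 p' hp').2 h
  refine ⟨⟨?_, ?_, ?_⟩, ?_, ?_⟩
  · exact Finset.pairwise_sort _ _
  · intro e he
    obtain ⟨p, hp, rfl⟩ := (hmem e).mp he
    have := d8_lt hM (h1 p hp).1 (h1 p hp).2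
    unfold d8V
    omega
  · have h2 : (d8F M T).sum = ∑ e ∈ T.image (d8V M), e := by
      have h3 : ((d8F M T : List ℕ) : Multiset ℕ) = (T.image (d8V M)).1 :=
        Finset.sort_eq _ _
      have h4 : ((d8F M T : List ℕ) : Multiset ℕ).sum = (d8F M T).sum := Multiset.sum_coe _
      rw [← h4, h3, Finset.sum_eq_multiset_sum, Multiset.map_id']
    rw [h2, Finset.sum_image hinj, hs]
  · exact Finset.sort_nodup _ _
  · intro e he
    obtain ⟨p, hp, rfl⟩ := (hmem e).mp he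
    refine ⟨p.2 + 1, by omega, by have := (h1 p hp).2; omega, ?_⟩
    have h5 := d8_add hM (h1 p hp).1 (h1 p hp).2
    have h6 := d8_lt hM (h1 p hp).1 (h1 p hp).2
    have h7 : d8V M p + 2 ^ p.2 ≡ 0 [MOD M] := by
      rw [h5]
      exact (Nat.modEq_zero_iff_dvd).mpr (Dvd.intro_left _ rfl)
    have h8 : a M (p.2 + 1) + 2 ^ p.2 = M := by
      unfold a
      rw [Nat.add_sub_cancel]
      omega
    have h9 : d8V M p + 2 ^ p.2 ≡ a M (p.2 + 1) + 2 ^ p.2 [MOD M] := by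
      rw [h8]
      exact h7.trans (by simp [Nat.ModEq])
    exact Nat.ModEq.add_right_cancel' _ h9

theorem d8_injOn {k M n : ℕ} (hM : 2 ^ k < M) : Set.InjOn (d8F M) (d8X k M n) := by
  intro T hT T' hT' h
  obtain ⟨L, Y, hT, hn⟩ := hT
  obtain ⟨L', Y', hT', hn'⟩ := hT'
  have h1 := hT.1
  have h1' := hT'.1
  have h2 : T.image (d8V M) = T'.image (d8V M) := by
    have h3 := congrArg List.toFinset h
    unfold d8F at h3
    rwa [Finset.sort_toFinset, Finset.sort_toFinset] at h3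
  ext p
  constructor
  · intro hp
    have h4 : d8V M p ∈ T'.image (d8V M) := by
      rw [← h2]
      exact Finset.mem_image_of_mem _ hp
    obtain ⟨p', hp', h5⟩ := Finset.mem_image.mp h4
    have h6 := d8_inj hM (h1' p' hp').1 (h1' p' hp').2 (h1 p hp).1 (h1 p hp).2 h5
    rwa [← h6]
  · intro hp
    have h4 : d8V M p ∈ T.image (d8V M) := by
      rw [h2]
      exact Finset.mem_image_of_mem _ hp
    obtain ⟨p', hp', h5⟩ := Finset.mem_image.mp h4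
    have h6 := d8_inj hM (h1 p' hp').1 (h1 p' hp').2 (h1' p hp).1 (h1' p hp).2 h5
    rwa [← h6]

theorem d8_surj {k M n : ℕ} (hM : 2 ^ k < M) {l : List ℕ} (hl : l ∈ ASet (a M) (k + 1) M n) :
    ∃ T ∈ d8X k M n, d8F M T = l := by
  classical
  obtain ⟨⟨h1, h2, h3⟩, h4, h5⟩ := hl
  have hex : ∀ e : ℕ, ∃ p : ℕ × ℕ, e ∈ l → (1 ≤ p.1 ∧ p.2 ≤ k) ∧ d8V M p = e := by
    intro e
    by_cases he : e ∈ l
    · obtain ⟨i, hi1, hi2, hmod⟩ := h5 e he
      have hlt : 2 ^ (i - 1) < M :=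
        lt_of_le_of_lt (Nat.pow_le_pow_right (by norm_num) (by omega)) hM
      have h6 : e + 2 ^ (i - 1) ≡ 0 [MOD M] := by
        have h7 : e + 2 ^ (i - 1) ≡ a M i + 2 ^ (i - 1) [MOD M] := Nat.ModEq.add_right _ hmod
        have h8 : a M i + 2 ^ (i - 1) = M := Nat.sub_add_cancel hlt.le
        rw [h8] at h7
        exact h7.trans (by simp [Nat.ModEq])
      obtain ⟨q, hq⟩ := (Nat.modEq_zero_iff_dvd).mp h6
      have he1 := h2 e he
      have hq1 : 1 ≤ q := by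
        rcases Nat.eq_zero_or_pos q with h0 | h0
        · rw [h0, Nat.mul_zero] at hq
          exact absurd (Nat.add_eq_zero_iff.mp hq).1 (by omega)
        · exact h0
      refine ⟨(q, i - 1), fun _ => ⟨⟨hq1, by omega⟩, ?_⟩⟩
      show q * M - 2 ^ (i - 1) = e
      rw [Nat.mul_comm q M, ← hq, Nat.add_sub_cancel]
    · exact ⟨(0, 0), fun h => absurd h he⟩
  choose g hg using hex
  have himg : (l.toFinset.image g).image (d8V M) = l.toFinset := by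
    ext e
    simp only [Finset.mem_image, List.mem_toFinset]
    constructor
    · rintro ⟨p, ⟨e', he', rfl⟩, rfl⟩
      rw [(hg e' he').2]
      exact he'
    · intro he
      exact ⟨g e, ⟨e, he, rfl⟩, (hg e he).2⟩
  have hT : ∀ p ∈ l.toFinset.image g, 1 ≤ p.1 ∧ p.2 ≤ k := by
    intro p hp
    obtain ⟨e, he, rfl⟩ := Finset.mem_image.mp hp
    exact (hg e (List.mem_toFinset.mp he)).1
  have hF : d8F M (l.toFinset.image g) = l := by
    unfold d8F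
    rw [himg]
    exact (List.toFinset_sort (· ≥ ·) h4).mpr h1
  refine ⟨l.toFinset.image g, ⟨∑ p ∈ l.toFinset.image g, p.1, ∑ p ∈ l.toFinset.image g, 2 ^ p.2,
    ⟨hT, rfl, rfl⟩, ?_⟩, hF⟩
  have hinj : Set.InjOn (d8V M) ((l.toFinset.image g : Finset (ℕ × ℕ)) : Set (ℕ × ℕ)) := by
    intro p hp p' hp' h
    exact d8_inj hM (hT p hp).1 (hT p hp).2 (hT p' hp').1 (hT p' hp').2 h
  have h6 : ∑ p ∈ l.toFinset.image g, d8V M p = n := by
    rw [← Finset.sum_image (f := fun e : ℕ => e) hinj, himg, ← h3]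
    exact List.sum_toFinset (fun e : ℕ => e) h4 |>.trans (by simp)
  have h7 : ∑ p ∈ l.toFinset.image g, d8V M p + ∑ p ∈ l.toFinset.image g, 2 ^ p.2 =
      (∑ p ∈ l.toFinset.image g, p.1) * M := by
    rw [← Finset.sum_add_distrib, Finset.sum_mul]
    exact Finset.sum_congr rfl fun p hp => d8_add hM (hT p hp).1 (hT p hp).2
  rw [h6] at h7
  exact h7

theorem d8_fin {k M n : ℕ} (hM : 2 ^ k < M) : (d8X k M n).Finite :=
  Set.Finite.of_injOn (fun _ hT => d8_mem hM hT) (d8_injOn hM) (finite_ASet (a M) (k + 1) M n)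

theorem d8_card {k M n : ℕ} (hM : 2 ^ k < M) : A (a M) (k + 1) M n = (d8X k M n).ncard := by
  have h1 : ASet (a M) (k + 1) M n = d8F M '' d8X k M n := by
    ext l
    constructor
    · intro hl
      obtain ⟨T, hT, h⟩ := d8_surj hM hl
      exact ⟨T, hT, h⟩
    · rintro ⟨T, hT, rfl⟩
      exact d8_mem hM hT
  unfold A
  rw [h1, (d8_injOn hM).ncard_image]

/-- TARGET -/
theorem A_cover {k M n : ℕ} (hM : 2 ^ k < M) (S : Finset (ℕ × ℕ))
    (h : ∀ L Y, n + Y = L * M → (TS k L Y).Nonempty → (L, Y) ∈ S) :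
    A (a M) (k + 1) M n ≤ ∑ p ∈ S, (TS k p.1 p.2).ncard := by
  rw [d8_card hM]
  have h1 : d8X k M n ⊆ ⋃ p ∈ S, TS k p.1 p.2 := by
    rintro T ⟨L, Y, hT, hn⟩
    rw [Set.mem_iUnion₂]
    exact ⟨(L, Y), h L Y hn ⟨T, hT⟩, hT⟩
  have h2 : (⋃ p ∈ S, TS k p.1 p.2).Finite :=
    Set.Finite.biUnion S.finite_toSet fun p _ => TS_finite k p.1 p.2
  exact (Set.ncard_le_ncard h1 h2).trans (Finset.set_ncard_biUnion_le S _)

/-- TARGET -/
theorem A_lower {k M n : ℕ} (hM : 2 ^ k < M) (F : Finset (Finset (ℕ × ℕ)))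
    (h : ∀ T ∈ F, ∃ L Y, T ∈ TS k L Y ∧ n + Y = L * M) :
    F.card ≤ A (a M) (k + 1) M n := by
  rw [d8_card hM, ← Set.ncard_coe_finset F]
  exact Set.ncard_le_ncard (fun T hT => h T hT) (d8_fin hM)

/-- TARGET -/
theorem nc_iff {k M n : ℕ} (hM : 2 ^ k < M) (hn : 1 ≤ n) :
    Nc k M n ↔ ∃ L Y, (TS k L Y).Nonempty ∧ n + Y = L * M := by
  have h1 : A (a M) (k + 1) M n = 0 ↔ d8X k M n = ∅ := by
    rw [d8_card hM]
    exact Set.ncard_eq_zero (d8_fin hM)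
  constructor
  · rintro ⟨_, hC⟩
    have h2 : (d8X k M n).Nonempty := by
      rw [Set.nonempty_iff_ne_empty]
      intro h3
      exact hC ⟨hn, h1.mpr h3⟩
    obtain ⟨T, L, Y, hT, h4⟩ := h2
    exact ⟨L, Y, ⟨T, hT⟩, h4⟩
  · rintro ⟨L, Y, ⟨T, hT⟩, h4⟩
    refine ⟨hn, ?_⟩
    rintro ⟨_, h5⟩
    have h6 := h1.mp h5
    have h7 : T ∈ d8X k M n := ⟨L, Y, hT, h4⟩
    rw [h6] at h7
    exact h7

/-- TARGET -/
theorem nc_min {k M n : ℕ} (hM : 2 ^ k < M) (hn : Nc k M n) : M ≤ n + 2 ^ k := by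
  have hn1 : 1 ≤ n := hn.1
  obtain ⟨L, Y, ⟨T, hT⟩, h4⟩ := (nc_iff hM hn1).mp hn
  have hs := d8_sum hM hT h4
  have h1 := hT.1
  rcases T.eq_empty_or_nonempty with h0 | ⟨p, hp⟩
  · rw [h0, Finset.sum_empty] at hs
    omega
  · have h5 : d8V M p ≤ ∑ p ∈ T, d8V M p :=
      Finset.single_le_sum (f := d8V M) (fun _ _ => Nat.zero_le _) hp
    have h6 := d8_add hM (h1 p hp).1 (h1 p hp).2
    have h7 := d8_lt hM (h1 p hp).1 (h1 p hp).2
    have h8 : 2 ^ p.2 ≤ 2 ^ k := Nat.pow_le_pow_right (by norm_num) (h1 p hp).2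
    omega

end Pool.Agent.H978D
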