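import Pool.Agent.H978D.Defs

set_option autoImplicit false

namespace Pool.Agent.H978D

open Pool.Agent.MPe9218d

/-- TARGET -/
theorem kill {k M : ℕ} {b : ℕ → ℕ} (hId : Identity M (k + 1) b) {e f g : ℕ}
    (he : Nc k M e) (hf : Nc k M f) (hfe : f ≤ e) (hA : A (a M) (k + 1) M (e + f) ≤ 1)
    (hfg : f ≤ g) : ¬ Step b M e g := by
  intro hstep0
  have hstep : Step b M e f := step_mono hstep0 (Nat.ModEq.refl _) (by omega)
  have hf1 := hf.1
  have hmem := mem_BSet_two (n := e + f) hf.1 hfe he.2 hf.2 hstep rfl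
  have hAB := hId (e + f) (by omega)
  have hfin := finite_BSet b M (C M (k + 1)) (e + f)
  by_cases hc : e + f ∈ C M (k + 1)
  · have h3 := hc.2
    rw [hAB] at h3
    unfold B0 at h3
    rw [Set.ncard_eq_zero hfin] at h3
    rw [h3] at hmem
    exact hmem
  · have hmem1 := mem_BSet_one (b := b) (M := M) (n := e + f) (by omega) hc
    have : 1 < (BSet b M (C M (k + 1)) (e + f)).ncard := by
      rw [Set.one_lt_ncard hfin]
      exact ⟨_, hmem1, _, hmem, by simp⟩
    unfold B0 at hAB
    omega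

end Pool.Agent.H978D
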