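import Pool.Agent.H978D.Defs
import Pool.Agent.H978D.D1
import Pool.Agent.H978D.D2
import Pool.Agent.H978D.D3
import Pool.Agent.H978D.D4
import Pool.Agent.H978D.D5
import Pool.Agent.H978D.D6
import Pool.Agent.H978D.D7
import Pool.Agent.H978D.D8
import Pool.Agent.H978D.D9

set_option autoImplicit false

namespace Pool.Agent.H978D

open Pool.Agent.MPe9218d

























theorem D10_base {k M e x Q : ℕ} (H : Hyp k M) (he : Nc k M e) (hQ : 1 ≤ Q) (hx1 : 1 ≤ x) (hxM : x ≤ M)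
    (hx : e + x = Q * M) : ∃ t Y, ∃ T, T ∈ TS k (Q + t) Y ∧ Y = x + t * M ∧
      t * (7 * 2 ^ k + 1) + 4 * x ≤ 2 * (2 ^ k * (Q + t + 1)) := by
  obtain ⟨-, h7, -⟩ := H
  have hw : 0 < 2 ^ k := Nat.pow_pos (by norm_num)
  have hM : 2 ^ k < M := by omega
  have he1 : 1 ≤ e := he.1
  obtain ⟨L, Y, ⟨T, hT⟩, hY⟩ := (nc_iff hM he1).1 he
  have hb := TS_bound hT
  obtain ⟨-, -, -, hY1, -⟩ := TS_card hT
  have hL1 : 1 ≤ L := by
    rcases Nat.eq_zero_or_pos L with h | h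
    · rw [h] at hY
      omega
    · exact h
  have hYpos := hY1 hL1
  have hQL : Q ≤ L := by
    by_contra hcon
    have h1 : L + 1 ≤ Q := by omega
    have h2 : (L + 1) * M ≤ Q * M := Nat.mul_le_mul_right M h1
    have h3 : (L + 1) * M = L * M + M := by ring
    omega
  obtain ⟨t, rfl⟩ := Nat.exists_eq_add_of_le hQL
  have h4 : (Q + t) * M = Q * M + t * M := by ring
  refine ⟨t, Y, T, hT, by omega, ?_⟩
  have h5 : Y = x + t * M := by omega
  have h6 : t * (7 * 2 ^ k + 1) ≤ t * (4 * M) := Nat.mul_le_mul_left t (by omega)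
  have h8 : t * (4 * M) = 4 * (t * M) := by ring
  omega

/-- TARGET -/
theorem nc1 {k M e x : ℕ} (H : Hyp k M) (he : Nc k M e) (hx1 : 1 ≤ x) (hx : e + x = M) :
    Pw k x := by
  obtain ⟨t, Y, T, hT, hY, hb⟩ := D10_base H he le_rfl hx1 (by omega) (by omega : e + x = 1 * M)
  have hw : 0 < 2 ^ k := Nat.pow_pos (by norm_num)
  have ht : t = 0 := by
    by_contra hcon
    have h1 : 1 ≤ t := by omega
    have h2 : 2 ^ k ≤ t * 2 ^ k := Nat.le_mul_of_pos_left _ h1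
    have h3 : t * (7 * 2 ^ k + 1) = 7 * (t * 2 ^ k) + t := by ring
    have h4 : 2 * (2 ^ k * (1 + t + 1)) = 4 * 2 ^ k + 2 * (t * 2 ^ k) := by ring
    omega
  subst ht
  have hYx : Y = x := by omega
  rw [hYx] at hT
  exact TS_one hT

/-- TARGET -/
theorem nc2 {k M e x : ℕ} (H : Hyp k M) (he : Nc k M e) (hx1 : 1 ≤ x) (hxM : x ≤ M)
    (hx : e + x = 2 * M) : (pc x ≤ 2 ∧ 2 * x ≤ 3 * 2 ^ k) ∨ x + M = 2 * 2 ^ k := by
  obtain ⟨t, Y, T, hT, hY, hb⟩ := D10_base H he (by norm_num) hx1 hxM hx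
  have hw : 0 < 2 ^ k := Nat.pow_pos (by norm_num)
  have ht : t ≤ 1 := by
    by_contra hcon
    have h1 : 2 ≤ t := by omega
    have h2 : 2 * 2 ^ k ≤ t * 2 ^ k := Nat.mul_le_mul_right _ h1
    have h3 : t * (7 * 2 ^ k + 1) = 7 * (t * 2 ^ k) + t := by ring
    have h4 : 2 * (2 ^ k * (2 + t + 1)) = 6 * 2 ^ k + 2 * (t * 2 ^ k) := by ring
    omega
  have hbd := TS_bound hT
  obtain ⟨hc1, hc2, -, -, -⟩ := TS_card hT
  rcases Nat.le_one_iff_eq_zero_or_eq_one.1 ht with rfl | rfl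
  · left
    have hYx : Y = x := by omega
    rw [hYx] at hc2 hbd
    exact ⟨by omega, by omega⟩
  · right
    by_contra hne
    have h7 := H.2.1
    have hk := H.1
    have hYM : Y = x + M := by omega
    have hYlt : Y < 2 * 2 ^ k := by omega
    obtain ⟨j, rfl⟩ : ∃ j, k = j + 2 := ⟨k - 2, by omega⟩
    have e1 : 2 ^ (j + 2) = 4 * 2 ^ j := by ring
    have e2 : 2 ^ (j + 1) = 2 * 2 ^ j := by ring
    obtain ⟨r, hr⟩ : ∃ r, Y = 2 ^ (j + 2) + (2 ^ (j + 1) + (2 ^ j + r)) :=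
      ⟨Y - 7 * 2 ^ j, by omega⟩
    have p1 := pc_top (i := j + 2) (r := 2 ^ (j + 1) + (2 ^ j + r)) (by omega)
    have p2 := pc_top (i := j + 1) (r := 2 ^ j + r) (by omega)
    have p3 := pc_top (i := j) (r := r) (by omega)
    have p4 := pc_pos (n := r) (by omega)
    rw [hr] at hc2
    omega

/-- TARGET -/
theorem nc3 {k M e x : ℕ} (H : Hyp k M) (he : Nc k M e) (hx1 : 1 ≤ x) (hxM : x ≤ M)
    (hx : e + x = 3 * M) : (pc x ≤ 3 ∧ x < 2 * 2 ^ k) ∨ x = 2 * 2 ^ k ∨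
      2 * (x + M) ≤ 5 * 2 ^ k := by
  obtain ⟨t, Y, T, hT, hY, hb⟩ := D10_base H he (by norm_num) hx1 hxM hx
  have hw : 0 < 2 ^ k := Nat.pow_pos (by norm_num)
  have ht : t ≤ 1 := by
    by_contra hcon
    have h1 : 2 ≤ t := by omega
    have h2 : 2 * 2 ^ k ≤ t * 2 ^ k := Nat.mul_le_mul_right _ h1
    have h3 : t * (7 * 2 ^ k + 1) = 7 * (t * 2 ^ k) + t := by ring
    have h4 : 2 * (2 ^ k * (3 + t + 1)) = 8 * 2 ^ k + 2 * (t * 2 ^ k) := by ring
    omega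
  have hbd := TS_bound hT
  obtain ⟨hc1, hc2, -, -, -⟩ := TS_card hT
  rcases Nat.le_one_iff_eq_zero_or_eq_one.1 ht with rfl | rfl
  · have hYx : Y = x := by omega
    rw [hYx] at hc2 hbd
    rcases lt_or_ge x (2 * 2 ^ k) with h | h
    · exact Or.inl ⟨by omega, h⟩
    · exact Or.inr (Or.inl (by omega))
  · right
    right
    have hYM : Y = x + M := by omega
    rw [hYM] at hbd
    omega

end Pool.Agent.H978D
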