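import Pool.Agent.H978D.Defs
import Pool.Agent.H978D.D1
import Pool.Agent.H978D.D10
import Pool.Agent.H978D.D2
import Pool.Agent.H978D.D3
import Pool.Agent.H978D.D4
import Pool.Agent.H978D.D5
import Pool.Agent.H978D.D6
import Pool.Agent.H978D.D7
import Pool.Agent.H978D.D8
import Pool.Agent.H978D.D9

set_option autoImplicit false

namespace Pool.Agent.H978D

open Pool.Agent.MPe9218d




























theorem nf_w {k M : ℕ} (H : Hyp k M) : 2 ^ k < M ∧ 7 * 2 ^ k < 4 * M ∧ 1 ≤ 2 ^ k := by
  obtain ⟨_, h2, _⟩ := H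
  have : 1 ≤ 2 ^ k := Nat.one_le_two_pow
  refine ⟨by omega, h2, this⟩

/-- TARGET -/
theorem nf1 {k M e x : ℕ} (H : Hyp k M) (he : Nc k M e) (hx1 : 1 ≤ x) (hx : e + x = M) :
    A (a M) (k + 1) M (e + (M - 2 ^ k)) ≤ 1 := by
  obtain ⟨hwM, h7, hw1⟩ := nf_w H
  obtain ⟨i, hik, hxi⟩ := nc1 H he hx1 hx
  have hxw : x = 2 ^ k ∨ 2 * x ≤ 2 ^ k := by
    rcases Nat.lt_or_ge i k with h | h
    · right
      rw [hxi]
      calc 2 * 2 ^ i = 2 ^ (i + 1) := by ring
        _ ≤ 2 ^ k := Nat.pow_le_pow_right (by norm_num) h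
    · left
      rw [hxi, le_antisymm hik h]
  have he1 := he.1
  have hcov := A_cover (k := k) (M := M) (n := e + (M - 2 ^ k)) hwM {(2, x + 2 ^ k)} (by
    intro L Y hLY hne
    obtain ⟨T, hT⟩ := hne
    have hb := TS_bound hT
    rcases Nat.lt_or_ge L 3 with hL | hL
    · interval_cases L
      · omega
      · exfalso
        obtain ⟨j, hj, hYj⟩ := TS_one hT
        rcases hxw with h | h
        · rcases H.2.2 with h2 | h2
          · have : 1 ≤ Y := by rw [hYj]; exact Nat.one_le_two_pow
            omega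
          · have e1 : 2 * 2 ^ k - M = Y := by omega
            rw [e1, hYj, pc_pow] at h2
            omega
        · omega
      · have : Y = x + 2 ^ k := by omega
        rw [this]
        exact Finset.mem_singleton_self _
    · exfalso
      obtain ⟨m, rfl⟩ := Nat.exists_eq_add_of_le hL
      have h1 : Y + 2 * M = x + 2 ^ k + (3 + m) * M := by
        have : e + (M - 2 ^ k) + (x + 2 ^ k) = 2 * M := by omega
        omega
      have h2 : Y = x + 2 ^ k + M + m * M := by
        have : (3 + m) * M = 3 * M + m * M := by ring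
        omega
      have h3 : m * (7 * 2 ^ k) ≤ m * (4 * M) := Nat.mul_le_mul_left m h7.le
      have h4 : 2 ^ k * (3 + m + 1) = 4 * 2 ^ k + m * 2 ^ k := by ring
      have h5 : m * (7 * 2 ^ k) = 7 * (m * 2 ^ k) := by ring
      have h6 : m * (4 * M) = 4 * (m * M) := by ring
      omega)
  rw [Finset.sum_singleton] at hcov
  exact hcov.trans (TS_two_card k _)

/-- TARGET -/
theorem nf2 {k M e x : ℕ} (H : Hyp k M) (he : Nc k M e) (hx1 : 1 ≤ x) (hxM : x ≤ M)
    (hx : e + x = 2 * M) (hnp : ¬ (Pw k x ∧ x < 2 ^ k)) :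
    A (a M) (k + 1) M (e + (M - 2 ^ k)) ≤ 1 := by
  obtain ⟨hwM, h7, hw1⟩ := nf_w H
  have he1 := he.1
  have hn : e + (M - 2 ^ k) + (x + 2 ^ k) = 3 * M := by omega
  -- the two possibilities
  have key : ∀ L Y, e + (M - 2 ^ k) + Y = L * M → (TS k L Y).Nonempty →
      (L = 3 ∧ Y = x + 2 ^ k) ∨ (L = 2 ∧ Y + M = x + 2 ^ k ∧ 1 ≤ Y ∧ pc Y ≤ 2) := by
    intro L Y hLY hne
    obtain ⟨T, hT⟩ := hne
    have hb := TS_bound hT
    rcases Nat.lt_or_ge L 4 with hL | hL
    · interval_cases L
      · omega
      · omega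
      · right
        obtain ⟨h1, h2, _, h4, _⟩ := TS_card hT
        exact ⟨rfl, by omega, h4 (by norm_num), h2.trans h1⟩
      · left
        exact ⟨rfl, by omega⟩
    · exfalso
      obtain ⟨m, rfl⟩ := Nat.exists_eq_add_of_le hL
      have h1 : Y + 3 * M = x + 2 ^ k + (4 + m) * M := by omega
      have h2 : Y = x + 2 ^ k + M + m * M := by
        have : (4 + m) * M = 4 * M + m * M := by ring
        omega
      have h3 : m * (7 * 2 ^ k) ≤ m * (4 * M) := Nat.mul_le_mul_left m h7.le
      have h4 : 2 ^ k * (4 + m + 1) = 5 * 2 ^ k + m * 2 ^ k := by ring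
      have h5 : m * (7 * 2 ^ k) = 7 * (m * 2 ^ k) := by ring
      have h6 : m * (4 * M) = 4 * (m * M) := by ring
      omega
  rcases nc2 H he hx1 hxM hx with ⟨hpc, hx3⟩ | hx2
  · rcases lt_trichotomy x (2 ^ k) with hlt | heq | hgt
    · -- `x < w`
      have hp1 : pc x ≠ 1 := by
        intro h1
        obtain ⟨i, hi⟩ := pc_one h1
        refine hnp ⟨⟨i, ?_, hi⟩, hlt⟩
        rw [hi] at hlt
        exact (Nat.pow_lt_pow_iff_right (by norm_num)).1 hlt |>.le
      have hp2 : pc x = 2 := by
        have := pc_pos (n := x) hx1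
        omega
      have hp3 : pc (x + 2 ^ k) = 3 := by
        rw [add_comm, pc_top hlt, hp2]
      have hcov := A_cover (k := k) (M := M) (n := e + (M - 2 ^ k)) hwM {(3, x + 2 ^ k)} (by
        intro L Y hLY hne
        rcases key L Y hLY hne with ⟨h1, h2⟩ | ⟨_, h2, h3, _⟩
        · rw [h1, h2]; exact Finset.mem_singleton_self _
        · exfalso
          obtain ⟨m, hm⟩ : ∃ m, k = m + 2 := ⟨k - 2, by have := H.1; omega⟩
          have e1 : 2 ^ k = 4 * 2 ^ m := by rw [hm]; ring
          rw [e1] at hlt h7 h2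
          obtain ⟨r, hr⟩ : ∃ r, x = 3 * 2 ^ m + r := ⟨x - 3 * 2 ^ m, by omega⟩
          have hr1 : 1 ≤ r := by omega
          have hr2 : r < 2 ^ m := by omega
          have e2 : x = 2 ^ (m + 1) + (2 ^ m + r) := by rw [hr]; ring
          have h4 : pc x = 1 + (1 + pc r) := by
            rw [e2, pc_top, pc_top hr2]
            rw [pow_succ]; omega
          have h5 := pc_pos (n := r) hr1
          omega)
      rw [Finset.sum_singleton] at hcov
      exact hcov.trans (TS_uniq hp3)
    · -- `x = w`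
      have hcov := A_cover (k := k) (M := M) (n := e + (M - 2 ^ k)) hwM {(3, x + 2 ^ k)} (by
        intro L Y hLY hne
        rcases key L Y hLY hne with ⟨h1, h2⟩ | ⟨_, h2, h3, h4⟩
        · rw [h1, h2]; exact Finset.mem_singleton_self _
        · exfalso
          rcases H.2.2 with h5 | h5
          · omega
          · have e1 : 2 * 2 ^ k - M = Y := by omega
            rw [e1] at h5
            omega)
      rw [Finset.sum_singleton] at hcov
      refine hcov.trans ?_
      show (TS k 3 (x + 2 ^ k)).ncard ≤ 1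
      rw [Set.ncard_le_one (TS_finite k 3 (x + 2 ^ k))]
      intro T hT T' hT'
      rw [(TS_three_top hT (by omega)).1, (TS_three_top hT' (by omega)).1]
    · -- `w < x`
      have hcov := A_cover (k := k) (M := M) (n := e + (M - 2 ^ k)) hwM {(2, x + 2 ^ k - M)} (by
        intro L Y hLY hne
        rcases key L Y hLY hne with ⟨h1, h2⟩ | ⟨h1, h2, h3, _⟩
        · exfalso
          obtain ⟨T, hT⟩ := hne
          rw [h1, h2] at hT
          have := (TS_three_top hT (by omega)).2
          omega
        · have : Y = x + 2 ^ k - M := by omega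
          rw [h1, this]; exact Finset.mem_singleton_self _)
      rw [Finset.sum_singleton] at hcov
      exact hcov.trans (TS_two_card k _)
  · -- `x + M = 2 w`
    have h3 : 3 ≤ pc x := by
      rcases H.2.2 with h5 | h5
      · omega
      · have e1 : 2 * 2 ^ k - M = x := by omega
        rwa [e1] at h5
    have hcov := A_cover (k := k) (M := M) (n := e + (M - 2 ^ k)) hwM ∅ (by
      intro L Y hLY hne
      exfalso
      rcases key L Y hLY hne with ⟨h1, h2⟩ | ⟨_, h2, _, _⟩
      · obtain ⟨T, hT⟩ := hne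
        obtain ⟨h5, h6, _⟩ := TS_card hT
        rw [h2, add_comm, pc_top (by omega)] at h6
        omega
      · omega)
    rw [Finset.sum_empty] at hcov
    omega

end Pool.Agent.H978D
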