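import Pool.Agent.H978D.Defs
import Pool.Agent.H978D.D1
import Pool.Agent.H978D.D10
import Pool.Agent.H978D.D11
import Pool.Agent.H978D.D2
import Pool.Agent.H978D.D3
import Pool.Agent.H978D.D8
import Pool.Agent.H978D.D9

set_option autoImplicit false

namespace Pool.Agent.H978D

open Pool.Agent.MPe9218d























theorem hyp_lt {k M : ℕ} (H : Hyp k M) : 2 ^ k < M := by
  obtain ⟨_, h, _⟩ := H
  omega

theorem nc_G {k M : ℕ} (H : Hyp k M) : Nc k M (M - 2 ^ k) := by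
  have hM := hyp_lt H
  rw [nc_iff hM (by omega)]
  refine ⟨1, 2 ^ k, ⟨{(1, k)}, ?_, ?_, ?_⟩, by omega⟩
  · intro p hp
    rw [Finset.mem_singleton] at hp
    subst hp
    exact ⟨le_refl _, le_refl _⟩
  · simp
  · simp

/-- TARGET -/
theorem follow {k M e f : ℕ} {b : ℕ → ℕ} (H : Hyp k M) (hId : Identity M (k + 1) b)
    (he : Nc k M e) (hf : Nc k M f) (hs : Step b M e f) :
    2 * M ≤ e ∨ ∃ x, Pw k x ∧ x < 2 ^ k ∧ e + x = 2 * M := by
  have hM := hyp_lt H
  have hG := nc_G H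
  have he' := nc_min hM he
  have hf' := nc_min hM hf
  by_contra hcon
  push Not at hcon
  obtain ⟨h1, h2⟩ := hcon
  by_cases h3 : e < M
  · exact kill hId he hG (by omega) (nf1 (x := M - e) H he (by omega) (by omega)) (by omega) hs
  · refine kill hId he hG (by omega)
      (nf2 (x := 2 * M - e) H he (by omega) (by omega) (by omega) ?_) (by omega) hs
    rintro ⟨h4, h5⟩
    exact h2 _ h4 h5 (by omega)

/-- TARGET -/
theorem len_two {k M n : ℕ} {b : ℕ → ℕ} {l : List ℕ} (H : Hyp k M)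
    (hb : ∀ j, 1 ≤ j → j ≤ M → 1 ≤ b j) (hId : Identity M (k + 1) b) (hn1 : 1 ≤ n)
    (hn : n + 2 * 2 ^ k ≤ 5 * M) (hl : l ∈ BSet b M (C M (k + 1)) n) :
    l = [n] ∨ ∃ e f, l = [e, f] ∧ e + f = n ∧ f < e ∧ Nc k M e ∧ Nc k M f ∧ Step b M e f := by
  have hM := hyp_lt H
  obtain ⟨⟨hp, hpos, hsum⟩, hC, hch⟩ := hl
  match l, hp, hpos, hsum, hC, hch with
  | [], _, _, hsum, _, _ => simp at hsum; omega
  | [e], _, _, hsum, _, _ =>
    left
    simp at hsum
    rw [hsum]
  | [e, f], _, hpos, hsum, hC, hch =>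
    right
    have hst : Step b M e f := by simpa using hch
    refine ⟨e, f, rfl, by simpa using hsum, step_lt (by omega) hb hst,
      ⟨hpos e (by simp), hC e (by simp)⟩, ⟨hpos f (by simp), hC f (by simp)⟩, hst⟩
  | e₁ :: e₂ :: e₃ :: l', _, hpos, hsum, hC, hch =>
    exfalso
    rw [List.isChain_cons_cons, List.isChain_cons_cons] at hch
    obtain ⟨hs1, hs2, _⟩ := hch
    have hlt := step_lt (by omega) hb hs1
    have n2 : Nc k M e₂ := ⟨hpos e₂ (by simp), hC e₂ (by simp)⟩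
    have n3 : Nc k M e₃ := ⟨hpos e₃ (by simp), hC e₃ (by simp)⟩
    have h3 := nc_min hM n3
    have hsum' : e₁ + (e₂ + (e₃ + l'.sum)) = n := by simpa using hsum
    rcases follow H hId n2 n3 hs2 with h | ⟨x, ⟨i, hi, hx⟩, hxlt, hxe⟩
    · omega
    · have hik : i < k := by
        rw [hx] at hxlt
        exact (Nat.pow_lt_pow_iff_right (by norm_num)).1 hxlt
      have h2x : 2 * x ≤ 2 ^ k := by
        rw [hx]
        calc 2 * 2 ^ i = 2 ^ (i + 1) := by ring
          _ ≤ 2 ^ k := Nat.pow_le_pow_right (by norm_num) hik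
      omega

end Pool.Agent.H978D
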