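import Pool.Agent.H978D.Defs
import Pool.Agent.H978D.D3
import Pool.Agent.H978D.D8

set_option autoImplicit false

namespace Pool.Agent.H978D

open Pool.Agent.MPe9218d



theorem ne_of_mem_h {S T : Finset (ℕ × ℕ)} (x : ℕ × ℕ) (hx : x ∈ S) (hy : x ∉ T) : S ≠ T := by
  rintro rfl; exact hy hx

theorem pow_m3 (m : ℕ) : 2 ^ (m + 3) = 8 * 2 ^ m := by ring
theorem pow_m2 (m : ℕ) : 2 ^ (m + 2) = 4 * 2 ^ m := by ring
theorem pow_m1 (m : ℕ) : 2 ^ (m + 1) = 2 * 2 ^ m := by ring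

/-- two pairs -/
theorem TS_two {k L Y q₁ i₁ q₂ i₂ : ℕ} (h1 : 1 ≤ q₁) (h2 : 1 ≤ q₂) (k1 : i₁ ≤ k) (k2 : i₂ ≤ k)
    (hne : (q₁, i₁) ≠ (q₂, i₂)) (hL : q₁ + q₂ = L) (hY : 2 ^ i₁ + 2 ^ i₂ = Y) :
    ({(q₁, i₁), (q₂, i₂)} : Finset (ℕ × ℕ)) ∈ TS k L Y := by
  refine ⟨?_, ?_, ?_⟩
  · intro p hp
    simp only [Finset.mem_insert, Finset.mem_singleton] at hp
    rcases hp with rfl | rfl
    · exact ⟨h1, k1⟩
    · exact ⟨h2, k2⟩
  · rw [Finset.sum_pair hne]; exact hL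
  · rw [Finset.sum_pair hne]; exact hY

/-- three pairs -/
theorem TS_three {k L Y q₁ i₁ q₂ i₂ q₃ i₃ : ℕ} (h1 : 1 ≤ q₁) (h2 : 1 ≤ q₂) (h3 : 1 ≤ q₃)
    (k1 : i₁ ≤ k) (k2 : i₂ ≤ k) (k3 : i₃ ≤ k)
    (n12 : (q₁, i₁) ≠ (q₂, i₂)) (n13 : (q₁, i₁) ≠ (q₃, i₃)) (n23 : (q₂, i₂) ≠ (q₃, i₃))
    (hL : q₁ + q₂ + q₃ = L) (hY : 2 ^ i₁ + 2 ^ i₂ + 2 ^ i₃ = Y) :
    ({(q₁, i₁), (q₂, i₂), (q₃, i₃)} : Finset (ℕ × ℕ)) ∈ TS k L Y := by
  have hn : (q₁, i₁) ∉ ({(q₂, i₂), (q₃, i₃)} : Finset (ℕ × ℕ)) := by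
    simp only [Finset.mem_insert, Finset.mem_singleton, not_or]
    exact ⟨n12, n13⟩
  refine ⟨?_, ?_, ?_⟩
  · intro p hp
    simp only [Finset.mem_insert, Finset.mem_singleton] at hp
    rcases hp with rfl | rfl | rfl
    · exact ⟨h1, k1⟩
    · exact ⟨h2, k2⟩
    · exact ⟨h3, k3⟩
  · rw [Finset.sum_insert hn, Finset.sum_pair n23, ← hL]; simp only; omega
  · rw [Finset.sum_insert hn, Finset.sum_pair n23, ← hY]; simp only; omega

/-- TARGET -/
theorem n3_lower {m M : ℕ} (hM : 14 * 2 ^ m < M) :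
    3 ≤ A (a M) (m + 3 + 1) M (4 * M - 14 * 2 ^ m) := by
  have e3 := pow_m3 m
  have e2 := pow_m2 m
  have e1 := pow_m1 m
  have hT1 : ({(2, m + 3), (1, m + 2), (1, m + 1)} : Finset (ℕ × ℕ)) ∈ TS (m + 3) 4 (14 * 2 ^ m) :=
    TS_three (by norm_num) (by norm_num) (by norm_num) (by omega) (by omega) (by omega)
      (by simp) (by simp) (by simp) rfl (by omega)
  have hT2 : ({(1, m + 3), (2, m + 2), (1, m + 1)} : Finset (ℕ × ℕ)) ∈ TS (m + 3) 4 (14 * 2 ^ m) :=
    TS_three (by norm_num) (by norm_num) (by norm_num) (by omega) (by omega) (by omega)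
      (by simp) (by simp) (by simp) rfl (by omega)
  have hT3 : ({(1, m + 3), (1, m + 2), (2, m + 1)} : Finset (ℕ × ℕ)) ∈ TS (m + 3) 4 (14 * 2 ^ m) :=
    TS_three (by norm_num) (by norm_num) (by norm_num) (by omega) (by omega) (by omega)
      (by simp) (by simp) (by simp) rfl (by omega)
  have hcard : ({{(2, m + 3), (1, m + 2), (1, m + 1)}, {(1, m + 3), (2, m + 2), (1, m + 1)},
      {(1, m + 3), (1, m + 2), (2, m + 1)}} : Finset (Finset (ℕ × ℕ))).card = 3 := by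
    rw [Finset.card_insert_of_notMem, Finset.card_insert_of_notMem, Finset.card_singleton]
    · rw [Finset.mem_singleton]
      exact ne_of_mem_h (2, m + 2) (by simp) (by simp)
    · rw [Finset.mem_insert, Finset.mem_singleton, not_or]
      exact ⟨ne_of_mem_h (2, m + 3) (by simp) (by simp), ne_of_mem_h (2, m + 3) (by simp) (by simp)⟩
  refine le_trans (le_of_eq hcard.symm) (A_lower (by omega) _ ?_)
  intro T hT
  refine ⟨4, 14 * 2 ^ m, ?_, by omega⟩
  simp only [Finset.mem_insert, Finset.mem_singleton] at hT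
  rcases hT with rfl | rfl | rfl <;> assumption

/-- TARGET -/
theorem n0_lower {m M i j : ℕ} (hM : 14 * 2 ^ m < M) (hji : j < i) (hi : i ≤ m) :
    2 ≤ A (a M) (m + 3 + 1) M (3 * M - (2 ^ i + 2 ^ j)) := by
  have e3 := pow_m3 m
  have hi2 : 2 ^ i ≤ 2 ^ m := Nat.pow_le_pow_right (by norm_num) hi
  have hj2 : 2 ^ j ≤ 2 ^ m := Nat.pow_le_pow_right (by norm_num) (by omega)
  have hT1 : ({(2, i), (1, j)} : Finset (ℕ × ℕ)) ∈ TS (m + 3) 3 (2 ^ i + 2 ^ j) :=
    TS_two (by norm_num) (by norm_num) (by omega) (by omega) (by simp) rfl rfl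
  have hT2 : ({(1, i), (2, j)} : Finset (ℕ × ℕ)) ∈ TS (m + 3) 3 (2 ^ i + 2 ^ j) :=
    TS_two (by norm_num) (by norm_num) (by omega) (by omega) (by simp) rfl rfl
  have hij : i ≠ j := by omega
  have hcard : ({{(2, i), (1, j)}, {(1, i), (2, j)}} : Finset (Finset (ℕ × ℕ))).card = 2 := by
    rw [Finset.card_insert_of_notMem, Finset.card_singleton]
    rw [Finset.mem_singleton]
    exact ne_of_mem_h (2, i) (by simp) (by simp [hij])
  refine le_trans (le_of_eq hcard.symm) (A_lower (by omega) _ ?_)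
  intro T hT
  refine ⟨3, 2 ^ i + 2 ^ j, ?_, by omega⟩
  simp only [Finset.mem_insert, Finset.mem_singleton] at hT
  rcases hT with rfl | rfl <;> assumption

/-- TARGET -/
theorem r_lower {m M j : ℕ} (hM : 16 * 2 ^ m ≤ M) (hj : j ≤ m) :
    5 ≤ A (a M) (m + 3 + 1) M (4 * M - (8 * 2 ^ m + 2 * 2 ^ j)) := by
  have e3 := pow_m3 m
  have e2 := pow_m2 m
  have f1 := pow_m1 j
  have hj2 : 2 ^ j ≤ 2 ^ m := Nat.pow_le_pow_right (by norm_num) (by omega)
  have hp : 0 < 2 ^ m := by positivity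
  have a1 : j ≠ m + 2 := by omega
  have a2 : j ≠ m + 3 := by omega
  have a3 : j ≠ m + 1 := by omega
  have b1 : m + 2 ≠ j := by omega
  have b2 : m + 3 ≠ j := by omega
  have b3 : m + 1 ≠ j := by omega
  have hT1 : ({(3, m + 3), (1, j + 1)} : Finset (ℕ × ℕ)) ∈ TS (m + 3) 4 (8 * 2 ^ m + 2 * 2 ^ j) :=
    TS_two (by norm_num) (by norm_num) (by omega) (by omega) (by simp) rfl (by omega)
  have hT2 : ({(2, m + 3), (2, j + 1)} : Finset (ℕ × ℕ)) ∈ TS (m + 3) 4 (8 * 2 ^ m + 2 * 2 ^ j) :=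
    TS_two (by norm_num) (by norm_num) (by omega) (by omega) (by simp; omega) rfl (by omega)
  have hT3 : ({(1, m + 3), (3, j + 1)} : Finset (ℕ × ℕ)) ∈ TS (m + 3) 4 (8 * 2 ^ m + 2 * 2 ^ j) :=
    TS_two (by norm_num) (by norm_num) (by omega) (by omega) (by simp) rfl (by omega)
  have hT4 : ({(1, m + 3), (1, j), (2, j)} : Finset (ℕ × ℕ)) ∈ TS (m + 3) 4 (8 * 2 ^ m + 2 * 2 ^ j) :=
    TS_three (by norm_num) (by norm_num) (by norm_num) (by omega) (by omega) (by omega)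
      (by simp; omega) (by simp) (by simp) rfl (by omega)
  have hT5 : ({(1, m + 2), (2, m + 2), (1, j + 1)} : Finset (ℕ × ℕ)) ∈ TS (m + 3) 4 (8 * 2 ^ m + 2 * 2 ^ j) :=
    TS_three (by norm_num) (by norm_num) (by norm_num) (by omega) (by omega) (by omega)
      (by simp) (by simp; omega) (by simp) rfl (by omega)
  have hcard : ({{(3, m + 3), (1, j + 1)}, {(2, m + 3), (2, j + 1)}, {(1, m + 3), (3, j + 1)},
      {(1, m + 3), (1, j), (2, j)}, {(1, m + 2), (2, m + 2), (1, j + 1)}} :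
      Finset (Finset (ℕ × ℕ))).card = 5 := by
    rw [Finset.card_insert_of_notMem, Finset.card_insert_of_notMem, Finset.card_insert_of_notMem,
      Finset.card_insert_of_notMem, Finset.card_singleton]
    · rw [Finset.mem_singleton]
      exact ne_of_mem_h (1, m + 3) (by simp) (by simp; omega)
    · rw [Finset.mem_insert, Finset.mem_singleton, not_or]
      exact ⟨ne_of_mem_h (3, j + 1) (by simp) (by simp), ne_of_mem_h (3, j + 1) (by simp) (by simp)⟩
    · rw [Finset.mem_insert, Finset.mem_insert, Finset.mem_singleton, not_or, not_or]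
      exact ⟨ne_of_mem_h (2, m + 3) (by simp) (by simp), ne_of_mem_h (2, m + 3) (by simp) (by simp; omega),
        ne_of_mem_h (2, m + 3) (by simp) (by simp)⟩
    · rw [Finset.mem_insert, Finset.mem_insert, Finset.mem_insert, Finset.mem_singleton, not_or, not_or, not_or]
      exact ⟨ne_of_mem_h (3, m + 3) (by simp) (by simp), ne_of_mem_h (3, m + 3) (by simp) (by simp; omega),
        ne_of_mem_h (3, m + 3) (by simp) (by simp), ne_of_mem_h (3, m + 3) (by simp) (by simp)⟩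
  refine le_trans (le_of_eq hcard.symm) (A_lower (by omega) _ ?_)
  intro T hT
  refine ⟨4, 8 * 2 ^ m + 2 * 2 ^ j, ?_, by omega⟩
  simp only [Finset.mem_insert, Finset.mem_singleton] at hT
  rcases hT with rfl | rfl | rfl | rfl | rfl <;> assumption

/-- TARGET -/
theorem r_lower' {m M : ℕ} (hM : 16 * 2 ^ m ≤ M) :
    4 ≤ A (a M) (m + 3 + 1) M (4 * M - 12 * 2 ^ m) := by
  have e3 := pow_m3 m
  have e2 := pow_m2 m
  have e1 := pow_m1 m
  have hp : 0 < 2 ^ m := by positivity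
  have hT1 : ({(3, m + 3), (1, m + 2)} : Finset (ℕ × ℕ)) ∈ TS (m + 3) 4 (12 * 2 ^ m) :=
    TS_two (by norm_num) (by norm_num) (by omega) (by omega) (by simp) rfl (by omega)
  have hT2 : ({(2, m + 3), (2, m + 2)} : Finset (ℕ × ℕ)) ∈ TS (m + 3) 4 (12 * 2 ^ m) :=
    TS_two (by norm_num) (by norm_num) (by omega) (by omega) (by simp) rfl (by omega)
  have hT3 : ({(1, m + 3), (3, m + 2)} : Finset (ℕ × ℕ)) ∈ TS (m + 3) 4 (12 * 2 ^ m) :=
    TS_two (by norm_num) (by norm_num) (by omega) (by omega) (by simp) rfl (by omega)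
  have hT4 : ({(1, m + 3), (1, m + 1), (2, m + 1)} : Finset (ℕ × ℕ)) ∈ TS (m + 3) 4 (12 * 2 ^ m) :=
    TS_three (by norm_num) (by norm_num) (by norm_num) (by omega) (by omega) (by omega)
      (by simp) (by simp) (by simp) rfl (by omega)
  have hcard : ({{(3, m + 3), (1, m + 2)}, {(2, m + 3), (2, m + 2)}, {(1, m + 3), (3, m + 2)},
      {(1, m + 3), (1, m + 1), (2, m + 1)}} : Finset (Finset (ℕ × ℕ))).card = 4 := by
    rw [Finset.card_insert_of_notMem, Finset.card_insert_of_notMem, Finset.card_insert_of_notMem,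
      Finset.card_singleton]
    · rw [Finset.mem_singleton]
      exact ne_of_mem_h (3, m + 2) (by simp) (by simp)
    · rw [Finset.mem_insert, Finset.mem_singleton, not_or]
      exact ⟨ne_of_mem_h (2, m + 3) (by simp) (by simp), ne_of_mem_h (2, m + 3) (by simp) (by simp)⟩
    · rw [Finset.mem_insert, Finset.mem_insert, Finset.mem_singleton, not_or, not_or]
      exact ⟨ne_of_mem_h (3, m + 3) (by simp) (by simp), ne_of_mem_h (3, m + 3) (by simp) (by simp),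
        ne_of_mem_h (3, m + 3) (by simp) (by simp)⟩
  refine le_trans (le_of_eq hcard.symm) (A_lower (by omega) _ ?_)
  intro T hT
  refine ⟨4, 12 * 2 ^ m, ?_, by omega⟩
  simp only [Finset.mem_insert, Finset.mem_singleton] at hT
  rcases hT with rfl | rfl | rfl | rfl <;> assumption

end Pool.Agent.H978D
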