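import Pool.Agent.H978D.Defs
import Pool.Agent.H978D.D1
import Pool.Agent.H978D.D10
import Pool.Agent.H978D.D11
import Pool.Agent.H978D.D12
import Pool.Agent.H978D.D2
import Pool.Agent.H978D.D3
import Pool.Agent.H978D.D4
import Pool.Agent.H978D.D5
import Pool.Agent.H978D.D6
import Pool.Agent.H978D.D7
import Pool.Agent.H978D.D8
import Pool.Agent.H978D.D9

set_option autoImplicit false

namespace Pool.Agent.H978D

open Pool.Agent.MPe9218d































theorem D14_cov {m M u c n : ℕ} (hu : 2 ^ (m + 3) = 8 * u) (hu0 : 0 < u) (hM : 14 * u < M)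
    (hc : 18 ≤ c) (hc2 : c ≤ 21) (hn : n + c * u = 4 * M)
    (h3 : ∀ T, T ∉ TS (m + 3) 3 (c * u - M)) :
    A (a M) (m + 3 + 1) M n ≤ (TS (m + 3) 4 (c * u)).ncard := by
  have hcu : 18 * u ≤ c * u := Nat.mul_le_mul_right u hc
  have hcu2 : c * u ≤ 21 * u := Nat.mul_le_mul_right u hc2
  have hcov := A_cover (k := m + 3) (M := M) (n := n) (by rw [hu]; omega) {(4, c * u)} (by
    intro L Y hLY hT
    obtain ⟨T, hT⟩ := hT
    have hL5 : L < 5 := by
      by_contra hcon
      obtain ⟨t, rfl⟩ : ∃ t, L = 5 + t := ⟨L - 5, by omega⟩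
      have hb := TS_bound hT
      rw [hu] at hb
      have ht : t * (14 * u) ≤ t * M := Nat.mul_le_mul_left t hM.le
      nlinarith
    have hL2 : 2 < L := by
      by_contra hcon
      have : L * M ≤ 2 * M := Nat.mul_le_mul_right M (by omega)
      omega
    have hL : L = 3 ∨ L = 4 := by omega
    rcases hL with rfl | rfl
    · exfalso
      have hY : Y = c * u - M := by omega
      rw [hY] at hT
      exact h3 T hT
    · have hY : Y = c * u := by omega
      simp [hY])
  simpa using hcov

theorem D14_three {k Y : ℕ} (h : 4 ≤ pc Y) (T : Finset (ℕ × ℕ)) : T ∉ TS k 3 Y := by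
  intro hT
  have := TS_card hT
  omega

theorem D14_one {m i Y : ℕ} (hY : Y = 2 * 2 ^ (m + 3) + 2 ^ i) :
    (TS (m + 3) 4 Y).ncard ≤ 1 := by
  have hsub : TS (m + 3) 4 Y ⊆ {{(1, m + 3), (2, m + 3), (1, i)}} := by
    intro T hT
    have h0 : 0 < 2 ^ i := by positivity
    obtain ⟨j, _, hTj, hYj⟩ := TS_four_top hT (by omega)
    have hij : 2 ^ i = 2 ^ j := by omega
    have hij' : i = j := Nat.pow_right_injective (le_refl 2) hij
    rw [Set.mem_singleton_iff, hTj, hij']
  calc (TS (m + 3) 4 Y).ncard ≤ ({{(1, m + 3), (2, m + 3), (1, i)}} : Set (Finset (ℕ × ℕ))).ncard :=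
        Set.ncard_le_ncard hsub (Set.finite_singleton _)
    _ = 1 := Set.ncard_singleton _

/-- TARGET -/
theorem n3_pairs {m M E e f : ℕ} {b : ℕ → ℕ} (hE : M + E = 16 * 2 ^ m) (hE2 : E < 2 * 2 ^ m)
    (h3 : 3 ≤ pc E) (hId : Identity M (m + 3 + 1) b) (he : Nc (m + 3) M e) (hf : Nc (m + 3) M f)
    (hfe : f < e) (hs : Step b M e f) (hn : e + f + 14 * 2 ^ m = 4 * M) :
    (e + 6 * 2 ^ m = 3 * M ∧ f + 8 * 2 ^ m = M) ∨
    (e + 2 * 2 ^ m = 2 * M ∧ f + 12 * 2 ^ m = 2 * M) ∨
    (e + 4 * 2 ^ m = 2 * M ∧ f + 10 * 2 ^ m = 2 * M) := by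
  obtain ⟨u, hu⟩ : ∃ u, u = 2 ^ m := ⟨_, rfl⟩
  have hu0 : 0 < u := by rw [hu]; positivity
  have hp1 : 2 ^ (m + 1) = 2 * u := by rw [hu]; ring
  have hp2 : 2 ^ (m + 2) = 4 * u := by rw [hu]; ring
  have hp3 : 2 ^ (m + 3) = 8 * u := by rw [hu]; ring
  rw [← hu] at hE hE2 hn ⊢
  have H : Hyp (m + 3) M := by
    refine ⟨by omega, by omega, Or.inr ?_⟩
    have : 2 * 2 ^ (m + 3) - M = E := by omega
    rw [this]; exact h3
  have hkM : 2 ^ (m + 3) < M := by omega
  have hfmin := nc_min hkM hf
  rcases follow H hId he hf hs with h2M | ⟨x, ⟨i, hi, hx⟩, hxk, hex⟩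
  · -- case A
    have hx1 : ∃ x₁, e + x₁ = 3 * M := ⟨3 * M - e, by omega⟩
    obtain ⟨x₁, hx₁⟩ := hx1
    have hlo : 6 * u ≤ x₁ := by omega
    have hhi : x₁ ≤ M := by omega
    have hlt : x₁ < 14 * u := by
      by_contra hcon
      have h := nc2 (x := M + 14 * u - x₁) H hf (by omega) (by omega) (by omega)
      rcases h with ⟨_, h⟩ | h <;> omega
    obtain ⟨x₂, hx₂⟩ : ∃ x₂, x₁ + x₂ = 14 * u := ⟨14 * u - x₁, by omega⟩
    obtain ⟨j, hj, hxj⟩ := nc1 (x := x₂) H hf (by omega) (by omega)
    -- the part M - 8 u is allowed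
    have hf' : Nc (m + 3) M (M - 2 ^ (m + 3)) := by
      rw [nc_iff hkM (by omega)]
      refine ⟨1, 2 ^ (m + 3), ⟨{(1, m + 3)}, ?_⟩, by omega⟩
      refine ⟨?_, by simp, by simp⟩
      intro p hp
      rw [Finset.mem_singleton] at hp
      subst hp
      simp
    have hkill : A (a M) (m + 3 + 1) M (e + (M - 2 ^ (m + 3))) ≤ 1 → False := by
      intro hA
      exact kill hId he hf' (by omega) hA (by omega) hs
    have hjc : j = m + 3 ∨ j = m + 2 ∨ j = m + 1 ∨ j = m ∨ j < m := by omega
    rcases hjc with rfl | rfl | rfl | rfl | hjm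
    · left; omega
    · exfalso
      apply hkill
      rw [hp2] at hxj
      have h1 := D14_cov (M := M) (c := 18) (n := e + (M - 2 ^ (m + 3))) hp3 hu0 (by omega) (by norm_num)
        (by norm_num) (by omega) (by
          apply D14_three
          have : 18 * u - M = 2 ^ (m + 1) + E := by omega
          rw [this, pc_top (by omega)]
          omega)
      exact h1.trans (D14_one (i := m + 1) (by omega))
    · exfalso
      apply hkill
      rw [hp1] at hxj
      have h1 := D14_cov (M := M) (c := 20) (n := e + (M - 2 ^ (m + 3))) hp3 hu0 (by omega) (by norm_num)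
        (by norm_num) (by omega) (by
          apply D14_three
          have : 20 * u - M = 2 ^ (m + 2) + E := by omega
          rw [this, pc_top (by omega)]
          omega)
      exact h1.trans (D14_one (i := m + 2) (by omega))
    · exfalso
      apply hkill
      rw [← hu] at hxj
      have h1 := D14_cov (M := M) (c := 21) (n := e + (M - 2 ^ (j + 3))) hp3 hu0 (by omega) (by norm_num)
        (by norm_num) (by omega) (by
          apply D14_three
          by_cases hEu : E < u
          · have : 21 * u - M = 2 ^ (j + 2) + (2 ^ j + E) := by omega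
            rw [this, pc_top (by omega), pc_top (by omega)]
            omega
          · obtain ⟨r, hr⟩ : ∃ r, E = 2 ^ j + r := ⟨E - u, by omega⟩
            have : 21 * u - M = 2 ^ (j + 2) + (2 ^ (j + 1) + r) := by omega
            rw [this, pc_top (by omega), pc_top (by omega)]
            rw [hr, pc_top (by omega)] at h3
            omega)
      refine h1.trans ?_
      have hempty : TS (j + 3) 4 (21 * u) = ∅ := by
        rw [Set.eq_empty_iff_forall_notMem]
        intro T hT
        have := TS_bound hT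
        omega
      rw [hempty]; simp
    · exfalso
      have h2x : 2 * x₂ ≤ u := by
        rw [hxj, hu]
        calc 2 * 2 ^ j = 2 ^ (j + 1) := by ring
          _ ≤ 2 ^ m := Nat.pow_le_pow_right (by norm_num) hjm
      have hx20 : 0 < x₂ := by rw [hxj]; positivity
      rcases nc3 (x := x₁) H he (by omega) hhi hx₁ with ⟨h, _⟩ | h | h
      · obtain ⟨r, hr⟩ : ∃ r, r + x₂ = u := ⟨u - x₂, by omega⟩
        have hxx : x₁ = 2 ^ (m + 3) + (2 ^ (m + 2) + (2 ^ m + r)) := by omega
        rw [hxx, pc_top (by omega), pc_top (by omega), pc_top (by omega)] at h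
        have := pc_pos (n := r) (by omega)
        omega
      · omega
      · omega
  · -- case B
    have hi2 : i ≤ m + 2 := by
      by_contra hcon
      have : 2 ^ (m + 3) ≤ 2 ^ i := Nat.pow_le_pow_right (by norm_num) (by omega)
      omega
    have hx4 : x ≤ 4 * u := by
      rw [hx, ← hp2]
      exact Nat.pow_le_pow_right (by norm_num) hi2
    have h := nc2 (x := 14 * u - x) H hf (by omega) (by omega) (by omega)
    have hx2 : 2 * u ≤ x := by
      rcases h with ⟨_, h⟩ | h <;> omega
    have hi1 : m + 1 ≤ i := by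
      by_contra hcon
      have : 2 ^ i ≤ 2 ^ m := Nat.pow_le_pow_right (by norm_num) (by omega)
      omega
    have hic : i = m + 1 ∨ i = m + 2 := by omega
    rcases hic with rfl | rfl
    · right; left; omega
    · right; right; omega

end Pool.Agent.H978D
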