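import Pool.Agent.H978D.Defs
import Pool.Agent.H978D.D1
import Pool.Agent.H978D.D10
import Pool.Agent.H978D.D11
import Pool.Agent.H978D.D12
import Pool.Agent.H978D.D2
import Pool.Agent.H978D.D3
import Pool.Agent.H978D.D4
import Pool.Agent.H978D.D5
import Pool.Agent.H978D.D6
import Pool.Agent.H978D.D7
import Pool.Agent.H978D.D8
import Pool.Agent.H978D.D9

set_option autoImplicit false

namespace Pool.Agent.H978D

open Pool.Agent.MPe9218d































/-- TARGET -/
theorem n0_pairs {m M E i j r e f : ℕ} {b : ℕ → ℕ} (hE : M + E = 16 * 2 ^ m)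
    (hE2 : E < 2 * 2 ^ m) (hji : j < i) (hr : r < 2 ^ j) (hr1 : 1 ≤ r)
    (hEr : E = 2 ^ i + 2 ^ j + r)
    (hId : Identity M (m + 3 + 1) b) (he : Nc (m + 3) M e) (hf : Nc (m + 3) M f)
    (hfe : f < e) (hs : Step b M e f) (hn : e + f + (2 ^ i + 2 ^ j) = 3 * M) :
    (e + 2 ^ i = 2 * M ∧ f + 2 ^ j = M) ∨ (e + 2 ^ j = 2 * M ∧ f + 2 ^ i = M) := by
  have hu : 1 ≤ 2 ^ m := Nat.one_le_two_pow
  have h8 : 2 ^ (m + 3) = 8 * 2 ^ m := by ring
  have h4 : 2 ^ (m + 2) = 4 * 2 ^ m := by ring
  have h2 : 2 ^ (m + 1) = 2 * 2 ^ m := by ring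
  have hjpos : 1 ≤ 2 ^ j := Nat.one_le_two_pow
  have hji2 : 2 * 2 ^ j ≤ 2 ^ i := by
    calc 2 * 2 ^ j = 2 ^ (j + 1) := by ring
      _ ≤ 2 ^ i := Nat.pow_le_pow_right (by norm_num) hji
  have him : i ≤ m := by
    by_contra hcon
    have : 2 ^ (m + 1) ≤ 2 ^ i := Nat.pow_le_pow_right (by norm_num) (by omega)
    omega
  have hiu : 2 ^ i ≤ 2 ^ m := Nat.pow_le_pow_right (by norm_num) him
  have hpcE : 3 ≤ pc E := by
    have e1 : E = 2 ^ i + (2 ^ j + r) := by omega
    have e2 : pc (2 ^ i + (2 ^ j + r)) = 1 + pc (2 ^ j + r) := pc_top (by omega)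
    have e3 : pc (2 ^ j + r) = 1 + pc r := pc_top hr
    have e4 := pc_pos hr1
    rw [e1, e2, e3]
    omega
  have H : Hyp (m + 3) M := by
    refine ⟨by omega, by omega, Or.inr ?_⟩
    have : 2 * 2 ^ (m + 3) - M = E := by omega
    rw [this]
    exact hpcE
  rcases follow H hId he hf hs with h2M | ⟨x, hPx, hx8, hex⟩
  · exfalso
    have hfmin := nc_min (by omega) hf
    have hfM : f + (M - f) = M := by omega
    have hx2 := nc1 H hf (x := M - f) (by omega) hfM
    obtain ⟨t, ht, hx2e⟩ := hx2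
    have hx1 : e + (3 * M - e) = 3 * M := by omega
    have hsum : (3 * M - e) + (M - f) = 16 * 2 ^ m - r := by omega
    have hpc5 : 5 ≤ pc ((3 * M - e) + (M - f)) := by
      refine pc_high (k := m + 3) (by omega) ?_ ?_ <;> omega
    have hadd := pc_add_le (3 * M - e) (M - f)
    have hpcx2 : pc (M - f) = 1 := by
      rw [hx2e]
      exact pc_pow t
    rcases nc3 H he (x := 3 * M - e) (by omega) (by omega) hx1 with h | h | h
    · omega
    · omega
    · omega
  · obtain ⟨s, hs3, hxs⟩ := hPx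
    have hs2 : s ≤ m + 2 := by
      by_contra hcon
      have : 2 ^ (m + 3) ≤ 2 ^ s := Nat.pow_le_pow_right (by norm_num) (by omega)
      omega
    have hx4 : x ≤ 4 * 2 ^ m := by
      rw [hxs, ← h4]
      exact Nat.pow_le_pow_right (by norm_num) hs2
    by_cases hxX : x < 2 ^ i + 2 ^ j
    · have hf1 : f + (2 ^ i + 2 ^ j - x) = M := by omega
      obtain ⟨t, ht, hxt⟩ := nc1 H hf (x := 2 ^ i + 2 ^ j - x) (by omega) hf1
      have hst : 2 ^ s + 2 ^ t = 2 ^ i + 2 ^ j := by omega
      have hpcX : pc (2 ^ i + 2 ^ j) = 2 := by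
        have e2 : pc (2 ^ i + 2 ^ j) = 1 + pc (2 ^ j) := pc_top (by omega)
        rw [e2, pc_pow]
      have hne : s ≠ t := by
        rintro rfl
        have e5 : 2 ^ i + 2 ^ j = 2 ^ (s + 1) := by rw [pow_succ]; omega
        rw [e5, pc_pow] at hpcX
        omega
      have huniq : ∀ a c : ℕ, c < a → 2 ^ a + 2 ^ c = 2 ^ i + 2 ^ j → a = i := by
        intro a c hca hac
        have e6 : 2 * 2 ^ c ≤ 2 ^ a := by
          calc 2 * 2 ^ c = 2 ^ (c + 1) := by ring
            _ ≤ 2 ^ a := Nat.pow_le_pow_right (by norm_num) hca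
        have e7 : 1 ≤ 2 ^ c := Nat.one_le_two_pow
        rcases lt_trichotomy a i with h | h | h
        · exfalso
          have : 2 * 2 ^ a ≤ 2 ^ i := by
            calc 2 * 2 ^ a = 2 ^ (a + 1) := by ring
              _ ≤ 2 ^ i := Nat.pow_le_pow_right (by norm_num) h
          omega
        · exact h
        · exfalso
          have : 2 * 2 ^ i ≤ 2 ^ a := by
            calc 2 * 2 ^ i = 2 ^ (i + 1) := by ring
              _ ≤ 2 ^ a := Nat.pow_le_pow_right (by norm_num) h
          omega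
      rcases lt_or_gt_of_ne hne with h | h
      · have hti := huniq t s h (by omega)
        right
        subst hti
        omega
      · have hsi := huniq s t h hst
        left
        subst hsi
        omega
    · exfalso
      push Not at hxX
      have hf2 : f + (M + (2 ^ i + 2 ^ j) - x) = 2 * M := by omega
      have hx' : M + (2 ^ i + 2 ^ j) - x = 16 * 2 ^ m - r - x := by omega
      rcases nc2 H hf (x := M + (2 ^ i + 2 ^ j) - x) (by omega) (by omega) hf2 with ⟨h, h'⟩ | h
      · by_cases h12 : M + (2 ^ i + 2 ^ j) - x < 12 * 2 ^ m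
        · have e1 : M + (2 ^ i + 2 ^ j) - x =
              2 ^ (m + 3) + (2 ^ (m + 1) + (M + (2 ^ i + 2 ^ j) - x - 10 * 2 ^ m)) := by omega
          have e2 : pc (2 ^ (m + 3) + (2 ^ (m + 1) + (M + (2 ^ i + 2 ^ j) - x - 10 * 2 ^ m))) =
              1 + pc (2 ^ (m + 1) + (M + (2 ^ i + 2 ^ j) - x - 10 * 2 ^ m)) := pc_top (by omega)
          have e3 : pc (2 ^ (m + 1) + (M + (2 ^ i + 2 ^ j) - x - 10 * 2 ^ m)) =
              1 + pc (M + (2 ^ i + 2 ^ j) - x - 10 * 2 ^ m) := pc_top (by omega)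
          have e4 := pc_pos (n := M + (2 ^ i + 2 ^ j) - x - 10 * 2 ^ m) (by omega)
          rw [e1, e2, e3] at h
          omega
        · have hxe : x = 4 * 2 ^ m - r := by omega
          have hs1 : s ≤ m + 1 := by
            by_contra hcon
            have : 2 ^ (m + 2) ≤ 2 ^ s := Nat.pow_le_pow_right (by norm_num) (by omega)
            omega
          have : 2 ^ s ≤ 2 ^ (m + 1) := Nat.pow_le_pow_right (by norm_num) hs1
          omega
      · omega

end Pool.Agent.H978D
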