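import Pool.Agent.H978D.Defs
import Pool.Agent.H978D.D1
import Pool.Agent.H978D.D2
import Pool.Agent.H978D.D3
import Pool.Agent.H978D.D4
import Pool.Agent.H978D.D5
import Pool.Agent.H978D.D6
import Pool.Agent.H978D.D7
import Pool.Agent.H978D.D8
import Pool.Agent.H978D.D9

set_option autoImplicit false

namespace Pool.Agent.H978D

open Pool.Agent.MPe9218d


























theorem no_between {x y : ℕ} (h1 : 2 ^ x < 2 ^ y) (h2 : 2 ^ y < 2 ^ (x + 1)) : False := by
  have a1 : x < y := (Nat.pow_lt_pow_iff_right (by norm_num)).1 h1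
  have a2 : y < x + 1 := (Nat.pow_lt_pow_iff_right (by norm_num)).1 h2
  omega

/-- TARGET -/
theorem lb_upper {m M E i j r p v : ℕ} (hE : M + E = 16 * 2 ^ m) (hE2 : E < 2 * 2 ^ m)
    (hji : j < i) (hr : r < 2 ^ j) (hr1 : 1 ≤ r) (hEr : E = 2 ^ i + 2 ^ j + r)
    (hp : p = i ∨ p = j) (hv : v = m + 1 ∨ v = m + 2) :
    A (a M) (m + 3 + 1) M (3 * M - (2 ^ v + 2 ^ p)) ≤ 2 := by
  have hk : 2 ^ (m + 3) = 8 * 2 ^ m := by ring
  have hu : 1 ≤ 2 ^ m := Nat.one_le_two_pow
  have him : i ≤ m := by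
    have h1 : 2 ^ i < 2 ^ (m + 1) := by
      have : 2 ^ (m + 1) = 2 * 2 ^ m := by ring
      omega
    have := (Nat.pow_lt_pow_iff_right (by norm_num : 1 < 2)).1 h1
    omega
  have hiu : 2 ^ i ≤ 2 ^ m := Nat.pow_le_pow_right (by norm_num) him
  have hji2 : 2 * 2 ^ j ≤ 2 ^ i := by
    calc 2 * 2 ^ j = 2 ^ (j + 1) := by ring
      _ ≤ 2 ^ i := Nat.pow_le_pow_right (by norm_num) hji
  have hpm : p ≤ m := by omega
  have hp1 : 1 ≤ 2 ^ p := Nat.one_le_two_pow
  have hi1 : 1 ≤ 2 ^ i := Nat.one_le_two_pow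
  have hj1 : 1 ≤ 2 ^ j := Nat.one_le_two_pow
  have hv1 : 1 ≤ 2 ^ v := Nat.one_le_two_pow
  have hpu : 2 ^ p ≤ 2 ^ m := Nat.pow_le_pow_right (by norm_num) hpm
  have hV : 2 ^ v = 2 * 2 ^ m ∨ 2 ^ v = 4 * 2 ^ m := by
    rcases hv with rfl | rfl
    · left; ring
    · right; ring
  have hVle : 2 ^ v ≤ 4 * 2 ^ m := by omega
  have hVge : 2 * 2 ^ m ≤ 2 ^ v := by omega
  have hM : 2 ^ (m + 3) < M := by omega
  have hpv : 2 ^ p < 2 ^ v := by omega
  have hpc : 2 ≤ pc (2 ^ v + 2 ^ p) := by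
    rw [pc_top hpv, pc_pow]
  have hn : 3 * M - (2 ^ v + 2 ^ p) + (2 ^ v + 2 ^ p) = 3 * M := by omega
  have hcov := A_cover (k := m + 3) (M := M) (n := 3 * M - (2 ^ v + 2 ^ p)) hM
    {(3, 2 ^ v + 2 ^ p)} (by
      intro L Y hLY hne
      rw [Finset.mem_singleton]
      obtain ⟨T, hT⟩ := hne
      have h3 : 3 * M + Y = L * M + (2 ^ v + 2 ^ p) := by omega
      rcases Nat.lt_or_ge L 3 with hL | hL
      · exfalso
        have : L * M ≤ 2 * M := Nat.mul_le_mul_right _ (by omega)
        omega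
      rcases Nat.lt_or_ge L 4 with hL4 | hL4
      · obtain rfl : L = 3 := by omega
        have : Y = 2 ^ v + 2 ^ p := by omega
        rw [this]
      rcases Nat.lt_or_ge L 5 with hL5 | hL5
      · exfalso
        obtain rfl : L = 4 := by omega
        have hY : 2 * 2 ^ (m + 3) < Y := by omega
        obtain ⟨x, _, _, hx⟩ := TS_four_top hT hY
        have hx1 : 1 ≤ 2 ^ x := Nat.one_le_two_pow
        have hx2 : 2 ^ x + E = 2 ^ v + 2 ^ p := by omega
        rcases hp with rfl | rfl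
        · -- p = i
          obtain ⟨v', rfl⟩ : ∃ v', v = v' + 1 := ⟨v - 1, by omega⟩
          have hv' : 2 ^ (v' + 1) = 2 * 2 ^ v' := by ring
          exact no_between (x := v') (y := x) (by omega) (by omega)
        · -- p = j
          rcases hv with rfl | rfl
          · have e1 : 2 ^ (m + 1) = 2 * 2 ^ m := by ring
            rcases Nat.lt_or_ge i m with h | h
            · have h5 : 2 * 2 ^ i ≤ 2 ^ m := by
                calc 2 * 2 ^ i = 2 ^ (i + 1) := by ring
                  _ ≤ 2 ^ m := Nat.pow_le_pow_right (by norm_num) h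
              exact no_between (x := m) (y := x) (by omega) (by omega)
            · obtain rfl : i = m := by omega
              obtain ⟨i', rfl⟩ : ∃ i', i = i' + 1 := ⟨i - 1, by omega⟩
              have e2 : 2 ^ (i' + 1) = 2 * 2 ^ i' := by ring
              exact no_between (x := i') (y := x) (by omega) (by omega)
          · have e1 : 2 ^ (m + 2) = 4 * 2 ^ m := by ring
            have e2 : 2 ^ (m + 1 + 1) = 4 * 2 ^ m := by ring
            have e3 : 2 ^ (m + 1) = 2 * 2 ^ m := by ring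
            exact no_between (x := m + 1) (y := x) (by omega) (by omega)
      · exfalso
        have hb := TS_bound hT
        rw [hk] at hb
        obtain ⟨l, rfl⟩ := Nat.exists_eq_add_of_le hL5
        have h6 : Y = (2 + l) * M + (2 ^ v + 2 ^ p) := by
          have : (5 + l) * M = 3 * M + (2 + l) * M := by ring
          omega
        have h7 : (2 + l) * (14 * 2 ^ m) ≤ (2 + l) * M := Nat.mul_le_mul_left _ (by omega)
        have h8 : 2 * ((2 + l) * (14 * 2 ^ m)) ≤ 8 * 2 ^ m * (5 + l + 1) := by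
          calc 2 * ((2 + l) * (14 * 2 ^ m)) ≤ 2 * ((2 + l) * M) := Nat.mul_le_mul_left _ h7
            _ ≤ 2 * Y := by rw [h6]; omega
            _ ≤ 8 * 2 ^ m * (5 + l + 1) := hb
        have h9 : 1 ≤ 2 ^ m := hu
        nlinarith [Nat.zero_le (l * 2 ^ m)])
  rw [Finset.sum_singleton] at hcov
  exact hcov.trans (TS_three_card hpc)

end Pool.Agent.H978D
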