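import Pool.Agent.H978D.Defs
import Pool.Agent.H978D.D1
import Pool.Agent.H978D.D10
import Pool.Agent.H978D.D11
import Pool.Agent.H978D.D12
import Pool.Agent.H978D.D13
import Pool.Agent.H978D.D15
import Pool.Agent.H978D.D16
import Pool.Agent.H978D.D2
import Pool.Agent.H978D.D3
import Pool.Agent.H978D.D4
import Pool.Agent.H978D.D5
import Pool.Agent.H978D.D6
import Pool.Agent.H978D.D7
import Pool.Agent.H978D.D8
import Pool.Agent.H978D.D9

-- no_step, compiled

set_option autoImplicit false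

namespace Pool.Agent.H978D

open Pool.Agent.MPe9218d



































theorem nst_single {k M q p n : ℕ} (hM : 2 ^ k < M) (hn : 1 ≤ n) (hq : 1 ≤ q) (hp : p ≤ k)
    (h : n + 2 ^ p = q * M) : Nc k M n := by
  refine (nc_iff hM hn).2 ⟨q, 2 ^ p, ⟨{(q, p)}, ?_, ?_, ?_⟩, h⟩
  · intro x hx
    rw [Finset.mem_singleton] at hx
    subst hx
    exact ⟨hq, hp⟩
  · simp
  · simp

theorem nst_three {k M v p n : ℕ} (hM : 2 ^ k < M) (hn : 1 ≤ n) (hv : v ≤ k) (hp : p ≤ k)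
    (h : n + (2 ^ v + 2 ^ p) = 3 * M) : Nc k M n := by
  have hne : ((2, v) : ℕ × ℕ) ∉ ({(1, p)} : Finset (ℕ × ℕ)) := by
    simp
  refine (nc_iff hM hn).2 ⟨3, 2 ^ v + 2 ^ p, ⟨{(2, v), (1, p)}, ?_, ?_, ?_⟩, h⟩
  · intro x hx
    rw [Finset.mem_insert, Finset.mem_singleton] at hx
    rcases hx with rfl | rfl
    · exact ⟨by norm_num, hv⟩
    · exact ⟨by norm_num, hp⟩
  · rw [Finset.sum_insert hne, Finset.sum_singleton]
    rfl
  · rw [Finset.sum_insert hne, Finset.sum_singleton]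

theorem nst_excl {m M E i j r p v : ℕ} {b : ℕ → ℕ} (hE : M + E = 16 * 2 ^ m)
    (hE2 : E < 2 * 2 ^ m)
    (hji : j < i) (hr : r < 2 ^ j) (hr1 : 1 ≤ r) (hEr : E = 2 ^ i + 2 ^ j + r)
    (hId : Identity M (m + 3 + 1) b)
    (hp : p = i ∨ p = j) (hv : v = m + 1 ∨ v = m + 2)
    (H : Step b M (2 * M - 2 ^ v) (2 * M - (14 * 2 ^ m - 2 ^ v))) :
    ¬ Step b M (2 * M - 2 ^ p) (M - 2 ^ v) := by
  intro hs
  have hu : 1 ≤ 2 ^ m := Nat.one_le_two_pow
  have h8 : 2 ^ (m + 3) = 8 * 2 ^ m := by ring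
  have hV : 2 ^ v = 2 * 2 ^ m ∨ 2 ^ v = 4 * 2 ^ m := by
    rcases hv with rfl | rfl
    · left; ring
    · right; ring
  have him : i ≤ m := by
    by_contra hcon
    have h1 : 2 ^ (m + 1) ≤ 2 ^ i := Nat.pow_le_pow_right (by norm_num) (by omega)
    have h2 : 2 ^ (m + 1) = 2 * 2 ^ m := by ring
    omega
  have hpm : p ≤ m := by rcases hp with rfl | rfl <;> omega
  have hp2 : 2 ^ p ≤ 2 ^ m := Nat.pow_le_pow_right (by norm_num) hpm
  have hp1 : 1 ≤ 2 ^ p := Nat.one_le_two_pow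
  have hM : 2 ^ (m + 3) < M := by omega
  have hvk : v ≤ m + 3 := by rcases hv with rfl | rfl <;> omega
  have hub := lb_upper hE hE2 hji hr hr1 hEr hp hv
  set n := 3 * M - (2 ^ v + 2 ^ p) with hn
  have n1 : 1 ≤ n := by rcases hV with h | h <;> omega
  have c1 : Nc (m + 3) M (2 * M - 2 ^ v) :=
    nst_single (q := 2) (p := v) hM (by rcases hV with h | h <;> omega) (by norm_num) hvk
      (by rcases hV with h | h <;> omega)
  have c2 : Nc (m + 3) M (M - 2 ^ v) :=
    nst_single (q := 1) (p := v) hM (by rcases hV with h | h <;> omega) (by norm_num) hvk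
      (by rcases hV with h | h <;> omega)
  have c3 : Nc (m + 3) M (2 * M - 2 ^ p) :=
    nst_single (q := 2) (p := p) hM (by omega) (by norm_num) (by omega) (by omega)
  have c4 : Nc (m + 3) M (M - 2 ^ p) :=
    nst_single (q := 1) (p := p) hM (by omega) (by norm_num) (by omega) (by omega)
  have c5 : Nc (m + 3) M n :=
    nst_three (v := v) (p := p) hM n1 hvk (by omega) (by rcases hV with h | h <;> omega)
  have s1 : Step b M (2 * M - 2 ^ v) (M - 2 ^ p) := by
    refine step_mono H (Nat.ModEq.refl _) ?_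
    rcases hV with h | h <;> omega
  have e1 : [n] ∈ BSet b M (C M (m + 3 + 1)) n := mem_BSet_one n1 c5.2
  have e2 : [2 * M - 2 ^ v, M - 2 ^ p] ∈ BSet b M (C M (m + 3 + 1)) n :=
    mem_BSet_two c4.1 (by rcases hV with h | h <;> omega) c1.2 c4.2 s1
      (by rcases hV with h | h <;> omega)
  have e3 : [2 * M - 2 ^ p, M - 2 ^ v] ∈ BSet b M (C M (m + 3 + 1)) n :=
    mem_BSet_two c2.1 (by rcases hV with h | h <;> omega) c3.2 c2.2 hs
      (by rcases hV with h | h <;> omega)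
  have hAB := hId n n1
  rw [hAB] at hub
  have hfin := finite_BSet b M (C M (m + 3 + 1)) n
  have h3 : 2 < (BSet b M (C M (m + 3 + 1)) n).ncard := by
    rw [Set.two_lt_ncard hfin]
    refine ⟨_, e1, _, e2, _, e3, by simp, by simp, ?_⟩
    intro heq
    have h4 := (List.cons.inj heq).1
    rcases hV with h | h <;> omega
  unfold B0 at hub
  omega

/-- TARGET -/
theorem no_step {m M E v : ℕ} {b : ℕ → ℕ} (hb : ∀ j, 1 ≤ j → j ≤ M → 1 ≤ b j)
    (hE : M + E = 16 * 2 ^ m) (hE2 : E < 2 * 2 ^ m)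
    (h3 : 3 ≤ pc E) (hId : Identity M (m + 3 + 1) b) (hv : v = m + 1 ∨ v = m + 2) :
    ¬ Step b M (2 * M - 2 ^ v) (2 * M - (14 * 2 ^ m - 2 ^ v)) := by
  intro H
  obtain ⟨i, j, r, hji, hr, hr1, hEr, -⟩ := pc_split h3
  have hu : 1 ≤ 2 ^ m := Nat.one_le_two_pow
  have h8 : 2 ^ (m + 3) = 8 * 2 ^ m := by ring
  have hV : 2 ^ v = 2 * 2 ^ m ∨ 2 ^ v = 4 * 2 ^ m := by
    rcases hv with rfl | rfl
    · left; ring
    · right; ring
  have him : i ≤ m := by
    by_contra hcon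
    have h1 : 2 ^ (m + 1) ≤ 2 ^ i := Nat.pow_le_pow_right (by norm_num) (by omega)
    have h2 : 2 ^ (m + 1) = 2 * 2 ^ m := by ring
    omega
  have hi2 : 2 ^ i ≤ 2 ^ m := Nat.pow_le_pow_right (by norm_num) him
  have hj2 : 2 ^ j < 2 ^ i := Nat.pow_lt_pow_right (by norm_num) hji
  have hj1 : 1 ≤ 2 ^ j := Nat.one_le_two_pow
  have hM14 : 14 * 2 ^ m < M := by omega
  have hHyp : Hyp (m + 3) M := by
    refine ⟨by omega, by omega, Or.inr ?_⟩
    have : 2 * 2 ^ (m + 3) - M = E := by omega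
    rw [this]
    exact h3
  have x1 := nst_excl hE hE2 hji hr hr1 hEr hId (Or.inl rfl) hv H
  have x2 := nst_excl hE hE2 hji hr hr1 hEr hId (Or.inr rfl) hv H
  have y1 : ¬ Step b M (2 * M - 2 ^ i) (M - 2 ^ j) := fun hs =>
    x1 (step_mono hs (Nat.ModEq.refl _) (by rcases hV with h | h <;> omega))
  have y2 : ¬ Step b M (2 * M - 2 ^ j) (M - 2 ^ i) := fun hs =>
    x2 (step_mono hs (Nat.ModEq.refl _) (by rcases hV with h | h <;> omega))
  have hlow := n0_lower hM14 hji him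
  set n := 3 * M - (2 ^ i + 2 ^ j) with hn
  have n1 : 1 ≤ n := by omega
  rw [hId n n1] at hlow
  have hfin := finite_BSet b M (C M (m + 3 + 1)) n
  have hex : ∃ l ∈ BSet b M (C M (m + 3 + 1)) n, l ≠ [n] := by
    by_contra hcon
    push Not at hcon
    have hsub : BSet b M (C M (m + 3 + 1)) n ⊆ {[n]} := fun l hl => hcon l hl
    have := Set.ncard_le_ncard hsub (Set.finite_singleton _)
    rw [Set.ncard_singleton] at this
    unfold B0 at hlow
    omega
  obtain ⟨l, hl, hne⟩ := hex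
  rcases len_two hHyp hb hId n1 (by omega) hl with h | ⟨e, f, -, hsum, hfe, he, hf, hs⟩
  · exact hne h
  · rcases n0_pairs hE hE2 hji hr hr1 hEr hId he hf hfe hs (by omega) with ⟨h1, h2⟩ | ⟨h1, h2⟩
    · have q1 : e = 2 * M - 2 ^ i := by omega
      have q2 : f = M - 2 ^ j := by omega
      rw [q1, q2] at hs
      exact y1 hs
    · have q1 : e = 2 * M - 2 ^ j := by omega
      have q2 : f = M - 2 ^ i := by omega
      rw [q1, q2] at hs
      exact y2 hs

end Pool.Agent.H978D
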