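import Pool.Agent.H978D.Defs
import Pool.Agent.H978D.D1
import Pool.Agent.H978D.D10
import Pool.Agent.H978D.D11
import Pool.Agent.H978D.D12
import Pool.Agent.H978D.D13
import Pool.Agent.H978D.D14
import Pool.Agent.H978D.D17
import Pool.Agent.H978D.D2
import Pool.Agent.H978D.D3
import Pool.Agent.H978D.D4
import Pool.Agent.H978D.D5
import Pool.Agent.H978D.D6
import Pool.Agent.H978D.D7
import Pool.Agent.H978D.D8
import Pool.Agent.H978D.D9

set_option autoImplicit false

namespace Pool.Agent.H978D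

open Pool.Agent.MPe9218d



































/-- TARGET -/
theorem main_III {m M E : ℕ} {b : ℕ → ℕ} (hb : ∀ j, 1 ≤ j → j ≤ M → 1 ≤ b j)
    (hE : M + E = 16 * 2 ^ m) (hE2 : E < 2 * 2 ^ m)
    (h3 : 3 ≤ pc E) : ¬ Identity M (m + 3 + 1) b := by
  intro hId
  have hu : 1 ≤ 2 ^ m := Nat.one_le_two_pow
  have hk : 2 ^ (m + 3) = 8 * 2 ^ m := by rw [pow_add]; ring
  have hM14 : 14 * 2 ^ m < M := by omega
  have H : Hyp (m + 3) M := by
    refine ⟨by omega, ?_, Or.inr ?_⟩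
    · rw [hk]; omega
    · have : 2 * 2 ^ (m + 3) - M = E := by rw [hk]; omega
      rw [this]; exact h3
  have hA := n3_lower (m := m) (M := M) hM14
  have hn1 : 1 ≤ 4 * M - 14 * 2 ^ m := by omega
  have hn : 4 * M - 14 * 2 ^ m + 2 * 2 ^ (m + 3) ≤ 5 * M := by rw [hk]; omega
  have hB := hId _ hn1
  have hsub : BSet b M (C M (m + 3 + 1)) (4 * M - 14 * 2 ^ m) ⊆
      {[4 * M - 14 * 2 ^ m], [3 * M - 6 * 2 ^ m, M - 8 * 2 ^ m]} := by
    intro l hl
    rcases len_two H hb hId hn1 hn hl with h | ⟨e, f, h, hef, hfe, he, hf, hs⟩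
    · rw [h]; exact Set.mem_insert _ _
    · rcases n3_pairs hE hE2 h3 hId he hf hfe hs (by omega) with ⟨h1, h2⟩ | ⟨h1, h2⟩ | ⟨h1, h2⟩
      · rw [h]
        have e1 : e = 3 * M - 6 * 2 ^ m := by omega
        have e2 : f = M - 8 * 2 ^ m := by omega
        rw [e1, e2]
        exact Set.mem_insert_of_mem _ rfl
      · exfalso
        have e1 : e = 2 * M - 2 ^ (m + 1) := by rw [pow_succ]; omega
        have e2 : f = 2 * M - (14 * 2 ^ m - 2 ^ (m + 1)) := by rw [pow_succ]; omega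
        rw [e1, e2] at hs
        exact no_step hb hE hE2 h3 hId (Or.inl rfl) hs
      · exfalso
        have hp : 2 ^ (m + 2) = 4 * 2 ^ m := by rw [pow_add]; ring
        have e1 : e = 2 * M - 2 ^ (m + 2) := by rw [hp]; omega
        have e2 : f = 2 * M - (14 * 2 ^ m - 2 ^ (m + 2)) := by rw [hp]; omega
        rw [e1, e2] at hs
        exact no_step hb hE hE2 h3 hId (Or.inr rfl) hs
  have hcard : (BSet b M (C M (m + 3 + 1)) (4 * M - 14 * 2 ^ m)).ncard ≤ 2 := by
    refine (Set.ncard_le_ncard hsub (by simp)).trans ?_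
    exact (Set.ncard_insert_le _ _).trans (by rw [Set.ncard_singleton])
  unfold B0 at hB
  omega

end Pool.Agent.H978D
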