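import Pool.Agent.H978D.Defs
import Pool.Agent.H978D.D1
import Pool.Agent.H978D.D10
import Pool.Agent.H978D.D11
import Pool.Agent.H978D.D12
import Pool.Agent.H978D.D2
import Pool.Agent.H978D.D3
import Pool.Agent.H978D.D4
import Pool.Agent.H978D.D5
import Pool.Agent.H978D.D6
import Pool.Agent.H978D.D7
import Pool.Agent.H978D.D8
import Pool.Agent.H978D.D9

set_option autoImplicit false

namespace Pool.Agent.H978D

open Pool.Agent.MPe9218d































theorem r_pairs_top (i : ℕ) (v : ℕ) (hv : v = 2 ^ i) : ∀ z, z < v → pc (v + z) = 1 + pc z := by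
  intro z hz
  subst hv
  exact pc_top hz

theorem r_pairs_lt {i j : ℕ} (h : i < j) : 2 * 2 ^ i ≤ 2 ^ j := by
  calc 2 * 2 ^ i = 2 ^ (i + 1) := by ring
    _ ≤ 2 ^ j := Nat.pow_le_pow_right (by norm_num) h

theorem r_pairs_nc {k M i q e : ℕ} (hM : 2 ^ k < M) (hi : i ≤ k) (hq : 1 ≤ q) (he : 1 ≤ e)
    (h : e + 2 ^ i = q * M) : Nc k M e := by
  rw [nc_iff hM he]
  refine ⟨q, 2 ^ i, ⟨{(q, i)}, ?_, by simp, by simp⟩, h⟩
  intro p hp
  rw [Finset.mem_singleton] at hp
  subst hp
  exact ⟨hq, hi⟩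

theorem r_pairs_four {k Y : ℕ} (hY : 2 * 2 ^ k < Y) : (TS k 4 Y).ncard ≤ 1 := by
  rw [Set.ncard_le_one (TS_finite k 4 Y)]
  intro S hS T hT
  obtain ⟨i, _, h1, h2⟩ := TS_four_top hS hY
  obtain ⟨j, _, h3, h4⟩ := TS_four_top hT hY
  have h5 : 2 ^ i = 2 ^ j := by omega
  have h6 : i = j := Nat.pow_right_injective le_rfl h5
  rw [h1, h3, h6]

theorem r_pairs_A {k M u D n Y : ℕ} (hk : 2 ^ k = 8 * u) (hM : M = 16 * u + D) (hu : 1 ≤ u)
    (hn : n + Y = 4 * M) (hY1 : 12 * u ≤ Y) (hY2 : Y ≤ M) (hc : (TS k 4 Y).ncard ≤ 1) :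
    A (a M) (k + 1) M n ≤ 1 := by
  have hMk : 2 ^ k < M := by omega
  refine (A_cover hMk {(4, Y)} ?_).trans ?_
  · intro L Z hZ hT
    obtain ⟨T, hT⟩ := hT
    obtain ⟨-, -, -, h1, -⟩ := TS_card hT
    have h2 := TS_bound hT
    rw [hk] at h2
    have hL : L = 4 := by
      rcases Nat.lt_or_ge L 4 with h | h
      · exfalso
        have h3 : L * M ≤ 3 * M := Nat.mul_le_mul_right M (by omega)
        have h4 : 1 ≤ L := by
          rcases Nat.eq_zero_or_pos L with h0 | h0
          · rw [h0, Nat.zero_mul] at hZ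
            omega
          · exact h0
        have h5 := h1 h4
        omega
      · rcases Nat.lt_or_ge 4 L with h3 | h3
        · exfalso
          obtain ⟨t, rfl⟩ := Nat.exists_eq_add_of_lt h3
          have h4 : Z = Y + (t + 1) * M := by
            have : (4 + t + 1) * M = 4 * M + (t + 1) * M := by ring
            omega
          have h5 : (t + 1) * (16 * u) ≤ (t + 1) * M := Nat.mul_le_mul_left _ (by omega)
          have h6 : (t + 1) * (16 * u) = 16 * u + 16 * (u * t) := by ring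
          have h7 : 8 * u * (4 + t + 1 + 1) = 48 * u + 8 * (u * t) := by ring
          omega
        · omega
    subst hL
    have : Z = Y := by omega
    rw [this]
    simp
  · simpa using hc

/-- TARGET -/
theorem r_pairs {m M D j e f : ℕ} {b : ℕ → ℕ} (hM : M = 16 * 2 ^ m + D) (hD : 2 ^ j ≤ D)
    (hj : j ≤ m + 1) (hId : Identity M (m + 3 + 1) b) (he : Nc (m + 3) M e)
    (hf : Nc (m + 3) M f) (hfe : f < e) (hs : Step b M e f)
    (hn : e + f + (8 * 2 ^ m + 2 * 2 ^ j) = 4 * M) :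
    (e + 2 * 2 ^ j = 3 * M ∧ f + 8 * 2 ^ m = M) ∨
    (e + 8 * 2 ^ m = 3 * M ∧ f + 2 * 2 ^ j = M) ∨
    (e + (4 * 2 ^ m + 2 * 2 ^ j) = 3 * M ∧ f + 4 * 2 ^ m = M) ∨
    (e + 2 ^ j = 2 * M ∧ f + (8 * 2 ^ m + 2 ^ j) = 2 * M) := by
  have e8 : 2 ^ (m + 3) = 8 * 2 ^ m := by ring
  have e4 : 2 ^ (m + 2) = 4 * 2 ^ m := by ring
  have e2 : 2 ^ (m + 1) = 2 * 2 ^ m := by ring
  have eq' : 2 ^ (j + 1) = 2 * 2 ^ j := by ring
  have hu1 : 1 ≤ 2 ^ m := Nat.one_le_two_pow
  have hr1 : 1 ≤ 2 ^ j := Nat.one_le_two_pow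
  have hru : 2 ^ j ≤ 2 * 2 ^ m := by
    rw [← e2]; exact Nat.pow_le_pow_right (by norm_num) hj
  have P8 := r_pairs_top (m + 3) (8 * 2 ^ m) e8.symm
  have P4 := r_pairs_top (m + 2) (4 * 2 ^ m) e4.symm
  have P2 := r_pairs_top (m + 1) (2 * 2 ^ m) e2.symm
  have P1 := r_pairs_top m (2 ^ m) rfl
  have Pr := r_pairs_top j (2 ^ j) rfl
  have hMk : 2 ^ (m + 3) < M := by omega
  have H : Hyp (m + 3) M := by
    refine ⟨by omega, ?_, Or.inl ?_⟩ <;> rw [e8] <;> omega
  have hA : ∀ n Y : ℕ, n + Y = 4 * M → 12 * 2 ^ m ≤ Y → Y ≤ M → (TS (m + 3) 4 Y).ncard ≤ 1 →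
      A (a M) (m + 3 + 1) M n ≤ 1 := fun n Y h1 h2 h3 h4 =>
    r_pairs_A e8 hM hu1 h1 h2 h3 h4
  have hkill : ∀ (i : ℕ) (Y : ℕ), i ≤ m + 3 → e + (M - 2 ^ i) + Y = 4 * M → M ≤ f + 2 ^ i →
      12 * 2 ^ m ≤ Y → Y ≤ M → (TS (m + 3) 4 Y).ncard ≤ 1 → False := by
    intro i Y hi h1 h2 h3 h4 h5
    have hi2 : 2 ^ i ≤ 2 ^ (m + 3) := Nat.pow_le_pow_right (by norm_num) hi
    have hnc : Nc (m + 3) M (M - 2 ^ i) :=
      r_pairs_nc (q := 1) hMk hi le_rfl (by omega) (by omega)
    exact kill hId he hnc (by omega) (hA _ Y h1 h3 h4 h5) (by omega) hs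
  have hmin := nc_min hMk hf
  rw [e8] at hmin
  rcases follow H hId he hf hs with h2M | ⟨x, ⟨i, hi, rfl⟩, hx8, hex⟩
  · -- e ≥ 2 M
    obtain ⟨x₁, hx₁⟩ : ∃ x₁, e + x₁ = 3 * M := ⟨3 * M - e, by omega⟩
    have hx₁q : 2 * 2 ^ j ≤ x₁ := by omega
    have hx₁M : x₁ ≤ M := by omega
    have n3 := nc3 H he (by omega) hx₁M hx₁
    rw [e8] at n3
    rcases Nat.lt_or_ge x₁ (8 * 2 ^ m + 2 * 2 ^ j) with hlt | hge
    · -- (IIb)
      obtain ⟨x₂, hx₂⟩ : ∃ x₂, x₁ + x₂ = 8 * 2 ^ m + 2 * 2 ^ j :=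
        ⟨8 * 2 ^ m + 2 * 2 ^ j - x₁, by omega⟩
      have hf2 : f + x₂ = M := by omega
      obtain ⟨l, hl, rfl⟩ := nc1 H hf (by omega) hf2
      have hl1 : 1 ≤ 2 ^ l := Nat.one_le_two_pow
      rcases Nat.lt_or_ge l (m + 1) with hlm | hlm
      · have hlu : 2 ^ l ≤ 2 ^ m := Nat.pow_le_pow_right (by norm_num) (by omega)
        rcases lt_trichotomy l j with hlj | hlj | hlj
        · -- x₂ < r
          rcases Nat.lt_or_ge (l + 1) j with hlj2 | hlj2
          · -- 4 x₂ ≤ r
            exfalso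
            obtain ⟨c, rfl⟩ : ∃ c, j = c + 1 := ⟨j - 1, by omega⟩
            have hc2 : 2 ^ (c + 1) = 2 * 2 ^ c := by ring
            have hlc : 2 * 2 ^ l ≤ 2 ^ c := r_pairs_lt (by omega)
            have Pc := r_pairs_top c (2 ^ c) rfl
            have h1 : x₁ = 8 * 2 ^ m + (2 ^ (c + 1) + (2 ^ c + (2 ^ c - 2 ^ l))) := by omega
            have h2 : pc x₁ = 1 + (1 + (1 + pc (2 ^ c - 2 ^ l))) := by
              rw [h1, P8 _ (by omega), Pr _ (by omega), Pc _ (by omega)]
            have h3 := pc_pos (n := 2 ^ c - 2 ^ l) (by omega)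
            rcases n3 with n3 | n3 | n3 <;> omega
          · -- 2 x₂ = r
            exfalso
            have hj' : j = l + 1 := by omega
            subst hj'
            have hc2 : 2 ^ (l + 1) = 2 * 2 ^ l := by ring
            have Pl := r_pairs_top l (2 ^ l) rfl
            refine hkill (m + 2) (8 * 2 ^ m + (4 * 2 ^ m + (2 ^ (l + 1) + 2 ^ l))) (by omega)
              (by omega) (by omega) (by omega) (by omega) (TS_uniq ?_)
            rw [P8 _ (by omega), P4 _ (by omega), Pr _ (by omega), pc_pow]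
        · -- x₂ = r
          exfalso
          subst hlj
          exact hkill (m + 3) (2 * 2 ^ (m + 3) + 2 ^ l) le_rfl (by omega) (by omega) (by omega)
            (by omega) (r_pairs_four (by omega))
        · rcases Nat.lt_or_ge (j + 1) l with hlj2 | hlj2
          · -- 2 q ≤ x₂ ≤ u
            exfalso
            have h0 : 2 * 2 ^ (j + 1) ≤ 2 ^ l := r_pairs_lt hlj2
            have h1 : x₁ = 4 * 2 ^ m + (2 * 2 ^ m + (2 ^ m + (2 ^ m + 2 * 2 ^ j - 2 ^ l))) := by
              omega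
            have h2 : pc x₁ = 1 + (1 + (1 + pc (2 ^ m + 2 * 2 ^ j - 2 ^ l))) := by
              rw [h1, P4 _ (by omega), P2 _ (by omega), P1 _ (by omega)]
            have h3 := pc_pos (n := 2 ^ m + 2 * 2 ^ j - 2 ^ l) (by omega)
            rcases n3 with n3 | n3 | n3 <;> omega
          · -- x₂ = q
            have hl' : l = j + 1 := by omega
            subst hl'
            right; left
            constructor <;> omega
      · rcases Nat.lt_or_ge l (m + 2) with hlm2 | hlm2
        · -- x₂ = 2u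
          have hl' : l = m + 1 := by omega
          subst hl'
          rcases lt_trichotomy j m with hjm | hjm | hjm
          · exfalso
            have h0 : 2 * 2 ^ j ≤ 2 ^ m := r_pairs_lt hjm
            refine hkill (m + 3) (8 * 2 ^ m + (4 * 2 ^ m + (2 * 2 ^ m + 2 ^ (j + 1)))) le_rfl
              (by omega) (by omega) (by omega) (by omega) (TS_uniq ?_)
            rw [P8 _ (by omega), P4 _ (by omega), P2 _ (by omega), pc_pow]
          · subst hjm
            right; left
            constructor <;> omega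
          · exfalso
            have hj' : j = m + 1 := by omega
            subst hj'
            exact hkill (m + 3) (2 * 2 ^ (m + 3) + 2 ^ (m + 1)) le_rfl (by omega) (by omega)
              (by omega) (by omega) (r_pairs_four (by omega))
        · rcases Nat.lt_or_ge l (m + 3) with hlm3 | hlm3
          · have hl' : l = m + 2 := by omega
            subst hl'
            right; right; left
            constructor <;> omega
          · have hl' : l = m + 3 := by omega
            subst hl'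
            left
            constructor <;> omega
    · -- (IIa)
      exfalso
      obtain ⟨x', hx'⟩ : ∃ x', x' + x₁ = M + (8 * 2 ^ m + 2 * 2 ^ j) :=
        ⟨M + (8 * 2 ^ m + 2 * 2 ^ j) - x₁, by omega⟩
      have hf2 : f + x' = 2 * M := by omega
      have n2 := nc2 H hf (by omega) (by omega) hf2
      rw [e8] at n2
      rcases n2 with n2 | n2
      swap
      · omega
      rcases n3 with n3 | n3 | n3
      · -- x₁ < 16 u, pc x₁ ≤ 3
        have h1 : x₁ = 8 * 2 ^ m + (4 * 2 ^ m + (x₁ - 12 * 2 ^ m)) := by omega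
        have h2 : pc x₁ = 1 + (1 + pc (x₁ - 12 * 2 ^ m)) := by
          conv_lhs => rw [h1]
          rw [P8 _ (by omega), P4 _ (by omega)]
        have h3 := pc_pos (n := x₁ - 12 * 2 ^ m) (by omega)
        obtain ⟨l, hl⟩ := pc_one (n := x₁ - 12 * 2 ^ m) (by omega)
        have hl1 : 1 ≤ 2 ^ l := Nat.one_le_two_pow
        have hlm : l < m + 2 := by
          by_contra hcon
          have : 2 ^ (m + 2) ≤ 2 ^ l := Nat.pow_le_pow_right (by norm_num) (by omega)
          omega
        rcases Nat.lt_or_ge l (m + 1) with hlm2 | hlm2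
        · -- c ≤ u, c' = 2u
          have hlu : 2 ^ l ≤ 2 ^ m := Nat.pow_le_pow_right (by norm_num) (by omega)
          refine hkill (m + 1) (8 * 2 ^ m + (4 * 2 ^ m + (2 * 2 ^ m + 2 ^ l))) (by omega)
            (by omega) (by omega) (by omega) (by omega) (TS_uniq ?_)
          rw [P8 _ (by omega), P4 _ (by omega), P2 _ (by omega), pc_pow]
        · have hl' : l = m + 1 := by omega
          subst hl'
          refine hkill m (8 * 2 ^ m + (4 * 2 ^ m + (2 * 2 ^ m + 2 ^ m))) (by omega)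
            (by omega) (by omega) (by omega) (by omega) (TS_uniq ?_)
          rw [P8 _ (by omega), P4 _ (by omega), P2 _ (by omega), pc_pow]
      · -- x₁ = 16 u
        have h20 : 2 ^ 0 = 1 := rfl
        exact hkill 0 (2 * 2 ^ (m + 3) + 1) (by omega) (by omega) (by omega) (by omega)
          (by omega) (r_pairs_four (by omega))
      · omega
  · -- e = 2 M - x
    rw [e8] at hx8
    have hx1 : 1 ≤ 2 ^ i := Nat.one_le_two_pow
    have hi' : i < m + 3 := by
      by_contra hcon
      have : 2 ^ (m + 3) ≤ 2 ^ i := Nat.pow_le_pow_right (by norm_num) (by omega)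
      omega
    have hi4 : 2 ^ i ≤ 4 * 2 ^ m := by
      rw [← e4]; exact Nat.pow_le_pow_right (by norm_num) (by omega)
    obtain ⟨x', hx'⟩ : ∃ x', x' + 2 ^ i = 8 * 2 ^ m + 2 * 2 ^ j :=
      ⟨8 * 2 ^ m + 2 * 2 ^ j - 2 ^ i, by omega⟩
    have hf2 : f + x' = 2 * M := by omega
    have n2 := nc2 H hf (by omega) (by omega) hf2
    rw [e8] at n2
    rcases n2 with n2 | n2
    swap
    · exfalso; omega
    rcases lt_trichotomy i j with hij | hij | hij
    · exfalso
      have h0 : 2 * 2 ^ i ≤ 2 ^ j := r_pairs_lt hij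
      have h1 : x' = 8 * 2 ^ m + (2 ^ j + (2 ^ j - 2 ^ i)) := by omega
      have h2 : pc x' = 1 + (1 + pc (2 ^ j - 2 ^ i)) := by
        rw [h1, P8 _ (by omega), Pr _ (by omega)]
      have h3 := pc_pos (n := 2 ^ j - 2 ^ i) (by omega)
      omega
    · subst hij
      right; right; right
      constructor <;> omega
    · exfalso
      have h0 : 2 * 2 ^ j ≤ 2 ^ i := r_pairs_lt hij
      have hncx : Nc (m + 3) M (M - 2 ^ i) :=
        r_pairs_nc (q := 1) hMk (by omega) le_rfl (by omega) (by omega)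
      have hnc8 : Nc (m + 3) M (M - 2 ^ (m + 3)) :=
        r_pairs_nc (q := 1) hMk le_rfl le_rfl (by omega) (by omega)
      have h1 := nf1 H hncx hx1 (by omega)
      have h2 := kill hId hncx hnc8 (by omega) h1 (g := M - x') (by omega)
      apply h2
      refine step_mono hs ?_ (by omega)
      exact modEq_of_level (k := 1) (k' := 2) (x := 2 ^ i) (by omega) (by omega)

end Pool.Agent.H978D
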