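import Pool.Agent.H978D.Defs
import Pool.Agent.H978D.D1
import Pool.Agent.H978D.D10
import Pool.Agent.H978D.D11
import Pool.Agent.H978D.D12
import Pool.Agent.H978D.D13
import Pool.Agent.H978D.D19
import Pool.Agent.H978D.D2
import Pool.Agent.H978D.D3
import Pool.Agent.H978D.D4
import Pool.Agent.H978D.D5
import Pool.Agent.H978D.D6
import Pool.Agent.H978D.D7
import Pool.Agent.H978D.D8
import Pool.Agent.H978D.D9

set_option autoImplicit false

namespace Pool.Agent.H978D

open Pool.Agent.MPe9218d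



































/-- TARGET -/
theorem r_step {m M D j : ℕ} {b : ℕ → ℕ} (hb : ∀ j, 1 ≤ j → j ≤ M → 1 ≤ b j)
    (hM : M = 16 * 2 ^ m + D) (hD : 2 ^ j ≤ D)
    (hj : j ≤ m + 1) (hId : Identity M (m + 3 + 1) b) :
    Step b M (2 * M - 2 ^ j) (2 * M - (8 * 2 ^ m + 2 ^ j)) := by
  by_contra hcon
  have hu : 1 ≤ 2 ^ m := Nat.one_le_two_pow
  have h8 : 2 ^ (m + 3) = 8 * 2 ^ m := by ring
  have hj2 : 2 ^ j ≤ 2 * 2 ^ m := by
    calc 2 ^ j ≤ 2 ^ (m + 1) := Nat.pow_le_pow_right (by norm_num) hj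
      _ = 2 * 2 ^ m := by ring
  have hj0 : 1 ≤ 2 ^ j := Nat.one_le_two_pow
  have hyp : Hyp (m + 3) M :=
    ⟨by omega, by rw [h8]; omega, Or.inl (by rw [h8]; omega)⟩
  obtain ⟨n, hn⟩ : ∃ n, n = 4 * M - (8 * 2 ^ m + 2 * 2 ^ j) := ⟨_, rfl⟩
  have hn1 : 1 ≤ n := by omega
  have hid := hId n hn1
  have hsub : BSet b M (C M (m + 3 + 1)) n ⊆
      ((({[n], [3 * M - 2 * 2 ^ j, M - 8 * 2 ^ m], [3 * M - 8 * 2 ^ m, M - 2 * 2 ^ j],
        [3 * M - (4 * 2 ^ m + 2 * 2 ^ j), M - 4 * 2 ^ m]} : Finset (List ℕ))) :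
          Set (List ℕ)) := by
    intro l hl
    rcases len_two hyp hb hId hn1 (by rw [h8]; omega) hl with
      h | ⟨e, f, rfl, hef, hfe, he, hf, hs⟩
    · rw [h]
      simp
    · rcases r_pairs hM hD hj hId he hf hfe hs (by omega) with h | h | h | h
      · have e1 : e = 3 * M - 2 * 2 ^ j := by omega
        have e2 : f = M - 8 * 2 ^ m := by omega
        rw [e1, e2]
        simp
      · have e1 : e = 3 * M - 8 * 2 ^ m := by omega
        have e2 : f = M - 2 * 2 ^ j := by omega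
        rw [e1, e2]
        simp
      · have e1 : e = 3 * M - (4 * 2 ^ m + 2 * 2 ^ j) := by omega
        have e2 : f = M - 4 * 2 ^ m := by omega
        rw [e1, e2]
        simp
      · exfalso
        apply hcon
        have e1 : e = 2 * M - 2 ^ j := by omega
        have e2 : f = 2 * M - (8 * 2 ^ m + 2 ^ j) := by omega
        rw [← e1, ← e2]
        exact hs
  have hcard : B0 b M (C M (m + 3 + 1)) n ≤
      ({[n], [3 * M - 2 * 2 ^ j, M - 8 * 2 ^ m], [3 * M - 8 * 2 ^ m, M - 2 * 2 ^ j],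
        [3 * M - (4 * 2 ^ m + 2 * 2 ^ j), M - 4 * 2 ^ m]} : Finset (List ℕ)).card := by
    unfold B0
    rw [← Set.ncard_coe_finset]
    exact Set.ncard_le_ncard hsub (Finset.finite_toSet _)
  rcases Nat.lt_or_ge m j with h | h
  · have hjm : j = m + 1 := by omega
    subst hjm
    have e0 : 2 ^ (m + 1) = 2 * 2 ^ m := by ring
    have hl := r_lower' (m := m) (M := M) (by omega)
    have e1 : n = 4 * M - 12 * 2 ^ m := by omega
    rw [← e1, hid] at hl
    have e2 : M - 2 * 2 ^ (m + 1) = M - 4 * 2 ^ m := by omega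
    have e3 : 3 * M - (4 * 2 ^ m + 2 * 2 ^ (m + 1)) = 3 * M - 8 * 2 ^ m := by omega
    rw [e2, e3, Finset.pair_eq_singleton] at hcard
    have := hcard.trans Finset.card_le_three
    omega
  · have hl := r_lower (m := m) (M := M) (j := j) (by omega) h
    rw [← hn, hid] at hl
    have := hcard.trans Finset.card_le_four
    omega

end Pool.Agent.H978D
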