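import Pool.Agent.H978D.Defs
import Pool.Agent.H978D.D1
import Pool.Agent.H978D.D2
import Pool.Agent.H978D.D3
import Pool.Agent.H978D.D4
import Pool.Agent.H978D.D5
import Pool.Agent.H978D.D6
import Pool.Agent.H978D.D7
import Pool.Agent.H978D.D8
import Pool.Agent.H978D.D9

set_option autoImplicit false

namespace Pool.Agent.H978D

open Pool.Agent.MPe9218d

























/-- TARGET -/
theorem r_upper {m M D i : ℕ} (hM : M = 16 * 2 ^ m + D) (hi : i ≤ m)
    (hD : ∀ t, t ≤ m + 2 → D + 3 * 2 ^ i ≠ 2 ^ t) :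
    A (a M) (m + 3 + 1) M (3 * M - 3 * 2 ^ i) ≤ 2 := by
  have hu : 0 < 2 ^ m := by positivity
  have hR : 0 < 2 ^ i := by positivity
  have hiu : 2 ^ i ≤ 2 ^ m := Nat.pow_le_pow_right (by norm_num) hi
  have hk : 2 ^ (m + 3) = 8 * 2 ^ m := by rw [pow_add]; ring
  have hMk : 2 ^ (m + 3) < M := by rw [hk]; omega
  refine le_trans (A_cover hMk {(3, 3 * 2 ^ i)} ?_) ?_
  · intro L Y hLY hne
    rw [Finset.mem_singleton]
    rcases lt_trichotomy L 3 with h3 | h3 | h3
    · exfalso
      have h4 : L * M ≤ 2 * M := Nat.mul_le_mul_right M (by omega)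
      omega
    · subst h3
      have : Y = 3 * 2 ^ i := by omega
      rw [this]
    · exfalso
      obtain ⟨T, hT⟩ := hne
      rcases Nat.lt_or_ge 4 L with h4 | h4
      · have hb := TS_bound hT
        rw [hk] at hb
        obtain ⟨j, rfl⟩ : ∃ j, L = j + 5 := ⟨L - 5, by omega⟩
        have e1 : (j + 5) * M = j * M + 5 * M := by ring
        have e2 : 8 * 2 ^ m * (j + 5 + 1) = 8 * (j * 2 ^ m) + 48 * 2 ^ m := by ring
        have e3 : j * M = 16 * (j * 2 ^ m) + j * D := by rw [hM]; ring
        rw [e1] at hLY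
        rw [e2] at hb
        omega
      · have h5 : L = 4 := by omega
        subst h5
        have hY : Y = 16 * 2 ^ m + (D + 3 * 2 ^ i) := by omega
        obtain ⟨t, ht, _, hYt⟩ := TS_four_top hT (by rw [hk]; omega)
        rw [hk] at hYt
        exact hD t (by omega) (by omega)
  · rw [Finset.sum_singleton]
    refine TS_three_card ?_
    have e : 3 * 2 ^ i = 2 ^ (i + 1) + 2 ^ i := by rw [pow_succ]; ring
    rw [e, pc_top (by rw [pow_succ]; omega), pc_pow]

end Pool.Agent.H978D
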