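import Pool.Agent.H978D.Defs
import Pool.Agent.H978D.D20
import Pool.Agent.H978D.D21
import Pool.Agent.H978D.D3
import Pool.Agent.H978D.D8
import Pool.Agent.H978D.D9

set_option autoImplicit false

namespace Pool.Agent.H978D

open Pool.Agent.MPe9218d






/-- TARGET -/
theorem r_final {m M D i : ℕ} {b : ℕ → ℕ} (hb : ∀ j, 1 ≤ j → j ≤ M → 1 ≤ b j)
    (hM : M = 16 * 2 ^ m + D) (hi : i ≤ m) (hiD : 2 * 2 ^ i ≤ D)
    (hD : ∀ t, t ≤ m + 2 → D + 3 * 2 ^ i ≠ 2 ^ t) : ¬ Identity M (m + 3 + 1) b := by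
  intro hId
  have hup := r_upper hM hi hD
  have hs1 := r_step (j := i) hb hM (by omega) (by omega) hId
  have hs2 := r_step (j := i + 1) hb hM (by rw [pow_succ]; omega) (by omega) hId
  have hR : 1 ≤ 2 ^ i := Nat.one_le_two_pow
  have hRu : 2 ^ i ≤ 2 ^ m := Nat.pow_le_pow_right (by norm_num) hi
  have h2R : 2 ^ (i + 1) = 2 * 2 ^ i := by ring
  rw [h2R] at hs2
  have hk : 2 ^ (m + 3) = 8 * 2 ^ m := by ring
  have hkM : 2 ^ (m + 3) < M := by rw [hk]; omega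
  -- the allowed parts
  have n1 : Nc (m + 3) M (2 * M - 2 ^ i) := by
    refine (nc_iff hkM (by omega)).2 ⟨2, 2 ^ i, ⟨{(2, i)}, ?_⟩, by omega⟩
    refine ⟨?_, by simp, by simp⟩
    intro p hp
    rw [Finset.mem_singleton] at hp
    subst hp
    exact ⟨by norm_num, by show i ≤ m + 3; omega⟩
  have n2 : Nc (m + 3) M (M - 2 * 2 ^ i) := by
    refine (nc_iff hkM (by omega)).2 ⟨1, 2 * 2 ^ i, ⟨{(1, i + 1)}, ?_⟩, by omega⟩
    refine ⟨?_, by simp, by simp [h2R]⟩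
    intro p hp
    rw [Finset.mem_singleton] at hp
    subst hp
    exact ⟨le_rfl, by show i + 1 ≤ m + 3; omega⟩
  have n3 : Nc (m + 3) M (2 * M - 2 * 2 ^ i) := by
    refine (nc_iff hkM (by omega)).2 ⟨2, 2 * 2 ^ i, ⟨{(2, i + 1)}, ?_⟩, by omega⟩
    refine ⟨?_, by simp, by simp [h2R]⟩
    intro p hp
    rw [Finset.mem_singleton] at hp
    subst hp
    exact ⟨by norm_num, by show i + 1 ≤ m + 3; omega⟩
  have n4 : Nc (m + 3) M (M - 2 ^ i) := by
    refine (nc_iff hkM (by omega)).2 ⟨1, 2 ^ i, ⟨{(1, i)}, ?_⟩, by omega⟩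
    refine ⟨?_, by simp, by simp⟩
    intro p hp
    rw [Finset.mem_singleton] at hp
    subst hp
    exact ⟨le_rfl, by show i ≤ m + 3; omega⟩
  have n5 : Nc (m + 3) M (3 * M - 3 * 2 ^ i) := by
    refine (nc_iff hkM (by omega)).2 ⟨3, 3 * 2 ^ i, ⟨{(2, i), (1, i + 1)}, ?_⟩, by omega⟩
    have hne : ((2, i) : ℕ × ℕ) ∉ ({(1, i + 1)} : Finset (ℕ × ℕ)) := by simp
    refine ⟨?_, ?_, ?_⟩
    · intro p hp
      rw [Finset.mem_insert, Finset.mem_singleton] at hp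
      rcases hp with rfl | rfl
      · exact ⟨by norm_num, by show i ≤ m + 3; omega⟩
      · exact ⟨le_rfl, by show i + 1 ≤ m + 3; omega⟩
    · rw [Finset.sum_insert hne, Finset.sum_singleton]; norm_num
    · rw [Finset.sum_insert hne, Finset.sum_singleton]
      show 2 ^ i + 2 ^ (i + 1) = 3 * 2 ^ i
      omega
  have s1 : Step b M (2 * M - 2 ^ i) (M - 2 * 2 ^ i) :=
    step_mono hs1 (Nat.ModEq.refl _) (by omega)
  have s2 : Step b M (2 * M - 2 * 2 ^ i) (M - 2 ^ i) :=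
    step_mono hs2 (Nat.ModEq.refl _) (by omega)
  have hAB := hId (3 * M - 3 * 2 ^ i) (by omega)
  have m1 := mem_BSet_one (b := b) (M := M) n5.1 n5.2
  have m2 := mem_BSet_two (b := b) (M := M) (n := 3 * M - 3 * 2 ^ i) n2.1 (by omega) n1.2 n2.2 s1
    (by omega)
  have m3 := mem_BSet_two (b := b) (M := M) (n := 3 * M - 3 * 2 ^ i) n4.1 (by omega) n3.2 n4.2 s2
    (by omega)
  have hfin := finite_BSet b M (C M (m + 3 + 1)) (3 * M - 3 * 2 ^ i)
  have h3 : 2 < (BSet b M (C M (m + 3 + 1)) (3 * M - 3 * 2 ^ i)).ncard := by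
    rw [Set.two_lt_ncard_iff hfin]
    refine ⟨_, _, _, m1, m2, m3, by simp, by simp, ?_⟩
    intro h
    have := (List.cons.inj h).1
    omega
  unfold B0 at hAB
  omega

/-- TARGET -/
theorem main_II {m M : ℕ} {b : ℕ → ℕ} (hb : ∀ j, 1 ≤ j → j ≤ M → 1 ≤ b j)
    (hM : 16 * 2 ^ m + 2 ≤ M) : ¬ Identity M (m + 3 + 1) b := by
  obtain ⟨D, hD⟩ := Nat.exists_eq_add_of_le (show 16 * 2 ^ m ≤ M by omega)
  have hD2 : 2 ≤ D := by omega
  by_cases h : ∀ t, t ≤ m + 2 → D + 3 ≠ 2 ^ t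
  · exact r_final (i := 0) hb hD (Nat.zero_le _) (by simpa using hD2) (by simpa using h)
  · push Not at h
    obtain ⟨t, ht, h⟩ := h
    have ht3 : 3 ≤ t := by
      by_contra hlt
      have : t ≤ 2 := by omega
      have h4 : 2 ^ t ≤ 2 ^ 2 := Nat.pow_le_pow_right (by norm_num) this
      omega
    have h8 : 2 ^ 3 ≤ 2 ^ t := Nat.pow_le_pow_right (by norm_num) ht3
    have hev : 2 ∣ 2 ^ t := dvd_pow_self 2 (by omega)
    refine r_final (i := 1) hb hD (by omega) (by omega) ?_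
    intro t' _ heq
    rcases Nat.eq_zero_or_pos t' with rfl | hpos
    · simp at heq
    · have hev' : 2 ∣ 2 ^ t' := dvd_pow_self 2 (by omega)
      omega

end Pool.Agent.H978D
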