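import Pool.Agent.MPe9218d.Core

set_option autoImplicit false

/-!
Definitions for problem MP_e9218d_nt, `s = k + 1`, `w = 2^k` (owner helper978).
-/

namespace Pool.Agent.H978D

open Pool.Agent.MPe9218d

/-- number of ones in the binary expansion -/
def pc (n : ℕ) : ℕ := (Nat.digits 2 n).sum

/-- powers of two available as colours when `s = k + 1` -/
def Pw (k x : ℕ) : Prop := ∃ i, i ≤ k ∧ x = 2 ^ i

/-- finite sets of pairs `(q, i)`, `1 ≤ q`, `i ≤ k`, with `∑ q = L` and `∑ 2 ^ i = Y`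
(the pair `(q, i)` stands for the part `q * M - 2 ^ i`) -/
def TS (k L Y : ℕ) : Set (Finset (ℕ × ℕ)) :=
  {T | (∀ p ∈ T, 1 ≤ p.1 ∧ p.2 ≤ k) ∧ ∑ p ∈ T, p.1 = L ∧ ∑ p ∈ T, 2 ^ p.2 = Y}

/-- `n` is a part that is allowed -/
def Nc (k M e : ℕ) : Prop := 1 ≤ e ∧ e ∉ C M (k + 1)

/-- the hypothesis on the modulus: `7w/4 < M` and (`2w ≤ M` or `2w - M` has at least three ones) -/
def Hyp (k M : ℕ) : Prop :=
  3 ≤ k ∧ 7 * 2 ^ k < 4 * M ∧ (2 * 2 ^ k ≤ M ∨ 3 ≤ pc (2 * 2 ^ k - M))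

end Pool.Agent.H978D
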