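import Pool.Agent.H978D.Defs

set_option autoImplicit false

namespace Pool.Agent.H978D

open Pool.Agent.MPe9218d

/-- formal chains -/
def FB (k Q X : ℕ) (R : ℕ × ℕ → ℕ × ℕ → Prop) : Set (List (ℕ × ℕ)) :=
  {l | (∀ p ∈ l, 1 ≤ p.1 ∧ 1 ≤ p.2 ∧ (TS k p.1 p.2).Nonempty) ∧ (l.map Prod.fst).sum = Q ∧
    (l.map Prod.snd).sum = X ∧ l.IsChain R}

end Pool.Agent.H978D
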