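import Pool.Agent.H978D.Defs

set_option autoImplicit false

namespace Pool.Agent.H978D

/-- the range `3w/2 < M < 7w/4`, `w = 8 * 2 ^ m`, with `2w - M` having at least three ones -/
def Hyp2 (m M E g : ℕ) : Prop :=
  M + E = 16 * 2 ^ m ∧ E + g = 4 * 2 ^ m ∧ 1 ≤ g ∧ g < 2 * 2 ^ m ∧ 3 ≤ pc E

end Pool.Agent.H978D
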