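import Pool.Agent.H978D.Defs

set_option autoImplicit false

namespace Pool.Agent.H978D

/-- `M = 2^k + G`, `2^r` is the least power of two above `G`, `r < k`, `d = 2^r - G` -/
def Hyp4 (k r M d G : ℕ) : Prop :=
  r + 1 ≤ k ∧ M = 2 ^ k + G ∧ d + G = 2 ^ r ∧ 2 * d < 2 ^ r ∧ 5 ≤ pc G ∧ 3 ≤ pc d

/-- `M = 2^k + G`, `r < k`, `d = 2^r - G` has exactly two ones -/
def Hyp5 (k r M d G : ℕ) : Prop :=
  r + 1 ≤ k ∧ M = 2 ^ k + G ∧ 1 ≤ G ∧ d + G = 2 ^ r ∧ pc d = 2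

end Pool.Agent.H978D
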