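import Pool.Agent.H978D.DefsE
import Pool.Agent.H978D.D3
import Pool.Agent.H978D.D4
import Pool.Agent.H978D.D8

set_option autoImplicit false

namespace Pool.Agent.H978D

open Pool.Agent.MPe9218d








theorem level_unique {k M Q X n L Y : ℕ} (hM : 2 ^ k < M) (hX : 1 ≤ X) (hXM : X ≤ M)
    (hW : 2 ^ k * (Q + 2) ≤ 2 * M) (hn : 1 ≤ n) (hn1 : n + X = Q * M) (hn2 : n + Y = L * M)
    (hT : (TS k L Y).Nonempty) : L = Q ∧ Y = X := by
  obtain ⟨T, hT⟩ := hT
  have hL : 1 ≤ L := by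
    rcases Nat.eq_zero_or_pos L with h | h
    · subst h; simp at hn2; omega
    · exact h
  have hY : 1 ≤ Y := (TS_card hT).2.2.2.1 hL
  have hb := TS_bound hT
  rcases lt_trichotomy L Q with h | h | h
  · exfalso
    have h1 : (L + 1) * M ≤ Q * M := Nat.mul_le_mul_right M h
    have h2 : (L + 1) * M = L * M + M := by ring
    omega
  · subst h
    exact ⟨rfl, by omega⟩
  · exfalso
    obtain ⟨t, rfl⟩ : ∃ t, L = Q + 1 + t := ⟨L - (Q + 1), by omega⟩
    have h1 : (Q + 1 + t) * M = Q * M + M + t * M := by ring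
    have h2 : 2 ^ k * (Q + 1 + t + 1) = 2 ^ k * (Q + 2) + t * 2 ^ k := by ring
    have h3 : t * 2 ^ k ≤ t * M := Nat.mul_le_mul_left t hM.le
    rw [h2] at hb
    omega

/-- TARGET -/
theorem A_nowrap {k M Q X : ℕ} (hM : 2 ^ k < M) (hX : 1 ≤ X) (hXM : X < M)
    (hQ : 1 ≤ Q) (hW : 2 ^ k * (Q + 2) ≤ 2 * M) :
    A (a M) (k + 1) M (Q * M - X) = (TS k Q X).ncard := by
  have hQM : M ≤ Q * M := Nat.le_mul_of_pos_left M hQ
  have hn : 1 ≤ Q * M - X := by omega
  have hn1 : (Q * M - X) + X = Q * M := by omega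
  apply le_antisymm
  · have h := A_cover (k := k) (M := M) (n := Q * M - X) hM {(Q, X)} (by
      intro L Y hLY hne
      obtain ⟨h1, h2⟩ := level_unique hM hX hXM.le hW hn hn1 hLY hne
      rw [h1, h2]
      exact Finset.mem_singleton_self _)
    simpa using h
  · rw [Set.ncard_eq_toFinset_card _ (TS_finite k Q X)]
    apply A_lower hM
    intro T hT
    rw [Set.Finite.mem_toFinset] at hT
    exact ⟨Q, X, hT, hn1⟩

/-- TARGET -/
theorem Nc_nowrap {k M q x : ℕ} (hM : 2 ^ k < M) (hx : 1 ≤ x) (hxM : x ≤ M) (hq : 1 ≤ q)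
    (hW : 2 ^ k * (q + 2) ≤ 2 * M) : Nc k M (q * M - x) ↔ (TS k q x).Nonempty := by
  have hQM : M ≤ q * M := Nat.le_mul_of_pos_left M hq
  rcases Nat.eq_zero_or_pos (q * M - x) with h0 | hn
  · have hx' : x = M := by omega
    have hqM : q * M = M := by omega
    have hq1 : q = 1 := by
      have hMpos : 0 < M := by omega
      nlinarith
    constructor
    · intro h
      rw [h0] at h
      exact absurd h.1 (by norm_num)
    · rintro ⟨T, hT⟩
      rw [hq1, hx'] at hT
      obtain ⟨i, hi, hMi⟩ := TS_one hT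
      have : (2 : ℕ) ^ i ≤ 2 ^ k := Nat.pow_le_pow_right (by norm_num) hi
      omega
  · rw [nc_iff hM hn]
    have hn1 : (q * M - x) + x = q * M := by omega
    constructor
    · rintro ⟨L, Y, hne, hLY⟩
      obtain ⟨h1, h2⟩ := level_unique hM hx hxM hW hn hn1 hLY hne
      rwa [h1, h2] at hne
    · intro hne
      exact ⟨q, x, hne, hn1⟩

end Pool.Agent.H978D
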