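import Pool.Agent.H978D.DefsE
import Pool.Agent.H978D.D3
import Pool.Agent.H978D.D4

set_option autoImplicit false

namespace Pool.Agent.H978D

open Pool.Agent.MPe9218d




theorem E2_elem {k : ℕ} {p : ℕ × ℕ} (h1 : 1 ≤ p.1) (h2 : (TS k p.1 p.2).Nonempty)
    (h3 : p ≠ (1, 2 ^ k)) : 4 * p.2 ≤ 2 ^ k * (3 * p.1) := by
  obtain ⟨q, x⟩ := p
  obtain ⟨T, hT⟩ := h2
  simp only at h1 hT ⊢
  rcases Nat.lt_or_ge 1 q with hq | hq
  · have hb := TS_bound hT
    have h4 : 2 ^ k * (q + 1) * 2 ≤ 2 ^ k * (3 * q) := by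
      rw [mul_assoc]
      exact Nat.mul_le_mul_left _ (by omega)
    omega
  · have hq1 : q = 1 := by omega
    subst hq1
    obtain ⟨i, hi, rfl⟩ := TS_one hT
    have hik : i ≠ k := by
      rintro rfl
      exact h3 rfl
    have h4 : 2 ^ (i + 1) ≤ 2 ^ k := Nat.pow_le_pow_right (by norm_num) (by omega)
    rw [pow_succ] at h4
    omega

theorem E2_list {k : ℕ} (l : List (ℕ × ℕ))
    (h1 : ∀ p ∈ l, 1 ≤ p.1 ∧ (TS k p.1 p.2).Nonempty) (h2 : (1, 2 ^ k) ∉ l) :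
    4 * (l.map Prod.snd).sum ≤ 2 ^ k * (3 * (l.map Prod.fst).sum) := by
  induction l with
  | nil => simp
  | cons p l ih =>
    rw [List.mem_cons, not_or] at h2
    have h3 := ih (fun q hq => h1 q (List.mem_cons_of_mem _ hq)) h2.2
    have hp := h1 p List.mem_cons_self
    have h4 := E2_elem hp.1 hp.2 (fun h => h2.1 h.symm)
    simp only [List.map_cons, List.sum_cons]
    have h5 : 2 ^ k * (3 * (p.1 + (l.map Prod.fst).sum)) =
        2 ^ k * (3 * p.1) + 2 ^ k * (3 * (l.map Prod.fst).sum) := by ring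
    rw [h5]
    omega

/-- TARGET -/
theorem wrap_bound {k : ℕ} {l : List (ℕ × ℕ)}
    (h1 : ∀ p ∈ l, 1 ≤ p.1 ∧ (TS k p.1 p.2).Nonempty) (h2 : l.Nodup) :
    4 * (l.map Prod.snd).sum ≤ 2 ^ k * (3 * (l.map Prod.fst).sum + 1) := by
  by_cases hm : (1, 2 ^ k) ∈ l
  · have hperm := List.perm_cons_erase hm
    have hs : (l.map Prod.snd).sum = 2 ^ k + ((l.erase (1, 2 ^ k)).map Prod.snd).sum := by
      rw [(hperm.map Prod.snd).sum_eq, List.map_cons, List.sum_cons]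
    have hf : (l.map Prod.fst).sum = 1 + ((l.erase (1, 2 ^ k)).map Prod.fst).sum := by
      rw [(hperm.map Prod.fst).sum_eq, List.map_cons, List.sum_cons]
    have h3 := E2_list (l.erase (1, 2 ^ k)) (fun p hp => h1 p (List.mem_of_mem_erase hp))
      h2.not_mem_erase
    rw [hs, hf]
    have h5 : 2 ^ k * (3 * (1 + ((l.erase (1, 2 ^ k)).map Prod.fst).sum) + 1) =
        4 * 2 ^ k + 2 ^ k * (3 * ((l.erase (1, 2 ^ k)).map Prod.fst).sum) := by ring
    rw [h5]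
    omega
  · have h3 := E2_list l h1 hm
    refine h3.trans (Nat.mul_le_mul_left _ (by omega))

end Pool.Agent.H978D
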