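import Pool.Agent.H978D.DefsE
import Pool.Agent.H978D.D3
import Pool.Agent.H978D.D4
import Pool.Agent.H978D.D8
import Pool.Agent.H978D.E1
import Pool.Agent.H978D.E2

set_option autoImplicit false

namespace Pool.Agent.H978D

open Pool.Agent.MPe9218d








/-- the part `q * M - x` of the pair `(q, x)` -/
def E3f (M : ℕ) (p : ℕ × ℕ) : ℕ := p.1 * M - p.2

/-- the pair of the part `e` -/
def E3g (M e : ℕ) : ℕ × ℕ := (e / M + 1, M - e % M)

theorem E3fg {M : ℕ} (hM : 1 ≤ M) (e : ℕ) : E3f M (E3g M e) = e := by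
  unfold E3f E3g
  have h1 := Nat.div_add_mod e M
  have h2 := Nat.mod_lt e hM
  have h3 : (e / M + 1) * M = M * (e / M) + M := by ring
  simp only
  rw [h3]
  omega

theorem E3gf {M q x : ℕ} (hq : 1 ≤ q) (hx : 1 ≤ x) (hxM : x ≤ M) :
    E3g M (E3f M (q, x)) = (q, x) := by
  obtain ⟨r, rfl⟩ := Nat.exists_eq_add_of_le hq
  have h1 : E3f M (1 + r, x) = M * r + (M - x) := by
    unfold E3f
    have : (1 + r) * M = M * r + M := by ring
    simp only
    rw [this]
    omega
  rw [h1]
  unfold E3g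
  have h2 : (M * r + (M - x)) / M = r := by
    rw [Nat.mul_add_div (by omega), Nat.div_eq_of_lt (by omega)]; rfl
  have h3 : (M * r + (M - x)) % M = M - x := by
    rw [Nat.mul_add_mod, Nat.mod_eq_of_lt (by omega)]
  rw [h2, h3]
  ext
  · simp only; omega
  · simp only; omega

theorem E3_add {M : ℕ} (hM : 1 ≤ M) (e : ℕ) : e + (E3g M e).2 = (E3g M e).1 * M := by
  unfold E3g
  have h1 := Nat.div_add_mod e M
  have h2 := Nat.mod_lt e hM
  have h3 : (e / M + 1) * M = M * (e / M) + M := by ring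
  simp only
  rw [h3]
  omega

theorem E3_sum_g {M : ℕ} (hM : 1 ≤ M) (l : List ℕ) :
    l.sum + ((l.map (E3g M)).map Prod.snd).sum = ((l.map (E3g M)).map Prod.fst).sum * M := by
  induction l with
  | nil => simp
  | cons e l ih =>
    have h := E3_add hM e
    simp only [List.map_cons, List.sum_cons, add_mul]
    omega

theorem E3_sum_f {M : ℕ} (l : List (ℕ × ℕ)) (h : ∀ p ∈ l, p.2 ≤ p.1 * M) :
    (l.map (E3f M)).sum + (l.map Prod.snd).sum = (l.map Prod.fst).sum * M := by
  induction l with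
  | nil => simp
  | cons p l ih =>
    have h1 := h p List.mem_cons_self
    have h2 := ih (fun q hq => h q (List.mem_cons_of_mem _ hq))
    have h3 : E3f M p + p.2 = p.1 * M := by unfold E3f; omega
    simp only [List.map_cons, List.sum_cons, add_mul]
    omega

theorem E3_props {k M Q X : ℕ} {R : ℕ × ℕ → ℕ × ℕ → Prop} (hM : 2 ^ k < M)
    (hW : 2 ^ k * (Q + 2) ≤ 2 * M) {l : List (ℕ × ℕ)} (hl : l ∈ FB k Q X R) :
    ∀ p ∈ l, 1 ≤ p.1 ∧ p.1 ≤ Q ∧ 1 ≤ p.2 ∧ p.2 ≤ M ∧ p.2 ≤ p.1 * M ∧ Nc k M (E3f M p) := by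
  obtain ⟨h1, h2, _, _⟩ := hl
  intro p hp
  obtain ⟨a1, a2, a3⟩ := h1 p hp
  have hQ : p.1 ≤ Q := by
    rw [← h2]
    exact List.le_sum_of_mem (List.mem_map_of_mem hp)
  obtain ⟨T, hT⟩ := a3
  have hb := TS_bound hT
  have h3 : 2 ^ k * (p.1 + 1) ≤ 2 ^ k * (Q + 2) := Nat.mul_le_mul_left _ (by omega)
  have hxM : p.2 ≤ M := by omega
  have h4 : 2 ^ k * (p.1 + 2) ≤ 2 ^ k * (Q + 2) := Nat.mul_le_mul_left _ (by omega)
  refine ⟨a1, hQ, a2, hxM, ?_, ?_⟩
  · calc p.2 ≤ 1 * M := by omega
      _ ≤ p.1 * M := Nat.mul_le_mul_right _ a1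
  · exact (Nc_nowrap hM a2 hxM a1 (by omega)).mpr ⟨T, hT⟩

/-- TARGET -/
theorem B0_nowrap {k M Q X : ℕ} {b : ℕ → ℕ} (hb : ∀ j, 1 ≤ j → j ≤ M → 1 ≤ b j)
    (hM : 2 ^ k < M) (hX : 1 ≤ X) (hXM : X < M) (hQ : 1 ≤ Q)
    (hW : 2 ^ k * (Q + 2) ≤ 2 * M) (hW2 : 2 ^ k * (3 * Q + 4) < 4 * (M + 1)) :
    B0 b M (C M (k + 1)) (Q * M - X) =
      (FB k Q X (fun p p' => Step b M (p.1 * M - p.2) (p'.1 * M - p'.2))).ncard := by
  have hw : 1 ≤ 2 ^ k := Nat.one_le_two_pow
  have hM1 : 1 ≤ M := by omega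
  have hQM : M ≤ Q * M := Nat.le_mul_of_pos_left _ hQ
  set R : ℕ × ℕ → ℕ × ℕ → Prop := fun p p' => Step b M (p.1 * M - p.2) (p'.1 * M - p'.2) with hR
  have himg : BSet b M (C M (k + 1)) (Q * M - X) = (fun l => l.map (E3f M)) '' FB k Q X R := by
    ext l'
    constructor
    · rintro ⟨⟨h1, h2, h3⟩, h4, h5⟩
      have hfg : (l'.map (E3g M)).map (E3f M) = l' := by
        rw [List.map_map]
        conv_rhs => rw [← List.map_id l']
        apply List.map_congr_left
        intro e _
        exact E3fg hM1 e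
      have hpr : ∀ p ∈ l'.map (E3g M), 1 ≤ p.1 ∧ 1 ≤ p.2 ∧ (TS k p.1 p.2).Nonempty := by
        intro p hp
        obtain ⟨e, he, rfl⟩ := List.mem_map.mp hp
        have e1 : 1 ≤ (E3g M e).1 := by unfold E3g; simp
        have e2 : 1 ≤ (E3g M e).2 := by
          unfold E3g
          have := Nat.mod_lt e hM1
          simp only; omega
        have e3 : (E3g M e).2 ≤ M := by unfold E3g; simp
        have e4 : e ≤ Q * M - X := by rw [← h3]; exact List.le_sum_of_mem he
        have e5 : (E3g M e).1 ≤ Q := by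
          unfold E3g
          simp only
          have : e / M < Q := by
            rw [Nat.div_lt_iff_lt_mul hM1]; omega
          omega
        have e6 : 2 ^ k * ((E3g M e).1 + 2) ≤ 2 ^ k * (Q + 2) := Nat.mul_le_mul_left _ (by omega)
        refine ⟨e1, e2, (Nc_nowrap hM e2 e3 e1 (by omega)).mp ?_⟩
        have e7 : (E3g M e).1 * M - (E3g M e).2 = e := E3fg hM1 e
        rw [e7]
        exact ⟨h2 e he, h4 e he⟩
      have hlt : l'.Pairwise (· > ·) := by
        have : l'.IsChain (· > ·) := h5.imp (fun x y hxy => step_lt hM1 hb hxy)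
        exact this.pairwise
      have hnd' : l'.Nodup := hlt.imp (fun {x y} h => ne_of_gt h)
      have hnd : (l'.map (E3g M)).Nodup :=
        hnd'.map (Function.LeftInverse.injective (g := E3f M) (fun e => E3fg hM1 e))
      have hs := E3_sum_g hM1 l'
      have hwb := wrap_bound (fun p hp => ⟨(hpr p hp).1, (hpr p hp).2.2⟩) hnd
      rw [h3] at hs
      set L := ((l'.map (E3g M)).map Prod.fst).sum with hL
      set Y := ((l'.map (E3g M)).map Prod.snd).sum with hY
      have key : L = Q := by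
        rcases lt_trichotomy L Q with hlt' | heq | hgt
        · exfalso
          have : (L + 1) * M ≤ Q * M := Nat.mul_le_mul_right _ hlt'
          rw [add_mul] at this
          omega
        · exact heq
        · exfalso
          obtain ⟨t, ht⟩ := Nat.exists_eq_add_of_lt hgt
          rw [ht] at hs hwb
          have e1 : (Q + t + 1) * M = Q * M + t * M + M := by ring
          rw [e1] at hs
          have e2 : Y = X + t * M + M := by omega
          rw [e2] at hwb
          have e3 : 2 ^ k * (3 * (Q + t + 1) + 1) = 2 ^ k * (3 * Q + 4) + 3 * (t * 2 ^ k) := by ring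
          rw [e3] at hwb
          have e4 : t * 2 ^ k ≤ t * M := Nat.mul_le_mul_left _ hM.le
          omega
      have key2 : Y = X := by
        rw [key] at hs
        omega
      refine ⟨l'.map (E3g M), ⟨hpr, ?_, ?_, ?_⟩, hfg⟩
      · rw [← hL]; exact key
      · rw [← hY]; exact key2
      · rw [List.isChain_map]
        refine h5.imp (fun x y hxy => ?_)
        have g1 : (E3g M x).1 * M - (E3g M x).2 = x := E3fg hM1 x
        have g2 : (E3g M y).1 * M - (E3g M y).2 = y := E3fg hM1 y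
        show Step b M ((E3g M x).1 * M - (E3g M x).2) ((E3g M y).1 * M - (E3g M y).2)
        rw [g1, g2]
        exact hxy
    · rintro ⟨l, hl, rfl⟩
      have hp := E3_props hM hW hl
      obtain ⟨h1, h2, h3, h4⟩ := hl
      have hchain : (l.map (E3f M)).IsChain (Step b M) := by
        rw [List.isChain_map]
        exact h4
      refine ⟨⟨?_, ?_, ?_⟩, ?_, hchain⟩
      · have : (l.map (E3f M)).IsChain (· > ·) := hchain.imp (fun x y hxy => step_lt hM1 hb hxy)
        exact this.pairwise.imp (fun h => le_of_lt h)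
      · intro e he
        obtain ⟨p, hpl, rfl⟩ := List.mem_map.mp he
        exact (hp p hpl).2.2.2.2.2.1
      · have := E3_sum_f l (fun p hpl => (hp p hpl).2.2.2.2.1)
        rw [h2, h3] at this
        show (l.map (E3f M)).sum = Q * M - X
        omega
      · intro e he
        obtain ⟨p, hpl, rfl⟩ := List.mem_map.mp he
        exact (hp p hpl).2.2.2.2.2.2
  unfold B0
  have hinv : ∀ l ∈ FB k Q X R, (l.map (E3f M)).map (E3g M) = l := by
    intro l hl
    have hp := E3_props hM hW hl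
    rw [List.map_map]
    conv_rhs => rw [← List.map_id l]
    apply List.map_congr_left
    rintro ⟨q, x⟩ hpl
    obtain ⟨a1, a2, a3, a4, a5, a6⟩ := hp _ hpl
    exact E3gf a1 a3 a4
  rw [himg]
  refine Set.InjOn.ncard_image ?_
  intro l1 hl1 l2 hl2 heq
  have heq' : l1.map (E3f M) = l2.map (E3f M) := heq
  rw [← hinv l1 hl1, ← hinv l2 hl2, heq']

end Pool.Agent.H978D
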