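import Pool.Agent.H978D.DefsE

set_option autoImplicit false

namespace Pool.Agent.H978D

open Pool.Agent.MPe9218d

theorem e4_core {M W Q0 x β : ℕ} (hWM : W ≤ M) (hx : 1 ≤ x) (hxW : x < W) (hβ : 1 ≤ β) :
    ∃ c : ℕ, 1 ≤ c ∧ ∀ d y : ℕ, d ≤ Q0 → 1 ≤ y → y < W →
      (x + β ≤ d * M + y ↔ x + c ≤ d * W + y) := by
  classical
  by_cases hS : ∃ v d y : ℕ, d ≤ Q0 ∧ 1 ≤ y ∧ y < W ∧ v = d * W + y ∧ x + β ≤ d * M + y
  · obtain ⟨d₀, y₀, h1, h2, h3, h4, h5⟩ := Nat.find_spec hS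
    have hmin : ∀ d y : ℕ, d ≤ Q0 → 1 ≤ y → y < W → x + β ≤ d * M + y →
        d₀ * W + y₀ ≤ d * W + y := by
      intro d y e1 e2 e3 e4
      rw [← h4]
      exact Nat.find_min' hS ⟨d, y, e1, e2, e3, rfl, e4⟩
    have hpos : x + 1 ≤ d₀ * W + y₀ := by
      rcases Nat.eq_zero_or_pos d₀ with h0 | h0
      · subst h0
        rw [Nat.zero_mul] at h5 ⊢
        omega
      · have : 1 * W ≤ d₀ * W := Nat.mul_le_mul_right _ h0
        omega
    refine ⟨d₀ * W + y₀ - x, by omega, ?_⟩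
    intro d y e1 e2 e3
    constructor
    · intro e4
      have := hmin d y e1 e2 e3 e4
      omega
    · intro e4
      have e5 : d₀ * W + y₀ ≤ d * W + y := by omega
      rcases Nat.lt_trichotomy d₀ d with hd | hd | hd
      · have e6 : (d₀ + 1) * M ≤ d * M := Nat.mul_le_mul_right _ hd
        rw [Nat.add_mul, Nat.one_mul] at e6
        omega
      · subst hd
        omega
      · exfalso
        have e6 : (d + 1) * W ≤ d₀ * W := Nat.mul_le_mul_right _ hd
        rw [Nat.add_mul, Nat.one_mul] at e6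
        omega
  · refine ⟨Q0 * W + W + 1, by omega, ?_⟩
    intro d y e1 e2 e3
    constructor
    · intro e4
      exact absurd ⟨_, d, y, e1, e2, e3, rfl, e4⟩ hS
    · intro e4
      exfalso
      have : d * W ≤ Q0 * W := Nat.mul_le_mul_right _ e1
      omega

theorem e4_step {M : ℕ} {b : ℕ → ℕ} {q x : ℕ} (hq : 1 ≤ q) (hx : 1 ≤ x) (hxM : x < M) (e' : ℕ) :
    Step b M (q * M - x) e' ↔ e' + b (M - x) ≤ q * M - x := by
  have hqM : M ≤ q * M := Nat.le_mul_of_pos_left _ hq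
  have hmod : q * M - x ≡ M - x [MOD M] := by
    have h1 : q * M - x = (M - x) + (q - 1) * M := by
      have : (q - 1 + 1) * M = q * M := by rw [Nat.sub_add_cancel hq]
      rw [Nat.add_mul, Nat.one_mul] at this
      omega
    show (q * M - x) % M = (M - x) % M
    rw [h1, Nat.add_mul_mod_self_right]
  constructor
  · intro h
    exact h (M - x) (by omega) (by omega) hmod
  · intro h j hj1 hj2 hj3
    have h2 : M - x ≡ j [MOD M] := hmod.symm.trans hj3
    have h3 : (M - x) % M = j % M := h2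
    rw [Nat.mod_eq_of_lt (by omega : M - x < M)] at h3
    have h4 : j = M - x := by
      rcases Nat.lt_or_ge j M with h5 | h5
      · rw [Nat.mod_eq_of_lt h5] at h3
        exact h3.symm
      · have h6 : j = M := by omega
        rw [h6, Nat.mod_self] at h3
        omega
    rw [h4]
    exact h

theorem e4_lin {M q q' x x' β : ℕ} (hq' : 1 ≤ q') (hx' : x' < M) (hx : 1 ≤ x)
    (hxM : x < M) (hq : 1 ≤ q) :
    (q' * M - x' + β ≤ q * M - x ↔ q' ≤ q ∧ x + β ≤ (q - q') * M + x') := by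
  have h1 : M ≤ q' * M := Nat.le_mul_of_pos_left _ hq'
  have h2 : M ≤ q * M := Nat.le_mul_of_pos_left _ hq
  rcases Nat.lt_or_ge q q' with h | h
  · have h3 : (q + 1) * M ≤ q' * M := Nat.mul_le_mul_right _ h
    rw [Nat.add_mul, Nat.one_mul] at h3
    constructor
    · intro h4
      exfalso
      omega
    · rintro ⟨h4, _⟩
      omega
  · obtain ⟨d, rfl⟩ := Nat.exists_eq_add_of_le h
    rw [Nat.add_sub_cancel_left, Nat.add_mul]
    constructor
    · intro h4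
      exact ⟨by omega, by omega⟩
    · rintro ⟨_, h4⟩
      omega

theorem transfer {M W Q0 : ℕ} {b : ℕ → ℕ} (hb : ∀ j, 1 ≤ j → j ≤ M → 1 ≤ b j) (hW : 1 ≤ W)
    (hWM : W ≤ M) : ∃ b' : ℕ → ℕ, (∀ j, 1 ≤ b' j) ∧ ∀ q q' x x' : ℕ, 1 ≤ q → q ≤ Q0 →
      1 ≤ x → x < W → 1 ≤ q' → q' ≤ Q0 → 1 ≤ x' → x' < W →
      (Step b M (q * M - x) (q' * M - x') ↔ Step b' W (q * W - x) (q' * W - x')) := by
  classical
  have key : ∀ j : ℕ, ∃ c : ℕ, 1 ≤ c ∧ (1 ≤ j → j < W → ∀ d y : ℕ, d ≤ Q0 → 1 ≤ y → y < W →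
      ((W - j) + b (M - (W - j)) ≤ d * M + y ↔ (W - j) + c ≤ d * W + y)) := by
    intro j
    by_cases hj : 1 ≤ j ∧ j < W
    · obtain ⟨c, h1, h2⟩ := e4_core (Q0 := Q0) (x := W - j) (β := b (M - (W - j))) hWM
        (by omega) (by omega) (hb _ (by omega) (by omega))
      exact ⟨c, h1, fun _ _ => h2⟩
    · exact ⟨1, le_rfl, fun h1 h2 => absurd ⟨h1, h2⟩ hj⟩
  choose b' hb1 hb2 using key
  refine ⟨b', hb1, ?_⟩
  intro q q' x x' hq hqQ hx hxW hq' hq'Q hx' hx'W
  rw [e4_step hq hx (by omega) _, e4_step hq hx hxW _,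
    e4_lin hq' (by omega) hx (by omega) hq, e4_lin hq' hx'W hx hxW hq]
  have h1 := hb2 (W - x) (by omega) (by omega) (q - q') x' (by omega) hx' hx'W
  have h2 : W - (W - x) = x := by omega
  rw [h2] at h1
  rw [h1]

end Pool.Agent.H978D
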