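import Pool.Agent.H978D.DefsE
import Pool.Agent.H978D.D3
import Pool.Agent.H978D.D4
import Pool.Agent.H978D.E1
import Pool.Agent.H978D.E3
import Pool.Agent.H978D.E4

set_option autoImplicit false

namespace Pool.Agent.H978D

open Pool.Agent.MPe9218d






/-- TARGET -/
theorem transfer_id {k M W Q0 : ℕ} {b : ℕ → ℕ} (hb : ∀ j, 1 ≤ j → j ≤ M → 1 ≤ b j)
    (hWM : W ≤ M) (hkW : 2 ^ k < W) (hQ0 : 1 ≤ Q0) (h1 : 2 ^ k * (Q0 + 2) ≤ 2 * W)
    (h2 : 2 ^ k * (3 * Q0 + 4) < 4 * (W + 1)) (hId : Identity M (k + 1) b) :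
    ∃ b' : ℕ → ℕ, (∀ j, 1 ≤ b' j) ∧ ∀ Q X, 1 ≤ Q → Q ≤ Q0 → 1 ≤ X → X < W →
      A (a W) (k + 1) W (Q * W - X) = B0 b' W (C W (k + 1)) (Q * W - X) := by
  have hk1 : 1 ≤ 2 ^ k := Nat.one_le_two_pow
  obtain ⟨b', hb', htr⟩ := transfer (Q0 := Q0) hb (by omega : 1 ≤ W) hWM
  refine ⟨b', hb', fun Q X hQ1 hQ hX hXW => ?_⟩
  have e1 : 2 ^ k * (Q + 2) ≤ 2 * W := (Nat.mul_le_mul_left _ (by omega)).trans h1
  have e2 : 2 ^ k * (3 * Q + 4) < 4 * (W + 1) := (Nat.mul_le_mul_left _ (by omega)).trans_lt h2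
  have hXM : X < M := by omega
  have hMQ : M ≤ Q * M := Nat.le_mul_of_pos_left _ hQ1
  have hA1 := A_nowrap hkW hX hXW hQ1 e1
  have hA2 := A_nowrap (M := M) (by omega : 2 ^ k < M) hX hXM hQ1 (by omega)
  have hB1 := B0_nowrap (b := b') (fun j _ _ => hb' j) hkW hX hXW hQ1 e1 e2
  have hB2 := B0_nowrap hb (by omega : 2 ^ k < M) hX hXM hQ1 (by omega) (by omega)
  have hI := hId (Q * M - X) (by omega)
  rw [hA1, hB1, ← hA2, hI, hB2]
  have key : FB k Q X (fun p p' => Step b M (p.1 * M - p.2) (p'.1 * M - p'.2)) =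
      FB k Q X (fun p p' => Step b' W (p.1 * W - p.2) (p'.1 * W - p'.2)) := by
    ext l
    unfold FB
    simp only [Set.mem_ofPred_eq]
    apply and_congr_right
    intro hl
    apply and_congr_right
    intro hQs
    apply and_congr_right
    intro _
    have hmem : ∀ p ∈ l, 1 ≤ p.1 ∧ p.1 ≤ Q0 ∧ 1 ≤ p.2 ∧ p.2 < W := by
      intro p hp
      obtain ⟨g1, g2, T, hT⟩ := hl p hp
      have g3 : p.1 ≤ (l.map Prod.fst).sum := List.le_sum_of_mem (List.mem_map_of_mem hp)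
      have g4 : p.1 ≤ Q0 := by omega
      have g5 := TS_bound hT
      have g6 : 2 ^ k * (p.1 + 1) ≤ 2 ^ k * (Q0 + 1) := Nat.mul_le_mul_left _ (by omega)
      have g7 : 2 ^ k * (Q0 + 2) = 2 ^ k * (Q0 + 1) + 2 ^ k := by ring
      exact ⟨g1, g4, g2, by omega⟩
    apply List.IsChain.iff_of_mem_imp
    intro p p' hp hp'
    obtain ⟨m1, m2, m3, m4⟩ := hmem p hp
    obtain ⟨m1', m2', m3', m4'⟩ := hmem p' hp'
    exact htr p.1 p'.1 p.2 p'.2 m1 m2 m3 m4 m1' m2' m3' m4'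
  rw [key]

end Pool.Agent.H978D
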