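import Pool.Agent.H372R3.GE2

set_option autoImplicit false

namespace Pool.Agent.H978D

open Pool.Agent.MPe9218d Pool.Agent.H372R3.GE Pool.Agent.H372R3.GD

/-- `n = Q * W - X` with `1 ≤ X < W` and `Q ≤ Q0` -/
def good (W Q0 n : ℕ) : Bool := Nat.blt 0 (n % W) && Nat.ble (n / W + 1) Q0

/-- every leaf of the certificate is good -/
def leavesOk (W Q0 : ℕ) : Tree → Bool
  | .s => true
  | .l n => good W Q0 n
  | .b _ _ t u => leavesOk W Q0 t && leavesOk W Q0 u

theorem sound' {M s N Q0 mask : ℕ} {sols : List (List ℕ)} (hM : 1 ≤ M) {b : ℕ → ℕ}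
    (hb : ∀ j, 1 ≤ j → j ≤ M → 1 ≤ b j)
    (hId : ∀ n, good M Q0 n = true → A (a M) s M n = B0 b M (C M s) n)
    (hN : N < INF) (hC : ∀ e, 1 ≤ e → e ≤ N → (e ∉ C M s ↔ mask.testBit e = true)) :
    ∀ (t : Tree) (lo hi : List ℕ), leavesOk M Q0 t = true →
      ck M s N mask sols t lo hi = true → lo.length = M →
      hi.length = M → (∀ r, r < M → 1 ≤ lo.getD r 1) →
      (∀ r, r < M → lo.getD r 1 ≤ bv M b r ∧ bv M b r ≤ hi.getD r 1) →
      (List.range M).map (bv M b) ∈ sols := by
  intro t
  induction t with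
  | s =>
    intro lo hi _ h hlo hhi _ hbd
    rw [ck, Bool.and_eq_true, beq_iff_eq, List.elem_iff] at h
    obtain ⟨h1, h2⟩ := h
    have : (List.range M).map (bv M b) = lo := by
      apply List.ext_getElem
      · simp [hlo]
      · intro i h3 h4
        have h5 := hbd i (by omega)
        rw [← h1, List.getD_eq_getElem _ _ h4] at h5
        simp only [List.getElem_map, List.getElem_range]
        omega
    rw [this]
    exact h2
  | l n =>
    intro lo hi hg h hlo hhi hpos hbd
    exfalso
    rw [leavesOk] at hg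
    rw [ck] at h
    simp only [Bool.and_eq_true, Bool.or_eq_true, Nat.ble_eq, Nat.blt_eq] at h
    obtain ⟨⟨h1, h2⟩, h3⟩ := h
    have hA := hId n hg
    rw [A_cnt, B_cnt hM hb hN hC h1] at hA
    have hlt : ∀ e, e % M < M := fun e => Nat.mod_lt _ hM
    have m1 : cnt (fun e => mask.testBit e) (dl M hi) n n n ≤
        cnt (fun e => mask.testBit e) (fun e => bv M b (e % M)) n n n := by
      refine cnt_mono (fun e => ?_) (fun e => (hbd _ (hlt e)).2) n
      have := hbd _ (hlt e)
      have := hpos _ (hlt e)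
      omega
    have m2 : cnt (fun e => mask.testBit e) (fun e => bv M b (e % M)) n n n ≤
        cnt (fun e => mask.testBit e) (dl M lo) n n n :=
      cnt_mono (fun e => hpos _ (hlt e)) (fun e => (hbd _ (hlt e)).1) n
    omega
  | b j g t u iht ihu =>
    intro lo hi hg h hlo hhi hpos hbd
    rw [leavesOk, Bool.and_eq_true] at hg
    rw [ck] at h
    simp only [Bool.and_eq_true, Nat.blt_eq] at h
    obtain ⟨h1, h2, h3⟩ := h
    by_cases hgg : bv M b j ≤ g
    · refine iht lo (hi.set j g) hg.1 h2 hlo (by simpa using hhi) hpos (fun r hr => ?_)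
      rw [getD_set _ _ _ _ (by omega)]
      refine ⟨(hbd r hr).1, ?_⟩
      split_ifs with hrj
      · rw [hrj]; exact hgg
      · exact (hbd r hr).2
    · refine ihu (lo.set j (g + 1)) hi hg.2 h3 (by simpa using hlo) hhi (fun r hr => ?_)
        (fun r hr => ?_)
      · rw [getD_set _ _ _ _ (by omega)]
        split_ifs with hrj
        · omega
        · exact hpos r hr
      · rw [getD_set _ _ _ _ (by omega)]
        refine ⟨?_, (hbd r hr).2⟩
        split_ifs with hrj
        · rw [hrj]; omega
        · exact (hbd r hr).1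

theorem final' {M s N Q0 mask : ℕ} {sols : List (List ℕ)} {t : Tree} (hM : 1 ≤ M) {b : ℕ → ℕ}
    (hb : ∀ j, 1 ≤ j → j ≤ M → 1 ≤ b j)
    (hId : ∀ n, good M Q0 n = true → A (a M) s M n = B0 b M (C M s) n)
    (hN : Nat.blt N INF = true) (hC : ckC M s mask N = true)
    (hl : leavesOk M Q0 t = true)
    (ht : ck M s N mask sols t (List.replicate M 1) (List.replicate M INF) = true) :
    (List.range M).map (bv M b) ∈ sols := by
  refine sound' hM hb hId (by simpa [Nat.blt_eq] using hN) (ckC_sound hC) t _ _ hl ht (by simp)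
    (by simp) (fun r hr => ?_) (fun r hr => ?_)
  · rw [getD_replicate _ _ _ hr]
  · rw [getD_replicate _ _ _ hr, getD_replicate _ _ _ hr]
    have := res_pos hM hb r
    unfold bv
    constructor
    · exact le_min this (by norm_num [INF])
    · exact min_le_right _ _

end Pool.Agent.H978D
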