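import Pool.Agent.H372R3.GE2

set_option autoImplicit false
set_option maxRecDepth 1000000

namespace Pool.Agent.H978D

open Pool.Agent.MPe9218d Pool.Agent.H372R3.GE

def t_12_1 : Tree :=
    (.b 11 12 (.l 34) (.b 10 23 (.l 45) (.b 11 24 (.l 46) (.b 10 35 (.l 57) (.b 11 36 (.b 10 47
    (.l 69) (.b 9 58 (.l 80) (.b 10 59 (.l 81) (.b 9 70 (.l 92) (.b 10 71 (.b 11 25 (.l 93) (.b
    9 82 (.l 104) (.b 9 94 (.l 116) (.b 8 105 (.l 127) (.b 9 106 (.l 128) (.b 10 60 (.l 128) (.b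
    8 117 (.l 139) (.b 9 118 (.l 140) (.b 8 129 (.l 151) (.b 9 130 (.l 176) (.l 152)))))))))))
    (.b 11 25 (.b 9 82 (.l 104) (.b 10 83 (.b 9 94 (.l 116) (.b 8 105 (.l 127) (.b 9 106 (.l
    128) (.b 8 117 (.l 139) (.b 9 118 (.l 187) (.b 10 72 (.b 8 129 (.l 151) (.b 9 130 (.l 188)
    (.l 152))) (.l 140))))))) (.l 105))) (.l 93))))))) (.l 58))))))

theorem c_12_1 {b : ℕ → ℕ} (hb : ∀ j, 1 ≤ j → j ≤ 12 → 1 ≤ b j)
    (hId : Identity 12 1 b) : False := by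
  have h := final (N := 188) (mask := 589963243593763884474303430398524121341245350745831639040)
    (t := t_12_1) (sols := []) (by norm_num) hb hId (by decide +kernel) (by decide +kernel)
    (by decide +kernel)
  simp at h

def t_12_2 : Tree :=
    (.b 11 1 (.l 21) (.b 9 11 (.l 31) (.b 10 12 (.l 32) (.b 11 13 (.b 11 12 (.b 8 22 (.l 42) (.b
    9 23 (.l 43) (.b 10 24 (.b 11 2 (.l 44) (.b 10 23 (.b 7 33 (.l 53) (.b 8 34 (.l 54) (.b 9 35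
    (.b 10 13 (.l 55) (.b 9 34 (.b 7 45 (.l 65) (.b 8 46 (.b 9 24 (.l 66) (.b 8 45 (.b 11 3 (.l
    67) (.b 6 56 (.l 76) (.b 7 57 (.l 77) (.b 8 35 (.l 77) (.b 10 14 (.l 78) (.b 5 67 (.l 87)
    (.b 6 68 (.l 88) (.b 7 69 (.l 89) (.b 9 25 (.l 89) (.b 11 4 (.b 5 79 (.l 99) (.b 6 80 (.l
    100) (.b 8 36 (.l 100) (.b 7 81 (.b 10 15 (.l 101) (.l 125)) (.l 102))))) (.l 90)))))))))))
    (.b 11 3 (.b 6 56 (.l 76) (.b 7 57 (.l 77) (.b 10 14 (.l 78) (.l 102)))) (.l 67)))) (.b 9 24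
    (.b 11 3 (.b 6 56 (.l 76) (.b 7 57 (.l 77) (.b 8 58 (.b 10 14 (.l 78) (.l 102)) (.l 79))))
    (.l 67)) (.l 66)))) (.l 56))) (.l 56)))) (.l 45))) (.l 45)))) (.l 34)) (.l 33)))))

theorem c_12_2 {b : ℕ → ℕ} (hb : ∀ j, 1 ≤ j → j ≤ 12 → 1 ≤ b j)
    (hId : Identity 12 2 b) : False := by
  have h := final (N := 125) (mask := 75761126792413116968090555318928411648)
    (t := t_12_2) (sols := []) (by norm_num) hb hId (by decide +kernel) (by decide +kernel)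
    (by decide +kernel)
  simp at h

end Pool.Agent.H978D
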