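import Pool.Agent.H372R3.GE2

set_option autoImplicit false
set_option maxRecDepth 1000000

namespace Pool.Agent.H978D

open Pool.Agent.MPe9218d Pool.Agent.H372R3.GE

def t_13_2 : Tree :=
    (.b 12 1 (.l 23) (.b 10 12 (.l 34) (.b 11 13 (.l 35) (.b 12 14 (.b 12 13 (.b 9 24 (.l 46)
    (.b 10 25 (.l 47) (.b 11 26 (.b 12 2 (.l 48) (.b 11 25 (.b 8 36 (.l 58) (.b 9 37 (.l 59) (.b
    10 38 (.b 11 14 (.l 60) (.b 10 37 (.b 8 49 (.l 71) (.b 9 50 (.b 10 26 (.l 72) (.b 9 49 (.b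
    12 3 (.l 73) (.b 7 61 (.l 83) (.b 8 62 (.l 84) (.b 9 38 (.l 84) (.b 11 15 (.l 85) (.b 6 73
    (.l 95) (.b 7 74 (.l 96) (.b 8 75 (.l 97) (.b 10 27 (.l 97) (.b 12 4 (.b 6 86 (.l 108) (.b 7
    87 (.l 109) (.b 9 39 (.l 109) (.b 8 88 (.b 11 16 (.l 110) (.l 136)) (.l 111))))) (.l
    98))))))))))) (.b 12 3 (.b 7 61 (.l 83) (.b 8 62 (.l 84) (.b 11 15 (.l 85) (.l 111)))) (.l
    73)))) (.b 10 26 (.b 12 3 (.b 7 61 (.l 83) (.b 8 62 (.l 84) (.b 9 63 (.b 11 15 (.l 85) (.l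
    111)) (.l 86)))) (.l 73)) (.l 72)))) (.l 61))) (.l 61)))) (.l 49))) (.l 49)))) (.l 37)) (.l
    36)))))

theorem c_13_2 {b : ℕ → ℕ} (hb : ∀ j, 1 ≤ j → j ≤ 13 → 1 ≤ b j)
    (hId : Identity 13 2 b) : False := by
  have h := final (N := 136) (mask := 153802478460869821733017798766539824961536)
    (t := t_13_2) (sols := []) (by norm_num) hb hId (by decide +kernel) (by decide +kernel)
    (by decide +kernel)
  simp at h

def t_14_2 : Tree :=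
    (.b 13 1 (.l 25) (.b 11 13 (.l 37) (.b 12 14 (.l 38) (.b 13 15 (.b 13 14 (.b 10 26 (.l 50)
    (.b 11 27 (.l 51) (.b 12 28 (.b 13 2 (.l 52) (.b 12 27 (.b 9 39 (.l 63) (.b 10 40 (.l 64)
    (.b 11 41 (.b 12 15 (.l 65) (.b 11 40 (.b 9 53 (.l 77) (.b 10 54 (.b 11 28 (.l 78) (.b 10 53
    (.b 13 3 (.l 79) (.b 8 66 (.l 90) (.b 9 67 (.l 91) (.b 10 41 (.l 91) (.b 12 16 (.l 92) (.b 7
    79 (.l 103) (.b 8 80 (.l 104) (.b 9 81 (.l 105) (.b 11 29 (.l 105) (.b 13 4 (.b 7 93 (.l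
    117) (.b 8 94 (.l 118) (.b 10 42 (.l 118) (.b 9 95 (.b 12 17 (.l 119) (.l 147)) (.l 120)))))
    (.l 106))))))))))) (.b 13 3 (.b 8 66 (.l 90) (.b 9 67 (.l 91) (.b 12 16 (.l 92) (.l 120))))
    (.l 79)))) (.b 11 28 (.b 13 3 (.b 8 66 (.l 90) (.b 9 67 (.l 91) (.b 10 68 (.b 12 16 (.l 92)
    (.l 120)) (.l 93)))) (.l 79)) (.l 78)))) (.l 66))) (.l 66)))) (.l 53))) (.l 53)))) (.l 40))
    (.l 39)))))

theorem c_14_2 {b : ℕ → ℕ} (hb : ∀ j, 1 ≤ j → j ≤ 14 → 1 ≤ b j)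
    (hId : Identity 14 2 b) : False := by
  have h := final (N := 147) (mask := 313598869579902930695956750034244091584196608)
    (t := t_14_2) (sols := []) (by norm_num) hb hId (by decide +kernel) (by decide +kernel)
    (by decide +kernel)
  simp at h

end Pool.Agent.H978D
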