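import Pool.Agent.H372R3.GE2

set_option autoImplicit false
set_option maxRecDepth 1000000

namespace Pool.Agent.H978D

open Pool.Agent.MPe9218d Pool.Agent.H372R3.GE

def t_15_2 : Tree :=
    (.b 14 1 (.l 27) (.b 12 14 (.l 40) (.b 13 15 (.l 41) (.b 14 16 (.b 14 15 (.b 11 28 (.l 54)
    (.b 12 29 (.l 55) (.b 13 30 (.b 14 2 (.l 56) (.b 13 29 (.b 10 42 (.l 68) (.b 11 43 (.l 69)
    (.b 12 44 (.b 13 16 (.l 70) (.b 12 43 (.b 10 57 (.l 83) (.b 11 58 (.b 12 30 (.l 84) (.b 11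
    57 (.b 14 3 (.l 85) (.b 9 71 (.l 97) (.b 10 72 (.l 98) (.b 11 44 (.l 98) (.b 13 17 (.l 99)
    (.b 8 85 (.l 111) (.b 9 86 (.l 112) (.b 10 87 (.l 113) (.b 12 31 (.l 113) (.b 14 4 (.b 8 100
    (.l 126) (.b 9 101 (.l 127) (.b 11 45 (.l 127) (.b 10 102 (.b 13 18 (.l 128) (.l 158)) (.l
    129))))) (.l 114))))))))))) (.b 14 3 (.b 9 71 (.l 97) (.b 10 72 (.l 98) (.b 13 17 (.l 99)
    (.l 129)))) (.l 85)))) (.b 12 30 (.b 14 3 (.b 9 71 (.l 97) (.b 10 72 (.l 98) (.b 11 73 (.b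
    13 17 (.l 99) (.l 129)) (.l 100)))) (.l 85)) (.l 84)))) (.l 71))) (.l 71)))) (.l 57))) (.l
    57)))) (.l 43)) (.l 42)))))

theorem c_15_2 {b : ℕ → ℕ} (hb : ∀ j, 1 ≤ j → j ≤ 15 → 1 ≤ b j)
    (hId : Identity 15 2 b) : False := by
  have h := final (N := 158) (mask := 640828682225997020010232145223076559425602871296)
    (t := t_15_2) (sols := []) (by norm_num) hb hId (by decide +kernel) (by decide +kernel)
    (by decide +kernel)
  simp at h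

def t_16_2 : Tree :=
    (.b 15 1 (.l 29) (.b 13 15 (.l 43) (.b 14 16 (.l 44) (.b 15 17 (.b 15 16 (.b 12 30 (.l 58)
    (.b 13 31 (.l 59) (.b 14 32 (.b 15 2 (.l 60) (.b 14 31 (.b 11 45 (.l 73) (.b 12 46 (.l 74)
    (.b 13 47 (.b 14 17 (.l 75) (.b 13 46 (.b 11 61 (.l 89) (.b 12 62 (.b 13 32 (.l 90) (.b 12
    61 (.b 15 3 (.l 91) (.b 10 76 (.l 104) (.b 11 77 (.l 105) (.b 12 47 (.l 105) (.b 14 18 (.l
    106) (.b 9 91 (.l 119) (.b 10 92 (.l 120) (.b 11 93 (.l 121) (.b 13 33 (.l 121) (.b 15 4 (.b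
    9 107 (.l 135) (.b 10 108 (.l 136) (.b 12 48 (.l 136) (.b 11 109 (.b 14 19 (.l 137) (.l
    169)) (.l 138))))) (.l 122))))))))))) (.b 15 3 (.b 10 76 (.l 104) (.b 11 77 (.l 105) (.b 14
    18 (.l 106) (.l 138)))) (.l 91)))) (.b 13 32 (.b 15 3 (.b 10 76 (.l 104) (.b 11 77 (.l 105)
    (.b 12 78 (.b 14 18 (.l 106) (.l 138)) (.l 107)))) (.l 91)) (.l 90)))) (.l 76))) (.l 76))))
    (.l 61))) (.l 61)))) (.l 46)) (.l 45)))))

theorem c_16_2 {b : ℕ → ℕ} (hb : ∀ j, 1 ≤ j → j ≤ 16 → 1 ≤ b j)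
    (hId : Identity 16 2 b) : False := by
  have h := final (N := 169) (mask := 1310961281909019635450783356044604035728766450843648)
    (t := t_16_2) (sols := []) (by norm_num) hb hId (by decide +kernel) (by decide +kernel)
    (by decide +kernel)
  simp at h

end Pool.Agent.H978D
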