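import Pool.Agent.H372R3.GE2

set_option autoImplicit false
set_option maxRecDepth 1000000

namespace Pool.Agent.H978D

open Pool.Agent.MPe9218d Pool.Agent.H372R3.GE

def t_17_2 : Tree :=
    (.b 16 1 (.l 31) (.b 14 16 (.l 46) (.b 15 17 (.l 47) (.b 16 18 (.b 16 17 (.b 13 32 (.l 62)
    (.b 14 33 (.l 63) (.b 15 34 (.b 16 2 (.l 64) (.b 15 33 (.b 12 48 (.l 78) (.b 13 49 (.l 79)
    (.b 14 50 (.b 15 18 (.l 80) (.b 14 49 (.b 12 65 (.l 95) (.b 13 66 (.b 14 34 (.l 96) (.b 13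
    65 (.b 16 3 (.l 97) (.b 11 81 (.l 111) (.b 12 82 (.l 112) (.b 13 50 (.l 112) (.b 15 19 (.l
    113) (.b 10 97 (.l 127) (.b 11 98 (.l 128) (.b 12 99 (.l 129) (.b 14 35 (.l 129) (.b 16 4
    (.b 10 114 (.l 144) (.b 11 115 (.l 145) (.b 13 51 (.l 145) (.b 12 116 (.b 15 20 (.l 146) (.l
    180)) (.l 147))))) (.l 130))))))))))) (.b 16 3 (.b 11 81 (.l 111) (.b 12 82 (.l 112) (.b 15
    19 (.l 113) (.l 147)))) (.l 97)))) (.b 14 34 (.b 16 3 (.b 11 81 (.l 111) (.b 12 82 (.l 112)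
    (.b 13 83 (.b 15 19 (.l 113) (.l 147)) (.l 114)))) (.l 97)) (.l 96)))) (.l 81))) (.l 81))))
    (.l 65))) (.l 65)))) (.l 49)) (.l 48)))))

theorem c_17_2 {b : ℕ → ℕ} (hb : ∀ j, 1 ≤ j → j ≤ 17 → 1 ≤ b j)
    (hId : Identity 17 2 b) : False := by
  have h := final (N := 180) (mask := 2683357939558849506734917469040986190025133703542439936)
    (t := t_17_2) (sols := []) (by norm_num) hb hId (by decide +kernel) (by decide +kernel)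
    (by decide +kernel)
  simp at h

def t_12_3 : Tree :=
    (.b 10 2 (.l 18) (.b 11 3 (.l 19) (.b 6 10 (.l 26) (.b 7 11 (.l 27) (.b 8 12 (.l 28) (.b 9
    13 (.l 29) (.b 10 14 (.b 11 15 (.b 10 12 (.b 11 13 (.b 10 11 (.l 33) (.b 11 12 (.b 4 20 (.l
    36) (.b 5 21 (.l 37) (.b 6 22 (.l 38) (.b 7 23 (.l 39) (.b 8 24 (.b 9 25 (.b 11 5 (.b 8 22
    (.b 11 4 (.b 9 23 (.b 8 21 (.b 9 22 (.b 2 30 (.l 46) (.b 3 31 (.l 47) (.b 4 32 (.l 48) (.b 5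
    33 (.l 49) (.b 6 34 (.b 8 14 (.l 50) (.b 7 35 (.b 9 15 (.b 6 32 (.b 9 14 (.b 7 33 (.b 6 31
    (.b 7 32 (.b 1 41 (.l 57) (.b 2 42 (.l 58) (.b 3 43 (.l 59) (.b 4 44 (.b 6 24 (.l 60) (.b 5
    45 (.b 7 25 (.b 4 42 (.b 7 24 (.b 5 43 (.b 4 41 (.b 5 42 (.b 0 52 (.l 68) (.b 1 53 (.l 69)
    (.b 2 54 (.b 4 34 (.l 70) (.b 3 55 (.l 85) (.l 71))) (.b 4 34 (.b 3 55 (.l 86) (.l 73)) (.l
    70))))) (.l 64)) (.l 63)) (.l 63)) (.l 62)) (.l 62)) (.l 61)) (.l 61))) (.l 62))))) (.l 54))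
    (.l 53)) (.l 53)) (.l 52)) (.l 52)) (.l 51)) (.l 51))) (.l 52)))))) (.l 44)) (.l 43)) (.l
    43)) (.l 42)) (.l 42)) (.l 41)) (.l 41)) (.l 40)))))) (.l 34))) (.l 34)) (.l 32)) (.l 31))
    (.l 30))))))))

theorem c_12_3 {b : ℕ → ℕ} (hb : ∀ j, 1 ≤ j → j ≤ 12 → 1 ≤ b j)
    (hId : Identity 12 3 b) : False := by
  have h := final (N := 86) (mask := 154742504910390852975332608)
    (t := t_12_3) (sols := []) (by norm_num) hb hId (by decide +kernel) (by decide +kernel)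
    (by decide +kernel)
  simp at h

end Pool.Agent.H978D
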