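import Pool.Agent.H372R3.GE2

set_option autoImplicit false
set_option maxRecDepth 1000000

namespace Pool.Agent.H978D

open Pool.Agent.MPe9218d Pool.Agent.H372R3.GE

def t_13_3 : Tree :=
    (.b 11 2 (.l 20) (.b 12 3 (.l 21) (.b 7 11 (.l 29) (.b 8 12 (.l 30) (.b 9 13 (.l 31) (.b 10
    14 (.l 32) (.b 11 15 (.b 12 16 (.b 11 13 (.b 12 14 (.b 11 12 (.l 36) (.b 12 13 (.b 5 22 (.l
    40) (.b 6 23 (.l 41) (.b 7 24 (.l 42) (.b 8 25 (.l 43) (.b 9 26 (.b 10 27 (.b 12 5 (.b 9 24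
    (.b 12 4 (.b 10 25 (.b 9 23 (.b 10 24 (.b 3 33 (.l 51) (.b 4 34 (.l 52) (.b 5 35 (.l 53) (.b
    6 36 (.l 54) (.b 7 37 (.b 9 15 (.l 55) (.b 8 38 (.b 10 16 (.b 7 35 (.b 10 15 (.b 8 36 (.b 7
    34 (.b 8 35 (.b 2 45 (.l 63) (.b 3 46 (.l 64) (.b 4 47 (.l 65) (.b 5 48 (.b 7 26 (.l 66) (.b
    6 49 (.b 8 27 (.b 5 46 (.b 8 26 (.b 6 47 (.b 5 45 (.b 6 46 (.b 1 57 (.l 75) (.b 2 58 (.l 76)
    (.b 3 59 (.b 5 37 (.l 77) (.b 4 60 (.l 93) (.l 81))) (.b 5 37 (.b 4 60 (.l 94) (.l 80)) (.l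
    77))))) (.l 70)) (.l 69)) (.l 69)) (.l 68)) (.l 68)) (.l 67)) (.l 67))) (.l 68))))) (.l 59))
    (.l 58)) (.l 58)) (.l 57)) (.l 57)) (.l 56)) (.l 56))) (.l 57)))))) (.l 48)) (.l 47)) (.l
    47)) (.l 46)) (.l 46)) (.l 45)) (.l 45)) (.l 44)))))) (.l 37))) (.l 37)) (.l 35)) (.l 34))
    (.l 33))))))))

theorem c_13_3 {b : ℕ → ℕ} (hb : ∀ j, 1 ≤ j → j ≤ 13 → 1 ≤ b j)
    (hId : Identity 13 3 b) : False := by
  have h := final (N := 94) (mask := 39614081220225166000098646528)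
    (t := t_13_3) (sols := []) (by norm_num) hb hId (by decide +kernel) (by decide +kernel)
    (by decide +kernel)
  simp at h

def t_14_3 : Tree :=
    (.b 12 2 (.l 22) (.b 13 3 (.l 23) (.b 8 12 (.l 32) (.b 9 13 (.l 33) (.b 10 14 (.l 34) (.b 11
    15 (.l 35) (.b 12 16 (.b 13 17 (.b 12 14 (.b 13 15 (.b 12 13 (.l 39) (.b 13 14 (.b 6 24 (.l
    44) (.b 7 25 (.l 45) (.b 8 26 (.l 46) (.b 9 27 (.l 47) (.b 10 28 (.b 11 29 (.b 13 5 (.b 10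
    26 (.b 13 4 (.b 11 27 (.b 10 25 (.b 11 26 (.b 4 36 (.l 56) (.b 5 37 (.l 57) (.b 6 38 (.l 58)
    (.b 7 39 (.l 59) (.b 8 40 (.b 10 16 (.l 60) (.b 9 41 (.b 11 17 (.b 8 38 (.b 11 16 (.b 9 39
    (.b 8 37 (.b 9 38 (.b 3 49 (.l 69) (.b 4 50 (.l 70) (.b 5 51 (.l 71) (.b 6 52 (.b 8 28 (.l
    72) (.b 7 53 (.b 9 29 (.b 6 50 (.b 9 28 (.b 7 51 (.b 6 49 (.b 7 50 (.b 2 62 (.l 82) (.b 3 63
    (.l 83) (.b 4 64 (.l 84) (.b 6 40 (.l 84) (.b 5 65 (.l 102) (.l 87)))))) (.l 76)) (.l 75))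
    (.l 75)) (.l 74)) (.l 74)) (.l 73)) (.l 73))) (.l 74))))) (.l 64)) (.l 63)) (.l 63)) (.l
    62)) (.l 62)) (.l 61)) (.l 61))) (.l 62)))))) (.l 52)) (.l 51)) (.l 51)) (.l 50)) (.l 50))
    (.l 49)) (.l 49)) (.l 48)))))) (.l 40))) (.l 40)) (.l 38)) (.l 37)) (.l 36))))))))

theorem c_14_3 {b : ℕ → ℕ} (hb : ∀ j, 1 ≤ j → j ≤ 14 → 1 ≤ b j)
    (hId : Identity 14 3 b) : False := by
  have h := final (N := 102) (mask := 10141204798283555880675512955904)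
    (t := t_14_3) (sols := []) (by norm_num) hb hId (by decide +kernel) (by decide +kernel)
    (by decide +kernel)
  simp at h

end Pool.Agent.H978D
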