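import Pool.Agent.H372R3.GE2

set_option autoImplicit false
set_option maxRecDepth 1000000

namespace Pool.Agent.H978D

open Pool.Agent.MPe9218d Pool.Agent.H372R3.GE

def t_15_3 : Tree :=
    (.b 13 2 (.l 24) (.b 14 3 (.l 25) (.b 9 13 (.l 35) (.b 10 14 (.l 36) (.b 11 15 (.l 37) (.b
    12 16 (.l 38) (.b 13 17 (.b 14 18 (.b 13 15 (.b 14 16 (.b 13 14 (.l 42) (.b 14 15 (.b 7 26
    (.l 48) (.b 8 27 (.l 49) (.b 9 28 (.l 50) (.b 10 29 (.l 51) (.b 11 30 (.b 12 31 (.b 14 5 (.b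
    11 28 (.b 14 4 (.b 12 29 (.b 11 27 (.b 12 28 (.b 5 39 (.l 61) (.b 6 40 (.l 62) (.b 7 41 (.l
    63) (.b 8 42 (.l 64) (.b 9 43 (.b 11 17 (.l 65) (.b 10 44 (.b 12 18 (.b 9 41 (.b 12 17 (.b
    10 42 (.b 9 40 (.b 10 41 (.b 4 53 (.l 75) (.b 5 54 (.l 76) (.b 6 55 (.l 77) (.b 7 56 (.b 9
    30 (.l 78) (.b 8 57 (.b 10 31 (.b 7 54 (.b 10 30 (.b 8 55 (.b 7 53 (.b 8 54 (.b 3 67 (.l 89)
    (.b 4 68 (.l 90) (.b 5 69 (.l 91) (.b 7 43 (.l 91) (.b 6 70 (.l 110) (.l 94)))))) (.l 82))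
    (.l 81)) (.l 81)) (.l 80)) (.l 80)) (.l 79)) (.l 79))) (.l 80))))) (.l 69)) (.l 68)) (.l
    68)) (.l 67)) (.l 67)) (.l 66)) (.l 66))) (.l 67)))))) (.l 56)) (.l 55)) (.l 55)) (.l 54))
    (.l 54)) (.l 53)) (.l 53)) (.l 52)))))) (.l 43))) (.l 43)) (.l 41)) (.l 40)) (.l 39))))))))

theorem c_15_3 {b : ℕ → ℕ} (hb : ∀ j, 1 ≤ j → j ≤ 15 → 1 ≤ b j)
    (hId : Identity 15 3 b) : False := by
  have h := final (N := 110) (mask := 2596147191062904710930852114098176)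
    (t := t_15_3) (sols := []) (by norm_num) hb hId (by decide +kernel) (by decide +kernel)
    (by decide +kernel)
  simp at h

def t_16_3 : Tree :=
    (.b 14 2 (.l 26) (.b 15 3 (.l 27) (.b 10 14 (.l 38) (.b 11 15 (.l 39) (.b 12 16 (.l 40) (.b
    13 17 (.l 41) (.b 14 18 (.b 15 19 (.b 14 16 (.b 15 17 (.b 14 15 (.l 45) (.b 15 16 (.b 8 28
    (.l 52) (.b 9 29 (.l 53) (.b 10 30 (.l 54) (.b 11 31 (.l 55) (.b 12 32 (.b 13 33 (.b 15 5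
    (.b 12 30 (.b 15 4 (.b 13 31 (.b 12 29 (.b 13 30 (.b 6 42 (.l 66) (.b 7 43 (.l 67) (.b 8 44
    (.l 68) (.b 9 45 (.l 69) (.b 10 46 (.b 12 18 (.l 70) (.b 11 47 (.b 13 19 (.b 10 44 (.b 13 18
    (.b 11 45 (.b 10 43 (.b 11 44 (.b 5 57 (.l 81) (.b 6 58 (.l 82) (.b 7 59 (.l 83) (.b 8 60
    (.b 10 32 (.l 84) (.b 9 61 (.b 11 33 (.b 8 58 (.b 11 32 (.b 9 59 (.b 8 57 (.b 9 58 (.b 4 72
    (.l 96) (.b 5 73 (.l 97) (.b 6 74 (.l 98) (.b 8 46 (.l 98) (.b 7 75 (.l 118) (.l 101))))))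
    (.l 88)) (.l 87)) (.l 87)) (.l 86)) (.l 86)) (.l 85)) (.l 85))) (.l 86))))) (.l 74)) (.l
    73)) (.l 73)) (.l 72)) (.l 72)) (.l 71)) (.l 71))) (.l 72)))))) (.l 60)) (.l 59)) (.l 59))
    (.l 58)) (.l 58)) (.l 57)) (.l 57)) (.l 56)))))) (.l 46))) (.l 46)) (.l 44)) (.l 43)) (.l
    42))))))))

theorem c_16_3 {b : ℕ → ℕ} (hb : ∀ j, 1 ≤ j → j ≤ 16 → 1 ≤ b j)
    (hId : Identity 16 3 b) : False := by
  have h := final (N := 118) (mask := 659421463331301106869340511745921024)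
    (t := t_16_3) (sols := []) (by norm_num) hb hId (by decide +kernel) (by decide +kernel)
    (by decide +kernel)
  simp at h

end Pool.Agent.H978D
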