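import Pool.Agent.H372R3.GE2

set_option autoImplicit false
set_option maxRecDepth 1000000

namespace Pool.Agent.H978D

open Pool.Agent.MPe9218d Pool.Agent.H372R3.GE

def t_17_3 : Tree :=
    (.b 15 2 (.l 28) (.b 16 3 (.l 29) (.b 11 15 (.l 41) (.b 12 16 (.l 42) (.b 13 17 (.l 43) (.b
    14 18 (.l 44) (.b 15 19 (.b 16 20 (.b 15 17 (.b 16 18 (.b 15 16 (.l 48) (.b 16 17 (.b 9 30
    (.l 56) (.b 10 31 (.l 57) (.b 11 32 (.l 58) (.b 12 33 (.l 59) (.b 13 34 (.b 14 35 (.b 16 5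
    (.b 13 32 (.b 16 4 (.b 14 33 (.b 13 31 (.b 14 32 (.b 7 45 (.l 71) (.b 8 46 (.l 72) (.b 9 47
    (.l 73) (.b 10 48 (.l 74) (.b 11 49 (.b 13 19 (.l 75) (.b 12 50 (.b 14 20 (.b 11 47 (.b 14
    19 (.b 12 48 (.b 11 46 (.b 12 47 (.b 6 61 (.l 87) (.b 7 62 (.l 88) (.b 8 63 (.l 89) (.b 9 64
    (.b 11 34 (.l 90) (.b 10 65 (.b 12 35 (.b 9 62 (.b 12 34 (.b 10 63 (.b 9 61 (.b 10 62 (.b 5
    77 (.l 103) (.b 6 78 (.l 104) (.b 7 79 (.l 105) (.b 9 49 (.l 105) (.b 8 80 (.l 126) (.l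
    108)))))) (.l 94)) (.l 93)) (.l 93)) (.l 92)) (.l 92)) (.l 91)) (.l 91))) (.l 92))))) (.l
    79)) (.l 78)) (.l 78)) (.l 77)) (.l 77)) (.l 76)) (.l 76))) (.l 77)))))) (.l 64)) (.l 63))
    (.l 63)) (.l 62)) (.l 62)) (.l 61)) (.l 61)) (.l 60)))))) (.l 49))) (.l 49)) (.l 47)) (.l
    46)) (.l 45))))))))

theorem c_17_3 {b : ℕ → ℕ} (hb : ∀ j, 1 ≤ j → j ≤ 17 → 1 ≤ b j)
    (hId : Identity 17 3 b) : False := by
  have h := final (N := 126) (mask := 168147305971375778524246625421717774336)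
    (t := t_17_3) (sols := []) (by norm_num) hb hId (by decide +kernel) (by decide +kernel)
    (by decide +kernel)
  simp at h

def t_18_3 : Tree :=
    (.b 16 2 (.l 30) (.b 17 3 (.l 31) (.b 12 16 (.l 44) (.b 13 17 (.l 45) (.b 14 18 (.l 46) (.b
    15 19 (.l 47) (.b 16 20 (.b 17 21 (.b 16 18 (.b 17 19 (.b 16 17 (.l 51) (.b 17 18 (.b 10 32
    (.l 60) (.b 11 33 (.l 61) (.b 12 34 (.l 62) (.b 13 35 (.l 63) (.b 14 36 (.b 15 37 (.b 17 5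
    (.b 14 34 (.b 17 4 (.b 15 35 (.b 14 33 (.b 15 34 (.b 8 48 (.l 76) (.b 9 49 (.l 77) (.b 10 50
    (.l 78) (.b 11 51 (.l 79) (.b 12 52 (.b 14 20 (.l 80) (.b 13 53 (.b 15 21 (.b 12 50 (.b 15
    20 (.b 13 51 (.b 12 49 (.b 13 50 (.b 7 65 (.l 93) (.b 8 66 (.l 94) (.b 9 67 (.l 95) (.b 10
    68 (.b 12 36 (.l 96) (.b 11 69 (.b 13 37 (.b 10 66 (.b 13 36 (.b 11 67 (.b 10 65 (.b 11 66
    (.b 6 82 (.l 110) (.b 7 83 (.l 111) (.b 8 84 (.l 112) (.b 10 52 (.l 112) (.b 9 85 (.l 134)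
    (.l 115)))))) (.l 100)) (.l 99)) (.l 99)) (.l 98)) (.l 98)) (.l 97)) (.l 97))) (.l 98)))))
    (.l 84)) (.l 83)) (.l 83)) (.l 82)) (.l 82)) (.l 81)) (.l 81))) (.l 82)))))) (.l 68)) (.l
    67)) (.l 67)) (.l 66)) (.l 66)) (.l 65)) (.l 65)) (.l 64)))))) (.l 52))) (.l 52)) (.l 50))
    (.l 49)) (.l 48))))))))

theorem c_18_3 {b : ℕ → ℕ} (hb : ∀ j, 1 ≤ j → j ≤ 18 → 1 ≤ b j)
    (hId : Identity 18 3 b) : False := by
  have h := final (N := 134) (mask := 42960643955912185313630026417235824951296)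
    (t := t_18_3) (sols := []) (by norm_num) hb hId (by decide +kernel) (by decide +kernel)
    (by decide +kernel)
  simp at h

end Pool.Agent.H978D
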