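import Pool.Agent.H372R3.GE2

set_option autoImplicit false
set_option maxRecDepth 1000000

namespace Pool.Agent.H978D

open Pool.Agent.MPe9218d Pool.Agent.H372R3.GE

def t_19_3 : Tree :=
    (.b 17 2 (.l 32) (.b 18 3 (.l 33) (.b 13 17 (.l 47) (.b 14 18 (.l 48) (.b 15 19 (.l 49) (.b
    16 20 (.l 50) (.b 17 21 (.b 18 22 (.b 17 19 (.b 18 20 (.b 17 18 (.l 54) (.b 18 19 (.b 11 34
    (.l 64) (.b 12 35 (.l 65) (.b 13 36 (.l 66) (.b 14 37 (.l 67) (.b 15 38 (.b 16 39 (.b 18 5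
    (.b 15 36 (.b 18 4 (.b 16 37 (.b 15 35 (.b 16 36 (.b 9 51 (.l 81) (.b 10 52 (.l 82) (.b 11
    53 (.l 83) (.b 12 54 (.l 84) (.b 13 55 (.b 15 21 (.l 85) (.b 14 56 (.b 16 22 (.b 13 53 (.b
    16 21 (.b 14 54 (.b 13 52 (.b 14 53 (.b 8 69 (.l 99) (.b 9 70 (.l 100) (.b 10 71 (.l 101)
    (.b 11 72 (.b 13 38 (.l 102) (.b 12 73 (.b 14 39 (.b 11 70 (.b 14 38 (.b 12 71 (.b 11 69 (.b
    12 70 (.b 7 87 (.l 117) (.b 8 88 (.l 118) (.b 9 89 (.l 119) (.b 11 55 (.l 119) (.b 10 90 (.l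
    142) (.l 122)))))) (.l 106)) (.l 105)) (.l 105)) (.l 104)) (.l 104)) (.l 103)) (.l 103)))
    (.l 104))))) (.l 89)) (.l 88)) (.l 88)) (.l 87)) (.l 87)) (.l 86)) (.l 86))) (.l 87))))))
    (.l 72)) (.l 71)) (.l 71)) (.l 70)) (.l 70)) (.l 69)) (.l 69)) (.l 68)))))) (.l 55))) (.l
    55)) (.l 53)) (.l 52)) (.l 51))))))))

theorem c_19_3 {b : ℕ → ℕ} (hb : ∀ j, 1 ≤ j → j ≤ 19 → 1 ≤ b j)
    (hId : Identity 19 3 b) : False := by
  have h := final (N := 142) (mask := 10987036419293419642399828708006258543067136)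
    (t := t_19_3) (sols := []) (by norm_num) hb hId (by decide +kernel) (by decide +kernel)
    (by decide +kernel)
  simp at h

def t_20_3 : Tree :=
    (.b 18 2 (.l 34) (.b 19 3 (.l 35) (.b 14 18 (.l 50) (.b 15 19 (.l 51) (.b 16 20 (.l 52) (.b
    17 21 (.l 53) (.b 18 22 (.b 19 23 (.b 18 20 (.b 19 21 (.b 18 19 (.l 57) (.b 19 20 (.b 12 36
    (.l 68) (.b 13 37 (.l 69) (.b 14 38 (.l 70) (.b 15 39 (.l 71) (.b 16 40 (.b 17 41 (.b 19 5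
    (.b 16 38 (.b 19 4 (.b 17 39 (.b 16 37 (.b 17 38 (.b 10 54 (.l 86) (.b 11 55 (.l 87) (.b 12
    56 (.l 88) (.b 13 57 (.l 89) (.b 14 58 (.b 16 22 (.l 90) (.b 15 59 (.b 17 23 (.b 14 56 (.b
    17 22 (.b 15 57 (.b 14 55 (.b 15 56 (.b 9 73 (.l 105) (.b 10 74 (.l 106) (.b 11 75 (.l 107)
    (.b 12 76 (.b 14 40 (.l 108) (.b 13 77 (.b 15 41 (.b 12 74 (.b 15 40 (.b 13 75 (.b 12 73 (.b
    13 74 (.b 8 92 (.l 124) (.b 9 93 (.l 125) (.b 10 94 (.l 126) (.b 12 58 (.l 126) (.b 11 95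
    (.l 150) (.l 129)))))) (.l 112)) (.l 111)) (.l 111)) (.l 110)) (.l 110)) (.l 109)) (.l
    109))) (.l 110))))) (.l 94)) (.l 93)) (.l 93)) (.l 92)) (.l 92)) (.l 91)) (.l 91))) (.l
    92)))))) (.l 76)) (.l 75)) (.l 75)) (.l 74)) (.l 74)) (.l 73)) (.l 73)) (.l 72)))))) (.l
    58))) (.l 58)) (.l 56)) (.l 55)) (.l 54))))))))

theorem c_20_3 {b : ℕ → ℕ} (hb : ∀ j, 1 ≤ j → j ≤ 20 → 1 ≤ b j)
    (hId : Identity 20 3 b) : False := by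
  have h := final (N := 150) (mask := 2811287607848079693809326020042230376994504704)
    (t := t_20_3) (sols := []) (by norm_num) hb hId (by decide +kernel) (by decide +kernel)
    (by decide +kernel)
  simp at h

end Pool.Agent.H978D
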