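import Pool.Agent.H372R3.GE2

set_option autoImplicit false
set_option maxRecDepth 1000000

namespace Pool.Agent.H978D

open Pool.Agent.MPe9218d Pool.Agent.H372R3.GE

def t_21_3 : Tree :=
    (.b 19 2 (.l 36) (.b 20 3 (.l 37) (.b 15 19 (.l 53) (.b 16 20 (.l 54) (.b 17 21 (.l 55) (.b
    18 22 (.l 56) (.b 19 23 (.b 20 24 (.b 19 21 (.b 20 22 (.b 19 20 (.l 60) (.b 20 21 (.b 13 38
    (.l 72) (.b 14 39 (.l 73) (.b 15 40 (.l 74) (.b 16 41 (.l 75) (.b 17 42 (.b 18 43 (.b 20 5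
    (.b 17 40 (.b 20 4 (.b 18 41 (.b 17 39 (.b 18 40 (.b 11 57 (.l 91) (.b 12 58 (.l 92) (.b 13
    59 (.l 93) (.b 14 60 (.l 94) (.b 15 61 (.b 17 23 (.l 95) (.b 16 62 (.b 18 24 (.b 15 59 (.b
    18 23 (.b 16 60 (.b 15 58 (.b 16 59 (.b 10 77 (.l 111) (.b 11 78 (.l 112) (.b 12 79 (.l 113)
    (.b 13 80 (.b 15 42 (.l 114) (.b 14 81 (.b 16 43 (.b 13 78 (.b 16 42 (.b 14 79 (.b 13 77 (.b
    14 78 (.b 9 97 (.l 131) (.b 10 98 (.l 132) (.b 11 99 (.l 133) (.b 13 61 (.l 133) (.b 12 100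
    (.l 158) (.l 136)))))) (.l 118)) (.l 117)) (.l 117)) (.l 116)) (.l 116)) (.l 115)) (.l
    115))) (.l 116))))) (.l 99)) (.l 98)) (.l 98)) (.l 97)) (.l 97)) (.l 96)) (.l 96))) (.l
    97)))))) (.l 80)) (.l 79)) (.l 79)) (.l 78)) (.l 78)) (.l 77)) (.l 77)) (.l 76)))))) (.l
    61))) (.l 61)) (.l 59)) (.l 58)) (.l 57))))))))

theorem c_21_3 {b : ℕ → ℕ} (hb : ∀ j, 1 ≤ j → j ≤ 21 → 1 ≤ b j)
    (hId : Identity 21 3 b) : False := by
  have h := final (N := 158) (mask := 719511232281406146656309550683678841338490126336)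
    (t := t_21_3) (sols := []) (by norm_num) hb hId (by decide +kernel) (by decide +kernel)
    (by decide +kernel)
  simp at h

def t_22_3 : Tree :=
    (.b 20 2 (.l 38) (.b 21 3 (.l 39) (.b 16 20 (.l 56) (.b 17 21 (.l 57) (.b 18 22 (.l 58) (.b
    19 23 (.l 59) (.b 20 24 (.b 21 25 (.b 20 22 (.b 21 23 (.b 20 21 (.l 63) (.b 21 22 (.b 14 40
    (.l 76) (.b 15 41 (.l 77) (.b 16 42 (.l 78) (.b 17 43 (.l 79) (.b 18 44 (.b 19 45 (.b 21 5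
    (.b 18 42 (.b 21 4 (.b 19 43 (.b 18 41 (.b 19 42 (.b 12 60 (.l 96) (.b 13 61 (.l 97) (.b 14
    62 (.l 98) (.b 15 63 (.l 99) (.b 16 64 (.b 18 24 (.l 100) (.b 17 65 (.b 19 25 (.b 16 62 (.b
    19 24 (.b 17 63 (.b 16 61 (.b 17 62 (.b 11 81 (.l 117) (.b 12 82 (.l 118) (.b 13 83 (.l 119)
    (.b 14 84 (.b 16 44 (.l 120) (.b 15 85 (.b 17 45 (.b 14 82 (.b 17 44 (.b 15 83 (.b 14 81 (.b
    15 82 (.b 10 102 (.l 138) (.b 11 103 (.l 139) (.b 12 104 (.l 140) (.b 14 64 (.l 140) (.b 13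
    105 (.l 166) (.l 143)))))) (.l 124)) (.l 123)) (.l 123)) (.l 122)) (.l 122)) (.l 121)) (.l
    121))) (.l 122))))) (.l 104)) (.l 103)) (.l 103)) (.l 102)) (.l 102)) (.l 101)) (.l 101)))
    (.l 102)))))) (.l 84)) (.l 83)) (.l 83)) (.l 82)) (.l 82)) (.l 81)) (.l 81)) (.l 80))))))
    (.l 64))) (.l 64)) (.l 62)) (.l 61)) (.l 60))))))))

theorem c_22_3 {b : ℕ → ℕ} (hb : ∀ j, 1 ≤ j → j ≤ 22 → 1 ≤ b j)
    (hId : Identity 22 3 b) : False := by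
  have h := final (N := 166) (mask := 184172040878423678083777204167766207906678201122816)
    (t := t_22_3) (sols := []) (by norm_num) hb hId (by decide +kernel) (by decide +kernel)
    (by decide +kernel)
  simp at h

end Pool.Agent.H978D
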