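import Pool.Agent.H372R3.GE2

set_option autoImplicit false
set_option maxRecDepth 1000000

namespace Pool.Agent.H978D

open Pool.Agent.MPe9218d Pool.Agent.H372R3.GE

def t_23_3 : Tree :=
    (.b 21 2 (.l 40) (.b 22 3 (.l 41) (.b 17 21 (.l 59) (.b 18 22 (.l 60) (.b 19 23 (.l 61) (.b
    20 24 (.l 62) (.b 21 25 (.b 22 26 (.b 21 23 (.b 22 24 (.b 21 22 (.l 66) (.b 22 23 (.b 15 42
    (.l 80) (.b 16 43 (.l 81) (.b 17 44 (.l 82) (.b 18 45 (.l 83) (.b 19 46 (.b 20 47 (.b 22 5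
    (.b 19 44 (.b 22 4 (.b 20 45 (.b 19 43 (.b 20 44 (.b 13 63 (.l 101) (.b 14 64 (.l 102) (.b
    15 65 (.l 103) (.b 16 66 (.l 104) (.b 17 67 (.b 19 25 (.l 105) (.b 18 68 (.b 20 26 (.b 17 65
    (.b 20 25 (.b 18 66 (.b 17 64 (.b 18 65 (.b 12 85 (.l 123) (.b 13 86 (.l 124) (.b 14 87 (.l
    125) (.b 15 88 (.b 17 46 (.l 126) (.b 16 89 (.b 18 47 (.b 15 86 (.b 18 46 (.b 16 87 (.b 15
    85 (.b 16 86 (.b 11 107 (.l 145) (.b 12 108 (.l 146) (.b 13 109 (.l 147) (.b 15 67 (.l 147)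
    (.b 14 110 (.l 174) (.l 150)))))) (.l 130)) (.l 129)) (.l 129)) (.l 128)) (.l 128)) (.l
    127)) (.l 127))) (.l 128))))) (.l 109)) (.l 108)) (.l 108)) (.l 107)) (.l 107)) (.l 106))
    (.l 106))) (.l 107)))))) (.l 88)) (.l 87)) (.l 87)) (.l 86)) (.l 86)) (.l 85)) (.l 85)) (.l
    84)))))) (.l 67))) (.l 67)) (.l 65)) (.l 64)) (.l 63))))))))

theorem c_23_3 {b : ℕ → ℕ} (hb : ∀ j, 1 ≤ j → j ≤ 23 → 1 ≤ b j)
    (hId : Identity 23 3 b) : False := by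
  have h := final (N := 174) (mask := 47145119638962668861822888359046752432151677641424896)
    (t := t_23_3) (sols := []) (by norm_num) hb hId (by decide +kernel) (by decide +kernel)
    (by decide +kernel)
  simp at h

def t_24_3 : Tree :=
    (.b 22 2 (.l 42) (.b 23 3 (.l 43) (.b 18 22 (.l 62) (.b 19 23 (.l 63) (.b 20 24 (.l 64) (.b
    21 25 (.l 65) (.b 22 26 (.b 23 27 (.b 22 24 (.b 23 25 (.b 22 23 (.l 69) (.b 23 24 (.b 16 44
    (.l 84) (.b 17 45 (.l 85) (.b 18 46 (.l 86) (.b 19 47 (.l 87) (.b 20 48 (.b 21 49 (.b 23 5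
    (.b 20 46 (.b 23 4 (.b 21 47 (.b 20 45 (.b 21 46 (.b 14 66 (.l 106) (.b 15 67 (.l 107) (.b
    16 68 (.l 108) (.b 17 69 (.l 109) (.b 18 70 (.b 20 26 (.l 110) (.b 19 71 (.b 21 27 (.b 18 68
    (.b 21 26 (.b 19 69 (.b 18 67 (.b 19 68 (.b 13 89 (.l 129) (.b 14 90 (.l 130) (.b 15 91 (.l
    131) (.b 16 92 (.b 18 48 (.l 132) (.b 17 93 (.b 19 49 (.b 16 90 (.b 19 48 (.b 17 91 (.b 16
    89 (.b 17 90 (.b 12 112 (.l 152) (.b 13 113 (.l 153) (.b 14 114 (.l 154) (.b 16 70 (.l 154)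
    (.b 15 115 (.l 182) (.l 157)))))) (.l 136)) (.l 135)) (.l 135)) (.l 134)) (.l 134)) (.l
    133)) (.l 133))) (.l 134))))) (.l 114)) (.l 113)) (.l 113)) (.l 112)) (.l 112)) (.l 111))
    (.l 111))) (.l 112)))))) (.l 92)) (.l 91)) (.l 91)) (.l 90)) (.l 90)) (.l 89)) (.l 89)) (.l
    88)))))) (.l 70))) (.l 70)) (.l 68)) (.l 67)) (.l 66))))))))

theorem c_24_3 {b : ℕ → ℕ} (hb : ∀ j, 1 ≤ j → j ≤ 24 → 1 ≤ b j)
    (hId : Identity 24 3 b) : False := by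
  have h := final (N := 182) (mask := 12068776505924363689432923811147799967716867724498960384)
    (t := t_24_3) (sols := []) (by norm_num) hb hId (by decide +kernel) (by decide +kernel)
    (by decide +kernel)
  simp at h

end Pool.Agent.H978D
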