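import Pool.Agent.H372R3.GE2

set_option autoImplicit false
set_option maxRecDepth 1000000

namespace Pool.Agent.H978D

open Pool.Agent.MPe9218d Pool.Agent.H372R3.GE

def t_25_3 : Tree :=
    (.b 23 2 (.l 44) (.b 24 3 (.l 45) (.b 19 23 (.l 65) (.b 20 24 (.l 66) (.b 21 25 (.l 67) (.b
    22 26 (.l 68) (.b 23 27 (.b 24 28 (.b 23 25 (.b 24 26 (.b 23 24 (.l 72) (.b 24 25 (.b 17 46
    (.l 88) (.b 18 47 (.l 89) (.b 19 48 (.l 90) (.b 20 49 (.l 91) (.b 21 50 (.b 22 51 (.b 24 5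
    (.b 21 48 (.b 24 4 (.b 22 49 (.b 21 47 (.b 22 48 (.b 15 69 (.l 111) (.b 16 70 (.l 112) (.b
    17 71 (.l 113) (.b 18 72 (.l 114) (.b 19 73 (.b 21 27 (.l 115) (.b 20 74 (.b 22 28 (.b 19 71
    (.b 22 27 (.b 20 72 (.b 19 70 (.b 20 71 (.b 14 93 (.l 135) (.b 15 94 (.l 136) (.b 16 95 (.l
    137) (.b 17 96 (.b 19 50 (.l 138) (.b 18 97 (.b 20 51 (.b 17 94 (.b 20 50 (.b 18 95 (.b 17
    93 (.b 18 94 (.b 13 117 (.l 159) (.b 14 118 (.l 160) (.b 15 119 (.l 161) (.b 17 73 (.l 161)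
    (.b 16 120 (.l 190) (.l 164)))))) (.l 142)) (.l 141)) (.l 141)) (.l 140)) (.l 140)) (.l
    139)) (.l 139))) (.l 140))))) (.l 119)) (.l 118)) (.l 118)) (.l 117)) (.l 117)) (.l 116))
    (.l 116))) (.l 117)))))) (.l 96)) (.l 95)) (.l 95)) (.l 94)) (.l 94)) (.l 93)) (.l 93)) (.l
    92)))))) (.l 73))) (.l 73)) (.l 71)) (.l 70)) (.l 69))))))))

theorem c_25_3 {b : ℕ → ℕ} (hb : ∀ j, 1 ≤ j → j ≤ 25 → 1 ≤ b j)
    (hId : Identity 25 3 b) : False := by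
  have h := final (N := 190) (mask := 3089558897949707622101522229456419661821362345454270939136)
    (t := t_25_3) (sols := []) (by norm_num) hb hId (by decide +kernel) (by decide +kernel)
    (by decide +kernel)
  simp at h

def t_26_3 : Tree :=
    (.b 24 2 (.l 46) (.b 25 3 (.l 47) (.b 20 24 (.l 68) (.b 21 25 (.l 69) (.b 22 26 (.l 70) (.b
    23 27 (.l 71) (.b 24 28 (.b 25 29 (.b 24 26 (.b 25 27 (.b 24 25 (.l 75) (.b 25 26 (.b 18 48
    (.l 92) (.b 19 49 (.l 93) (.b 20 50 (.l 94) (.b 21 51 (.l 95) (.b 22 52 (.b 23 53 (.b 25 5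
    (.b 22 50 (.b 25 4 (.b 23 51 (.b 22 49 (.b 23 50 (.b 16 72 (.l 116) (.b 17 73 (.l 117) (.b
    18 74 (.l 118) (.b 19 75 (.l 119) (.b 20 76 (.b 22 28 (.l 120) (.b 21 77 (.b 23 29 (.b 20 74
    (.b 23 28 (.b 21 75 (.b 20 73 (.b 21 74 (.b 15 97 (.l 141) (.b 16 98 (.l 142) (.b 17 99 (.l
    143) (.b 18 100 (.b 20 52 (.l 144) (.b 19 101 (.b 21 53 (.b 18 98 (.b 21 52 (.b 19 99 (.b 18
    97 (.b 19 98 (.b 14 122 (.l 166) (.b 15 123 (.l 167) (.b 16 124 (.l 168) (.b 18 76 (.l 168)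
    (.b 17 125 (.l 198) (.l 171)))))) (.l 148)) (.l 147)) (.l 147)) (.l 146)) (.l 146)) (.l
    145)) (.l 145))) (.l 146))))) (.l 124)) (.l 123)) (.l 123)) (.l 122)) (.l 122)) (.l 121))
    (.l 121))) (.l 122)))))) (.l 100)) (.l 99)) (.l 99)) (.l 98)) (.l 98)) (.l 97)) (.l 97)) (.l
    96)))))) (.l 76))) (.l 76)) (.l 74)) (.l 73)) (.l 72))))))))

theorem c_26_3 {b : ℕ → ℕ} (hb : ∀ j, 1 ≤ j → j ≤ 26 → 1 ≤ b j)
    (hId : Identity 26 3 b) : False := by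
  have h := final (N := 198) (mask := 790920948266832142194980201427844305516580321549321959899136)
    (t := t_26_3) (sols := []) (by norm_num) hb hId (by decide +kernel) (by decide +kernel)
    (by decide +kernel)
  simp at h

end Pool.Agent.H978D
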