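import Pool.Agent.H372R3.GE2

set_option autoImplicit false
set_option maxRecDepth 1000000

namespace Pool.Agent.H978D

open Pool.Agent.MPe9218d Pool.Agent.H372R3.GE

def t_27_3 : Tree :=
    (.b 25 2 (.l 48) (.b 26 3 (.l 49) (.b 21 25 (.l 71) (.b 22 26 (.l 72) (.b 23 27 (.l 73) (.b
    24 28 (.l 74) (.b 25 29 (.b 26 30 (.b 25 27 (.b 26 28 (.b 25 26 (.l 78) (.b 26 27 (.b 19 50
    (.l 96) (.b 20 51 (.l 97) (.b 21 52 (.l 98) (.b 22 53 (.l 99) (.b 23 54 (.b 24 55 (.b 26 5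
    (.b 23 52 (.b 26 4 (.b 24 53 (.b 23 51 (.b 24 52 (.b 17 75 (.l 121) (.b 18 76 (.l 122) (.b
    19 77 (.l 123) (.b 20 78 (.l 124) (.b 21 79 (.b 23 29 (.l 125) (.b 22 80 (.b 24 30 (.b 21 77
    (.b 24 29 (.b 22 78 (.b 21 76 (.b 22 77 (.b 16 101 (.l 147) (.b 17 102 (.l 148) (.b 18 103
    (.l 149) (.b 19 104 (.b 21 54 (.l 150) (.b 20 105 (.b 22 55 (.b 19 102 (.b 22 54 (.b 20 103
    (.b 19 101 (.b 20 102 (.b 15 127 (.l 173) (.b 16 128 (.l 174) (.b 17 129 (.l 175) (.b 19 79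
    (.l 175) (.b 18 130 (.l 206) (.l 178)))))) (.l 154)) (.l 153)) (.l 153)) (.l 152)) (.l 152))
    (.l 151)) (.l 151))) (.l 152))))) (.l 129)) (.l 128)) (.l 128)) (.l 127)) (.l 127)) (.l
    126)) (.l 126))) (.l 127)))))) (.l 104)) (.l 103)) (.l 103)) (.l 102)) (.l 102)) (.l 101))
    (.l 101)) (.l 100)))))) (.l 79))) (.l 79)) (.l 77)) (.l 76)) (.l 75))))))))

theorem c_27_3 {b : ℕ → ℕ} (hb : ∀ j, 1 ≤ j → j ≤ 27 → 1 ≤ b j)
    (hId : Identity 27 3 b) : False := by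
  have h := final (N := 206) (mask := 202474978166465056980668842066321127166783445787827871422611456)
    (t := t_27_3) (sols := []) (by norm_num) hb hId (by decide +kernel) (by decide +kernel)
    (by decide +kernel)
  simp at h

end Pool.Agent.H978D
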