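import Pool.Agent.H372R3.GE2

set_option autoImplicit false
set_option maxRecDepth 1000000

namespace Pool.Agent.H978D

open Pool.Agent.MPe9218d Pool.Agent.H372R3.GE

def t_25_5 : Tree :=
    (.b 17 8 (.l 26) (.b 21 12 (.l 30) (.b 23 14 (.l 32) (.b 24 15 (.l 33) (.b 1 17 (.l 35) (.b
    5 21 (.l 39) (.b 7 23 (.l 41) (.b 8 24 (.l 42) (.b 9 25 (.l 43) (.b 13 29 (.b 15 31 (.b 16
    32 (.l 50) (.b 17 33 (.b 18 34 (.l 52) (.b 19 35 (.l 53) (.b 20 36 (.l 54) (.b 21 37 (.b 13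
    21 (.l 55) (.b 22 38 (.l 56) (.b 23 39 (.b 15 23 (.l 57) (.b 24 40 (.b 0 41 (.b 17 25 (.l
    59) (.b 1 42 (.l 60) (.l 68))) (.b 17 25 (.b 1 42 (.l 60) (.b 3 44 (.l 62) (.b 4 45 (.b 21
    29 (.l 63) (.l 67)) (.b 21 29 (.b 17 21 (.l 63) (.l 68)) (.l 67))))) (.l 59))) (.l 58))) (.b
    15 23 (.b 24 40 (.b 0 41 (.b 17 25 (.l 59) (.b 1 42 (.l 60) (.l 68))) (.b 17 25 (.b 1 42 (.l
    60) (.b 15 19 (.l 61) (.b 3 44 (.l 62) (.b 4 45 (.b 21 29 (.l 63) (.l 67)) (.l 71))))) (.l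
    59))) (.l 58)) (.l 57))))) (.b 13 21 (.b 22 38 (.l 56) (.b 23 39 (.b 15 23 (.l 57) (.b 24 40
    (.b 0 41 (.b 17 25 (.l 59) (.b 13 17 (.l 59) (.b 1 42 (.l 60) (.l 68)))) (.l 67)) (.l 58)))
    (.b 15 23 (.b 24 40 (.b 0 41 (.b 17 25 (.l 59) (.b 13 17 (.l 59) (.b 1 42 (.l 60) (.l 68))))
    (.l 67)) (.l 58)) (.l 57)))) (.l 55)))))) (.l 51))) (.l 49)) (.l 47)))))))))))

theorem c_25_5 {b : ℕ → ℕ} (hb : ∀ j, 1 ≤ j → j ≤ 25 → 1 ≤ b j)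
    (hId : Identity 25 5 b) : False := by
  have h := final (N := 71) (mask := 4722361978476617138688)
    (t := t_25_5) (sols := []) (by norm_num) hb hId (by decide +kernel) (by decide +kernel)
    (by decide +kernel)
  simp at h

def t_50_6 : Tree :=
    (.b 34 16 (.l 52) (.b 42 24 (.l 60) (.b 46 28 (.l 64) (.b 48 30 (.l 66) (.b 49 31 (.l 67)
    (.b 2 34 (.l 70) (.b 10 42 (.l 78) (.b 14 46 (.l 82) (.b 16 48 (.l 84) (.b 17 49 (.l 85) (.b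
    18 50 (.l 86) (.b 26 58 (.b 30 62 (.b 32 64 (.l 100) (.b 33 65 (.l 101) (.b 34 66 (.b 36 68
    (.l 104) (.b 38 70 (.l 106) (.b 40 72 (.l 108) (.b 41 73 (.l 109) (.b 42 74 (.b 26 42 (.l
    110) (.b 44 76 (.l 112) (.b 45 77 (.l 113) (.b 46 78 (.b 30 46 (.l 114) (.b 47 79 (.l 115)
    (.b 48 80 (.b 49 81 (.b 0 82 (.b 34 50 (.l 118) (.b 1 83 (.l 119) (.b 2 84 (.l 120) (.l
    136)))) (.b 34 50 (.b 1 83 (.l 119) (.b 2 84 (.l 120) (.b 6 88 (.l 124) (.b 8 90 (.b 42 58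
    (.l 126) (.l 134)) (.b 42 58 (.b 34 42 (.l 126) (.l 136)) (.l 134)))))) (.l 118))) (.l 117))
    (.l 116)))) (.b 30 46 (.b 47 79 (.l 115) (.b 48 80 (.b 49 81 (.b 0 82 (.b 34 50 (.l 118) (.b
    1 83 (.l 119) (.b 2 84 (.l 120) (.l 136)))) (.b 34 50 (.b 1 83 (.l 119) (.b 2 84 (.l 120)
    (.b 30 38 (.l 122) (.b 6 88 (.l 124) (.b 8 90 (.b 42 58 (.l 126) (.l 134)) (.l 142)))))) (.l
    118))) (.l 117)) (.l 116))) (.l 114)))))) (.b 26 42 (.b 44 76 (.l 112) (.b 45 77 (.l 113)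
    (.b 46 78 (.b 30 46 (.l 114) (.b 47 79 (.l 115) (.b 48 80 (.b 49 81 (.b 0 82 (.b 34 50 (.l
    118) (.b 26 34 (.l 118) (.b 1 83 (.l 119) (.b 2 84 (.l 120) (.l 136))))) (.l 134)) (.l 117))
    (.l 116)))) (.b 30 46 (.b 47 79 (.l 115) (.b 48 80 (.b 49 81 (.b 0 82 (.b 34 50 (.l 118) (.b
    26 34 (.l 118) (.b 1 83 (.l 119) (.b 2 84 (.l 120) (.l 136))))) (.l 134)) (.l 117)) (.l
    116))) (.l 114))))) (.l 110))))))) (.l 102)))) (.l 98)) (.l 94)))))))))))))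

theorem c_50_6 {b : ℕ → ℕ} (hb : ∀ j, 1 ≤ j → j ≤ 50 → 1 ≤ b j)
    (hId : Identity 50 6 b) : False := by
  have h := final (N := 142) (mask := 11150188498358488500740905389637163286790144)
    (t := t_50_6) (sols := []) (by norm_num) hb hId (by decide +kernel) (by decide +kernel)
    (by decide +kernel)
  simp at h

end Pool.Agent.H978D
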