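import Pool.Agent.H978D.DefsQ
import Pool.Agent.H978D.D1
import Pool.Agent.H978D.D2
import Pool.Agent.H978D.D3
import Pool.Agent.H978D.D4
import Pool.Agent.H978D.D5
import Pool.Agent.H978D.D6
import Pool.Agent.H978D.D7
import Pool.Agent.H978D.D8
import Pool.Agent.H978D.D9

set_option autoImplicit false

namespace Pool.Agent.H978D

open Pool.Agent.MPe9218d

























theorem q1_pow (m : ℕ) : 2 ^ (m + 3) = 8 * 2 ^ m := by
  rw [pow_add]; ring

theorem q1_cases {m M E g e x Q : ℕ} (H : Hyp2 m M E g) (he : Nc (m + 3) M e) (hx1 : 1 ≤ x)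
    (hxM : x ≤ M) (hQ1 : 1 ≤ Q) (hQ : Q ≤ 3) (hx : e + x = Q * M) :
    (∃ T, T ∈ TS (m + 3) Q x) ∨ (2 ≤ Q ∧ ∃ T, T ∈ TS (m + 3) (Q + 1) (x + M)) := by
  obtain ⟨hM1, hE1, hg1, hg2, -⟩ := H
  have hk := q1_pow m
  have hu : 1 ≤ 2 ^ m := Nat.one_le_two_pow
  have hlt : 2 ^ (m + 3) < M := by omega
  have he1 : 1 ≤ e := he.1
  obtain ⟨L, Y, ⟨T, hT⟩, hY⟩ := (nc_iff hlt he1).1 he
  have hc := TS_card hT
  have hb := TS_bound hT
  rw [hk] at hb
  rcases lt_trichotomy L Q with hL | hL | hL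
  · exfalso
    obtain ⟨d, rfl⟩ : ∃ d, Q = L + 1 + d := ⟨Q - L - 1, by omega⟩
    have h2 : (L + 1 + d) * M = L * M + M + d * M := by ring
    rcases Nat.eq_zero_or_pos L with h0 | h0
    · subst h0
      simp only [Nat.zero_mul] at hY
      omega
    · have h1 := hc.2.2.2.1 h0
      rw [h2] at hx
      have : 0 ≤ d * M := Nat.zero_le _
      omega
  · subst hL
    left
    have : Y = x := by omega
    subst this
    exact ⟨T, hT⟩
  · obtain ⟨t, rfl⟩ : ∃ t, L = Q + 1 + t := ⟨L - Q - 1, by omega⟩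
    have h2 : (Q + 1 + t) * M = Q * M + M + t * M := by ring
    rw [h2] at hY
    have hYe : Y = x + M + t * M := by omega
    have hMt : t * M = 12 * (t * 2 ^ m) + t * g := by
      have : M = 12 * 2 ^ m + g := by omega
      rw [this]; ring
    have h3 : 8 * 2 ^ m * (Q + 1 + t + 1) = 8 * (Q * 2 ^ m) + 16 * 2 ^ m + 8 * (t * 2 ^ m) := by
      ring
    rw [h3] at hb
    have hQu : Q * 2 ^ m ≤ 3 * 2 ^ m := Nat.mul_le_mul_right _ hQ
    rcases Nat.eq_zero_or_pos t with h0 | h0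
    · subst h0
      right
      simp only [Nat.zero_mul, Nat.add_zero] at *
      subst hYe
      refine ⟨?_, T, hT⟩
      by_contra hcon
      have hQ' : Q = 1 := by omega
      subst hQ'
      simp only [Nat.one_mul] at hb
      omega
    · exfalso
      have h4 : 2 ^ m ≤ t * 2 ^ m := Nat.le_mul_of_pos_left _ h0
      have h5 : 0 ≤ t * g := Nat.zero_le _
      omega

/-- TARGET -/
theorem q_nc1 {m M E g e x : ℕ} (H : Hyp2 m M E g) (he : Nc (m + 3) M e) (hx1 : 1 ≤ x)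
    (hx : e + x = M) : Pw (m + 3) x := by
  rcases q1_cases (Q := 1) H he hx1 (by omega) le_rfl (by norm_num) (by omega) with ⟨T, hT⟩ | ⟨h, -⟩
  · exact TS_one hT
  · omega

/-- TARGET -/
theorem q_nc2 {m M E g e x : ℕ} (H : Hyp2 m M E g) (he : Nc (m + 3) M e) (hx1 : 1 ≤ x)
    (hxM : x ≤ M) (hx : e + x = 2 * M) : (pc x ≤ 2 ∧ x ≤ 12 * 2 ^ m) ∨ x = E ∨
      ∃ i, i ≤ m + 1 ∧ g < 2 ^ i ∧ x + g = 2 ^ i := by
  have hk := q1_pow m
  rcases q1_cases (Q := 2) H he hx1 hxM (by norm_num) (by norm_num) hx with ⟨T, hT⟩ | ⟨-, T, hT⟩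
  · left
    have hc := TS_card hT
    have hb := TS_bound hT
    rw [hk] at hb
    exact ⟨hc.2.1.trans hc.1, by omega⟩
  · right
    obtain ⟨hM1, hE1, hg1, hg2, -⟩ := H
    have hc := TS_card hT
    have hb := TS_bound hT
    rw [hk] at hb
    have hxE : x ≤ E := by omega
    rcases hxE.eq_or_lt with h | h
    · exact Or.inl h
    · right
      have hpc : pc (x + M) ≤ 3 := hc.2.1.trans hc.1
      have h2 : (2 : ℕ) ^ (m + 2) = 4 * 2 ^ m := by rw [pow_add]; ring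
      have hxM' : x + M = 2 ^ (m + 3) + (2 ^ (m + 2) + (x + g)) := by omega
      rw [hxM', pc_top (by omega), pc_top (by omega)] at hpc
      have hp : 1 ≤ pc (x + g) := pc_pos (by omega)
      obtain ⟨i, hi⟩ := pc_one (show pc (x + g) = 1 by omega)
      refine ⟨i, ?_, by omega, hi⟩
      have h3 : (2 : ℕ) ^ i < 2 ^ (m + 2) := by omega
      have := (Nat.pow_lt_pow_iff_right (a := 2) (by norm_num)).1 h3
      omega

/-- TARGET -/
theorem q_nc3 {m M E g e x : ℕ} (H : Hyp2 m M E g) (he : Nc (m + 3) M e) (hx1 : 1 ≤ x)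
    (hxM : x ≤ M) (hx : e + x = 3 * M) : pc x ≤ 3 ∨ x ≤ E ∨
      ∃ i, i ≤ m + 2 ∧ x = E + 2 ^ i := by
  have hk := q1_pow m
  rcases q1_cases (Q := 3) H he hx1 hxM (by norm_num) (by norm_num) hx with ⟨T, hT⟩ | ⟨-, T, hT⟩
  · left
    have hc := TS_card hT
    exact hc.2.1.trans hc.1
  · right
    obtain ⟨hM1, hE1, hg1, hg2, -⟩ := H
    rcases Nat.lt_or_ge (2 * 2 ^ (m + 3)) (x + M) with h | h
    · right
      obtain ⟨i, hi, -, hY⟩ := TS_four_top hT h
      exact ⟨i, by omega, by omega⟩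
    · left
      omega

end Pool.Agent.H978D
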