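import Pool.Agent.H978D.DefsQ
import Pool.Agent.H978D.D1
import Pool.Agent.H978D.D2
import Pool.Agent.H978D.D3
import Pool.Agent.H978D.D4
import Pool.Agent.H978D.D5
import Pool.Agent.H978D.D6
import Pool.Agent.H978D.D7
import Pool.Agent.H978D.D8
import Pool.Agent.H978D.D9

set_option autoImplicit false

namespace Pool.Agent.H978D

open Pool.Agent.MPe9218d

























theorem q6_pow (m : ℕ) : 2 ^ (m + 1) = 2 * 2 ^ m ∧ 2 ^ (m + 2) = 4 * 2 ^ m ∧ 2 ^ (m + 3) = 8 * 2 ^ m ∧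
    1 ≤ 2 ^ m := by
  refine ⟨by ring, by ring, by ring, Nat.one_le_two_pow⟩

/-- no power of two strictly between two consecutive ones -/
theorem q6_gap {i j : ℕ} (h1 : 2 ^ j < 2 ^ i) (h2 : 2 ^ i < 2 ^ (j + 1)) : False := by
  have h3 : j < i := (Nat.pow_lt_pow_iff_right (by norm_num)).mp h1
  have h4 : i < j + 1 := (Nat.pow_lt_pow_iff_right (by norm_num)).mp h2
  omega

theorem q6_levels {m M E g Z n : ℕ} (H : Hyp2 m M E g) (hZ : Z < 12 * 2 ^ m) (hZ4 : 4 * 2 ^ m ≤ Z)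
    (hn : n + Z = 3 * M) {L Y : ℕ} (h : n + Y = L * M) (hne : (TS (m + 3) L Y).Nonempty) :
    (L = 3 ∧ Y = Z) ∨ (L = 4 ∧ Y = M + Z) := by
  obtain ⟨e1, e2, e3, e4⟩ := q6_pow m
  obtain ⟨h1, h2, h3, h4, h5⟩ := H
  obtain ⟨T, hT⟩ := hne
  have hb := TS_bound hT
  rw [e3] at hb
  generalize 2 ^ m = u at *
  have hM : 12 * u < M := by omega
  rcases Nat.lt_or_ge L 3 with hL | hL
  · exfalso
    have : L * M ≤ 2 * M := Nat.mul_le_mul_right M (by omega)
    omega
  · rcases Nat.lt_or_ge L 5 with hL5 | hL5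
    · have : L = 3 ∨ L = 4 := by omega
      rcases this with rfl | rfl
      · left; omega
      · right; omega
    · exfalso
      obtain ⟨l, rfl⟩ : ∃ l, L = 5 + l := ⟨L - 5, by omega⟩
      have h6 : Y = (2 + l) * M + Z := by
        have : (5 + l) * M = 3 * M + (2 + l) * M := by ring
        omega
      have h7 : (2 + l) * (12 * u) ≤ (2 + l) * M := Nat.mul_le_mul_left _ hM.le
      have h8 : (2 + l) * (12 * u) = 24 * u + 12 * (l * u) := by ring
      have h9 : 8 * u * (5 + l + 1) = 48 * u + 8 * (l * u) := by ring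
      omega

/-- TARGET -/
theorem q_lb4 {m M E g j r p : ℕ} (H : Hyp2 m M E g) (hj : j ≤ m)
    (hr : r < 2 ^ j) (hr1 : 1 ≤ r) (hEr : E = 2 * 2 ^ m + 2 ^ j + r)
    (hp : p = m + 1 ∨ p = j) : A (a M) (m + 3 + 1) M (3 * M - (4 * 2 ^ m + 2 ^ p)) ≤ 2 := by
  obtain ⟨e1, e2, e3, e4⟩ := q6_pow m
  have hjm : 2 ^ j ≤ 2 ^ m := Nat.pow_le_pow_right (by norm_num) hj
  have hpm : 2 ^ p ≤ 2 * 2 ^ m := by
    rcases hp with rfl | rfl
    · rw [e1]
    · omega
  have hp0 : 1 ≤ 2 ^ p := Nat.one_le_two_pow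
  obtain ⟨h1, h2, h3, h4, h5⟩ := id H
  have hM : 2 ^ (m + 3) < M := by omega
  have hn : 3 * M - (4 * 2 ^ m + 2 ^ p) + (4 * 2 ^ m + 2 ^ p) = 3 * M := by omega
  refine (A_cover hM {(3, 4 * 2 ^ m + 2 ^ p)} ?_).trans ?_
  · intro L Y hLY hne
    rcases q6_levels H (by omega) (by omega) hn hLY hne with ⟨rfl, rfl⟩ | ⟨rfl, hY⟩
    · simp
    · exfalso
      obtain ⟨T, hT⟩ := hne
      obtain ⟨i, hi, -, hYi⟩ := TS_four_top hT (by omega)
      rcases hp with rfl | rfl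
      · apply q6_gap (i := i) (j := m + 1)
        · omega
        · rw [e1] at hY
          have : 2 ^ (m + 1 + 1) = 4 * 2 ^ m := e2
          omega
      · apply q6_gap (i := i) (j := m)
        · omega
        · omega
  · rw [Finset.sum_singleton]
    apply TS_three_card
    have h6 : 2 ^ p < 2 ^ (m + 2) := by omega
    rw [← e2, pc_top h6, pc_pow]

/-- TARGET -/
theorem q_78 {m M E g : ℕ} (H : Hyp2 m M E g) :
    A (a M) (m + 3 + 1) M (3 * M - 7 * 2 ^ m) ≤ 1 := by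
  obtain ⟨e1, e2, e3, e4⟩ := q6_pow m
  obtain ⟨h1, h2, h3, h4, h5⟩ := id H
  have hM : 2 ^ (m + 3) < M := by omega
  have hn : 3 * M - 7 * 2 ^ m + 7 * 2 ^ m = 3 * M := by omega
  refine (A_cover hM {(3, 7 * 2 ^ m)} ?_).trans ?_
  · intro L Y hLY hne
    rcases q6_levels H (by omega) (by omega) hn hLY hne with ⟨rfl, rfl⟩ | ⟨rfl, hY⟩
    · simp
    · exfalso
      obtain ⟨T, hT⟩ := hne
      obtain ⟨i, hi, -, hYi⟩ := TS_four_top hT (by omega)
      have hi2 : i = m + 2 := by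
        rcases Nat.lt_or_ge i (m + 2) with h | h
        · exfalso
          have h6 : 2 ^ i ≤ 2 ^ (m + 1) := Nat.pow_le_pow_right (by norm_num) (by omega)
          omega
        · omega
      have hE : E = 2 ^ (m + 1) + 2 ^ m := by
        rw [hi2] at hYi
        omega
      have h6 : 2 ^ m < 2 ^ (m + 1) := by omega
      rw [hE, pc_top h6, pc_pow] at h5
      omega
  · rw [Finset.sum_singleton]
    apply TS_uniq
    have h6 : 2 ^ m < 2 ^ (m + 1) := by omega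
    have h7 : 2 ^ (m + 1) + 2 ^ m < 2 ^ (m + 2) := by omega
    have h8 : 7 * 2 ^ m = 2 ^ (m + 2) + (2 ^ (m + 1) + 2 ^ m) := by omega
    rw [h8, pc_top h7, pc_top h6, pc_pow]

end Pool.Agent.H978D
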