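import Pool.Agent.H978D.DefsQ
import Pool.Agent.H978D.D3
import Pool.Agent.H978D.D8
import Pool.Agent.H978D.D9
import Pool.Agent.H978D.Q6

set_option autoImplicit false

namespace Pool.Agent.H978D

open Pool.Agent.MPe9218d





/-- TARGET -/
theorem q_no_step56 {m M E g c : ℕ} {b : ℕ → ℕ} (H : Hyp2 m M E g)
    (hId : Identity M (m + 3 + 1) b) (hc : c = 5 ∨ c = 6) :
    ¬ Step b M (2 * M - c * 2 ^ m) (2 * M - (c + 4) * 2 ^ m) := by
  have hA := q_78 H
  obtain ⟨h1, h2, h3, h4, -⟩ := H
  have hu : 1 ≤ 2 ^ m := Nat.one_le_two_pow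
  have e1 : 2 ^ (m + 1) = 2 * 2 ^ m := by ring
  have e2 : 2 ^ (m + 2) = 4 * 2 ^ m := by ring
  have e3 : 2 ^ (m + 3) = 8 * 2 ^ m := by ring
  have hM : 2 ^ (m + 3) < M := by omega
  rcases hc with rfl | rfl
  · have hS : (TS (m + 3) 2 (5 * 2 ^ m)).Nonempty := by
      refine ⟨{(1, m + 2), (1, m)}, ?_, ?_, ?_⟩
      · intro p hp
        simp only [Finset.mem_insert, Finset.mem_singleton] at hp
        rcases hp with rfl | rfl <;> simp
      · rw [Finset.sum_pair (by simp)]; rfl
      · rw [Finset.sum_pair (by simp)]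
        simp only
        omega
    have hS1 : (TS (m + 3) 1 (2 * 2 ^ m)).Nonempty := by
      refine ⟨{(1, m + 1)}, ?_, ?_, ?_⟩
      · intro p hp
        simp only [Finset.mem_singleton] at hp
        rcases hp with rfl
        simp
      · rw [Finset.sum_singleton]
      · rw [Finset.sum_singleton]
        simp only
        omega
    have he : Nc (m + 3) M (2 * M - 5 * 2 ^ m) :=
      (nc_iff hM (by omega)).2 ⟨2, 5 * 2 ^ m, hS, by omega⟩
    have hf : Nc (m + 3) M (M - 2 * 2 ^ m) :=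
      (nc_iff hM (by omega)).2 ⟨1, 2 * 2 ^ m, hS1, by omega⟩
    refine kill hId he hf (by omega) ?_ (by omega)
    have : 2 * M - 5 * 2 ^ m + (M - 2 * 2 ^ m) = 3 * M - 7 * 2 ^ m := by omega
    rw [this]
    exact hA
  · have hS : (TS (m + 3) 2 (6 * 2 ^ m)).Nonempty := by
      refine ⟨{(1, m + 2), (1, m + 1)}, ?_, ?_, ?_⟩
      · intro p hp
        simp only [Finset.mem_insert, Finset.mem_singleton] at hp
        rcases hp with rfl | rfl <;> simp
      · rw [Finset.sum_pair (by simp)]; rfl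
      · rw [Finset.sum_pair (by simp)]
        simp only
        omega
    have hS1 : (TS (m + 3) 1 (2 ^ m)).Nonempty := by
      refine ⟨{(1, m)}, ?_, ?_, ?_⟩
      · intro p hp
        simp only [Finset.mem_singleton] at hp
        rcases hp with rfl
        simp
      · rw [Finset.sum_singleton]
      · rw [Finset.sum_singleton]
    have he : Nc (m + 3) M (2 * M - 6 * 2 ^ m) :=
      (nc_iff hM (by omega)).2 ⟨2, 6 * 2 ^ m, hS, by omega⟩
    have hf : Nc (m + 3) M (M - 2 ^ m) :=
      (nc_iff hM (by omega)).2 ⟨1, 2 ^ m, hS1, by omega⟩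
    refine kill hId he hf (by omega) ?_ (by omega)
    have : 2 * M - 6 * 2 ^ m + (M - 2 ^ m) = 3 * M - 7 * 2 ^ m := by omega
    rw [this]
    exact hA

end Pool.Agent.H978D
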