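import Pool.Agent.H978D.DefsQ
import Pool.Agent.H978D.D1
import Pool.Agent.H978D.D2
import Pool.Agent.H978D.D3
import Pool.Agent.H978D.D4
import Pool.Agent.H978D.D5
import Pool.Agent.H978D.D6
import Pool.Agent.H978D.D7
import Pool.Agent.H978D.D8
import Pool.Agent.H978D.D9
import Pool.Agent.H978D.Q1

set_option autoImplicit false

namespace Pool.Agent.H978D

open Pool.Agent.MPe9218d




























theorem Q2_cov {m M E g e x K L Y : ℕ} (H : Hyp2 m M E g) (hx1 : 1 ≤ x)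
    (hxM : x ≤ M) (hK : K ≤ 2) (hx : e + x = K * M) (hLY : e + (M - 8 * 2 ^ m) + Y = L * M)
    (hne : (TS (m + 3) L Y).Nonempty) :
    (L = K + 1 ∧ Y = x + 8 * 2 ^ m) ∨ (L = K ∧ Y + M = x + 8 * 2 ^ m) := by
  obtain ⟨T, hT⟩ := hne
  have hb := TS_bound hT
  have h8 : 2 ^ (m + 3) = 8 * 2 ^ m := by ring
  rw [h8] at hb
  obtain ⟨H1, H2, H3, H4, H5⟩ := H
  have hu : 0 < 2 ^ m := Nat.pow_pos (by norm_num)
  generalize 2 ^ m = u at *
  rcases Nat.lt_or_ge (K + 1) L with hL | hL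
  · exfalso
    obtain ⟨t, rfl⟩ := Nat.exists_eq_add_of_lt hL
    have e1 : (K + 1 + t + 1) * M = K * M + M + (t * M + M) := by ring
    have e2 : 8 * u * (K + 1 + t + 1 + 1) = 8 * (K * u) + 8 * (t * u) + 24 * u := by ring
    have e3 : t * (12 * u + 1) ≤ t * M := Nat.mul_le_mul_left t (by omega)
    have e4 : t * (12 * u + 1) = 12 * (t * u) + t := by ring
    have e5 : K * u ≤ 2 * u := Nat.mul_le_mul_right u hK
    have e6 : 0 ≤ t * u := Nat.zero_le _
    omega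
  · obtain ⟨s, hs⟩ := Nat.exists_eq_add_of_le hL
    have e1 : (K + 1) * M = K * M + M := by ring
    have e2 : (L + s) * M = L * M + s * M := by ring
    rw [← hs, e1] at e2
    have e3 : Y + s * M = x + 8 * u := by omega
    rcases Nat.lt_or_ge s 2 with h2 | h2
    · interval_cases s
      · left
        exact ⟨by omega, by omega⟩
      · right
        exact ⟨by omega, by omega⟩
    · exfalso
      have e4 : 2 * M ≤ s * M := Nat.mul_le_mul_right M h2
      omega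

theorem Q2_hM {m M E g : ℕ} (H : Hyp2 m M E g) : 2 ^ (m + 3) < M := by
  obtain ⟨H1, H2, H3, H4, H5⟩ := H
  have h8 : 2 ^ (m + 3) = 8 * 2 ^ m := by ring
  omega

theorem Q2_one {m M E g n L Y : ℕ} (H : Hyp2 m M E g)
    (h : ∀ L' Y', n + Y' = L' * M → (TS (m + 3) L' Y').Nonempty → L' = L ∧ Y' = Y)
    (hc : (TS (m + 3) L Y).ncard ≤ 1) : A (a M) (m + 3 + 1) M n ≤ 1 := by
  refine (A_cover (Q2_hM H) {(L, Y)} fun L' Y' h1 h2 => ?_).trans ?_
  · obtain ⟨rfl, rfl⟩ := h L' Y' h1 h2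
    exact Finset.mem_singleton_self _
  · rw [Finset.sum_singleton]
    exact hc

theorem Q2_none {m M E g n : ℕ} (H : Hyp2 m M E g)
    (h : ∀ L' Y', n + Y' = L' * M → (TS (m + 3) L' Y').Nonempty → False) :
    A (a M) (m + 3 + 1) M n ≤ 1 := by
  refine (A_cover (Q2_hM H) ∅ fun L' Y' h1 h2 => (h L' Y' h1 h2).elim).trans ?_
  rw [Finset.sum_empty]
  exact Nat.zero_le 1

/-- TARGET -/
theorem q_nf1 {m M E g e x : ℕ} (H : Hyp2 m M E g) (he : Nc (m + 3) M e) (hx1 : 1 ≤ x)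
    (hx : e + x = M) : A (a M) (m + 3 + 1) M (e + (M - 8 * 2 ^ m)) ≤ 1 := by
  refine Q2_one (L := 2) (Y := x + 8 * 2 ^ m) H (fun L' Y' h1 h2 => ?_) (TS_two_card _ _)
  rcases Q2_cov (K := 1) H hx1 (by omega) (by norm_num) (by omega) h1 h2 with h3 | h3
  · exact h3
  · exfalso
    obtain ⟨rfl, h4⟩ := h3
    obtain ⟨T, hT⟩ := h2
    obtain ⟨j, -, hj⟩ := TS_one hT
    obtain ⟨i, hi, hxi⟩ := q_nc1 H he hx1 hx
    have hYpos : 1 ≤ Y' := by
      rw [hj]
      exact Nat.one_le_two_pow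
    obtain ⟨H1, H2, H3, H4, H5⟩ := H
    have hi2 : i = m + 3 := by
      by_contra hcon
      have h5 : i ≤ m + 2 := by omega
      have h6 : 2 ^ i ≤ 2 ^ (m + 2) := Nat.pow_le_pow_right (by norm_num) h5
      have h7 : 2 ^ (m + 2) = 4 * 2 ^ m := by ring
      omega
    have h8 : 2 ^ (m + 3) = 8 * 2 ^ m := by ring
    rw [hi2, h8] at hxi
    have hYE : Y' = E := by omega
    rw [← hYE, hj, pc_pow] at H5
    omega

/-- TARGET -/
theorem q_nf2 {m M E g e x : ℕ} (H : Hyp2 m M E g) (he : Nc (m + 3) M e) (hx1 : 1 ≤ x)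
    (hxM : x ≤ M) (hx : e + x = 2 * M) (hnp : ¬ (Pw (m + 3) x ∧ x < 8 * 2 ^ m))
    (hnp2 : ¬ ∃ i, i ≤ m + 1 ∧ g < 2 ^ i ∧ x = 4 * 2 ^ m + 2 ^ i ∧ pc (2 ^ i - g) ≤ 2) :
    A (a M) (m + 3 + 1) M (e + (M - 8 * 2 ^ m)) ≤ 1 := by
  have hcov : ∀ L' Y', e + (M - 8 * 2 ^ m) + Y' = L' * M → (TS (m + 3) L' Y').Nonempty →
      (L' = 3 ∧ Y' = x + 8 * 2 ^ m) ∨ (L' = 2 ∧ Y' + M = x + 8 * 2 ^ m) := fun L' Y' h1 h2 =>
    Q2_cov (K := 2) H hx1 hxM le_rfl hx h1 h2
  have h8 : 2 ^ (m + 3) = 8 * 2 ^ m := by ring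
  have h4 : 2 ^ (m + 2) = 4 * 2 ^ m := by ring
  have h2' : 2 ^ (m + 1) = 2 * 2 ^ m := by ring
  have hu : 0 < 2 ^ m := Nat.pow_pos (by norm_num)
  have hpw : x < 8 * 2 ^ m → 2 ≤ pc x := by
    intro hlt
    have h1 := pc_pos (n := x) (by omega)
    by_contra hcon
    obtain ⟨i, hi⟩ := pc_one (n := x) (by omega)
    refine hnp ⟨⟨i, ?_, hi⟩, hlt⟩
    have h3 : 2 ^ i < 2 ^ (m + 3) := by omega
    exact ((Nat.pow_lt_pow_iff_right (by norm_num)).1 h3).le
  have h3top : x < 8 * 2 ^ m → pc (x + 8 * 2 ^ m) = 1 + pc x := by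
    intro hlt
    have h1 := pc_top (i := m + 3) (r := x) (by omega)
    rw [h8] at h1
    rw [add_comm x]
    exact h1
  have hE := H.2.2.2.2
  have H1 := H.1
  have H2 := H.2.1
  have H3 := H.2.2.1
  have H4 := H.2.2.2.1
  rcases q_nc2 H he hx1 hxM hx with ⟨hc1, hc2⟩ | hc | ⟨i, hi1, hi2, hi3⟩
  · rcases lt_trichotomy x (8 * 2 ^ m) with hlt | heq | hgt
    · have hp2 : pc x = 2 := le_antisymm hc1 (hpw hlt)
      refine Q2_one (L := 3) (Y := x + 8 * 2 ^ m) H (fun L' Y' h1 h2 => ?_)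
        (TS_uniq (by rw [h3top hlt, hp2]))
      rcases hcov L' Y' h1 h2 with h3 | h3
      · exact h3
      · exfalso
        obtain ⟨rfl, h5⟩ := h3
        obtain ⟨T, hT⟩ := h2
        obtain ⟨t1, t2, -, t4, -⟩ := TS_card hT
        have hY1 : 1 ≤ Y' := t4 (by norm_num)
        obtain ⟨i, j, hij, hxij⟩ := pc_two hp2
        have hi0 : 0 < 2 ^ i := Nat.pow_pos (by norm_num)
        have hjlt : j < m + 3 := by
          have h6 : 2 ^ j < 2 ^ (m + 3) := by omega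
          exact (Nat.pow_lt_pow_iff_right (by norm_num)).1 h6
        have hilt : 2 ^ i < 2 ^ j := (Nat.pow_lt_pow_iff_right (by norm_num)).2 hij
        have hj2 : m + 2 ≤ j := by
          by_contra hcon
          have h6 : 2 ^ j ≤ 2 ^ (m + 1) := Nat.pow_le_pow_right (by norm_num) (by omega)
          omega
        have hj3 : j = m + 2 := by omega
        rw [hj3, h4] at hxij
        refine hnp2 ⟨i, by omega, by omega, by omega, ?_⟩
        have h7 : 2 ^ i - g = Y' := by omega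
        rw [h7]
        omega
    · refine Q2_one (L := 3) (Y := 2 * 2 ^ (m + 3)) H (fun L' Y' h1 h2 => ?_) ?_
      · rcases hcov L' Y' h1 h2 with h3 | h3
        · exact ⟨h3.1, by omega⟩
        · exfalso
          obtain ⟨rfl, h5⟩ := h3
          obtain ⟨T, hT⟩ := h2
          obtain ⟨t1, t2, -, t4, -⟩ := TS_card hT
          have hYE : Y' = E := by omega
          rw [hYE] at t2
          omega
      · rw [Set.ncard_le_one (TS_finite _ _ _)]
        intro T1 hT1 T2 hT2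
        rw [(TS_three_top hT1 le_rfl).1, (TS_three_top hT2 le_rfl).1]
    · refine Q2_one (L := 2) (Y := x + 8 * 2 ^ m - M) H (fun L' Y' h1 h2 => ?_) (TS_two_card _ _)
      rcases hcov L' Y' h1 h2 with h3 | h3
      · exfalso
        obtain ⟨rfl, h5⟩ := h3
        obtain ⟨T, hT⟩ := h2
        have h6 := (TS_three_top hT (by omega)).2
        omega
      · exact ⟨h3.1, by omega⟩
  · refine Q2_none H fun L' Y' h1 h2 => ?_
    have hlt : x < 8 * 2 ^ m := by omega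
    have hp := h3top hlt
    rcases hcov L' Y' h1 h2 with h3 | h3
    · obtain ⟨rfl, h5⟩ := h3
      obtain ⟨T, hT⟩ := h2
      obtain ⟨t1, t2, -, t4, -⟩ := TS_card hT
      rw [h5, hp, hc] at t2
      omega
    · omega
  · have hi4 : 2 ^ i ≤ 2 ^ (m + 1) := Nat.pow_le_pow_right (by norm_num) hi1
    have hlt : x < 8 * 2 ^ m := by omega
    have hp := h3top hlt
    have hp2 := hpw hlt
    rcases Nat.lt_or_ge 2 (pc x) with hgt | hle
    · refine Q2_none H fun L' Y' h1 h2 => ?_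
      rcases hcov L' Y' h1 h2 with h3 | h3
      · obtain ⟨rfl, h5⟩ := h3
        obtain ⟨T, hT⟩ := h2
        obtain ⟨t1, t2, -, t4, -⟩ := TS_card hT
        rw [h5, hp] at t2
        omega
      · omega
    · refine Q2_one (L := 3) (Y := x + 8 * 2 ^ m) H (fun L' Y' h1 h2 => ?_)
        (TS_uniq (by omega))
      rcases hcov L' Y' h1 h2 with h3 | h3
      · exact h3
      · exfalso
        omega

end Pool.Agent.H978D
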