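import Pool.Agent.H978D.DefsQ
import Pool.Agent.H978D.D1
import Pool.Agent.H978D.D2
import Pool.Agent.H978D.D3
import Pool.Agent.H978D.D4
import Pool.Agent.H978D.D5
import Pool.Agent.H978D.D6
import Pool.Agent.H978D.D7
import Pool.Agent.H978D.D8
import Pool.Agent.H978D.D9
import Pool.Agent.H978D.Q1
import Pool.Agent.H978D.Q2

set_option autoImplicit false

namespace Pool.Agent.H978D

open Pool.Agent.MPe9218d






























theorem q_G {m M E g : ℕ} (H : Hyp2 m M E g) :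
    Nc (m + 3) M (M - 8 * 2 ^ m) := by
  obtain ⟨h1, h2, h3, h4, h5⟩ := H
  have hw : 1 ≤ 2 ^ m := Nat.one_le_two_pow
  have hp : 2 ^ (m + 3) = 8 * 2 ^ m := by ring
  have hM : 2 ^ (m + 3) < M := by rw [hp]; omega
  rw [nc_iff hM (by omega)]
  refine ⟨1, 2 ^ (m + 3), ⟨{(1, m + 3)}, ?_, ?_, ?_⟩, ?_⟩
  · intro p hp'
    rw [Finset.mem_singleton] at hp'
    subst hp'
    exact ⟨le_rfl, le_rfl⟩
  · simp
  · simp
  · rw [hp]; omega

theorem q_min {m M E g e : ℕ} (H : Hyp2 m M E g) (he : Nc (m + 3) M e) :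
    M ≤ e + 8 * 2 ^ m := by
  obtain ⟨h1, h2, h3, h4, h5⟩ := H
  have hw : 1 ≤ 2 ^ m := Nat.one_le_two_pow
  have hp : 2 ^ (m + 3) = 8 * 2 ^ m := by ring
  have hM : 2 ^ (m + 3) < M := by rw [hp]; omega
  have := nc_min hM he
  rw [hp] at this
  exact this

/-- TARGET -/
theorem q_follow {m M E g e f : ℕ} {b : ℕ → ℕ} (H : Hyp2 m M E g)
    (hId : Identity M (m + 3 + 1) b) (he : Nc (m + 3) M e) (hf : Nc (m + 3) M f)
    (hs : Step b M e f) : 2 * M ≤ e ∨ (∃ i, i ≤ m + 2 ∧ e + 2 ^ i = 2 * M) ∨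
      ∃ i, i ≤ m + 1 ∧ g < 2 ^ i ∧ e + (4 * 2 ^ m + 2 ^ i) = 2 * M ∧ pc (2 ^ i - g) ≤ 2 := by
  have hG := q_G H
  have m1 := q_min H he
  have m2 := q_min H hf
  have hge : M - 8 * 2 ^ m ≤ e := by omega
  have hgf : M - 8 * 2 ^ m ≤ f := by omega
  rcases Nat.lt_or_ge e M with h | h
  · exfalso
    exact kill hId he hG hge (q_nf1 H he (x := M - e) (by omega) (by omega)) hgf hs
  · rcases Nat.lt_or_ge e (2 * M) with h' | h'
    · by_contra hno
      push Not at hno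
      obtain ⟨_, hno2, hno3⟩ := hno
      refine kill hId he hG hge (q_nf2 H he (x := 2 * M - e) (by omega) (by omega) (by omega)
        ?_ ?_) hgf hs
      · rintro ⟨⟨i, hi, hx⟩, hlt⟩
        have hi2 : i ≤ m + 2 := by
          by_contra hc
          have : i = m + 3 := by omega
          subst this
          rw [hx] at hlt
          have hp : 2 ^ (m + 3) = 8 * 2 ^ m := by ring
          omega
        exact hno2 i hi2 (by omega)
      · rintro ⟨i, hi, hgi, hx, hpc⟩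
        have := hno3 i hi hgi (by omega)
        omega
    · exact Or.inl h'

theorem q_follow_ge {m M E g e f : ℕ} {b : ℕ → ℕ} (H : Hyp2 m M E g)
    (hId : Identity M (m + 3 + 1) b) (he : Nc (m + 3) M e) (hf : Nc (m + 3) M f)
    (hs : Step b M e f) : 2 * M ≤ e + 6 * 2 ^ m := by
  rcases q_follow H hId he hf hs with h | ⟨i, hi, h⟩ | ⟨i, hi, _, h, _⟩
  · omega
  · have h1 : 2 ^ i ≤ 2 ^ (m + 2) := Nat.pow_le_pow_right (by norm_num) hi
    have h2 : 2 ^ (m + 2) = 4 * 2 ^ m := by ring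
    omega
  · have h1 : 2 ^ i ≤ 2 ^ (m + 1) := Nat.pow_le_pow_right (by norm_num) hi
    have h2 : 2 ^ (m + 1) = 2 * 2 ^ m := by ring
    omega

/-- TARGET -/
theorem q_len_two {m M E g n : ℕ} {b : ℕ → ℕ} {l : List ℕ} (H : Hyp2 m M E g)
    (hb : ∀ j, 1 ≤ j → j ≤ M → 1 ≤ b j) (hId : Identity M (m + 3 + 1) b) (hn1 : 1 ≤ n)
    (hn : n + 20 * 2 ^ m ≤ 5 * M) (hl : l ∈ BSet b M (C M (m + 3 + 1)) n) :
    l = [n] ∨ ∃ e f, l = [e, f] ∧ e + f = n ∧ f < e ∧ Nc (m + 3) M e ∧ Nc (m + 3) M f ∧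
      Step b M e f := by
  have hM : 1 ≤ M := by
    obtain ⟨h1, h2, h3, h4, h5⟩ := H
    omega
  obtain ⟨⟨h1, h2, h3⟩, h4, h5⟩ := hl
  rcases l with _ | ⟨e1, _ | ⟨e2, _ | ⟨e3, l⟩⟩⟩
  · simp at h3
    omega
  · left
    simp at h3
    rw [h3]
  · right
    simp only [List.isChain_cons_cons, List.isChain_singleton, and_true] at h5
    simp only [List.sum_cons, List.sum_nil, add_zero] at h3
    exact ⟨e1, e2, rfl, h3, step_lt hM hb h5, ⟨h2 e1 (by simp), h4 e1 (by simp)⟩,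
      ⟨h2 e2 (by simp), h4 e2 (by simp)⟩, h5⟩
  · exfalso
    simp only [List.isChain_cons_cons] at h5
    obtain ⟨s1, s2, _⟩ := h5
    simp only [List.sum_cons] at h3
    have n2 : Nc (m + 3) M e2 := ⟨h2 e2 (by simp), h4 e2 (by simp)⟩
    have n3 : Nc (m + 3) M e3 := ⟨h2 e3 (by simp), h4 e3 (by simp)⟩
    have g1 := step_lt hM hb s1
    have g2 := q_follow_ge H hId n2 n3 s2
    have g3 := q_min H n3
    omega

end Pool.Agent.H978D
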