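import Pool.Agent.H978D.DefsQ
import Pool.Agent.H978D.D1
import Pool.Agent.H978D.D2
import Pool.Agent.H978D.D3
import Pool.Agent.H978D.D4
import Pool.Agent.H978D.D5
import Pool.Agent.H978D.D6
import Pool.Agent.H978D.D7
import Pool.Agent.H978D.D8
import Pool.Agent.H978D.D9
import Pool.Agent.H978D.Q1
import Pool.Agent.H978D.Q3

set_option autoImplicit false

namespace Pool.Agent.H978D

open Pool.Agent.MPe9218d





























theorem Q11_pow_cases {m i : ℕ} (hi : i ≤ m + 3) (h : 2 * 2 ^ m < 2 ^ i) :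
    2 ^ i = 4 * 2 ^ m ∨ 2 ^ i = 8 * 2 ^ m := by
  have h1 : m + 1 < i := by
    by_contra hcon
    push Not at hcon
    have h2 : (2 : ℕ) ^ i ≤ 2 ^ (m + 1) := Nat.pow_le_pow_right (by norm_num) hcon
    rw [pow_succ] at h2
    omega
  have h3 : i = m + 2 ∨ i = m + 3 := by omega
  rcases h3 with rfl | rfl
  · left; ring
  · right; ring

theorem Q11_case1 {m M E g e f : ℕ} {b : ℕ → ℕ} (H : Hyp2 m M E g) (h3 : pc E = 3)
    (hId : Identity M (m + 3 + 1) b) (he : Nc (m + 3) M e) (hf : Nc (m + 3) M f)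
    (hs : Step b M e f) (h1 : e + 12 * 2 ^ m = 3 * M) (h2 : f + 4 * 2 ^ m = M) : False := by
  obtain ⟨H1, H2, H3, H4, H5⟩ := H
  have hu : 1 ≤ 2 ^ m := Nat.one_le_two_pow
  have hk : (2 : ℕ) ^ (m + 3) = 8 * 2 ^ m := by ring
  have hM : 2 ^ (m + 3) < M := by rw [hk]; omega
  obtain ⟨G, hG⟩ : ∃ G, G + 8 * 2 ^ m = M := ⟨M - 8 * 2 ^ m, by omega⟩
  have hNG : Nc (m + 3) M G := by
    rw [nc_iff hM (by omega)]
    refine ⟨1, 2 ^ (m + 3), ⟨{(1, m + 3)}, ?_, ?_, ?_⟩, ?_⟩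
    · intro p hp
      rw [Finset.mem_singleton] at hp
      subst hp
      exact ⟨le_rfl, le_rfl⟩
    · simp
    · simp
    · rw [hk]; omega
  refine kill hId he hNG (by omega) ?_ (by omega) hs
  refine (A_cover hM {(4, 20 * 2 ^ m)} ?_).trans ?_
  · rintro L Y hLY ⟨T, hT⟩
    obtain ⟨c1, c2, c3, c4, c5⟩ := TS_card hT
    have c6 := TS_bound hT
    rw [hk] at c6
    rcases lt_trichotomy L 4 with hL | hL | hL
    · exfalso
      interval_cases L
      · omega
      · omega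
      · omega
      · have e1 : Y = 2 ^ (m + 2) + E := by
          have : (2 : ℕ) ^ (m + 2) = 4 * 2 ^ m := by ring
          omega
        have e2 : E < 2 ^ (m + 2) := by
          have : (2 : ℕ) ^ (m + 2) = 4 * 2 ^ m := by ring
          omega
        rw [e1, pc_top e2, h3] at c2
        omega
    · subst hL
      rw [Finset.mem_singleton]
      congr 1
      omega
    · exfalso
      obtain ⟨r, rfl⟩ := Nat.exists_eq_add_of_lt hL
      have e1 : Y = 20 * 2 ^ m + (r + 1) * M := by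
        have : (4 + r + 1) * M = 4 * M + (r + 1) * M := by ring
        omega
      have e2 : (r + 1) * (12 * 2 ^ m) ≤ (r + 1) * M := Nat.mul_le_mul_left _ (by omega)
      have e3 : 8 * 2 ^ m * (4 + r + 1 + 1) = 8 * (r * 2 ^ m) + 48 * 2 ^ m := by ring
      have e4 : (r + 1) * (12 * 2 ^ m) = 12 * (r * 2 ^ m) + 12 * 2 ^ m := by ring
      omega
  · rw [Finset.sum_singleton]
    simp only
    rw [Set.ncard_le_one (TS_finite _ _ _)]
    have key : ∀ T ∈ TS (m + 3) 4 (20 * 2 ^ m), T = {(1, m + 3), (2, m + 3), (1, m + 2)} := by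
      intro T hT
      obtain ⟨i, hi, hTi, hYi⟩ := TS_four_top hT (by rw [hk]; omega)
      rw [hk] at hYi
      have e1 : (2 : ℕ) ^ i = 2 ^ (m + 2) := by
        have : (2 : ℕ) ^ (m + 2) = 4 * 2 ^ m := by ring
        omega
      have e2 : i = m + 2 := Nat.pow_right_injective (le_refl 2) e1
      rw [hTi, e2]
    intro T hT T' hT'
    rw [key T hT, key T' hT']

/-- TARGET -/
theorem q_nE_pairs {m M E g e f : ℕ} {b : ℕ → ℕ} (H : Hyp2 m M E g) (h3 : pc E = 3)
    (hId : Identity M (m + 3 + 1) b) (he : Nc (m + 3) M e) (hf : Nc (m + 3) M f)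
    (hfe : f < e) (hs : Step b M e f) (hn : e + f + E = 3 * M) :
    (e + 8 * 2 ^ m = 3 * M ∧ f + 8 * 2 ^ m = M) ∨
    (e + 4 * 2 ^ m = 2 * M ∧ f + 12 * 2 ^ m = 2 * M) ∨
    (e + 6 * 2 ^ m = 2 * M ∧ f + 10 * 2 ^ m = 2 * M) := by
  have HH := H
  obtain ⟨H1, H2, H3, H4, H5⟩ := H
  have hu : 1 ≤ 2 ^ m := Nat.one_le_two_pow
  have hk : (2 : ℕ) ^ (m + 3) = 8 * 2 ^ m := by ring
  have hk2 : (2 : ℕ) ^ (m + 2) = 4 * 2 ^ m := by ring
  have hk1 : (2 : ℕ) ^ (m + 1) = 2 * 2 ^ m := by ring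
  have hM : 2 ^ (m + 3) < M := by rw [hk]; omega
  rcases q_follow HH hId he hf hs with h | ⟨i, hi, h⟩ | ⟨i, hi, hg, h, hp⟩
  · -- case 1
    obtain ⟨x, hx⟩ : ∃ x, f + x = M := ⟨M - f, by omega⟩
    obtain ⟨i, hi, hxi⟩ := q_nc1 HH hf (by omega) hx
    rcases Q11_pow_cases hi (by omega) with h4 | h4
    · exfalso
      exact Q11_case1 HH h3 hId he hf hs (by omega) (by omega)
    · left
      omega
  · -- case 2
    have hi' : (2 : ℕ) ^ i ≤ 2 ^ (m + 2) := Nat.pow_le_pow_right (by norm_num) hi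
    rcases lt_trichotomy (2 ^ i) E with h4 | h4 | h4
    · exfalso
      obtain ⟨x, hx⟩ : ∃ x, x + 2 ^ i = E := ⟨E - 2 ^ i, by omega⟩
      obtain ⟨j, _, hxj⟩ := q_nc1 HH hf (x := x) (by omega) (by omega)
      have h5 := pc_add_le x (2 ^ i)
      rw [hx, hxj, pc_pow, pc_pow] at h5
      omega
    · exfalso
      rw [← h4, pc_pow] at h3
      omega
    · right; left
      rcases Q11_pow_cases (by omega) (by omega : 2 * 2 ^ m < 2 ^ i) with h5 | h5
      · omega
      · omega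
  · -- case 3
    have hi' : (2 : ℕ) ^ i ≤ 2 ^ (m + 1) := Nat.pow_le_pow_right (by norm_num) hi
    obtain ⟨x, hx⟩ : ∃ x, x + 2 ^ i = 12 * 2 ^ m := ⟨12 * 2 ^ m - 2 ^ i, by omega⟩
    rcases q_nc2 HH hf (x := x) (by omega) (by omega) (by omega) with ⟨h4, _⟩ | h4 | ⟨j, hj, _, h4⟩
    · rcases Nat.lt_or_ge m i with h5 | h5
      · right; right
        have h6 : i = m + 1 := by omega
        rw [h6, hk1] at h hx
        omega
      · exfalso
        have h6 : (2 : ℕ) ^ i ≤ 2 ^ m := Nat.pow_le_pow_right (by norm_num) h5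
        have h6' : 1 ≤ 2 ^ i := Nat.one_le_two_pow
        obtain ⟨r, hr⟩ : ∃ r, r + 2 ^ i = 2 * 2 ^ m := ⟨2 * 2 ^ m - 2 ^ i, by omega⟩
        have e1 : x = 2 ^ (m + 3) + (2 ^ (m + 1) + r) := by omega
        have e2 : 2 ^ (m + 1) + r < 2 ^ (m + 3) := by omega
        have e3 : r < 2 ^ (m + 1) := by omega
        have e4 := pc_pos (show 0 < r by omega)
        rw [e1, pc_top e2, pc_top e3] at h4
        omega
    · exfalso
      omega
    · exfalso
      have h6 : (2 : ℕ) ^ j ≤ 2 ^ (m + 1) := Nat.pow_le_pow_right (by norm_num) hj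
      omega

end Pool.Agent.H978D
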