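import Pool.Agent.H978D.DefsQ
import Pool.Agent.H978D.D1
import Pool.Agent.H978D.D2
import Pool.Agent.H978D.D3
import Pool.Agent.H978D.D8

set_option autoImplicit false

namespace Pool.Agent.H978D

open Pool.Agent.MPe9218d








theorem Q4_TS2 {k q1 i1 q2 i2 : ℕ} (h1 : 1 ≤ q1) (h2 : 1 ≤ q2) (k1 : i1 ≤ k) (k2 : i2 ≤ k)
    (hne : (q1, i1) ≠ (q2, i2)) :
    ({(q1, i1), (q2, i2)} : Finset (ℕ × ℕ)) ∈ TS k (q1 + q2) (2 ^ i1 + 2 ^ i2) := by
  refine ⟨?_, ?_, ?_⟩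
  · intro p hp
    rcases Finset.mem_insert.1 hp with rfl | hp
    · exact ⟨h1, k1⟩
    · rw [Finset.mem_singleton.1 hp]; exact ⟨h2, k2⟩
  · rw [Finset.sum_pair hne]
  · rw [Finset.sum_pair hne]

theorem Q4_TS3 {k q1 i1 q2 i2 q3 i3 : ℕ} (h1 : 1 ≤ q1) (h2 : 1 ≤ q2) (h3 : 1 ≤ q3)
    (k1 : i1 ≤ k) (k2 : i2 ≤ k) (k3 : i3 ≤ k)
    (h12 : (q1, i1) ≠ (q2, i2)) (h13 : (q1, i1) ≠ (q3, i3)) (h23 : (q2, i2) ≠ (q3, i3)) :
    ({(q1, i1), (q2, i2), (q3, i3)} : Finset (ℕ × ℕ)) ∈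
      TS k (q1 + (q2 + q3)) (2 ^ i1 + (2 ^ i2 + 2 ^ i3)) := by
  have hn : (q1, i1) ∉ ({(q2, i2), (q3, i3)} : Finset (ℕ × ℕ)) := by
    intro h
    rcases Finset.mem_insert.1 h with h | h
    · exact h12 h
    · exact h13 (Finset.mem_singleton.1 h)
  refine ⟨?_, ?_, ?_⟩
  · intro p hp
    rcases Finset.mem_insert.1 hp with rfl | hp
    · exact ⟨h1, k1⟩
    · rcases Finset.mem_insert.1 hp with rfl | hp
      · exact ⟨h2, k2⟩
      · rw [Finset.mem_singleton.1 hp]; exact ⟨h3, k3⟩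
  · rw [Finset.sum_insert hn, Finset.sum_pair h23]
  · rw [Finset.sum_insert hn, Finset.sum_pair h23]

theorem Q4_pair_ne {q1 i1 q2 i2 : ℕ} (h : q1 ≠ q2 ∨ i1 ≠ i2) : (q1, i1) ≠ (q2, i2) := by
  intro he
  rw [Prod.mk.injEq] at he
  rcases h with h | h
  · exact h he.1
  · exact h he.2

theorem Q4_lower2 {k M n : ℕ} (hM : 2 ^ k < M) {T1 T2 : Finset (ℕ × ℕ)} (h12 : T1 ≠ T2)
    (h1 : ∃ L Y, T1 ∈ TS k L Y ∧ n + Y = L * M) (h2 : ∃ L Y, T2 ∈ TS k L Y ∧ n + Y = L * M) :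
    2 ≤ A (a M) (k + 1) M n := by
  have h := A_lower (n := n) hM {T1, T2} (by
    intro T hT
    rcases Finset.mem_insert.1 hT with rfl | hT
    · exact h1
    · rw [Finset.mem_singleton.1 hT]; exact h2)
  rwa [Finset.card_pair h12] at h

theorem Q4_lower3 {k M n : ℕ} (hM : 2 ^ k < M) {T1 T2 T3 : Finset (ℕ × ℕ)} (h12 : T1 ≠ T2)
    (h13 : T1 ≠ T3) (h23 : T2 ≠ T3)
    (h1 : ∃ L Y, T1 ∈ TS k L Y ∧ n + Y = L * M) (h2 : ∃ L Y, T2 ∈ TS k L Y ∧ n + Y = L * M)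
    (h3 : ∃ L Y, T3 ∈ TS k L Y ∧ n + Y = L * M) :
    3 ≤ A (a M) (k + 1) M n := by
  have h := A_lower (n := n) hM {T1, T2, T3} (by
    intro T hT
    rcases Finset.mem_insert.1 hT with rfl | hT
    · exact h1
    · rcases Finset.mem_insert.1 hT with rfl | hT
      · exact h2
      · rw [Finset.mem_singleton.1 hT]; exact h3)
  rwa [Finset.card_insert_of_notMem (by simp [h12, h13]), Finset.card_pair h23] at h

theorem Q4_lower4 {k M n : ℕ} (hM : 2 ^ k < M) {T1 T2 T3 T4 : Finset (ℕ × ℕ)} (h12 : T1 ≠ T2)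
    (h13 : T1 ≠ T3) (h23 : T2 ≠ T3) (h41 : T4 ≠ T1) (h42 : T4 ≠ T2) (h43 : T4 ≠ T3)
    (h1 : ∃ L Y, T1 ∈ TS k L Y ∧ n + Y = L * M) (h2 : ∃ L Y, T2 ∈ TS k L Y ∧ n + Y = L * M)
    (h3 : ∃ L Y, T3 ∈ TS k L Y ∧ n + Y = L * M) (h4 : ∃ L Y, T4 ∈ TS k L Y ∧ n + Y = L * M) :
    4 ≤ A (a M) (k + 1) M n := by
  have h := A_lower (n := n) hM {T4, T1, T2, T3} (by
    intro T hT
    rcases Finset.mem_insert.1 hT with rfl | hT
    · exact h4
    · rcases Finset.mem_insert.1 hT with rfl | hT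
      · exact h1
      · rcases Finset.mem_insert.1 hT with rfl | hT
        · exact h2
        · rw [Finset.mem_singleton.1 hT]; exact h3)
  rwa [Finset.card_insert_of_notMem (by simp [h41, h42, h43]),
    Finset.card_insert_of_notMem (by simp [h12, h13]), Finset.card_pair h23] at h

theorem Q4_ne {S T : Finset (ℕ × ℕ)} (x : ℕ × ℕ) (h1 : x ∈ S) (h2 : x ∉ T) : S ≠ T := by
  rintro rfl; exact h2 h1

theorem Q4_p3 (m : ℕ) : 2 ^ (m + 3) = 8 * 2 ^ m := by rw [pow_add]; ring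
theorem Q4_p2 (m : ℕ) : 2 ^ (m + 2) = 4 * 2 ^ m := by rw [pow_add]; ring
theorem Q4_p1 (m : ℕ) : 2 ^ (m + 1) = 2 * 2 ^ m := by rw [pow_succ]; ring

/-- TARGET -/
theorem q_two_lower {m M i j : ℕ} (hM : 12 * 2 ^ m < M) (hji : j < i) (hi : i ≤ m + 2) :
    2 ≤ A (a M) (m + 3 + 1) M (3 * M - (2 ^ i + 2 ^ j)) := by
  have hu : 1 ≤ 2 ^ m := Nat.one_le_two_pow
  have p3 := Q4_p3 m
  have p2 := Q4_p2 m
  have hi2 : 2 ^ i ≤ 2 ^ (m + 2) := Nat.pow_le_pow_right (by norm_num) hi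
  have hj2 : 2 ^ j ≤ 2 ^ (m + 2) := Nat.pow_le_pow_right (by norm_num) (by omega)
  have hk : 2 ^ (m + 3) < M := by omega
  have hne : i ≠ j := by omega
  refine Q4_lower2 hk (T1 := {(2, i), (1, j)}) (T2 := {(1, i), (2, j)}) ?_ ?_ ?_
  · refine Q4_ne (2, i) (by simp) ?_
    intro h
    rcases Finset.mem_insert.1 h with h | h
    · exact Q4_pair_ne (Or.inl (by norm_num)) h
    · exact Q4_pair_ne (Or.inr hne) (Finset.mem_singleton.1 h)
  · exact ⟨2 + 1, 2 ^ i + 2 ^ j, Q4_TS2 (by norm_num) (by norm_num) (by omega) (by omega)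
      (Q4_pair_ne (Or.inl (by norm_num))), by omega⟩
  · exact ⟨1 + 2, 2 ^ i + 2 ^ j, Q4_TS2 (by norm_num) (by norm_num) (by omega) (by omega)
      (Q4_pair_ne (Or.inl (by norm_num))), by omega⟩

/-- TARGET -/
theorem q_nE_lower {m M E g : ℕ} (H : Hyp2 m M E g) (h3 : pc E = 3) :
    3 ≤ A (a M) (m + 3 + 1) M (3 * M - E) := by
  obtain ⟨hME, hEg, hg1, hg2, -⟩ := H
  have hu : 1 ≤ 2 ^ m := Nat.one_le_two_pow
  have p3 := Q4_p3 m
  have p2 := Q4_p2 m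
  obtain ⟨i, j, r, hji, hrj, hr1, hE, hpc⟩ := pc_split h3.ge
  obtain ⟨l, hl⟩ := pc_one (n := r) (by omega)
  subst hl
  have hlj : l < j := (Nat.pow_lt_pow_iff_right (by norm_num)).1 hrj
  have hi : i < m + 2 := by
    have : 2 ^ i < 2 ^ (m + 2) := by omega
    exact (Nat.pow_lt_pow_iff_right (by norm_num)).1 this
  have hk : 2 ^ (m + 3) < M := by omega
  refine Q4_lower3 hk (T1 := {(1, i), (1, j), (1, l)}) (T2 := {(1, m + 3), (3, m + 3)})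
    (T3 := {(1, m + 3), (1, m + 2), (2, m + 2)}) ?_ ?_ ?_ ?_ ?_ ?_
  · refine (Q4_ne (1, m + 3) (by simp) ?_).symm
    simp only [Finset.mem_insert, Finset.mem_singleton, Prod.mk.injEq, true_and]
    omega
  · refine (Q4_ne (1, m + 3) (by simp) ?_).symm
    simp only [Finset.mem_insert, Finset.mem_singleton, Prod.mk.injEq, true_and]
    omega
  · refine (Q4_ne (1, m + 2) (by simp) ?_).symm
    simp only [Finset.mem_insert, Finset.mem_singleton, Prod.mk.injEq]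
    omega
  · exact ⟨1 + (1 + 1), 2 ^ i + (2 ^ j + 2 ^ l), Q4_TS3 (by norm_num) (by norm_num) (by norm_num)
      (by omega) (by omega) (by omega) (Q4_pair_ne (Or.inr (by omega))) (Q4_pair_ne (Or.inr (by omega)))
      (Q4_pair_ne (Or.inr (by omega))), by omega⟩
  · exact ⟨1 + 3, 2 ^ (m + 3) + 2 ^ (m + 3), Q4_TS2 (by norm_num) (by norm_num) (by omega) (by omega)
      (Q4_pair_ne (Or.inl (by norm_num))), by omega⟩
  · exact ⟨1 + (1 + 2), 2 ^ (m + 3) + (2 ^ (m + 2) + 2 ^ (m + 2)), Q4_TS3 (by norm_num) (by norm_num)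
      (by norm_num) (by omega) (by omega) (by omega) (Q4_pair_ne (Or.inr (by omega)))
      (Q4_pair_ne (Or.inr (by omega))) (Q4_pair_ne (Or.inl (by norm_num))), by omega⟩

/-- TARGET -/
theorem q_n2_lower {m M E g : ℕ} (H : Hyp2 m M E g) :
    3 ≤ A (a M) (m + 3 + 1) M (4 * M - 14 * 2 ^ m) ∧
    (pc E = 4 → 4 ≤ A (a M) (m + 3 + 1) M (4 * M - 14 * 2 ^ m)) := by
  obtain ⟨hME, hEg, hg1, hg2, -⟩ := H
  have hu : 1 ≤ 2 ^ m := Nat.one_le_two_pow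
  have p3 := Q4_p3 m
  have p2 := Q4_p2 m
  have p1 := Q4_p1 m
  have hk : 2 ^ (m + 3) < M := by omega
  have n12 : ({(2, m + 3), (1, m + 2), (1, m + 1)} : Finset (ℕ × ℕ)) ≠
      {(1, m + 3), (2, m + 2), (1, m + 1)} := by
    refine Q4_ne (2, m + 3) (by simp) ?_
    simp only [Finset.mem_insert, Finset.mem_singleton, Prod.mk.injEq]
    omega
  have n13 : ({(2, m + 3), (1, m + 2), (1, m + 1)} : Finset (ℕ × ℕ)) ≠
      {(1, m + 3), (1, m + 2), (2, m + 1)} := by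
    refine Q4_ne (2, m + 3) (by simp) ?_
    simp only [Finset.mem_insert, Finset.mem_singleton, Prod.mk.injEq]
    omega
  have n23 : ({(1, m + 3), (2, m + 2), (1, m + 1)} : Finset (ℕ × ℕ)) ≠
      {(1, m + 3), (1, m + 2), (2, m + 1)} := by
    refine Q4_ne (2, m + 2) (by simp) ?_
    simp only [Finset.mem_insert, Finset.mem_singleton, Prod.mk.injEq]
    omega
  have t1 : ∃ L Y, ({(2, m + 3), (1, m + 2), (1, m + 1)} : Finset (ℕ × ℕ)) ∈ TS (m + 3) L Y ∧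
      4 * M - 14 * 2 ^ m + Y = L * M :=
    ⟨2 + (1 + 1), 2 ^ (m + 3) + (2 ^ (m + 2) + 2 ^ (m + 1)), Q4_TS3 (by norm_num) (by norm_num)
      (by norm_num) (by omega) (by omega) (by omega) (Q4_pair_ne (Or.inr (by omega)))
      (Q4_pair_ne (Or.inr (by omega))) (Q4_pair_ne (Or.inr (by omega))), by omega⟩
  have t2 : ∃ L Y, ({(1, m + 3), (2, m + 2), (1, m + 1)} : Finset (ℕ × ℕ)) ∈ TS (m + 3) L Y ∧
      4 * M - 14 * 2 ^ m + Y = L * M :=
    ⟨1 + (2 + 1), 2 ^ (m + 3) + (2 ^ (m + 2) + 2 ^ (m + 1)), Q4_TS3 (by norm_num) (by norm_num)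
      (by norm_num) (by omega) (by omega) (by omega) (Q4_pair_ne (Or.inr (by omega)))
      (Q4_pair_ne (Or.inr (by omega))) (Q4_pair_ne (Or.inr (by omega))), by omega⟩
  have t3 : ∃ L Y, ({(1, m + 3), (1, m + 2), (2, m + 1)} : Finset (ℕ × ℕ)) ∈ TS (m + 3) L Y ∧
      4 * M - 14 * 2 ^ m + Y = L * M :=
    ⟨1 + (1 + 2), 2 ^ (m + 3) + (2 ^ (m + 2) + 2 ^ (m + 1)), Q4_TS3 (by norm_num) (by norm_num)
      (by norm_num) (by omega) (by omega) (by omega) (Q4_pair_ne (Or.inr (by omega)))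
      (Q4_pair_ne (Or.inr (by omega))) (Q4_pair_ne (Or.inr (by omega))), by omega⟩
  refine ⟨Q4_lower3 hk n12 n13 n23 t1 t2 t3, fun h4 => ?_⟩
  obtain ⟨i, j, r, hji, hrj, hr1, hE, hpc⟩ := pc_split (n := E) (by omega)
  obtain ⟨p, l, hpl, hr⟩ := pc_two (n := r) (by omega)
  subst hr
  have hp1 : 1 ≤ 2 ^ p := Nat.one_le_two_pow
  have hl1 : 1 ≤ 2 ^ l := Nat.one_le_two_pow
  have hj1' : 1 ≤ 2 ^ j := Nat.one_le_two_pow
  have hi1' : 1 ≤ 2 ^ i := Nat.one_le_two_pow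
  have hlj : l < j := by
    have : 2 ^ l < 2 ^ j := by omega
    exact (Nat.pow_lt_pow_iff_right (by norm_num)).1 this
  have hi : i < m + 2 := by
    have : 2 ^ i < 2 ^ (m + 2) := by omega
    exact (Nat.pow_lt_pow_iff_right (by norm_num)).1 this
  have hi2 : m + 1 < i + 1 := by
    have hj1 : 2 ^ (j + 1) ≤ 2 ^ i := Nat.pow_le_pow_right (by norm_num) hji
    have hj2 : 2 ^ (j + 1) = 2 * 2 ^ j := by rw [pow_succ]; ring
    have hi3 : 2 ^ (i + 1) = 2 * 2 ^ i := by rw [pow_succ]; ring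
    have : 2 ^ (m + 1) < 2 ^ (i + 1) := by omega
    exact (Nat.pow_lt_pow_iff_right (by norm_num)).1 this
  have hieq : i = m + 1 := by omega
  subst hieq
  have n4 : ∀ q : ℕ, (q, m + 3) ∉ ({(1, j), (1, l), (1, p)} : Finset (ℕ × ℕ)) := by
    intro q
    simp only [Finset.mem_insert, Finset.mem_singleton, Prod.mk.injEq]
    omega
  refine Q4_lower4 hk n12 n13 n23 (T4 := {(1, j), (1, l), (1, p)}) ?_ ?_ ?_ t1 t2 t3 ?_
  · exact (Q4_ne (2, m + 3) (by simp) (n4 2)).symm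
  · exact (Q4_ne (1, m + 3) (by simp) (n4 1)).symm
  · exact (Q4_ne (1, m + 3) (by simp) (n4 1)).symm
  · exact ⟨1 + (1 + 1), 2 ^ j + (2 ^ l + 2 ^ p), Q4_TS3 (by norm_num) (by norm_num) (by norm_num)
      (by omega) (by omega) (by omega) (Q4_pair_ne (Or.inr (by omega))) (Q4_pair_ne (Or.inr (by omega)))
      (Q4_pair_ne (Or.inr (by omega))), by omega⟩

end Pool.Agent.H978D
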