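import Pool.Agent.H978D.DefsQ
import Pool.Agent.H978D.D1
import Pool.Agent.H978D.D2
import Pool.Agent.H978D.D3
import Pool.Agent.H978D.D4
import Pool.Agent.H978D.D5
import Pool.Agent.H978D.D6
import Pool.Agent.H978D.D7
import Pool.Agent.H978D.D8
import Pool.Agent.H978D.D9
import Pool.Agent.H978D.Q1
import Pool.Agent.H978D.Q3

set_option autoImplicit false

namespace Pool.Agent.H978D

open Pool.Agent.MPe9218d





























theorem Q5_lt {a b : ℕ} (h : 2 ^ a < 2 ^ b) : a < b :=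
  (Nat.pow_lt_pow_iff_right (by norm_num : 1 < 2)).1 h

theorem Q5_le {a b : ℕ} (h : a ≤ b) : 2 ^ a ≤ 2 ^ b := Nat.pow_le_pow_right (by norm_num) h

/-- a power of two strictly between `2 ^ m` and `4 * 2 ^ m` is `2 * 2 ^ m` -/
theorem Q5_mid {m t : ℕ} (h1 : 2 ^ m < 2 ^ t) (h2 : 2 ^ t < 4 * 2 ^ m) : 2 ^ t = 2 * 2 ^ m := by
  have h3 : m < t := Q5_lt h1
  have h4 : 2 ^ t < 2 ^ (m + 2) := by rw [pow_add]; omega
  have h5 : t < m + 2 := Q5_lt h4
  have h6 : t = m + 1 := by omega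
  rw [h6, pow_succ]
  ring

/-- TARGET -/
theorem q_n0_pairs {m M E g j r e f : ℕ} {b : ℕ → ℕ} (H : Hyp2 m M E g) (hj : j ≤ m)
    (hr : r < 2 ^ j) (hr1 : 1 ≤ r) (hEr : E = 2 * 2 ^ m + 2 ^ j + r) (hne : 2 * E ≠ 7 * 2 ^ m)
    (hId : Identity M (m + 3 + 1) b) (he : Nc (m + 3) M e) (hf : Nc (m + 3) M f)
    (hfe : f < e) (hs : Step b M e f) (hn : e + f + (2 * 2 ^ m + 2 ^ j) = 3 * M) :
    (e + 2 * 2 ^ m = 2 * M ∧ f + 2 ^ j = M) ∨ (e + 2 ^ j = 2 * M ∧ f + 2 * 2 ^ m = M) := by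
  obtain ⟨H1, H2, H3, H4, H5⟩ := H
  have HH : Hyp2 m M E g := ⟨H1, H2, H3, H4, H5⟩
  have hju : 2 ^ j ≤ 2 ^ m := Q5_le hj
  have hu : 0 < 2 ^ m := by positivity
  have e1 : 2 ^ (m + 1) = 2 * 2 ^ m := by rw [pow_succ]; ring
  have e2 : 2 ^ (m + 2) = 4 * 2 ^ m := by rw [pow_add]; ring
  have e3 : 2 ^ (m + 3) = 8 * 2 ^ m := by rw [pow_add]; ring
  have hwM : 2 ^ (m + 3) < M := by omega
  have hGf := nc_min hwM hf
  have hpc : 5 ≤ pc (M + (2 * 2 ^ m + 2 ^ j)) := by
    apply pc_high (k := m + 3) (by omega)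
    · omega
    · omega
  rcases q_follow HH hId he hf hs with h | ⟨i, hi, h⟩ | ⟨i, hi, hgi, h, -⟩
  · -- case 1
    exfalso
    obtain ⟨i2, hi2, hx2⟩ := q_nc1 (x := M - f) HH hf (by omega) (by omega)
    have hx1 : f + (2 * 2 ^ m + 2 ^ j) ≤ M := by omega
    have hsum : (f + (2 * 2 ^ m + 2 ^ j)) + (M - f) = M + (2 * 2 ^ m + 2 ^ j) := by omega
    have hp := pc_add_le (f + (2 * 2 ^ m + 2 ^ j)) (M - f)
    rw [hsum, hx2, pc_pow] at hp
    rcases q_nc3 (x := f + (2 * 2 ^ m + 2 ^ j)) HH he (by omega) hx1 (by omega) with h1 | h1 | ⟨i, hi, h1⟩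
    · omega
    · omega
    · have h2 : 2 ^ (m + 1) < 2 ^ i := by omega
      have h3 := Q5_lt h2
      have h4 : i = m + 2 := by omega
      rw [h4] at h1
      have h5 : 2 ^ (m + 2) < 2 ^ i2 := by omega
      have h6 := Q5_lt h5
      have h7 : i2 = m + 3 := by omega
      rw [h7] at hx2
      have h8 : 2 ^ j + 2 * r = 2 * 2 ^ m := by omega
      rcases Nat.lt_or_ge j m with h9 | h9
      · have h10 : 2 ^ (j + 1) ≤ 2 ^ m := Q5_le h9
        rw [pow_succ] at h10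
        omega
      · have h10 : j = m := by omega
        subst h10
        omega
  · -- case 2
    have hi0 : 0 < 2 ^ i := by positivity
    rcases Nat.lt_or_ge (2 ^ i) (2 * 2 ^ m + 2 ^ j) with h1 | h1
    · obtain ⟨i', hi', hx⟩ := q_nc1 (x := 2 * 2 ^ m + 2 ^ j - 2 ^ i) HH hf (by omega) (by omega)
      rcases Nat.lt_or_ge m i with h2 | h2
      · left
        have h3 : 2 ^ (m + 1) ≤ 2 ^ i := Q5_le h2
        have h4 := Q5_mid (m := m) (t := i) (by omega) (by omega)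
        constructor
        · omega
        · omega
      · right
        have h3 : 2 ^ i ≤ 2 ^ m := Q5_le h2
        have hj0 : 0 < 2 ^ j := by positivity
        have h4 := Q5_mid (m := m) (t := i') (by omega) (by omega)
        constructor
        · omega
        · omega
    · exfalso
      have hj0 : 0 < 2 ^ j := by positivity
      have h2 : 2 ^ (m + 1) < 2 ^ i := by omega
      have h3 := Q5_lt h2
      have h4 : i = m + 2 := by omega
      rw [h4] at h
      rcases q_nc2 (x := 12 * 2 ^ m - r) HH hf (by omega) (by omega) (by omega) with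
        ⟨h5, -⟩ | h5 | ⟨i', hi', -, h5⟩
      · have k1 : 12 * 2 ^ m - r = 2 ^ (m + 3) + (2 ^ (m + 1) + (2 ^ m + (2 ^ m - r))) := by omega
        have k2 : pc (2 ^ (m + 3) + (2 ^ (m + 1) + (2 ^ m + (2 ^ m - r)))) =
            1 + (1 + (1 + pc (2 ^ m - r))) := by
          rw [pc_top (by omega), pc_top (by omega), pc_top (by omega)]
        have k3 := pc_pos (n := 2 ^ m - r) (by omega)
        rw [k1, k2] at h5
        omega
      · omega
      · have h6 : 2 ^ i' ≤ 2 ^ (m + 1) := Q5_le hi'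
        omega
  · -- case 3
    exfalso
    have hc : 2 ^ i ≤ 2 ^ (m + 1) := Q5_le hi
    rcases q_nc2 (x := 12 * 2 ^ m - r - 2 ^ i) HH hf (by omega) (by omega) (by omega) with
        ⟨h5, -⟩ | h5 | ⟨i', hi', -, h5⟩
    · have k1 : 12 * 2 ^ m - r - 2 ^ i = 2 ^ (m + 3) + (4 * 2 ^ m - r - 2 ^ i) := by omega
      have hi0 : 0 < 2 ^ i := by positivity
      rw [k1, pc_top (by omega)] at h5
      have k3 := pc_pos (n := 4 * 2 ^ m - r - 2 ^ i) (by omega)
      obtain ⟨t, ht⟩ := pc_one (n := 4 * 2 ^ m - r - 2 ^ i) (by omega)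
      have k4 := Q5_mid (m := m) (t := t) (by omega) (by omega)
      have k5 : 2 ^ m < 2 ^ i := by omega
      have k6 := Q5_lt k5
      have k7 : i = m + 1 := by omega
      rw [k7] at ht
      omega
    · omega
    · have h6 : 2 ^ i' ≤ 2 ^ (m + 1) := Q5_le hi'
      omega

end Pool.Agent.H978D
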