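import Pool.Agent.H978D.DefsQ
import Pool.Agent.H978D.D1
import Pool.Agent.H978D.D2
import Pool.Agent.H978D.D3
import Pool.Agent.H978D.D4
import Pool.Agent.H978D.D5
import Pool.Agent.H978D.D6
import Pool.Agent.H978D.D7
import Pool.Agent.H978D.D8
import Pool.Agent.H978D.D9
import Pool.Agent.H978D.Q1
import Pool.Agent.H978D.Q3
import Pool.Agent.H978D.Q4
import Pool.Agent.H978D.Q5
import Pool.Agent.H978D.Q6

set_option autoImplicit false

namespace Pool.Agent.H978D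

open Pool.Agent.MPe9218d































theorem q7_pow_le {m p : ℕ} (hp : p ≤ m + 1) : 2 ^ p ≤ 2 * 2 ^ m := by
  calc 2 ^ p ≤ 2 ^ (m + 1) := Nat.pow_le_pow_right (by norm_num) hp
    _ = 2 * 2 ^ m := by ring

theorem q7_nc_single {m M q p e : ℕ} (hM : 2 ^ (m + 3) < M) (hq : 1 ≤ q) (hp : p ≤ m + 3)
    (he : 1 ≤ e) (h : e + 2 ^ p = q * M) : Nc (m + 3) M e := by
  rw [nc_iff hM he]
  refine ⟨q, 2 ^ p, ⟨{(q, p)}, ?_, ?_, ?_⟩, h⟩
  · intro x hx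
    simp only [Finset.mem_singleton] at hx
    subst hx
    exact ⟨hq, hp⟩
  · simp
  · simp

theorem q7_no_second {m M E g p : ℕ} {b : ℕ → ℕ} (H : Hyp2 m M E g)
    (hId : Identity M (m + 3 + 1) b) (hp1 : p ≤ m + 1)
    (hA : A (a M) (m + 3 + 1) M (3 * M - (4 * 2 ^ m + 2 ^ p)) ≤ 2)
    (hs : Step b M (2 * M - 4 * 2 ^ m) (2 * M - 12 * 2 ^ m)) :
    ¬ Step b M (2 * M - 2 ^ p) (M - 4 * 2 ^ m) := by
  obtain ⟨h1, h2, h3, h4, h5⟩ := H
  have hu : 1 ≤ 2 ^ m := Nat.one_le_two_pow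
  have hpp : 1 ≤ 2 ^ p := Nat.one_le_two_pow
  have hp2 := q7_pow_le hp1
  have hk : 2 ^ (m + 3) = 8 * 2 ^ m := by ring
  have hk2 : 2 ^ (m + 2) = 4 * 2 ^ m := by ring
  have hM : 2 ^ (m + 3) < M := by omega
  intro hs2
  have hs1 : Step b M (2 * M - 4 * 2 ^ m) (M - 2 ^ p) :=
    step_mono hs (Nat.ModEq.refl _) (by omega)
  have n1 : Nc (m + 3) M (2 * M - 4 * 2 ^ m) :=
    q7_nc_single hM (q := 2) (p := m + 2) (by norm_num) (by omega) (by omega) (by rw [hk2]; omega)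
  have n2 : Nc (m + 3) M (M - 2 ^ p) :=
    q7_nc_single hM (q := 1) (p := p) (by norm_num) (by omega) (by omega) (by omega)
  have n3 : Nc (m + 3) M (2 * M - 2 ^ p) :=
    q7_nc_single hM (q := 2) (p := p) (by norm_num) (by omega) (by omega) (by omega)
  have n4 : Nc (m + 3) M (M - 4 * 2 ^ m) :=
    q7_nc_single hM (q := 1) (p := m + 2) (by norm_num) (by omega) (by omega) (by rw [hk2]; omega)
  have hn1 : 1 ≤ 3 * M - (4 * 2 ^ m + 2 ^ p) := by omega
  have n5 : Nc (m + 3) M (3 * M - (4 * 2 ^ m + 2 ^ p)) := by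
    rw [nc_iff hM hn1]
    refine ⟨3, 4 * 2 ^ m + 2 ^ p, ⟨{(1, m + 2), (2, p)}, ?_, ?_, ?_⟩, by omega⟩
    · intro x hx
      simp only [Finset.mem_insert, Finset.mem_singleton] at hx
      rcases hx with rfl | rfl
      · exact ⟨by norm_num, by simp⟩
      · exact ⟨by norm_num, by simpa using (by omega : p ≤ m + 3)⟩
    · rw [Finset.sum_pair (by simp)]
      rfl
    · rw [Finset.sum_pair (by simp)]
      simp only [hk2]
  have m1 := mem_BSet_one (b := b) (M := M) (S := C M (m + 3 + 1)) hn1 n5.2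
  have m2 := mem_BSet_two (b := b) (M := M) (n := 3 * M - (4 * 2 ^ m + 2 ^ p))
    (S := C M (m + 3 + 1)) n2.1 (by omega) n1.2 n2.2 hs1 (by omega)
  have m3 := mem_BSet_two (b := b) (M := M) (n := 3 * M - (4 * 2 ^ m + 2 ^ p))
    (S := C M (m + 3 + 1)) n4.1 (by omega) n3.2 n4.2 hs2 (by omega)
  have hAB := hId _ hn1
  have hfin := finite_BSet b M (C M (m + 3 + 1)) (3 * M - (4 * 2 ^ m + 2 ^ p))
  have h6 : 2 < (BSet b M (C M (m + 3 + 1)) (3 * M - (4 * 2 ^ m + 2 ^ p))).ncard := by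
    rw [Set.two_lt_ncard_iff hfin]
    refine ⟨_, _, _, m1, m2, m3, by simp, by simp, ?_⟩
    intro h
    have h7 : 2 * M - 4 * 2 ^ m = 2 * M - 2 ^ p := by
      have := congrArg List.head? h
      simpa using this
    omega
  unfold B0 at hAB
  omega

/-- TARGET -/
theorem q_no_step4 {m M E g : ℕ} {b : ℕ → ℕ} (H : Hyp2 m M E g)
    (hb : ∀ j, 1 ≤ j → j ≤ M → 1 ≤ b j) (hId : Identity M (m + 3 + 1) b)
    (hne : 2 * E ≠ 7 * 2 ^ m) : ¬ Step b M (2 * M - 4 * 2 ^ m) (2 * M - 12 * 2 ^ m) := by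
  intro hs
  have H0 := H
  obtain ⟨h1, h2, h3, h4, h5⟩ := H
  have hu : 1 ≤ 2 ^ m := Nat.one_le_two_pow
  obtain ⟨i, j, r, hji, hr, hr1, hEr, hpc⟩ := pc_split h5
  have hk1 : 2 ^ (m + 1) = 2 * 2 ^ m := by ring
  have hk2 : 2 ^ (m + 2) = 4 * 2 ^ m := by ring
  have hjj : 2 * 2 ^ j ≤ 2 ^ i := by
    calc 2 * 2 ^ j = 2 ^ (j + 1) := by ring
      _ ≤ 2 ^ i := Nat.pow_le_pow_right (by norm_num) hji
  have hi : i = m + 1 := by
    rcases lt_trichotomy i (m + 1) with h | h | h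
    · exfalso
      have : 2 ^ i ≤ 2 ^ m := Nat.pow_le_pow_right (by norm_num) (by omega)
      omega
    · exact h
    · exfalso
      have : 2 ^ (m + 2) ≤ 2 ^ i := Nat.pow_le_pow_right (by norm_num) (by omega)
      omega
  subst hi
  rw [hk1] at hEr
  have hj : j ≤ m := by omega
  have hjm : 2 ^ j ≤ 2 ^ m := Nat.pow_le_pow_right (by norm_num) hj
  have hj1 : 1 ≤ 2 ^ j := Nat.one_le_two_pow
  have hno1 := q7_no_second (p := m + 1) H0 hId le_rfl
    (q_lb4 H0 hj hr hr1 hEr (Or.inl rfl)) hs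
  have hno2 := q7_no_second (p := j) H0 hId (by omega)
    (q_lb4 H0 hj hr hr1 hEr (Or.inr rfl)) hs
  rw [hk1] at hno1
  have hn1 : 1 ≤ 3 * M - (2 * 2 ^ m + 2 ^ j) := by omega
  have hlow := q_two_lower (m := m) (M := M) (i := m + 1) (j := j) (by omega) (by omega) (by omega)
  rw [hk1] at hlow
  rw [hId _ hn1] at hlow
  unfold B0 at hlow
  have hfin := finite_BSet b M (C M (m + 3 + 1)) (3 * M - (2 * 2 ^ m + 2 ^ j))
  have hlow2 : 1 < (BSet b M (C M (m + 3 + 1)) (3 * M - (2 * 2 ^ m + 2 ^ j))).ncard := by omega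
  obtain ⟨l, hl, hne2⟩ := Set.exists_ne_of_one_lt_ncard hlow2
    ([3 * M - (2 * 2 ^ m + 2 ^ j)])
  rcases q_len_two H0 hb hId hn1 (by omega) hl with h | ⟨e, f, hlef, hef, hfe, hNe, hNf, hstep⟩
  · exact hne2 h
  · rcases q_n0_pairs H0 hj hr hr1 hEr hne hId hNe hNf hfe hstep (by omega) with ⟨ha, hb2⟩ | ⟨ha, hb2⟩
    · apply hno1
      have he2 : e = 2 * M - 2 * 2 ^ m := by omega
      subst he2
      exact step_mono hstep (Nat.ModEq.refl _) (by omega)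
    · apply hno2
      have he2 : e = 2 * M - 2 ^ j := by omega
      subst he2
      exact step_mono hstep (Nat.ModEq.refl _) (by omega)

end Pool.Agent.H978D
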