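import Pool.Agent.H978D.DefsQ
import Pool.Agent.H978D.D3
import Pool.Agent.H978D.Q10
import Pool.Agent.H978D.Q11
import Pool.Agent.H978D.Q3
import Pool.Agent.H978D.Q4
import Pool.Agent.H978D.Q7

set_option autoImplicit false

namespace Pool.Agent.H978D

open Pool.Agent.MPe9218d








/-- TARGET -/
theorem q_main3 {m M E g : ℕ} {b : ℕ → ℕ} (H : Hyp2 m M E g) (h3 : pc E = 3)
    (hb : ∀ j, 1 ≤ j → j ≤ M → 1 ≤ b j) (hId : Identity M (m + 3 + 1) b)
    (hns : ¬ Step b M (2 * M - 4 * 2 ^ m) (2 * M - 12 * 2 ^ m)) : False := by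
  have h1u : 1 ≤ 2 ^ m := Nat.one_le_two_pow
  have hlow := q_nE_lower H h3
  have hH := H
  obtain ⟨hME, hEg, hg1, hg2, _⟩ := hH
  have hn1 : 1 ≤ 3 * M - E := by omega
  have hn20 : (3 * M - E) + 20 * 2 ^ m ≤ 5 * M := by omega
  rw [hId _ hn1] at hlow
  have hsub : BSet b M (C M (m + 3 + 1)) (3 * M - E) ⊆
      ({[3 * M - E], [3 * M - 8 * 2 ^ m, M - 8 * 2 ^ m]} : Set (List ℕ)) := by
    intro l hl
    rcases q_len_two H hb hId hn1 hn20 hl with h | ⟨e, f, rfl, hef, hfe, he, hf, hs⟩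
    · left; exact h
    · have hsum : e + f + E = 3 * M := by omega
      rcases q_nE_pairs H h3 hId he hf hfe hs hsum with ⟨h1, h2⟩ | ⟨h1, h2⟩ | ⟨h1, h2⟩
      · right
        have e1 : e = 3 * M - 8 * 2 ^ m := by omega
        have e2 : f = M - 8 * 2 ^ m := by omega
        rw [Set.mem_singleton_iff, e1, e2]
      · exfalso
        have e1 : e = 2 * M - 4 * 2 ^ m := by omega
        have e2 : f = 2 * M - 12 * 2 ^ m := by omega
        rw [e1, e2] at hs
        exact hns hs
      · exfalso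
        have e1 : e = 2 * M - 6 * 2 ^ m := by omega
        have e2 : f = 2 * M - (6 + 4) * 2 ^ m := by omega
        rw [e1, e2] at hs
        exact q_no_step56 H hId (Or.inr rfl) hs
  have hfin : ({[3 * M - E], [3 * M - 8 * 2 ^ m, M - 8 * 2 ^ m]} : Set (List ℕ)).Finite :=
    (Set.finite_singleton _).insert _
  have h2 : B0 b M (C M (m + 3 + 1)) (3 * M - E) ≤ 2 := by
    unfold B0
    refine (Set.ncard_le_ncard hsub hfin).trans ?_
    exact (Set.ncard_insert_le _ _).trans (by rw [Set.ncard_singleton])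
  omega

end Pool.Agent.H978D
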