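import Pool.Agent.H978D.DefsQ
import Pool.Agent.H978D.D1
import Pool.Agent.H978D.D2
import Pool.Agent.H978D.D3
import Pool.Agent.H978D.D4
import Pool.Agent.H978D.D5
import Pool.Agent.H978D.D6
import Pool.Agent.H978D.D7
import Pool.Agent.H978D.D8
import Pool.Agent.H978D.D9
import Pool.Agent.H978D.Q1
import Pool.Agent.H978D.Q3

set_option autoImplicit false

namespace Pool.Agent.H978D

open Pool.Agent.MPe9218d





























theorem Q13_pow (m : ℕ) : 2 ^ (m + 1) = 2 * 2 ^ m ∧ 2 ^ (m + 2) = 4 * 2 ^ m ∧ 2 ^ (m + 3) = 8 * 2 ^ m :=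
  ⟨by ring, by ring, by ring⟩

theorem Q13_one {k M n L0 Y0 : ℕ} (hM : 2 ^ k < M)
    (h : ∀ L Y, n + Y = L * M → (TS k L Y).Nonempty → L = L0 ∧ Y = Y0)
    (h1 : (TS k L0 Y0).ncard ≤ 1) : A (a M) (k + 1) M n ≤ 1 := by
  have h2 := A_cover hM {(L0, Y0)} (fun L Y hLY hne => by
    obtain ⟨h3, h4⟩ := h L Y hLY hne
    rw [h3, h4]
    exact Finset.mem_singleton_self _)
  rw [Finset.sum_singleton] at h2
  exact h2.trans h1

theorem Q13_four {k Y i0 : ℕ} (hY : Y = 2 * 2 ^ k + 2 ^ i0) : (TS k 4 Y).ncard ≤ 1 := by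
  have hsub : TS k 4 Y ⊆ {({(1, k), (2, k), (1, i0)} : Finset (ℕ × ℕ))} := by
    intro T hT
    have hpos : 0 < 2 ^ i0 := Nat.two_pow_pos i0
    obtain ⟨i, hi, hT2, hY2⟩ := TS_four_top hT (by omega)
    have h1 : 2 ^ i = 2 ^ i0 := by omega
    have h2 : i = i0 := Nat.pow_right_injective le_rfl h1
    rw [h2] at hT2
    exact hT2
  have := Set.ncard_le_ncard hsub (Set.finite_singleton _)
  rwa [Set.ncard_singleton] at this

theorem Q13_empty {k L Y : ℕ} (h : L < pc Y) : ¬ (TS k L Y).Nonempty := by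
  rintro ⟨T, hT⟩
  have := TS_card hT
  omega

theorem Q13_three {k Y : ℕ} (h : 3 ≤ pc Y) : (TS k 3 Y).ncard ≤ 1 := by
  rcases Nat.lt_or_ge 3 (pc Y) with h1 | h1
  · have h2 : TS k 3 Y = ∅ := Set.not_nonempty_iff_eq_empty.mp (Q13_empty h1)
    rw [h2, Set.ncard_empty]
    exact Nat.zero_le _
  · exact TS_uniq (by omega)

theorem Q13_G {k M : ℕ} (hM : 2 ^ k < M) {G : ℕ} (hG : G + 2 ^ k = M) : Nc k M G := by
  rw [nc_iff hM (by omega)]
  refine ⟨1, 2 ^ k, ⟨{(1, k)}, ?_, ?_, ?_⟩, by omega⟩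
  · intro p hp
    rw [Finset.mem_singleton] at hp
    rw [hp]
    exact ⟨le_rfl, le_rfl⟩
  · rw [Finset.sum_singleton]
  · rw [Finset.sum_singleton]

theorem Q13_L {m M E g n x L Y : ℕ} (H : Hyp2 m M E g) (hx : x ≤ 4 * 2 ^ m)
    (hn : n + 22 * 2 ^ m = 4 * M + x) (hLY : n + Y = L * M) (hne : (TS (m + 3) L Y).Nonempty) :
    (L = 4 ∧ Y + x = 22 * 2 ^ m) ∨ (L = 3 ∧ Y + x + M = 22 * 2 ^ m) := by
  obtain ⟨T, hT⟩ := hne
  have hb := TS_bound hT
  obtain ⟨p1, p2, p3⟩ := Q13_pow m
  rw [p3] at hb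
  obtain ⟨H1, H2, H3, H4, H5⟩ := H
  generalize hu : 2 ^ m = u at *
  rcases Nat.lt_or_ge L 3 with hL | hL
  · interval_cases L <;> omega
  rcases Nat.lt_or_ge L 5 with hL5 | hL5
  · interval_cases L <;> omega
  · exfalso
    obtain ⟨t, rfl⟩ : ∃ t, L = 5 + t := ⟨L - 5, by omega⟩
    have hMe : M = 12 * u + g := by omega
    have e1 : (5 + t) * M = 60 * u + 5 * g + 12 * (t * u) + t * g := by rw [hMe]; ring
    have e2 : 8 * u * (5 + t + 1) = 48 * u + 8 * (t * u) := by ring
    rw [e1] at hLY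
    rw [e2] at hb
    generalize t * u = tu at *
    generalize t * g = tg at *
    omega

/-- TARGET -/
theorem q_n2_pairs {m M E g e f : ℕ} {b : ℕ → ℕ} (H : Hyp2 m M E g) (h4 : 4 ≤ pc E)
    (hId : Identity M (m + 3 + 1) b) (he : Nc (m + 3) M e) (hf : Nc (m + 3) M f)
    (hfe : f < e) (hs : Step b M e f) (hn : e + f + 14 * 2 ^ m = 4 * M) :
    (e + 6 * 2 ^ m = 3 * M ∧ f + 8 * 2 ^ m = M) ∨
    (e + 2 * 2 ^ m = 2 * M ∧ f + 12 * 2 ^ m = 2 * M) ∨
    (e + 4 * 2 ^ m = 2 * M ∧ f + 10 * 2 ^ m = 2 * M) ∨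
    (pc E = 4 ∧ e + 5 * 2 ^ m = 2 * M ∧ f + 9 * 2 ^ m = 2 * M) := by
  obtain ⟨H1, H2, H3, H4, H5⟩ := id H
  obtain ⟨p1, p2, p3⟩ := Q13_pow m
  have hu1 : 1 ≤ 2 ^ m := Nat.one_le_two_pow
  have hM : 2 ^ (m + 3) < M := by omega
  have hE : ∃ e', e' + g = 2 * 2 ^ m ∧ 1 ≤ e' ∧ e' < 2 * 2 ^ m ∧ pc E = 1 + pc e' := by
    refine ⟨2 * 2 ^ m - g, by omega, by omega, by omega, ?_⟩
    have h1 : E = 2 ^ (m + 1) + (2 * 2 ^ m - g) := by omega
    have h2 := pc_top (i := m + 1) (r := 2 * 2 ^ m - g) (by omega)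
    rw [← h1] at h2
    exact h2
  obtain ⟨e', he', he1, he2, hpe⟩ := hE
  have hpe3 : 3 ≤ pc e' := by omega
  have hfmin := nc_min hM hf
  rcases q_follow H hId he hf hs with h1 | ⟨i, hi, h1⟩ | ⟨i, hi, hgi, h1, hpc⟩
  · -- case 1
    have hx2 : ∃ x, f + x = M ∧ 1 ≤ x ∧ x ≤ 8 * 2 ^ m := ⟨M - f, by omega, by omega, by omega⟩
    obtain ⟨x, hx, hx1, hx8⟩ := hx2
    obtain ⟨j, hj, hxj⟩ := q_nc1 H hf hx1 hx
    by_cases hj3 : j = m + 3
    · left
      rw [hj3] at hxj
      omega
    · exfalso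
      have hG : ∃ G, G + 2 ^ (m + 3) = M := ⟨M - 2 ^ (m + 3), by omega⟩
      obtain ⟨G, hG⟩ := hG
      have hNG : Nc (m + 3) M G := Q13_G hM hG
      have hx4 : x ≤ 4 * 2 ^ m := by
        rw [hxj, ← p2]
        exact Nat.pow_le_pow_right (by norm_num) (by omega)
      have hnG : (e + G) + 22 * 2 ^ m = 4 * M + x := by omega
      have hA : A (a M) (m + 3 + 1) M (e + G) ≤ 1 := by
        by_cases hj2 : j = m + 2
        · -- x = 4u
          have hx4' : x = 4 * 2 ^ m := by rw [hxj, hj2, p2]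
          refine Q13_one (L0 := 4) (Y0 := 18 * 2 ^ m) hM ?_ (Q13_four (i0 := m + 1) (by omega))
          intro L Y hLY hne
          rcases Q13_L H hx4 hnG hLY hne with ⟨h5, h6⟩ | ⟨h5, h6⟩
          · exact ⟨h5, by omega⟩
          · exfalso
            have hY : Y = 2 ^ (m + 2) + e' := by omega
            have h7 := pc_top (i := m + 2) (r := e') (by omega)
            rw [← hY] at h7
            rw [h5] at hne
            exact Q13_empty (by omega) hne
        · by_cases hj1 : j = m + 1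
          · have hx2' : x = 2 * 2 ^ m := by rw [hxj, hj1, p1]
            refine Q13_one (L0 := 4) (Y0 := 20 * 2 ^ m) hM ?_ (Q13_four (i0 := m + 2) (by omega))
            intro L Y hLY hne
            rcases Q13_L H hx4 hnG hLY hne with ⟨h5, h6⟩ | ⟨h5, h6⟩
            · exact ⟨h5, by omega⟩
            · exfalso
              have hY : Y = 2 ^ (m + 2) + (2 ^ (m + 1) + e') := by omega
              have h7 := pc_top (i := m + 1) (r := e') (by omega)
              have h8 := pc_top (i := m + 2) (r := 2 ^ (m + 1) + e') (by omega)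
              rw [← hY] at h8
              rw [h5] at hne
              exact Q13_empty (by omega) hne
          · have hxu : x ≤ 2 ^ m := by
              rw [hxj]
              exact Nat.pow_le_pow_right (by norm_num) (by omega)
            have hpx : pc x = 1 := by rw [hxj]; exact pc_pow j
            have hne' : e' ≠ x := by
              intro h
              rw [h] at hpe3
              omega
            have hY3 : ∃ Y0, Y0 + x = 8 * 2 ^ m + e' ∧ 3 ≤ pc Y0 := by
              refine ⟨8 * 2 ^ m + e' - x, by omega, ?_⟩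
              rcases Nat.lt_or_ge x e' with hlt | hge
              · have h9 : 8 * 2 ^ m + e' - x = 2 ^ (m + 3) + (e' - x) := by omega
                have h10 := pc_top (i := m + 3) (r := e' - x) (by omega)
                have h11 := pc_add_le (e' - x) x
                have h12 : e' - x + x = e' := by omega
                rw [h12] at h11
                rw [h9, h10]
                omega
              · have h9 : 8 * 2 ^ m + e' - x = 2 ^ (m + 2) + (2 ^ (m + 1) + (2 * 2 ^ m - (x - e'))) := by omega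
                have h10 := pc_top (i := m + 2) (r := 2 ^ (m + 1) + (2 * 2 ^ m - (x - e'))) (by omega)
                have h11 := pc_top (i := m + 1) (r := 2 * 2 ^ m - (x - e')) (by omega)
                have h12 := pc_pos (n := 2 * 2 ^ m - (x - e')) (by omega)
                rw [h9, h10, h11]
                omega
            obtain ⟨Y0, hY0, hpY0⟩ := hY3
            refine Q13_one (L0 := 3) (Y0 := Y0) hM ?_ (Q13_three hpY0)
            intro L Y hLY hne
            rcases Q13_L H hx4 hnG hLY hne with ⟨h5, h6⟩ | ⟨h5, h6⟩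
            · exfalso
              obtain ⟨T, hT⟩ := hne
              have hb := TS_bound hT
              rw [h5, p3] at hb
              omega
            · exact ⟨h5, by omega⟩
      exact kill hId he hNG (by omega) hA (by omega) hs
  · -- case 2
    have hi4 : 2 ^ i ≤ 4 * 2 ^ m := by
      rw [← p2]
      exact Nat.pow_le_pow_right (by norm_num) hi
    have hipos : 1 ≤ 2 ^ i := Nat.one_le_two_pow
    rcases Nat.lt_or_ge (2 ^ i) e' with hlt | hge
    · exfalso
      have hy : f + (e' - 2 ^ i) = M := by omega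
      obtain ⟨j, hj, hyj⟩ := q_nc1 H hf (by omega) hy
      have h2 := pc_add_le (e' - 2 ^ i) (2 ^ i)
      have h3 : e' - 2 ^ i + 2 ^ i = e' := by omega
      rw [h3, pc_pow] at h2
      have h4 : pc (e' - 2 ^ i) = 1 := by rw [hyj]; exact pc_pow j
      omega
    · have hx' : ∃ x', x' + 2 ^ i = 14 * 2 ^ m := ⟨14 * 2 ^ m - 2 ^ i, by omega⟩
      obtain ⟨x', hx'⟩ := hx'
      rcases q_nc2 H hf (x := x') (by omega) (by omega) (by omega) with ⟨h2, h3⟩ | h2 | ⟨i', hi', hg', h2⟩
      · have hge2 : 2 * 2 ^ m ≤ 2 ^ i := by omega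
        have him : m + 1 ≤ i := by
          by_contra hcon
          have : 2 ^ i ≤ 2 ^ m := Nat.pow_le_pow_right (by norm_num) (by omega)
          omega
        rcases (by omega : i = m + 1 ∨ i = m + 2) with h4 | h4
        · right; left
          rw [h4, p1] at h1 hx'
          omega
        · right; right; left
          rw [h4, p2] at h1 hx'
          omega
      · omega
      · exfalso
        have : 2 ^ i' ≤ 2 ^ (m + 1) := Nat.pow_le_pow_right (by norm_num) hi'
        omega
  · -- case 3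
    have hi2 : 2 ^ i ≤ 2 * 2 ^ m := by
      rw [← p1]
      exact Nat.pow_le_pow_right (by norm_num) hi
    have hx' : ∃ x', x' + 2 ^ i = 10 * 2 ^ m := ⟨10 * 2 ^ m - 2 ^ i, by omega⟩
    obtain ⟨x', hx'⟩ := hx'
    rcases q_nc2 H hf (x := x') (by omega) (by omega) (by omega) with ⟨h2, h3⟩ | h2 | ⟨i', hi', hg', h2⟩
    · by_cases him1 : i = m + 1
      · exfalso
        rw [him1, p1] at hpc
        have h4 : 2 * 2 ^ m - g = e' := by omega
        rw [h4] at hpc
        omega
      · by_cases him : i = m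
        · right; right; right
          rw [him] at hgi h1 hpc hx'
          have h4 : e' = 2 ^ m + (2 ^ m - g) := by omega
          have h5 := pc_top (i := m) (r := 2 ^ m - g) (by omega)
          rw [← h4] at h5
          omega
        · exfalso
          have hlt : i + 1 ≤ m := by omega
          have h6 : 2 ^ (i + 1) ≤ 2 ^ m := Nat.pow_le_pow_right (by norm_num) hlt
          have h6' : 2 ^ (i + 1) = 2 * 2 ^ i := by ring
          have hipos : 1 ≤ 2 ^ i := Nat.one_le_two_pow
          have h7 : x' = 2 ^ (m + 3) + (2 ^ m + (2 ^ m - 2 ^ i)) := by omega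
          have h8 := pc_top (i := m + 3) (r := 2 ^ m + (2 ^ m - 2 ^ i)) (by omega)
          have h9 := pc_top (i := m) (r := 2 ^ m - 2 ^ i) (by omega)
          have h10 := pc_pos (n := 2 ^ m - 2 ^ i) (by omega)
          rw [← h7] at h8
          omega
    · omega
    · exfalso
      have : 2 ^ i' ≤ 2 ^ (m + 1) := Nat.pow_le_pow_right (by norm_num) hi'
      omega

end Pool.Agent.H978D
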