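import Pool.Agent.H978D.DefsQ
import Pool.Agent.H978D.D1
import Pool.Agent.H978D.D2
import Pool.Agent.H978D.D3
import Pool.Agent.H978D.D4
import Pool.Agent.H978D.D5
import Pool.Agent.H978D.D6
import Pool.Agent.H978D.D7
import Pool.Agent.H978D.D8
import Pool.Agent.H978D.D9
import Pool.Agent.H978D.Q1
import Pool.Agent.H978D.Q3

set_option autoImplicit false

namespace Pool.Agent.H978D

open Pool.Agent.MPe9218d





























theorem h177_pc_mid {m x : ℕ} (h1 : 2 ^ m < 2 * x) (h2 : x < 2 ^ m) : 2 ≤ pc x := by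
  have h0 : 1 ≤ pc x := pc_pos (by omega)
  by_contra hc
  have h3 : pc x = 1 := by omega
  obtain ⟨i, hi⟩ := pc_one h3
  have h4 : i < m := by
    by_contra hc2
    have : 2 ^ m ≤ 2 ^ i := Nat.pow_le_pow_right (by norm_num) (by omega)
    omega
  have h5 : 2 ^ (i + 1) ≤ 2 ^ m := Nat.pow_le_pow_right (by norm_num) (by omega)
  have h6 : 2 ^ (i + 1) = 2 * 2 ^ i := by ring
  omega

theorem h177_pw_cases {m i : ℕ} (h : i ≤ m + 3) :
    2 ^ i = 8 * 2 ^ m ∨ 2 ^ i = 4 * 2 ^ m ∨ 2 ^ i = 2 * 2 ^ m ∨ 2 ^ i = 2 ^ m ∨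
      2 * 2 ^ i ≤ 2 ^ m := by
  rcases Nat.lt_or_ge i m with h1 | h1
  · right; right; right; right
    have h5 : 2 ^ (i + 1) ≤ 2 ^ m := Nat.pow_le_pow_right (by norm_num) (by omega)
    have h6 : 2 ^ (i + 1) = 2 * 2 ^ i := by ring
    omega
  · have : i = m ∨ i = m + 1 ∨ i = m + 2 ∨ i = m + 3 := by omega
    rcases this with h2 | h2 | h2 | h2
    · right; right; right; left; rw [h2]
    · right; right; left; rw [h2]; ring
    · right; left; rw [h2]; ring
    · left; rw [h2]; ring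

theorem h177_pc_u {m r : ℕ} (h : r < 2 ^ m) : pc (2 ^ m + r) = 1 + pc r := pc_top h

theorem h177_pc_2u {m r : ℕ} (h : r < 2 * 2 ^ m) : pc (2 * 2 ^ m + r) = 1 + pc r := by
  have h1 : 2 * 2 ^ m = 2 ^ (m + 1) := by ring
  rw [h1] at h ⊢
  exact pc_top h

theorem h177_pc_4u {m r : ℕ} (h : r < 4 * 2 ^ m) : pc (4 * 2 ^ m + r) = 1 + pc r := by
  have h1 : 4 * 2 ^ m = 2 ^ (m + 2) := by ring
  rw [h1] at h ⊢
  exact pc_top h

theorem h177_pc_8u {m r : ℕ} (h : r < 8 * 2 ^ m) : pc (8 * 2 ^ m + r) = 1 + pc r := by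
  have h1 : 8 * 2 ^ m = 2 ^ (m + 3) := by ring
  rw [h1] at h ⊢
  exact pc_top h

/-- TARGET -/
theorem q_n1_pairs {m M E g j l r e f : ℕ} {b : ℕ → ℕ} (H : Hyp2 m M E g) (hj : j ≤ m)
    (hlj : l < j) (hr : r < 2 ^ l) (hr2 : 2 ≤ pc r)
    (hEr : E = 2 * 2 ^ m + 2 ^ j + 2 ^ l + r)
    (hId : Identity M (m + 3 + 1) b) (he : Nc (m + 3) M e) (hf : Nc (m + 3) M f)
    (hfe : f < e) (hs : Step b M e f) (hn : e + f + (2 ^ j + 2 ^ l) = 3 * M) :
    (e + 2 ^ j = 2 * M ∧ f + 2 ^ l = M) ∨ (e + 2 ^ l = 2 * M ∧ f + 2 ^ j = M) := by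
  obtain ⟨hME, hEg, hg1, hg2, hpE⟩ := id H
  have hu : 1 ≤ 2 ^ m := Nat.one_le_two_pow
  have hr1 : 1 ≤ r := by
    rcases Nat.eq_zero_or_pos r with h0 | h0
    · rw [h0, pc_zero] at hr2
      omega
    · exact h0
  have hju : 2 ^ j ≤ 2 ^ m := Nat.pow_le_pow_right (by norm_num) hj
  have hl2 : 2 * 2 ^ l ≤ 2 ^ j := by
    have h5 : 2 ^ (l + 1) ≤ 2 ^ j := Nat.pow_le_pow_right (by norm_num) (by omega)
    have h6 : 2 ^ (l + 1) = 2 * 2 ^ l := by ring
    omega
  have hl1 : 1 ≤ 2 ^ l := Nat.one_le_two_pow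
  have h8 : 2 ^ (m + 3) = 8 * 2 ^ m := by ring
  have hM8 : 2 ^ (m + 3) < M := by omega
  rcases q_follow H hId he hf hs with h1 | ⟨i, hi, h1⟩ | ⟨i, hi, h2, h1, h3⟩
  · exfalso
    have hmin := nc_min hM8 hf
    have hx2 : Pw (m + 3) (M - f) := q_nc1 H hf (by omega) (by omega)
    obtain ⟨i2, hi2, hx2'⟩ := hx2
    rcases q_nc3 (x := f + (2 ^ j + 2 ^ l)) H he (by omega) (by omega) (by omega) with
      h4 | h4 | ⟨i, hi, h4⟩
    · have h5 : pc (f + (2 ^ j + 2 ^ l) + 2 ^ i2) ≤ pc (f + (2 ^ j + 2 ^ l)) + pc (2 ^ i2) :=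
        pc_add_le _ _
      rw [pc_pow] at h5
      have h6 : f + (2 ^ j + 2 ^ l) + 2 ^ i2 =
          8 * 2 ^ m + (4 * 2 ^ m + (2 ^ m + (2 ^ m - r))) := by omega
      rw [h6, h177_pc_8u (by omega), h177_pc_4u (by omega), h177_pc_u (by omega)] at h5
      have h7 : 2 ≤ pc (2 ^ m - r) := h177_pc_mid (m := m) (by omega) (by omega)
      omega
    · omega
    · have h5 := h177_pw_cases (m := m) (i := i) (by omega)
      have h6 := h177_pw_cases (m := m) (i := i2) (by omega)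
      have hi4 : 2 ^ i ≤ 2 ^ (m + 2) := Nat.pow_le_pow_right (by norm_num) hi
      have h9 : 2 ^ (m + 2) = 4 * 2 ^ m := by ring
      rcases h5 with h5 | h5 | h5 | h5 | h5
      · omega
      · omega
      · -- 2 ^ i = 2u
        have h10 : 2 ^ j + 2 ^ l + 2 * r = 2 * 2 ^ m := by omega
        have h11 : 2 ^ j = 2 ^ m := by
          rcases Nat.lt_or_ge j m with h12 | h12
          · exfalso
            have h13 : 2 ^ (j + 1) ≤ 2 ^ m := Nat.pow_le_pow_right (by norm_num) (by omega)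
            have h14 : 2 ^ (j + 1) = 2 * 2 ^ j := by ring
            omega
          · have : j = m := by omega
            rw [this]
        have h12 : 2 * 2 ^ l = 2 ^ j := by
          rcases Nat.lt_or_ge (l + 1) j with h12 | h12
          · exfalso
            have h13 : 2 ^ (l + 2) ≤ 2 ^ j := Nat.pow_le_pow_right (by norm_num) (by omega)
            have h14 : 2 ^ (l + 2) = 4 * 2 ^ l := by ring
            omega
          · have : j = l + 1 := by omega
            rw [this]; ring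
        have h13 : 2 * r = 2 ^ l := by omega
        have h14 : pc (2 * r) = 1 := by rw [h13]; exact pc_pow l
        rw [pc_two_mul] at h14
        omega
      · omega
      · omega
  · have hii := h177_pw_cases (m := m) (i := i) (by omega)
    have hi4 : 2 ^ i ≤ 2 ^ (m + 2) := Nat.pow_le_pow_right (by norm_num) hi
    have h9 : 2 ^ (m + 2) = 4 * 2 ^ m := by ring
    rcases Nat.lt_or_ge (2 ^ i) (2 ^ j + 2 ^ l) with h2 | h2
    · have hx : Pw (m + 3) (2 ^ j + 2 ^ l - 2 ^ i) := q_nc1 H hf (by omega) (by omega)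
      obtain ⟨t, ht, hx⟩ := hx
      have h3 : 2 ^ i + 2 ^ t = 2 ^ j + 2 ^ l := by omega
      rcases lt_trichotomy i j with h4 | h4 | h4
      · rcases lt_trichotomy t j with h5 | h5 | h5
        · exfalso
          have h13 : 2 ^ (i + 1) ≤ 2 ^ j := Nat.pow_le_pow_right (by norm_num) (by omega)
          have h14 : 2 ^ (i + 1) = 2 * 2 ^ i := by ring
          have h15 : 2 ^ (t + 1) ≤ 2 ^ j := Nat.pow_le_pow_right (by norm_num) (by omega)
          have h16 : 2 ^ (t + 1) = 2 * 2 ^ t := by ring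
          omega
        · right
          rw [h5] at h3
          omega
        · exfalso
          have h15 : 2 ^ (j + 1) ≤ 2 ^ t := Nat.pow_le_pow_right (by norm_num) (by omega)
          have h16 : 2 ^ (j + 1) = 2 * 2 ^ j := by ring
          have : 1 ≤ 2 ^ i := Nat.one_le_two_pow
          omega
      · left
        rw [h4] at h1
        omega
      · exfalso
        have h15 : 2 ^ (j + 1) ≤ 2 ^ i := Nat.pow_le_pow_right (by norm_num) (by omega)
        have h16 : 2 ^ (j + 1) = 2 * 2 ^ j := by ring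
        omega
    · exfalso
      rcases q_nc2 (x := M + (2 ^ j + 2 ^ l) - 2 ^ i) H hf (by omega) (by omega) (by omega) with
        ⟨h4, h5⟩ | h4 | ⟨i', hi', h4, h5⟩
      · rcases hii with h6 | h6 | h6 | h6 | h6
        · omega
        · have h7 : M + (2 ^ j + 2 ^ l) - 2 ^ i = 8 * 2 ^ m + (2 ^ m + (2 ^ m - r)) := by omega
          rw [h7, h177_pc_8u (by omega), h177_pc_u (by omega)] at h4
          have h8 : 2 ≤ pc (2 ^ m - r) := h177_pc_mid (m := m) (by omega) (by omega)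
          omega
        · have h7 : M + (2 ^ j + 2 ^ l) - 2 ^ i =
              8 * 2 ^ m + (2 * 2 ^ m + (2 ^ m + (2 ^ m - r))) := by omega
          rw [h7, h177_pc_8u (by omega), h177_pc_2u (by omega), h177_pc_u (by omega)] at h4
          omega
        · omega
        · omega
      · omega
      · have : 2 ^ i' ≤ 2 ^ (m + 1) := Nat.pow_le_pow_right (by norm_num) hi'
        have : 2 ^ (m + 1) = 2 * 2 ^ m := by ring
        omega
  · exfalso
    have hi2 : 2 ^ i ≤ 2 ^ (m + 1) := Nat.pow_le_pow_right (by norm_num) hi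
    have h9 : 2 ^ (m + 1) = 2 * 2 ^ m := by ring
    have hii := h177_pw_cases (m := m) (i := i) (by omega)
    rcases q_nc2 (x := M + (2 ^ j + 2 ^ l) - 4 * 2 ^ m - 2 ^ i) H hf (by omega) (by omega)
      (by omega) with ⟨h4, h5⟩ | h4 | ⟨i', hi', h4, h5⟩
    · rcases hii with h6 | h6 | h6 | h6 | h6
      · omega
      · omega
      · have h7 : M + (2 ^ j + 2 ^ l) - 4 * 2 ^ m - 2 ^ i =
              4 * 2 ^ m + (2 * 2 ^ m + (2 ^ m + (2 ^ m - r))) := by omega
        rw [h7, h177_pc_4u (by omega), h177_pc_2u (by omega), h177_pc_u (by omega)] at h4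
        omega
      · have h7 : M + (2 ^ j + 2 ^ l) - 4 * 2 ^ m - 2 ^ i = 8 * 2 ^ m + (2 ^ m - r) := by omega
        rw [h7, h177_pc_8u (by omega)] at h4
        have h8 : 2 ≤ pc (2 ^ m - r) := h177_pc_mid (m := m) (by omega) (by omega)
        omega
      · have h7 : M + (2 ^ j + 2 ^ l) - 4 * 2 ^ m - 2 ^ i =
              8 * 2 ^ m + (2 ^ m + (2 ^ m - r - 2 ^ i)) := by omega
        rw [h7, h177_pc_8u (by omega), h177_pc_u (by omega)] at h4
        have h8 : 1 ≤ pc (2 ^ m - r - 2 ^ i) := pc_pos (by omega)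
        omega
    · omega
    · have : 2 ^ i' ≤ 2 ^ (m + 1) := Nat.pow_le_pow_right (by norm_num) hi'
      omega

end Pool.Agent.H978D
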