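import Pool.Agent.H978D.DefsQ
import Pool.Agent.H978D.D1
import Pool.Agent.H978D.D2
import Pool.Agent.H978D.D3
import Pool.Agent.H978D.D4
import Pool.Agent.H978D.D5
import Pool.Agent.H978D.D6
import Pool.Agent.H978D.D7
import Pool.Agent.H978D.D8
import Pool.Agent.H978D.D9

set_option autoImplicit false

namespace Pool.Agent.H978D

open Pool.Agent.MPe9218d

























/-- TARGET -/
theorem q_lb2 {m M E g j l r p : ℕ} (H : Hyp2 m M E g) (hj : j ≤ m)
    (hlj : l < j) (hr : r < 2 ^ l) (hr2 : 2 ≤ pc r)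
    (hEr : E = 2 * 2 ^ m + 2 ^ j + 2 ^ l + r) (hp : p = j ∨ p = l) :
    A (a M) (m + 3 + 1) M (3 * M - (2 * 2 ^ m + 2 ^ p)) ≤ 2 := by
  obtain ⟨h1, h2, h3, h4, h5⟩ := H
  have hu1 : 1 ≤ 2 ^ m := Nat.one_le_two_pow
  have hk8 : (2 : ℕ) ^ (m + 3) = 8 * 2 ^ m := by rw [pow_add]; ring
  have hjm : (2 : ℕ) ^ j ≤ 2 ^ m := Nat.pow_le_pow_right (by norm_num) hj
  have hl2 : 2 * 2 ^ l ≤ (2 : ℕ) ^ j := by
    calc 2 * 2 ^ l = 2 ^ (l + 1) := by rw [pow_succ]; ring
      _ ≤ 2 ^ j := Nat.pow_le_pow_right (by norm_num) hlj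
  have hr1 : 1 ≤ r := by
    by_contra h
    have h0 : r = 0 := by omega
    rw [h0, pc_zero] at hr2
    omega
  have hpm : p ≤ m := by rcases hp with h | h <;> omega
  have hPm : (2 : ℕ) ^ p ≤ 2 ^ m := Nat.pow_le_pow_right (by norm_num) hpm
  have hP1 : 1 ≤ (2 : ℕ) ^ p := Nat.one_le_two_pow
  have hM12 : 12 * 2 ^ m < M := by omega
  set u := (2 : ℕ) ^ m with hu
  set P := (2 : ℕ) ^ p with hP
  obtain ⟨n, hn⟩ : ∃ n, n = 3 * M - (2 * u + P) := ⟨_, rfl⟩
  rw [← hn]
  have hn' : n + (2 * u + P) = 3 * M := by omega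
  -- the case `L = 4`
  have key : 5 ≤ pc (M + 2 * u + P) := by
    have hj_cases : p = j ∨ (p = l ∧ j < m) ∨ (p = l ∧ j = m) := by
      rcases hp with h | h
      · exact Or.inl h
      · rcases Nat.lt_or_ge j m with h' | h'
        · exact Or.inr (Or.inl ⟨h, h'⟩)
        · exact Or.inr (Or.inr ⟨h, by omega⟩)
    rcases hj_cases with h | ⟨h, h'⟩ | ⟨h, h'⟩
    · have hPj : P = 2 ^ j := by rw [hP, h]
      apply pc_high (k := m + 3) (by omega)
      · rw [hk8]; omega
      · rw [hk8]; omega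
    · have hPl : P = 2 ^ l := by rw [hP, h]
      have hj2 : 2 * 2 ^ j ≤ u := by
        calc 2 * 2 ^ j = 2 ^ (j + 1) := by rw [pow_succ]; ring
          _ ≤ 2 ^ m := Nat.pow_le_pow_right (by norm_num) h'
      apply pc_high (k := m + 3) (by omega)
      · rw [hk8]; omega
      · rw [hk8]; omega
    · have hPl : P = 2 ^ l := by rw [hP, h]
      have hju : (2 : ℕ) ^ j = u := by rw [hu, h']
      have e1 : M + 2 * u + P = 2 ^ (m + 3) + (2 ^ (m + 2) + (2 ^ (m + 1) + (u - r))) := by
        have a1 : (2 : ℕ) ^ (m + 2) = 4 * u := by rw [pow_add]; ring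
        have a2 : (2 : ℕ) ^ (m + 1) = 2 * u := by rw [pow_add]; ring
        rw [hk8, a1, a2]
        omega
      have a1 : (2 : ℕ) ^ (m + 2) = 4 * u := by rw [pow_add]; ring
      have a2 : (2 : ℕ) ^ (m + 1) = 2 * u := by rw [pow_add]; ring
      have hpc2 : 2 ≤ pc (u - r) := by
        by_contra hlt
        have hpos := pc_pos (n := u - r) (by omega)
        have hone : pc (u - r) = 1 := by omega
        obtain ⟨i, hi⟩ := pc_one hone
        have hi1 : i < m := by
          by_contra hge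
          have : (2 : ℕ) ^ m ≤ 2 ^ i := Nat.pow_le_pow_right (by norm_num) (by omega)
          omega
        have hi2 : 2 * 2 ^ i ≤ u := by
          calc 2 * 2 ^ i = 2 ^ (i + 1) := by rw [pow_succ]; ring
            _ ≤ 2 ^ m := Nat.pow_le_pow_right (by norm_num) hi1
        omega
      rw [e1, pc_top (by rw [hk8, a1, a2]; omega), pc_top (by rw [a1, a2]; omega),
        pc_top (by rw [a2]; omega)]
      omega
  have hcov := A_cover (k := m + 3) (M := M) (n := n) (by rw [hk8]; omega) {(3, 2 * u + P)} ?_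
  · refine hcov.trans ?_
    rw [Finset.sum_singleton]
    apply TS_three_card
    have a2 : (2 : ℕ) ^ (m + 1) = 2 * u := by rw [pow_add]; ring
    change 2 ≤ pc (2 * u + P)
    rw [← a2, pc_top (by rw [a2]; omega), hP, pc_pow]
  · intro L Y hLY hne
    obtain ⟨T, hT⟩ := hne
    have hb := TS_bound hT
    have hc := TS_card hT
    rw [hk8] at hb
    rw [Finset.mem_singleton]
    rcases Nat.lt_or_ge L 3 with hL | hL
    · exfalso
      have : L * M ≤ 2 * M := Nat.mul_le_mul_right M (by omega)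
      omega
    · rcases Nat.lt_or_ge L 5 with hL5 | hL5
      · have hL34 : L = 3 ∨ L = 4 := by omega
        rcases hL34 with h | h
        · subst h
          have : Y = 2 * u + P := by omega
          rw [this]
        · exfalso
          subst h
          have hY : Y = M + 2 * u + P := by omega
          rw [hY] at hc
          omega
      · exfalso
        obtain ⟨d, rfl⟩ : ∃ d, L = d + 5 := ⟨L - 5, by omega⟩
        have e2 : (d + 5) * M = d * M + 5 * M := by ring
        have e3 : d * (12 * u) ≤ d * M := Nat.mul_le_mul_left d hM12.le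
        have e4 : 8 * u * (d + 5 + 1) = 8 * (d * u) + 48 * u := by ring
        have e5 : d * (12 * u) = 12 * (d * u) := by ring
        rw [e2] at hLY
        rw [e4] at hb
        rw [e5] at e3
        omega

end Pool.Agent.H978D
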