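import Pool.Agent.H978D.DefsQ
import Pool.Agent.H978D.D1
import Pool.Agent.H978D.D2
import Pool.Agent.H978D.D3
import Pool.Agent.H978D.D4
import Pool.Agent.H978D.D5
import Pool.Agent.H978D.D6
import Pool.Agent.H978D.D7
import Pool.Agent.H978D.D8
import Pool.Agent.H978D.D9
import Pool.Agent.H978D.Q15
import Pool.Agent.H978D.Q16
import Pool.Agent.H978D.Q3
import Pool.Agent.H978D.Q4

set_option autoImplicit false

namespace Pool.Agent.H978D

open Pool.Agent.MPe9218d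





























theorem q17_nc_one {m M q p : ℕ} (hM : 2 ^ (m + 3) < M) (hq : 1 ≤ q) (hp : p ≤ m + 3) {n : ℕ}
    (hn : 1 ≤ n) (h : n + 2 ^ p = q * M) : Nc (m + 3) M n := by
  refine (nc_iff hM hn).mpr ⟨q, 2 ^ p, ⟨{(q, p)}, ?_, ?_, ?_⟩, h⟩
  · intro x hx
    rw [Finset.mem_singleton] at hx
    subst hx
    exact ⟨hq, hp⟩
  · simp
  · simp

theorem q17_nc_two {m M p p' : ℕ} (hM : 2 ^ (m + 3) < M) (hp : p ≤ m + 3) (hp' : p' ≤ m + 3)
    {n : ℕ} (hn : 1 ≤ n) (h : n + (2 ^ p + 2 ^ p') = 3 * M) : Nc (m + 3) M n := by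
  refine (nc_iff hM hn).mpr ⟨3, 2 ^ p + 2 ^ p', ⟨{(1, p), (2, p')}, ?_, ?_, ?_⟩, h⟩
  · intro x hx
    rw [Finset.mem_insert, Finset.mem_singleton] at hx
    rcases hx with rfl | rfl
    · exact ⟨le_rfl, hp⟩
    · exact ⟨by norm_num, hp'⟩
  · rw [Finset.sum_pair (by simp)]
    rfl
  · rw [Finset.sum_pair (by simp)]

/-- TARGET -/
theorem q_no_step2 {m M E g : ℕ} {b : ℕ → ℕ} (H : Hyp2 m M E g) (h5 : 5 ≤ pc E)
    (hb : ∀ j, 1 ≤ j → j ≤ M → 1 ≤ b j) (hId : Identity M (m + 3 + 1) b) :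
    ¬ Step b M (2 * M - 2 * 2 ^ m) (2 * M - 12 * 2 ^ m) := by
  intro hS
  obtain ⟨H1, H2, H3, H4, H5⟩ := id H
  have hu : 1 ≤ 2 ^ m := Nat.one_le_two_pow
  have hM12 : 12 * 2 ^ m < M := by omega
  have hk : 2 ^ (m + 3) = 8 * 2 ^ m := by rw [pow_add]; ring
  have hk1 : 2 ^ (m + 1) = 2 * 2 ^ m := by rw [pow_succ]; ring
  have hMk : 2 ^ (m + 3) < M := by omega
  obtain ⟨E', hE'⟩ : ∃ E', E = 2 ^ (m + 1) + E' := ⟨E - 2 ^ (m + 1), by omega⟩
  have hE'lt : E' < 2 ^ (m + 1) := by omega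
  have hpE : pc E = 1 + pc E' := by rw [hE']; exact pc_top hE'lt
  obtain ⟨j, l, r, hlj, hr, hr1, hEe, hpe⟩ := pc_split (n := E') (by omega)
  have hr2 : 2 ≤ pc r := by omega
  have hj : j ≤ m := by
    by_contra hcon
    have h1 : 2 ^ (m + 1) ≤ 2 ^ j := Nat.pow_le_pow_right (by norm_num) (by omega)
    omega
  have hEr : E = 2 * 2 ^ m + 2 ^ j + 2 ^ l + r := by omega
  have hjm : 2 ^ j ≤ 2 ^ m := Nat.pow_le_pow_right (by norm_num) hj
  have hlm : 2 ^ l ≤ 2 ^ m := Nat.pow_le_pow_right (by norm_num) (by omega)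
  have hl0 : 1 ≤ 2 ^ l := Nat.one_le_two_pow
  have hj0 : 1 ≤ 2 ^ j := Nat.one_le_two_pow
  -- the excluded steps
  have key : ∀ p, p = j ∨ p = l → ¬ Step b M (2 * M - 2 ^ p) (M - 2 * 2 ^ m) := by
    intro p hp hst
    have hpm : p ≤ m := by omega
    have hpm' : 2 ^ p ≤ 2 ^ m := Nat.pow_le_pow_right (by norm_num) hpm
    have hp0 : 1 ≤ 2 ^ p := Nat.one_le_two_pow
    have hS2 : Step b M (2 * M - 2 * 2 ^ m) (M - 2 ^ p) :=
      step_mono hS (Nat.ModEq.refl _) (by omega)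
    have c1 : Nc (m + 3) M (2 * M - 2 * 2 ^ m) :=
      q17_nc_one (q := 2) (p := m + 1) hMk (by norm_num) (by omega) (by omega) (by omega)
    have c2 : Nc (m + 3) M (M - 2 ^ p) :=
      q17_nc_one (q := 1) (p := p) hMk (by norm_num) (by omega) (by omega) (by omega)
    have c3 : Nc (m + 3) M (2 * M - 2 ^ p) :=
      q17_nc_one (q := 2) (p := p) hMk (by norm_num) (by omega) (by omega) (by omega)
    have c4 : Nc (m + 3) M (M - 2 * 2 ^ m) :=
      q17_nc_one (q := 1) (p := m + 1) hMk (by norm_num) (by omega) (by omega) (by omega)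
    obtain ⟨n, hn⟩ : ∃ n, n = 3 * M - (2 * 2 ^ m + 2 ^ p) := ⟨_, rfl⟩
    have c5 : Nc (m + 3) M n :=
      q17_nc_two (p := m + 1) (p' := p) hMk (by omega) (by omega) (by omega) (by omega)
    have m1 := mem_BSet_one (b := b) (M := M) (n := n) c5.1 c5.2
    have m2 := mem_BSet_two (n := n) c2.1 (by omega) c1.2 c2.2 hS2 (by omega)
    have m3 := mem_BSet_two (n := n) c4.1 (by omega) c3.2 c4.2 hst (by omega)
    have hB : 2 < B0 b M (C M (m + 3 + 1)) n := by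
      unfold B0
      rw [Set.two_lt_ncard (finite_BSet _ _ _ _)]
      refine ⟨_, m1, _, m2, _, m3, by simp, by simp, ?_⟩
      intro h
      simp only [List.cons.injEq, and_true] at h
      omega
    have h6 := hId n c5.1
    have h7 := q_lb2 (p := p) H hj hlj hr hr2 hEr hp
    rw [← hn] at h7
    omega
  have n1 : ¬ Step b M (2 * M - 2 ^ j) (M - 2 ^ l) := fun h =>
    key j (Or.inl rfl) (step_mono h (Nat.ModEq.refl _) (by omega))
  have n2 : ¬ Step b M (2 * M - 2 ^ l) (M - 2 ^ j) := fun h =>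
    key l (Or.inr rfl) (step_mono h (Nat.ModEq.refl _) (by omega))
  obtain ⟨n₁, hn₁⟩ : ∃ n₁, n₁ = 3 * M - (2 ^ j + 2 ^ l) := ⟨_, rfl⟩
  have hlow := q_two_lower (m := m) (M := M) (i := j) (j := l) hM12 hlj (by omega)
  rw [← hn₁] at hlow
  have h1n : 1 ≤ n₁ := by omega
  have hB : 1 < (BSet b M (C M (m + 3 + 1)) n₁).ncard := by
    have h6 := hId n₁ h1n
    unfold B0 at h6
    omega
  rw [Set.one_lt_ncard (finite_BSet _ _ _ _)] at hB
  obtain ⟨l1, hl1, l2, hl2, hne⟩ := hB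
  have hex : ∃ l' ∈ BSet b M (C M (m + 3 + 1)) n₁, l' ≠ [n₁] := by
    by_cases h : l1 = [n₁]
    · exact ⟨l2, hl2, fun h' => hne (h.trans h'.symm)⟩
    · exact ⟨l1, hl1, h⟩
  obtain ⟨l', hl', hl'ne⟩ := hex
  rcases q_len_two H hb hId h1n (by omega) hl' with h | ⟨e, f, _, hef, hfe, he, hf, hst⟩
  · exact hl'ne h
  · rcases q_n1_pairs H hj hlj hr hr2 hEr hId he hf hfe hst (by omega) with ⟨h1, h2⟩ | ⟨h1, h2⟩
    · have e1 : e = 2 * M - 2 ^ j := by omega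
      have e2 : f = M - 2 ^ l := by omega
      rw [e1, e2] at hst
      exact n1 hst
    · have e1 : e = 2 * M - 2 ^ l := by omega
      have e2 : f = M - 2 ^ j := by omega
      rw [e1, e2] at hst
      exact n2 hst

end Pool.Agent.H978D
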