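import Pool.Agent.H978D.DefsQ
import Pool.Agent.H978D.D1
import Pool.Agent.H978D.D2
import Pool.Agent.H978D.D3
import Pool.Agent.H978D.Q10
import Pool.Agent.H978D.Q13
import Pool.Agent.H978D.Q17
import Pool.Agent.H978D.Q3
import Pool.Agent.H978D.Q4
import Pool.Agent.H978D.Q7

set_option autoImplicit false

namespace Pool.Agent.H978D

open Pool.Agent.MPe9218d











theorem q14_pc_two_mul (n : ℕ) : pc (2 * n) = pc n := by
  unfold pc
  rcases Nat.eq_zero_or_pos n with rfl | hn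
  · simp
  · rw [Nat.digits_def' (by norm_num) (by omega : 0 < 2 * n)]
    have h1 : 2 * n % 2 = 0 := by omega
    have h2 : 2 * n / 2 = n := by omega
    rw [h1, h2]
    simp

theorem q14_pc_seven (m : ℕ) : pc (7 * 2 ^ m) = 3 := by
  have h1 : 7 * 2 ^ m = 2 ^ (m + 2) + (2 ^ (m + 1) + 2 ^ m) := by ring
  have hu : 1 ≤ 2 ^ m := Nat.one_le_two_pow
  have h2 : 2 ^ (m + 1) + 2 ^ m < 2 ^ (m + 2) := by
    have e1 : 2 ^ (m + 1) = 2 * 2 ^ m := by ring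
    have e2 : 2 ^ (m + 2) = 4 * 2 ^ m := by ring
    omega
  have h3 : 2 ^ m < 2 ^ (m + 1) := by
    have e1 : 2 ^ (m + 1) = 2 * 2 ^ m := by ring
    omega
  rw [h1, pc_top h2, pc_top h3, pc_pow]

theorem q14_ne {m E : ℕ} (h : 4 ≤ pc E) : 2 * E ≠ 7 * 2 ^ m := by
  intro he
  have h1 := q14_pc_two_mul E
  rw [he, q14_pc_seven] at h1
  omega

/-- the members of `BSet` at `n = 4M - 14u` -/
theorem q14_mem {m M E g : ℕ} {b : ℕ → ℕ} (H : Hyp2 m M E g) (h4 : 4 ≤ pc E)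
    (hb : ∀ j, 1 ≤ j → j ≤ M → 1 ≤ b j) (hId : Identity M (m + 3 + 1) b) {l : List ℕ}
    (hl : l ∈ BSet b M (C M (m + 3 + 1)) (4 * M - 14 * 2 ^ m)) :
    l = [4 * M - 14 * 2 ^ m] ∨ l = [3 * M - 6 * 2 ^ m, M - 8 * 2 ^ m] ∨
      (l = [2 * M - 2 * 2 ^ m, 2 * M - 12 * 2 ^ m] ∧
        Step b M (2 * M - 2 * 2 ^ m) (2 * M - 12 * 2 ^ m)) := by
  obtain ⟨H1, H2, H3, H4, H5⟩ := id H
  have hu : 1 ≤ 2 ^ m := Nat.one_le_two_pow
  rcases q_len_two H hb hId (by omega) (by omega) hl with h | ⟨e, f, hl2, hef, hfe, hne, hnf, hst⟩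
  · exact Or.inl h
  · rcases q_n2_pairs H h4 hId hne hnf hfe hst (by omega) with
      ⟨ha, hb'⟩ | ⟨ha, hb'⟩ | ⟨ha, hb'⟩ | ⟨_, ha, hb'⟩
    · right; left
      have e1 : e = 3 * M - 6 * 2 ^ m := by omega
      have e2 : f = M - 8 * 2 ^ m := by omega
      rw [hl2, e1, e2]
    · right; right
      have e1 : e = 2 * M - 2 * 2 ^ m := by omega
      have e2 : f = 2 * M - 12 * 2 ^ m := by omega
      rw [hl2, ← e1, ← e2]
      exact ⟨rfl, hst⟩
    · exfalso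
      have e1 : e = 2 * M - 4 * 2 ^ m := by omega
      have hst2 : Step b M e (2 * M - 12 * 2 ^ m) :=
        step_mono hst (Nat.ModEq.refl _) (by omega)
      rw [e1] at hst2
      exact q_no_step4 H hb hId (q14_ne h4) hst2
    · exfalso
      have e1 : e = 2 * M - 5 * 2 ^ m := by omega
      have e2 : f = 2 * M - (5 + 4) * 2 ^ m := by omega
      rw [e1, e2] at hst
      exact q_no_step56 H hId (Or.inl rfl) hst

/-- TARGET -/
theorem q_main4 {m M E g : ℕ} {b : ℕ → ℕ} (H : Hyp2 m M E g) (h4 : pc E = 4)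
    (hb : ∀ j, 1 ≤ j → j ≤ M → 1 ≤ b j) (hId : Identity M (m + 3 + 1) b) : False := by
  obtain ⟨H1, H2, H3, H4, H5⟩ := id H
  have hu : 1 ≤ 2 ^ m := Nat.one_le_two_pow
  have hA := (q_n2_lower H).2 h4
  rw [hId _ (by omega)] at hA
  unfold B0 at hA
  have hsub : BSet b M (C M (m + 3 + 1)) (4 * M - 14 * 2 ^ m) ⊆
      (({[4 * M - 14 * 2 ^ m], [3 * M - 6 * 2 ^ m, M - 8 * 2 ^ m],
        [2 * M - 2 * 2 ^ m, 2 * M - 12 * 2 ^ m]} : Finset (List ℕ)) : Set (List ℕ)) := by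
    intro l hl
    rcases q14_mem H (by omega) hb hId hl with h | h | ⟨h, _⟩
    · rw [h]; simp
    · rw [h]; simp
    · rw [h]; simp
  have h1 := Set.ncard_le_ncard hsub (Finset.finite_toSet _)
  rw [Set.ncard_coe_finset] at h1
  have h2 := Finset.card_le_three (a := [4 * M - 14 * 2 ^ m])
    (b := [3 * M - 6 * 2 ^ m, M - 8 * 2 ^ m]) (c := [2 * M - 2 * 2 ^ m, 2 * M - 12 * 2 ^ m])
  omega

/-- TARGET -/
theorem q_main5 {m M E g : ℕ} {b : ℕ → ℕ} (H : Hyp2 m M E g) (h5 : 5 ≤ pc E)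
    (hb : ∀ j, 1 ≤ j → j ≤ M → 1 ≤ b j) (hId : Identity M (m + 3 + 1) b) : False := by
  obtain ⟨H1, H2, H3, H4, H5⟩ := id H
  have hu : 1 ≤ 2 ^ m := Nat.one_le_two_pow
  have hA := (q_n2_lower H).1
  rw [hId _ (by omega)] at hA
  unfold B0 at hA
  have hsub : BSet b M (C M (m + 3 + 1)) (4 * M - 14 * 2 ^ m) ⊆
      (({[4 * M - 14 * 2 ^ m], [3 * M - 6 * 2 ^ m, M - 8 * 2 ^ m]} : Finset (List ℕ)) :
        Set (List ℕ)) := by
    intro l hl
    rcases q14_mem H (by omega) hb hId hl with h | h | ⟨_, h⟩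
    · rw [h]; simp
    · rw [h]; simp
    · exact absurd h (q_no_step2 H h5 hb hId)
  have h1 := Set.ncard_le_ncard hsub (Finset.finite_toSet _)
  rw [Set.ncard_coe_finset] at h1
  have h2 := Finset.card_le_two (a := [4 * M - 14 * 2 ^ m])
    (b := [3 * M - 6 * 2 ^ m, M - 8 * 2 ^ m])
  omega

end Pool.Agent.H978D
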