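import Pool.Agent.H978D.DefsQ
import Pool.Agent.H978D.D1
import Pool.Agent.H978D.D2
import Pool.Agent.H978D.D3
import Pool.Agent.H978D.D4
import Pool.Agent.H978D.D5
import Pool.Agent.H978D.D6
import Pool.Agent.H978D.D7
import Pool.Agent.H978D.D8
import Pool.Agent.H978D.D9
import Pool.Agent.H978D.Q1
import Pool.Agent.H978D.Q3

set_option autoImplicit false

namespace Pool.Agent.H978D

open Pool.Agent.MPe9218d





























theorem q8_pc_step {n : ℕ} (h : 0 < n) : pc n = n % 2 + pc (n / 2) := by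
  unfold pc
  rw [Nat.digits_def' (by norm_num) h]
  simp

theorem q8_pc_three (y : ℕ) : pc (4 * y + 3) = 2 + pc y := by
  rw [q8_pc_step (by omega), show (4 * y + 3) / 2 = 2 * y + 1 by omega,
    q8_pc_step (n := 2 * y + 1) (by omega), show (2 * y + 1) / 2 = y by omega]
  omega

theorem q8_pc_big {z : ℕ} {n : ℕ} (hz : z = 2 ^ n) : pc (100 * z + 3) = 5 := by
  have hz1 : 1 ≤ z := by rw [hz]; exact Nat.one_le_two_pow
  have h1 : 100 * z + 3 = 2 ^ (n + 6) + (36 * z + 3) := by rw [hz]; ring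
  have h2 : 36 * z + 3 = 2 ^ (n + 5) + (4 * z + 3) := by rw [hz]; ring
  have h3 : 4 * z + 3 = 2 ^ (n + 2) + 3 := by rw [hz]; ring
  have e6 : 2 ^ (n + 6) = 64 * z := by rw [hz]; ring
  have e5 : 2 ^ (n + 5) = 32 * z := by rw [hz]; ring
  have e2 : 2 ^ (n + 2) = 4 * z := by rw [hz]; ring
  have h4 : pc 3 = 2 := by
    have := q8_pc_three 0
    rw [pc_zero] at this
    simpa using this
  rw [h1, pc_top (by omega), h2, pc_top (by omega), h3, pc_top (by omega), h4]

/-- the part `f` cannot be `2 M - x` with `x = 4 y + 3` large -/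
theorem q8_no {m M E g f x z : ℕ} (H : Hyp2 m M E g) (hz1 : 1 ≤ z) (hzm : 2 ^ m = 8 * z)
    (hE : 2 * E = 7 * 2 ^ m) (hf : Nc (m + 3) M f) (hx1 : 13 * (4 * z) + 3 ≤ x) (hxM : x ≤ M)
    (hx : f + x = 2 * M) (h4 : x % 4 = 3) : False := by
  obtain ⟨H1, H2, H3, H4, H5⟩ := id H
  rcases q_nc2 H hf (by omega) hxM hx with ⟨h5, _⟩ | h5 | ⟨i, hi, _, h6⟩
  · have h6 : x = 4 * (x / 4) + 3 := by omega
    rw [h6, q8_pc_three] at h5
    have := pc_pos (n := x / 4) (by omega)
    omega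
  · omega
  · have h7 : 2 ^ i ≤ 2 ^ (m + 1) := Nat.pow_le_pow_right (by norm_num) hi
    rw [pow_succ] at h7
    omega

/-- TARGET -/
theorem q_tiny_pairs {m M E g e f : ℕ} {b : ℕ → ℕ} (H : Hyp2 m M E g) (hm : 3 ≤ m)
    (hE : 2 * E = 7 * 2 ^ m)
    (hId : Identity M (m + 3 + 1) b) (he : Nc (m + 3) M e) (hf : Nc (m + 3) M f)
    (hfe : f < e) (hs : Step b M e f) (hn : e + f + 3 = 3 * M) :
    (e + 1 = 2 * M ∧ f + 2 = M) ∨ (e + 2 = 2 * M ∧ f + 1 = M) := by
  obtain ⟨m', rfl⟩ := Nat.exists_eq_add_of_le hm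
  obtain ⟨z, hz⟩ : ∃ z, z = 2 ^ m' := ⟨_, rfl⟩
  have hz1 : 1 ≤ z := by rw [hz]; exact Nat.one_le_two_pow
  have hzm : 2 ^ (3 + m') = 8 * z := by rw [hz, pow_add]; norm_num
  obtain ⟨H1, H2, H3, H4, H5⟩ := id H
  have hM : M = 100 * z := by omega
  have hE' : E = 28 * z := by omega
  have hg : g = 4 * z := by omega
  have hk : 2 ^ (3 + m' + 3) = 64 * z := by rw [hz, pow_add, pow_add]; ring
  have hfmin : 36 * z ≤ f := by
    have := nc_min (k := 3 + m' + 3) (M := M) (n := f) (by omega) hf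
    omega
  have hemin : 36 * z ≤ e := by omega
  rcases q_follow H hId he hf hs with h1 | ⟨i, hi, h1⟩ | ⟨i, hi, hgi, h1, _⟩
  · exfalso
    obtain ⟨x2, hx2⟩ : ∃ x2, f + x2 = M := ⟨M - f, by omega⟩
    obtain ⟨j, hj, hxj⟩ := q_nc1 H hf (by omega) hx2
    rcases q_nc3 H he (x := f + 3) (by omega) (by omega) (by omega) with h2 | h2 | ⟨i, hi, h2⟩
    · have h3 := pc_add_le (f + 3) x2
      rw [show f + 3 + x2 = 100 * z + 3 by omega, q8_pc_big hz] at h3
      have h4 : pc x2 = 1 := by rw [hxj]; exact pc_pow j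
      omega
    · omega
    · have h3 : 3 + m' < i := by
        rw [← Nat.pow_lt_pow_iff_right (a := 2) (by norm_num)]
        omega
      have h4 : i = 3 + m' + 1 ∨ i = 3 + m' + 2 := by omega
      have h5 : x2 % 2 = 1 ∧ 1 < x2 := by
        rcases h4 with rfl | rfl
        · rw [pow_add, hzm] at h2
          omega
        · rw [pow_add, hzm] at h2
          omega
      rcases Nat.eq_zero_or_pos j with hj0 | hj0
      · rw [hj0] at hxj
        omega
      · obtain ⟨j', rfl⟩ := Nat.exists_eq_add_of_le hj0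
        rw [pow_add] at hxj
        omega
  · have h2 : 2 ^ i ≤ 2 ^ (3 + m' + 2) := Nat.pow_le_pow_right (by norm_num) hi
    rw [pow_add 2 (3 + m') 2, hzm] at h2
    rcases Nat.lt_or_ge i 2 with hi2 | hi2
    · have : i = 0 ∨ i = 1 := by omega
      rcases this with rfl | rfl
      · left
        omega
      · right
        omega
    · exfalso
      obtain ⟨i', rfl⟩ := Nat.exists_eq_add_of_le hi2
      rw [pow_add] at h1 h2
      have h3 : 1 ≤ 2 ^ i' := Nat.one_le_two_pow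
      obtain ⟨x, hx⟩ : ∃ x, f + x = 2 * M := ⟨2 * M - f, by omega⟩
      exact q8_no H hz1 hzm hE hf (x := x) (by omega) (by omega) hx (by omega)
  · exfalso
    have h2 : 2 ^ i ≤ 2 ^ (3 + m' + 1) := Nat.pow_le_pow_right (by norm_num) hi
    rw [pow_add 2 (3 + m') 1, hzm] at h2
    have h3 : 2 < i := by
      rw [← Nat.pow_lt_pow_iff_right (a := 2) (by norm_num)]
      omega
    obtain ⟨i', rfl⟩ := Nat.exists_eq_add_of_le h3.le
    rw [pow_add 2 2 i'] at h1 h2 hgi
    obtain ⟨x, hx⟩ : ∃ x, f + x = 2 * M := ⟨2 * M - f, by omega⟩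
    exact q8_no H hz1 hzm hE hf (x := x) (by omega) (by omega) hx (by omega)

end Pool.Agent.H978D
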