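import Pool.Agent.H978D.DefsQ
import Pool.Agent.H978D.D1
import Pool.Agent.H978D.D2
import Pool.Agent.H978D.D3
import Pool.Agent.H978D.D4
import Pool.Agent.H978D.D5
import Pool.Agent.H978D.D6
import Pool.Agent.H978D.D7
import Pool.Agent.H978D.D8
import Pool.Agent.H978D.D9
import Pool.Agent.H978D.Q3
import Pool.Agent.H978D.Q4
import Pool.Agent.H978D.Q8

set_option autoImplicit false

namespace Pool.Agent.H978D

open Pool.Agent.MPe9218d




























theorem q9_nc_single {k M q i n : ℕ} (hM : 2 ^ k < M) (hq : 1 ≤ q) (hi : i ≤ k)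
    (hn : n + 2 ^ i = q * M) : Nc k M n := by
  have h2 : 2 ^ i ≤ 2 ^ k := Nat.pow_le_pow_right (by norm_num) hi
  have h1 : 1 ≤ n := by
    have : M ≤ q * M := Nat.le_mul_of_pos_left _ hq
    omega
  rw [nc_iff hM h1]
  refine ⟨q, 2 ^ i, ⟨{(q, i)}, ?_, ?_, ?_⟩, hn⟩
  · intro p hp
    rw [Finset.mem_singleton] at hp
    subst hp
    exact ⟨hq, hi⟩
  · simp
  · simp

theorem q9_aux {m M : ℕ} {b : ℕ → ℕ} (hM : M = 25 * 2 ^ m) (hm : 2 ≤ m)
    (hId : Identity M (m + 1 + 3 + 1) b)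
    (hs : Step b M (2 * M - 8 * 2 ^ m) (26 * 2 ^ m)) (i : ℕ) (hi : i ≤ 1) :
    ¬ Step b M (2 * M - 2 ^ i) (M - 8 * 2 ^ m) := by
  intro h2
  have hv : 4 ≤ 2 ^ m := by
    calc 4 = 2 ^ 2 := by norm_num
      _ ≤ 2 ^ m := Nat.pow_le_pow_right (by norm_num) hm
  have hk16 : 2 ^ (m + 1 + 3) = 16 * 2 ^ m := by ring
  have h8 : 2 ^ (m + 3) = 8 * 2 ^ m := by ring
  have hp2 : 2 ^ i ≤ 2 := by
    calc 2 ^ i ≤ 2 ^ 1 := Nat.pow_le_pow_right (by norm_num) hi
      _ = 2 := by norm_num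
  have hp1 : 1 ≤ 2 ^ i := Nat.one_le_two_pow
  have hMk : 2 ^ (m + 1 + 3) < M := by omega
  -- the number
  obtain ⟨n, hn⟩ : ∃ n, n + (8 * 2 ^ m + 2 ^ i) = 3 * M := ⟨3 * M - (8 * 2 ^ m + 2 ^ i), by omega⟩
  have hA : A (a M) (m + 1 + 3 + 1) M n ≤ 2 := by
    have hcov := A_cover (k := m + 1 + 3) (n := n) hMk {(3, 8 * 2 ^ m + 2 ^ i)} (by
      intro L Y hLY hne
      obtain ⟨T, hT⟩ := hne
      have hbd := TS_bound hT
      have e1 : L * M = 25 * (L * 2 ^ m) := by rw [hM]; ring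
      have e2 : 2 ^ (m + 1 + 3) * (L + 1) = 16 * (L * 2 ^ m) + 16 * 2 ^ m := by rw [hk16]; ring
      rw [e1] at hLY
      rw [e2] at hbd
      have hL3 : 3 ≤ L := by
        by_contra hc
        have : L * 2 ^ m ≤ 2 * 2 ^ m := Nat.mul_le_mul_right _ (by omega)
        omega
      have hL4 : L ≤ 4 := by
        by_contra hc
        have : 5 * 2 ^ m ≤ L * 2 ^ m := Nat.mul_le_mul_right _ (by omega)
        omega
      obtain rfl | rfl : L = 3 ∨ L = 4 := by omega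
      · have : Y = 8 * 2 ^ m + 2 ^ i := by omega
        rw [this]
        exact Finset.mem_singleton_self _
      · exfalso
        have hY : Y = 33 * 2 ^ m + 2 ^ i := by omega
        obtain ⟨j, hj, -, hYj⟩ := TS_four_top hT (by rw [hk16]; omega)
        rw [hk16] at hYj
        have hj2 : 2 ^ j = 2 ^ m + 2 ^ i := by omega
        rcases Nat.lt_or_ge m j with hmj | hmj
        · have : 2 ^ (m + 1) ≤ 2 ^ j := Nat.pow_le_pow_right (by norm_num) hmj
          rw [pow_succ] at this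
          omega
        · have : 2 ^ j ≤ 2 ^ m := Nat.pow_le_pow_right (by norm_num) hmj
          omega)
    rw [Finset.sum_singleton] at hcov
    refine hcov.trans (TS_three_card ?_)
    rw [← h8, pc_top (show 2 ^ i < 2 ^ (m + 3) by omega), pc_pow]
  have hC1 : n ∉ C M (m + 1 + 3 + 1) := by
    have hn1 : 1 ≤ n := by omega
    have hnc : Nc (m + 1 + 3) M n := by
      rw [nc_iff hMk hn1]
      refine ⟨3, 8 * 2 ^ m + 2 ^ i, ⟨{(1, m + 3), (2, i)}, ?_, ?_, ?_⟩, hn⟩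
      · intro p hp
        rw [Finset.mem_insert, Finset.mem_singleton] at hp
        rcases hp with rfl | rfl
        · exact ⟨by norm_num, by show m + 3 ≤ m + 1 + 3; omega⟩
        · exact ⟨by norm_num, by show i ≤ m + 1 + 3; omega⟩
      · rw [Finset.sum_pair (by simp)]
        rfl
      · rw [Finset.sum_pair (by simp)]
        show 2 ^ (m + 3) + 2 ^ i = _
        rw [h8]
    exact hnc.2
  have hN1 : Nc (m + 1 + 3) M (2 * M - 8 * 2 ^ m) :=
    q9_nc_single (q := 2) (i := m + 3) hMk (by norm_num) (by omega) (by rw [h8]; omega)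
  have hN2 : Nc (m + 1 + 3) M (M - 2 ^ i) :=
    q9_nc_single (q := 1) (i := i) hMk (by norm_num) (by omega) (by omega)
  have hN3 : Nc (m + 1 + 3) M (2 * M - 2 ^ i) :=
    q9_nc_single (q := 2) (i := i) hMk (by norm_num) (by omega) (by omega)
  have hN4 : Nc (m + 1 + 3) M (M - 8 * 2 ^ m) :=
    q9_nc_single (q := 1) (i := m + 3) hMk (by norm_num) (by omega) (by rw [h8]; omega)
  have hs1 : Step b M (2 * M - 8 * 2 ^ m) (M - 2 ^ i) := step_mono hs rfl (by omega)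
  have m1 : [n] ∈ BSet b M (C M (m + 1 + 3 + 1)) n := mem_BSet_one (by omega) hC1
  have m2 : [2 * M - 8 * 2 ^ m, M - 2 ^ i] ∈ BSet b M (C M (m + 1 + 3 + 1)) n :=
    mem_BSet_two (by omega) (by omega) hN1.2 hN2.2 hs1 (by omega)
  have m3 : [2 * M - 2 ^ i, M - 8 * 2 ^ m] ∈ BSet b M (C M (m + 1 + 3 + 1)) n :=
    mem_BSet_two (by omega) (by omega) hN3.2 hN4.2 h2 (by omega)
  have hlt : 2 < (BSet b M (C M (m + 1 + 3 + 1)) n).ncard := by
    rw [Set.two_lt_ncard_iff (finite_BSet _ _ _ _)]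
    refine ⟨_, _, _, m1, m2, m3, by simp, by simp, ?_⟩
    intro hc
    rw [List.cons.injEq] at hc
    omega
  have hid := hId n (by omega)
  unfold B0 at hid
  omega

/-- TARGET -/
theorem q_no_step4' {m M E g : ℕ} {b : ℕ → ℕ} (H : Hyp2 m M E g) (hm : 3 ≤ m)
    (hb : ∀ j, 1 ≤ j → j ≤ M → 1 ≤ b j) (hId : Identity M (m + 3 + 1) b)
    (hE : 2 * E = 7 * 2 ^ m) : ¬ Step b M (2 * M - 4 * 2 ^ m) (2 * M - 12 * 2 ^ m) := by
  intro hs
  obtain ⟨k, rfl⟩ : ∃ k, m = k + 1 := ⟨m - 1, by omega⟩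
  have h2k : 2 ^ (k + 1) = 2 * 2 ^ k := by ring
  have hv : 4 ≤ 2 ^ k := by
    calc 4 = 2 ^ 2 := by norm_num
      _ ≤ 2 ^ k := Nat.pow_le_pow_right (by norm_num) (by omega)
  obtain ⟨H1, H2, H3, H4, H5⟩ := id H
  have hM : M = 25 * 2 ^ k := by omega
  have hs' : Step b M (2 * M - 8 * 2 ^ k) (26 * 2 ^ k) := by
    have e1 : 2 * M - 4 * 2 ^ (k + 1) = 2 * M - 8 * 2 ^ k := by omega
    have e2 : 2 * M - 12 * 2 ^ (k + 1) = 26 * 2 ^ k := by omega
    rw [e1, e2] at hs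
    exact hs
  have hno1 := q9_aux hM (by omega) hId hs' 0 (by norm_num)
  have hno2 := q9_aux hM (by omega) hId hs' 1 (by norm_num)
  norm_num at hno1 hno2
  have hlow := q_two_lower (m := k + 1) (M := M) (i := 1) (j := 0) (by omega) (by norm_num)
    (by omega)
  have e3 : 3 * M - (2 ^ 1 + 2 ^ 0) = 3 * M - 3 := by norm_num
  rw [e3] at hlow
  have hid := hId (3 * M - 3) (by omega)
  unfold B0 at hid
  rw [hid] at hlow
  obtain ⟨l, hl, hne⟩ : ∃ l ∈ BSet b M (C M (k + 1 + 3 + 1)) (3 * M - 3), l ≠ [3 * M - 3] := by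
    have h1 : 1 < (BSet b M (C M (k + 1 + 3 + 1)) (3 * M - 3)).ncard := hlow
    rw [Set.one_lt_ncard (finite_BSet _ _ _ _)] at h1
    obtain ⟨x, hx, y, hy, hxy⟩ := h1
    by_cases hx1 : x = [3 * M - 3]
    · exact ⟨y, hy, fun h => hxy (hx1.trans h.symm)⟩
    · exact ⟨x, hx, hx1⟩
  rcases q_len_two H hb hId (by omega) (by omega) hl with h | ⟨e, f, -, hef, hfe, he, hf, hst⟩
  · exact hne h
  · rcases q_tiny_pairs H hm hE hId he hf hfe hst (by omega) with ⟨h1, h2⟩ | ⟨h1, h2⟩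
    · apply hno1
      have he' : e = 2 * M - 1 := by omega
      subst he'
      exact step_mono hst rfl (by omega)
    · apply hno2
      have he' : e = 2 * M - 2 := by omega
      subst he'
      exact step_mono hst rfl (by omega)

end Pool.Agent.H978D
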