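import Pool.Agent.H978D.DefsQ
import Pool.Agent.H978D.Q12
import Pool.Agent.H978D.Q14
import Pool.Agent.H978D.Q7
import Pool.Agent.H978D.Q9

set_option autoImplicit false

namespace Pool.Agent.H978D

open Pool.Agent.MPe9218d






/-- TARGET -/
theorem q_main {m M E g : ℕ} {b : ℕ → ℕ} (H : Hyp2 m M E g)
    (hm : 2 * E = 7 * 2 ^ m → 3 ≤ m)
    (hb : ∀ j, 1 ≤ j → j ≤ M → 1 ≤ b j) : ¬ Identity M (m + 3 + 1) b := by
  intro hId
  have hpc : 3 ≤ pc E := H.2.2.2.2
  rcases Nat.lt_or_ge 3 (pc E) with h | h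
  · rcases Nat.lt_or_ge 4 (pc E) with h' | h'
    · exact q_main5 H h' hb hId
    · exact q_main4 H (by omega) hb hId
  · refine q_main3 H (by omega) hb hId ?_
    by_cases hE : 2 * E = 7 * 2 ^ m
    · exact q_no_step4' H (hm hE) hb hId hE
    · exact q_no_step4 H hb hId hE


end Pool.Agent.H978D
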