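import Pool.Agent.H978D.D1

set_option autoImplicit false

namespace Pool.Agent.H978D

theorem R1_even (n : ℕ) : pc (2 * n) = pc n := pc_two_mul n

theorem R1_odd (n : ℕ) : pc (2 * n + 1) = pc n + 1 := by
  unfold pc
  rw [Nat.digits_def' (by norm_num) (by omega)]
  have h1 : (2 * n + 1) % 2 = 1 := by omega
  have h2 : (2 * n + 1) / 2 = n := by omega
  rw [h1, h2, List.sum_cons]
  omega

theorem R1_zero : pc 0 = 0 := pc_zero

theorem R1_succ_le (n : ℕ) : pc (n + 1) ≤ pc n + 1 := by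
  induction n using Nat.strong_induction_on with
  | _ n ih =>
    rcases Nat.even_or_odd' n with ⟨m, rfl | rfl⟩
    · rw [R1_odd, R1_even]
    · have h : 2 * m + 1 + 1 = 2 * (m + 1) := by ring
      rw [h, R1_even, R1_odd]
      have := ih m (by omega)
      omega

theorem pc_carry {k x y : ℕ} (hx : x < 2 ^ k) (hy : y < 2 ^ k) (h : 2 ^ k ≤ x + y) :
    pc (x + y) + 1 ≤ pc x + pc y := by
  induction k generalizing x y with
  | zero => simp at hx hy h; omega
  | succ k ih =>
    have e : 2 ^ (k + 1) = 2 * 2 ^ k := by ring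
    rw [e] at hx hy h
    rcases Nat.even_or_odd' x with ⟨u, rfl | rfl⟩ <;> rcases Nat.even_or_odd' y with ⟨v, rfl | rfl⟩
    · have h1 : 2 * u + 2 * v = 2 * (u + v) := by ring
      rw [h1, R1_even, R1_even, R1_even]
      exact ih (by omega) (by omega) (by omega)
    · have h1 : 2 * u + (2 * v + 1) = 2 * (u + v) + 1 := by ring
      rw [h1, R1_odd, R1_even, R1_odd]
      have := ih (x := u) (y := v) (by omega) (by omega) (by omega)
      omega
    · have h1 : 2 * u + 1 + 2 * v = 2 * (u + v) + 1 := by ring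
      rw [h1, R1_odd, R1_even, R1_odd]
      have := ih (x := u) (y := v) (by omega) (by omega) (by omega)
      omega
    · have h1 : 2 * u + 1 + (2 * v + 1) = 2 * (u + v + 1) := by ring
      rw [h1, R1_even, R1_odd, R1_odd]
      have h2 := R1_succ_le (u + v)
      have h3 := pc_add_le u v
      omega

theorem R1_three_ne (n i : ℕ) : 3 * n ≠ 2 ^ i := by
  intro h
  have h1 : 3 ∣ 2 ^ i := ⟨n, h.symm⟩
  have h2 : 3 ∣ 2 := Nat.Prime.dvd_of_dvd_pow (by norm_num) h1
  norm_num at h2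

theorem pc_three_mul_ne {n : ℕ} (hn : 1 ≤ n) : 2 ≤ pc (3 * n) := by
  by_contra hc
  have h1 : 1 ≤ pc (3 * n) := pc_pos (by omega)
  obtain ⟨i, hi⟩ := pc_one (n := 3 * n) (by omega)
  exact R1_three_ne n i hi

theorem pc_diff {k i t : ℕ} (hik : i ≤ k) (ht : t < 2 ^ i) :
    pc (2 ^ k - 2 ^ i + t) = (k - i) + pc t := by
  obtain ⟨j, rfl⟩ := Nat.exists_eq_add_of_le hik
  clear hik
  induction j with
  | zero => simp
  | succ j ih =>
    have h1 : 2 ^ (i + (j + 1)) = 2 ^ (i + j) + 2 ^ (i + j) := by ring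
    have h2 : 2 ^ i ≤ 2 ^ (i + j) := Nat.pow_le_pow_right (by norm_num) (by omega)
    have h3 : 2 ^ (i + (j + 1)) - 2 ^ i + t = 2 ^ (i + j) + (2 ^ (i + j) - 2 ^ i + t) := by
      rw [h1]; omega
    rw [h3, pc_top (by omega), ih]
    omega

end Pool.Agent.H978D
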