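import Pool.Agent.H978D.DefsR
import Pool.Agent.H978D.D1
import Pool.Agent.H978D.D3

set_option autoImplicit false

namespace Pool.Agent.H978D

open Pool.Agent.MPe9218d






/-- bound of a sum of distinct powers of two below `2^n` -/
theorem pow_sum_bound : ∀ (n : ℕ) (S : Finset ℕ), (∀ i ∈ S, i < n) →
    2 ^ S.card * (∑ i ∈ S, 2 ^ i) + 2 ^ n ≤ 2 ^ S.card * 2 ^ n := by
  intro n
  induction n with
  | zero =>
    intro S hS
    have : S = ∅ := by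
      apply Finset.eq_empty_of_forall_notMem
      intro i hi
      exact absurd (hS i hi) (by omega)
    subst this
    simp
  | succ n ih =>
    intro S hS
    by_cases hn : n ∈ S
    · have h1 := ih (S.erase n) (by
        intro i hi
        have h2 := hS i (Finset.mem_of_mem_erase hi)
        have h3 := Finset.ne_of_mem_erase hi
        omega)
      have hc : S.card = (S.erase n).card + 1 := by
        rw [Finset.card_erase_of_mem hn]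
        have : 0 < S.card := Finset.card_pos.2 ⟨n, hn⟩
        omega
      have hs : ∑ i ∈ S, 2 ^ i = 2 ^ n + ∑ i ∈ S.erase n, 2 ^ i :=
        (Finset.add_sum_erase S (fun i => 2 ^ i) hn).symm
      rw [hc, hs]
      set A := ∑ i ∈ S.erase n, 2 ^ i
      set c := (S.erase n).card
      have e1 : 2 ^ (c + 1) * (2 ^ n + A) + 2 ^ (n + 1) =
          2 ^ (c + 1) * 2 ^ n + 2 * (2 ^ c * A + 2 ^ n) := by ring
      have e2 : 2 ^ (c + 1) * 2 ^ (n + 1) = 2 ^ (c + 1) * 2 ^ n + 2 * (2 ^ c * 2 ^ n) := by ring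
      rw [e1, e2]
      omega
    · have h1 := ih S (by
        intro i hi
        have h2 := hS i hi
        have h3 : i ≠ n := by
          rintro rfl
          exact hn hi
        omega)
      set A := ∑ i ∈ S, 2 ^ i
      set c := S.card
      have e1 : 2 ^ c * A + 2 ^ (n + 1) = (2 ^ c * A + 2 ^ n) + 2 ^ n := by ring
      have e2 : 2 ^ c * 2 ^ (n + 1) = 2 ^ c * 2 ^ n + 2 ^ c * 2 ^ n := by ring
      have e3 : 2 ^ n ≤ 2 ^ c * 2 ^ n := Nat.le_mul_of_pos_left _ (by positivity)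
      rw [e1, e2]
      omega

/-- the elements of level `q` -/
def Lv (T : Finset (ℕ × ℕ)) (q : ℕ) : Finset (ℕ × ℕ) := T.filter (fun p => p.1 = q)

theorem Lv_bound {k : ℕ} {T : Finset (ℕ × ℕ)} (h : ∀ p ∈ T, 1 ≤ p.1 ∧ p.2 ≤ k) (q : ℕ) :
    2 ^ (Lv T q).card * (∑ p ∈ Lv T q, 2 ^ p.2) + 2 * 2 ^ k ≤
      2 ^ (Lv T q).card * (2 * 2 ^ k) := by
  have hinj : Set.InjOn (fun p : ℕ × ℕ => p.2) (Lv T q : Set (ℕ × ℕ)) := by
    intro x hx y hy hxy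
    have h1 := (Finset.mem_filter.1 (Finset.mem_coe.1 hx)).2
    have h2 := (Finset.mem_filter.1 (Finset.mem_coe.1 hy)).2
    exact Prod.ext (h1.trans h2.symm) hxy
  have h1 := pow_sum_bound (k + 1) ((Lv T q).image (fun p => p.2)) (by
    intro i hi
    obtain ⟨p, hp, rfl⟩ := Finset.mem_image.1 hi
    have := (h p (Finset.mem_filter.1 hp).1).2
    omega)
  rw [Finset.card_image_of_injOn hinj, Finset.sum_image hinj] at h1
  have e : 2 ^ (k + 1) = 2 * 2 ^ k := by ring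
  rw [e] at h1
  exact h1

theorem Lv_sum {k L Y N : ℕ} {T : Finset (ℕ × ℕ)} (h : T ∈ TS k L Y) (hN : L < N) :
    ∑ q ∈ Finset.range N, q * (Lv T q).card = L ∧
      ∑ q ∈ Finset.range N, (∑ p ∈ Lv T q, 2 ^ p.2) = Y := by
  obtain ⟨h1, h2, h3⟩ := h
  have hmaps : ∀ p ∈ T, p.1 ∈ Finset.range N := by
    intro p hp
    have : p.1 ≤ ∑ p ∈ T, p.1 := Finset.single_le_sum (f := fun p : ℕ × ℕ => p.1)
      (fun _ _ => Nat.zero_le _) hp
    rw [Finset.mem_range]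
    omega
  constructor
  · rw [← h2, ← Finset.sum_fiberwise_of_maps_to hmaps]
    apply Finset.sum_congr rfl
    intro q _
    have : ∑ p ∈ Lv T q, p.1 = ∑ p ∈ Lv T q, q := by
      apply Finset.sum_congr rfl
      intro p hp
      exact (Finset.mem_filter.1 hp).2
    unfold Lv at this ⊢
    rw [this, Finset.sum_const, smul_eq_mul, mul_comm]
  · rw [← h3, ← Finset.sum_fiberwise_of_maps_to hmaps]
    rfl

theorem Lv_zero {k : ℕ} {T : Finset (ℕ × ℕ)} (h : ∀ p ∈ T, 1 ≤ p.1 ∧ p.2 ≤ k) :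
    Lv T 0 = ∅ := by
  apply Finset.eq_empty_of_forall_notMem
  intro p hp
  have h1 := Finset.mem_filter.1 hp
  have h2 := (h p h1.1).1
  omega

theorem tri {i k : ℕ} (h : i ≤ k) : (i = k ∧ 2 ^ i = 2 ^ k) ∨ (i + 1 = k ∧ 2 * 2 ^ i = 2 ^ k) ∨
    (i + 2 ≤ k ∧ 4 * 2 ^ i ≤ 2 ^ k) := by
  rcases Nat.lt_or_ge k (i + 1) with h1 | h1
  · left
    have : i = k := by omega
    exact ⟨this, by rw [this]⟩
  rcases Nat.lt_or_ge k (i + 2) with h2 | h2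
  · right; left
    have : i + 1 = k := by omega
    exact ⟨this, by rw [← this]; ring⟩
  · right; right
    refine ⟨h2, ?_⟩
    have h3 : 2 ^ (i + 2) ≤ 2 ^ k := Nat.pow_le_pow_right (by norm_num) h2
    have h4 : 2 ^ (i + 2) = 4 * 2 ^ i := by ring
    omega

theorem R2_pc_two (x y : ℕ) : pc (2 ^ x + 2 ^ y) ≤ 2 := by
  have := pc_add_le (2 ^ x) (2 ^ y)
  rw [pc_pow, pc_pow] at this
  omega

theorem case3 {k a b c : ℕ} (ha : a ≤ k) (hb : b ≤ k) (hc : c ≤ k) (hbc : b ≠ c)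
    (h : 2 * 2 ^ k < 2 ^ a + (2 ^ b + 2 ^ c)) : pc (2 ^ a + (2 ^ b + 2 ^ c) - 2 * 2 ^ k) ≤ 2 := by
  have one : ∀ x Z : ℕ, Z = 2 ^ x → pc Z ≤ 2 := by
    intro x Z hZ
    rw [hZ, pc_pow]
    norm_num
  rcases tri ha with ⟨a1, a2⟩ | ⟨a1, a2⟩ | ⟨a1, a2⟩ <;>
  rcases tri hb with ⟨b1, b2⟩ | ⟨b1, b2⟩ | ⟨b1, b2⟩ <;>
  rcases tri hc with ⟨c1, c2⟩ | ⟨c1, c2⟩ | ⟨c1, c2⟩ <;>
  first
  | omega
  | exact one a _ (by omega)
  | exact one b _ (by omega)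
  | exact one c _ (by omega)

theorem case4 {k a b c d : ℕ} (ha : a ≤ k) (hb : b ≤ k) (hc : c ≤ k) (hd : d ≤ k)
    (hbc : b ≠ c) (hbd : b ≠ d) (hcd : c ≠ d)
    (h : 2 * 2 ^ k < 2 ^ a + (2 ^ b + (2 ^ c + 2 ^ d))) :
    pc (2 ^ a + (2 ^ b + (2 ^ c + 2 ^ d)) - 2 * 2 ^ k) ≤ 2 := by
  have one : ∀ x Z : ℕ, Z = 2 ^ x → pc Z ≤ 2 := by
    intro x Z hZ
    rw [hZ, pc_pow]
    norm_num
  have two : ∀ x y Z : ℕ, Z = 2 ^ x + 2 ^ y → pc Z ≤ 2 := by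
    intro x y Z hZ
    rw [hZ]
    exact R2_pc_two x y
  rcases tri ha with ⟨a1, a2⟩ | ⟨a1, a2⟩ | ⟨a1, a2⟩ <;>
  rcases tri hb with ⟨b1, b2⟩ | ⟨b1, b2⟩ | ⟨b1, b2⟩ <;>
  rcases tri hc with ⟨c1, c2⟩ | ⟨c1, c2⟩ | ⟨c1, c2⟩ <;>
  rcases tri hd with ⟨d1, d2⟩ | ⟨d1, d2⟩ | ⟨d1, d2⟩ <;>
  first
  | omega
  | exact two c d _ (by omega)
  | exact two b d _ (by omega)
  | exact two b c _ (by omega)
  | exact one d _ (by omega)
  | exact one c _ (by omega)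
  | exact one b _ (by omega)

/-- TARGET -/
theorem TS_five_top {k Y : ℕ} {T : Finset (ℕ × ℕ)} (h : T ∈ TS k 5 Y)
    (hY : 2 * 2 ^ k < Y) : pc (Y - 2 * 2 ^ k) ≤ 2 ∧ 4 * Y ≤ 11 * 2 ^ k := by
  obtain ⟨s1, s2⟩ := Lv_sum (N := 6) h (by norm_num)
  have hT := h.1
  have hle : ∀ q, ∀ p ∈ Lv T q, p.1 = q ∧ p.2 ≤ k := fun q p hp =>
    ⟨(Finset.mem_filter.1 hp).2, (hT p (Finset.mem_filter.1 hp).1).2⟩
  have h0 := Lv_zero hT
  have b1 := Lv_bound hT 1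
  have b2 := Lv_bound hT 2
  have b3 := Lv_bound hT 3
  have b4 := Lv_bound hT 4
  have b5 := Lv_bound hT 5
  simp only [Finset.sum_range_succ, Finset.sum_range_zero, h0, Finset.sum_empty, zero_mul,
    zero_add, one_mul] at s1 s2
  obtain ⟨A1, hA1⟩ : ∃ x, x = ∑ p ∈ Lv T 1, 2 ^ p.2 := ⟨_, rfl⟩
  obtain ⟨A2, hA2⟩ : ∃ x, x = ∑ p ∈ Lv T 2, 2 ^ p.2 := ⟨_, rfl⟩
  obtain ⟨A3, hA3⟩ : ∃ x, x = ∑ p ∈ Lv T 3, 2 ^ p.2 := ⟨_, rfl⟩
  obtain ⟨A4, hA4⟩ : ∃ x, x = ∑ p ∈ Lv T 4, 2 ^ p.2 := ⟨_, rfl⟩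
  obtain ⟨A5, hA5⟩ : ∃ x, x = ∑ p ∈ Lv T 5, 2 ^ p.2 := ⟨_, rfl⟩
  obtain ⟨m1, hm1⟩ : ∃ x, x = (Lv T 1).card := ⟨_, rfl⟩
  obtain ⟨m2, hm2⟩ : ∃ x, x = (Lv T 2).card := ⟨_, rfl⟩
  obtain ⟨m3, hm3⟩ : ∃ x, x = (Lv T 3).card := ⟨_, rfl⟩
  obtain ⟨m4, hm4⟩ : ∃ x, x = (Lv T 4).card := ⟨_, rfl⟩
  obtain ⟨m5, hm5⟩ : ∃ x, x = (Lv T 5).card := ⟨_, rfl⟩
  rw [← hA1, ← hm1] at b1
  rw [← hA2, ← hm2] at b2
  rw [← hA3, ← hm3] at b3
  rw [← hA4, ← hm4] at b4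
  rw [← hA5, ← hm5] at b5
  rw [← hm1, ← hm2, ← hm3, ← hm4, ← hm5] at s1
  rw [← hA1, ← hA2, ← hA3, ← hA4, ← hA5] at s2
  have l5 : m5 ≤ 1 := by omega
  have l4 : m4 ≤ 1 := by omega
  have l3 : m3 ≤ 1 := by omega
  have l2 : m2 ≤ 2 := by omega
  have hcase : (m3 = 1 ∧ m1 = 2 ∧ m2 = 0 ∧ m4 = 0 ∧ m5 = 0) ∨
      (m2 = 2 ∧ m1 = 1 ∧ m3 = 0 ∧ m4 = 0 ∧ m5 = 0) ∨
      (m2 = 1 ∧ m1 = 3 ∧ m3 = 0 ∧ m4 = 0 ∧ m5 = 0) := by
    interval_cases m5 <;> interval_cases m4 <;> interval_cases m3 <;> interval_cases m2 <;>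
      first
      | omega
      | (have hm : m1 = 0 := by omega
         subst hm
         norm_num at b1 b2 b3 b4 b5
         omega)
      | (have hm : m1 = 1 := by omega
         subst hm
         norm_num at b1 b2 b3 b4 b5
         omega)
      | (have hm : m1 = 5 := by omega
         subst hm
         norm_num at b1 b2 b3 b4 b5
         omega)
  rcases hcase with ⟨e3, e1, e2, e4, e5⟩ | ⟨e2, e1, e3, e4, e5⟩ | ⟨e2, e1, e3, e4, e5⟩
  · subst e3 e1 e2 e4 e5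
    norm_num at b1 b2 b3 b4 b5
    refine ⟨?_, by omega⟩
    obtain ⟨x, hx⟩ := Finset.card_eq_one.1 hm3.symm
    obtain ⟨y, z, hyz, hyz'⟩ := Finset.card_eq_two.1 hm1.symm
    have hx1 := hle 3 x (by rw [hx]; simp)
    have hy1 := hle 1 y (by rw [hyz']; simp)
    have hz1 := hle 1 z (by rw [hyz']; simp)
    have hne : y.2 ≠ z.2 := fun hh => hyz (Prod.ext (hy1.1.trans hz1.1.symm) hh)
    rw [hx, Finset.sum_singleton] at hA3
    rw [hyz', Finset.sum_pair hyz] at hA1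
    have hYe : Y = 2 ^ x.2 + (2 ^ y.2 + 2 ^ z.2) := by omega
    rw [hYe] at hY ⊢
    exact case3 hx1.2 hy1.2 hz1.2 hne hY
  · subst e3 e1 e2 e4 e5
    norm_num at b1 b2 b3 b4 b5
    refine ⟨?_, by omega⟩
    obtain ⟨x, hx⟩ := Finset.card_eq_one.1 hm1.symm
    obtain ⟨y, z, hyz, hyz'⟩ := Finset.card_eq_two.1 hm2.symm
    have hx1 := hle 1 x (by rw [hx]; simp)
    have hy1 := hle 2 y (by rw [hyz']; simp)
    have hz1 := hle 2 z (by rw [hyz']; simp)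
    have hne : y.2 ≠ z.2 := fun hh => hyz (Prod.ext (hy1.1.trans hz1.1.symm) hh)
    rw [hx, Finset.sum_singleton] at hA1
    rw [hyz', Finset.sum_pair hyz] at hA2
    have hYe : Y = 2 ^ x.2 + (2 ^ y.2 + 2 ^ z.2) := by omega
    rw [hYe] at hY ⊢
    exact case3 hx1.2 hy1.2 hz1.2 hne hY
  · subst e3 e1 e2 e4 e5
    norm_num at b1 b2 b3 b4 b5
    refine ⟨?_, by omega⟩
    obtain ⟨x, hx⟩ := Finset.card_eq_one.1 hm2.symm
    obtain ⟨y, z, t, hyz, hyt, hzt, hyz'⟩ := Finset.card_eq_three.1 hm1.symm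
    have hx1 := hle 2 x (by rw [hx]; simp)
    have hy1 := hle 1 y (by rw [hyz']; simp)
    have hz1 := hle 1 z (by rw [hyz']; simp)
    have ht1 := hle 1 t (by rw [hyz']; simp)
    have hne1 : y.2 ≠ z.2 := fun hh => hyz (Prod.ext (hy1.1.trans hz1.1.symm) hh)
    have hne2 : y.2 ≠ t.2 := fun hh => hyt (Prod.ext (hy1.1.trans ht1.1.symm) hh)
    have hne3 : z.2 ≠ t.2 := fun hh => hzt (Prod.ext (hz1.1.trans ht1.1.symm) hh)
    rw [hx, Finset.sum_singleton] at hA2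
    rw [hyz', Finset.sum_insert (by simp [hyz, hyt]), Finset.sum_pair hzt] at hA1
    have hYe : Y = 2 ^ x.2 + (2 ^ y.2 + (2 ^ z.2 + 2 ^ t.2)) := by omega
    rw [hYe] at hY ⊢
    exact case4 hx1.2 hy1.2 hz1.2 ht1.2 hne1 hne2 hne3 hY

/-- TARGET -/
theorem TS_six_bound {k Y : ℕ} {T : Finset (ℕ × ℕ)} (h : T ∈ TS k 6 Y) : Y ≤ 3 * 2 ^ k := by
  obtain ⟨s1, s2⟩ := Lv_sum (N := 7) h (by norm_num)
  have hT := h.1
  have h0 := Lv_zero hT
  have b1 := Lv_bound hT 1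
  have b2 := Lv_bound hT 2
  have b3 := Lv_bound hT 3
  have b4 := Lv_bound hT 4
  have b5 := Lv_bound hT 5
  have b6 := Lv_bound hT 6
  simp only [Finset.sum_range_succ, Finset.sum_range_zero, h0, Finset.sum_empty, zero_mul,
    zero_add, one_mul] at s1 s2
  generalize (∑ p ∈ Lv T 1, 2 ^ p.2) = A1 at *
  generalize (∑ p ∈ Lv T 2, 2 ^ p.2) = A2 at *
  generalize (∑ p ∈ Lv T 3, 2 ^ p.2) = A3 at *
  generalize (∑ p ∈ Lv T 4, 2 ^ p.2) = A4 at *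
  generalize (∑ p ∈ Lv T 5, 2 ^ p.2) = A5 at *
  generalize (∑ p ∈ Lv T 6, 2 ^ p.2) = A6 at *
  generalize (Lv T 1).card = m1 at *
  generalize (Lv T 2).card = m2 at *
  generalize (Lv T 3).card = m3 at *
  generalize (Lv T 4).card = m4 at *
  generalize (Lv T 5).card = m5 at *
  generalize (Lv T 6).card = m6 at *
  have l6 : m6 ≤ 1 := by omega
  have l5 : m5 ≤ 1 := by omega
  have l4 : m4 ≤ 1 := by omega
  have l3 : m3 ≤ 2 := by omega
  have l2 : m2 ≤ 3 := by omega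
  interval_cases m6 <;> interval_cases m5 <;> interval_cases m4 <;> interval_cases m3 <;>
    interval_cases m2 <;>
    first
    | (exfalso; omega)
    | (have hm : m1 = 0 := by omega
       subst hm
       norm_num at b1 b2 b3 b4 b5 b6
       omega)
    | (have hm : m1 = 1 := by omega
       subst hm
       norm_num at b1 b2 b3 b4 b5 b6
       omega)
    | (have hm : m1 = 2 := by omega
       subst hm
       norm_num at b1 b2 b3 b4 b5 b6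
       omega)
    | (have hm : m1 = 3 := by omega
       subst hm
       norm_num at b1 b2 b3 b4 b5 b6
       omega)
    | (have hm : m1 = 4 := by omega
       subst hm
       norm_num at b1 b2 b3 b4 b5 b6
       omega)
    | (have hm : m1 = 6 := by omega
       subst hm
       norm_num at b1 b2 b3 b4 b5 b6
       omega)

end Pool.Agent.H978D
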