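import Pool.Agent.H978D.DefsR

set_option autoImplicit false

namespace Pool.Agent.H978D

open Pool.Agent.MPe9218d

/-- TARGET -/
theorem step_shift {M e f : ℕ} {b : ℕ → ℕ} : Step b M (e + M) (f + M) ↔ Step b M e f := by
  constructor
  · intro h j h1 h2 hm
    have h3 : e + M ≡ j [MOD M] := by
      unfold Nat.ModEq at hm ⊢
      rw [Nat.add_mod_right]
      exact hm
    have h4 := h j h1 h2 h3
    omega
  · intro h j h1 h2 hm
    have h3 : e ≡ j [MOD M] := by
      unfold Nat.ModEq at hm ⊢
      rw [Nat.add_mod_right] at hm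
      exact hm
    have h4 := h j h1 h2 h3
    omega

end Pool.Agent.H978D
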