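import Pool.Agent.H978D.DefsR
import Pool.Agent.H978D.D1
import Pool.Agent.H978D.D2
import Pool.Agent.H978D.D3
import Pool.Agent.H978D.D4
import Pool.Agent.H978D.D5
import Pool.Agent.H978D.D6
import Pool.Agent.H978D.D7
import Pool.Agent.H978D.D8
import Pool.Agent.H978D.D9
import Pool.Agent.H978D.R1
import Pool.Agent.H978D.R2
import Pool.Agent.H978D.R3

set_option autoImplicit false

namespace Pool.Agent.H978D

open Pool.Agent.MPe9218d






























theorem hyp4_basic {k r M d G : ℕ} (H : Hyp4 k r M d G) :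
    1 ≤ G ∧ 2 * G < 2 ^ k ∧ M = 2 ^ k + G ∧ 2 ^ k < M ∧ 5 ≤ pc G := by
  obtain ⟨h1, h2, h3, h4, h5, h6⟩ := H
  have hG : 1 ≤ G := by
    rcases Nat.eq_zero_or_pos G with h | h
    · subst h; rw [pc_zero] at h5; omega
    · exact h
  have hd : 1 ≤ d := by
    rcases Nat.eq_zero_or_pos d with h | h
    · subst h; rw [pc_zero] at h6; omega
    · exact h
  have hpow : 2 ^ (r + 1) ≤ 2 ^ k := Nat.pow_le_pow_right (by norm_num) h1
  rw [pow_succ] at hpow
  exact ⟨hG, by omega, h2, by omega, h5⟩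

theorem lt_of_pow_lt' {j k : ℕ} (h : 2 ^ j < 2 ^ k) : j < k :=
  (Nat.pow_lt_pow_iff_right (by norm_num)).1 h

/-- TARGET -/
theorem t_nc1 {k r M d G e x : ℕ} (H : Hyp4 k r M d G) (he : Nc k M e) (hx1 : 1 ≤ x)
    (hx : e + x = M) : (∃ i, i ≤ k ∧ x = 2 ^ i) ∨ ∃ j, j < k ∧ x + G = 2 ^ j := by
  obtain ⟨hG, hG2, hM, hMw, hpG⟩ := hyp4_basic H
  have he1 : 1 ≤ e := he.1
  obtain ⟨L, Y, ⟨T, hT⟩, hY⟩ := (nc_iff hMw he1).1 he
  obtain ⟨hc1, hc2, -, hc4, -⟩ := TS_card hT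
  have hb := TS_bound hT
  have hw : 0 < 2 ^ k := by positivity
  obtain rfl | rfl | rfl | ⟨u, rfl⟩ : L = 0 ∨ L = 1 ∨ L = 2 ∨ ∃ u, L = 3 + u := by
    rcases L with _ | _ | _ | u
    · simp
    · simp
    · simp
    · exact Or.inr (Or.inr (Or.inr ⟨u, by omega⟩))
  · omega
  · left
    have hYx : Y = x := by omega
    subst hYx
    exact TS_one hT
  · right
    have hYx : Y = 2 ^ k + (x + G) := by omega
    have hlt : x + G < 2 ^ k := by omega
    rw [hYx, pc_top hlt] at hc2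
    have hp := pc_pos (n := x + G) (by omega)
    obtain ⟨j, hj⟩ := pc_one (n := x + G) (by omega)
    exact ⟨j, lt_of_pow_lt' (by omega), hj⟩
  · exfalso
    have h1 : Y = x + (2 + u) * M := by
      have : (3 + u) * M = (2 + u) * M + M := by ring
      omega
    have h2 : (2 + u) * 2 ^ k < (2 + u) * M := Nat.mul_lt_mul_of_pos_left hMw (by omega)
    have h3 : 2 ^ k * (3 + u + 1) = 2 * ((2 + u) * 2 ^ k) - u * 2 ^ k := by
      have : 2 * ((2 + u) * 2 ^ k) = 2 ^ k * (3 + u + 1) + u * 2 ^ k := by ring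
      omega
    omega

/-- TARGET -/
theorem t_nc2 {k r M d G e x : ℕ} (H : Hyp4 k r M d G) (he : Nc k M e) (hxM : x ≤ M)
    (hx : e + x = 2 * M) : 1 ≤ x ∧ x < M ∧ (pc x ≤ 2 ∨ (∃ j, j ≤ k ∧ x + G = 2 ^ j) ∨
      (∃ i j, i < j ∧ j < k ∧ x + G = 2 ^ i + 2 ^ j) ∨ ∃ j, j < k ∧ x + 2 * G = 2 ^ j) := by
  obtain ⟨hG, hG2, hM, hMw, hpG⟩ := hyp4_basic H
  have he1 : 1 ≤ e := he.1
  obtain ⟨L, Y, ⟨T, hT⟩, hY⟩ := (nc_iff hMw he1).1 he
  obtain ⟨hc1, hc2, -, hc4, -⟩ := TS_card hT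
  have hb := TS_bound hT
  have hw : 0 < 2 ^ k := by positivity
  have hGw : G < 2 ^ k := by omega
  have hpM : pc M = 1 + pc G := by rw [hM, pc_top hGw]
  obtain rfl | rfl | rfl | rfl | rfl | ⟨u, rfl⟩ :
      L = 0 ∨ L = 1 ∨ L = 2 ∨ L = 3 ∨ L = 4 ∨ ∃ u, L = 5 + u := by
    rcases L with _ | _ | _ | _ | _ | u
    · simp
    · simp
    · simp
    · simp
    · simp
    · exact Or.inr (Or.inr (Or.inr (Or.inr (Or.inr ⟨u, by omega⟩))))
  · omega
  · exfalso
    have := hc4 le_rfl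
    omega
  · have hYx : Y = x := by omega
    subst hYx
    have h1 := hc4 (by norm_num)
    refine ⟨h1, ?_, Or.inl (by omega)⟩
    rcases Nat.lt_or_ge Y M with h | h
    · exact h
    · exfalso
      have : Y = M := le_antisymm hxM h
      rw [this] at hc2
      omega
  · have hYx : Y = 2 ^ k + (x + G) := by omega
    have hle : x + G ≤ 2 ^ k := by omega
    have hx1 : 1 ≤ x := by
      rcases Nat.eq_zero_or_pos x with h | h
      · exfalso
        subst h
        rw [hYx, zero_add, pc_top hGw] at hc2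
        omega
      · exact h
    refine ⟨hx1, by omega, ?_⟩
    rcases Nat.lt_or_ge (x + G) (2 ^ k) with hlt | hge
    · rw [hYx, pc_top hlt] at hc2
      have hp := pc_pos (n := x + G) (by omega)
      obtain h1 | h2 : pc (x + G) = 1 ∨ pc (x + G) = 2 := by omega
      · obtain ⟨j, hj⟩ := pc_one h1
        exact Or.inr (Or.inl ⟨j, (lt_of_pow_lt' (by omega)).le, hj⟩)
      · obtain ⟨i, j, hij, hj⟩ := pc_two h2
        have hi0 : 0 < 2 ^ i := by positivity
        exact Or.inr (Or.inr (Or.inl ⟨i, j, hij, lt_of_pow_lt' (by omega), hj⟩))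
    · exact Or.inr (Or.inl ⟨k, le_rfl, by omega⟩)
  · have hYx : Y = 2 * 2 ^ k + (x + 2 * G) := by omega
    obtain ⟨i, hi, -, hY2⟩ := TS_four_top hT (by omega)
    have hxi : x + 2 * G = 2 ^ i := by omega
    have hik : 2 ^ i < 2 ^ k := Nat.pow_lt_pow_right (by norm_num) hi
    have hx1 : 1 ≤ x := by
      rcases Nat.eq_zero_or_pos x with h | h
      · exfalso
        subst h
        rw [zero_add] at hxi
        have h1 := pc_two_mul G
        rw [hxi, pc_pow] at h1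
        omega
      · exact h
    exact ⟨hx1, by omega, Or.inr (Or.inr (Or.inr ⟨i, hi, hxi⟩))⟩
  · exfalso
    have h1 : Y = x + (3 + u) * M := by
      have : (5 + u) * M = (3 + u) * M + 2 * M := by ring
      omega
    have h2 : (3 + u) * 2 ^ k < (3 + u) * M := Nat.mul_lt_mul_of_pos_left hMw (by omega)
    have h3 : 2 * ((3 + u) * 2 ^ k) = 2 ^ k * (5 + u + 1) + u * 2 ^ k := by ring
    omega

end Pool.Agent.H978D
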