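import Pool.Agent.H978D.DefsR
import Pool.Agent.H978D.D1
import Pool.Agent.H978D.D2
import Pool.Agent.H978D.D3
import Pool.Agent.H978D.D4
import Pool.Agent.H978D.D5
import Pool.Agent.H978D.D6
import Pool.Agent.H978D.D7
import Pool.Agent.H978D.D8
import Pool.Agent.H978D.D9
import Pool.Agent.H978D.R1
import Pool.Agent.H978D.R2
import Pool.Agent.H978D.R3
import Pool.Agent.H978D.R4

set_option autoImplicit false

namespace Pool.Agent.H978D

open Pool.Agent.MPe9218d































theorem card_le {k L Y : ℕ} {T : Finset (ℕ × ℕ)} (h : T ∈ TS k L Y) : pc Y ≤ L :=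
  (TS_card h).2.1.trans (TS_card h).1

theorem red_hi {k M n Y3 L Y : ℕ} {T : Finset (ℕ × ℕ)} (hM : 2 ^ k < M)
    (hn : n + Y3 = 3 * M) (h2 : 2 * M < n) (h : n + Y = L * M) (hT : T ∈ TS k L Y) :
    (L = 3 ∧ Y = Y3) ∨ (L = 4 ∧ Y = Y3 + M) ∨ (L = 5 ∧ Y = Y3 + 2 * M) := by
  have hL3 : 3 ≤ L := by
    by_contra hcon
    have h3 : L * M ≤ 2 * M := Nat.mul_le_mul_right M (by omega)
    omega
  obtain ⟨t, rfl⟩ : ∃ t, L = 3 + t := ⟨L - 3, by omega⟩
  have h3 : (3 + t) * M = 3 * M + t * M := by ring
  have hY : Y = Y3 + t * M := by omega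
  have hb := TS_bound hT
  have hw : 1 ≤ 2 ^ k := Nat.one_le_two_pow
  have ht4 : t < 4 := by
    by_contra hcon
    obtain ⟨u, rfl⟩ : ∃ u, t = 4 + u := ⟨t - 4, by omega⟩
    have e1 : 2 ^ k * (3 + (4 + u) + 1) = 8 * 2 ^ k + u * 2 ^ k := by ring
    have e2 : (4 + u) * M = 4 * M + u * M := by ring
    have e3 : u * 2 ^ k ≤ u * M := Nat.mul_le_mul_left u hM.le
    rw [e1, hY, e2] at hb
    omega
  have ht3 : t ≠ 3 := by
    rintro rfl
    have := TS_six_bound hT
    omega
  have ht : t = 0 ∨ t = 1 ∨ t = 2 := by omega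
  rcases ht with rfl | rfl | rfl
  · left
    exact ⟨rfl, by omega⟩
  · right; left
    exact ⟨rfl, by omega⟩
  · right; right
    exact ⟨rfl, by omega⟩

/-- the smallest allowed part -/
theorem nc_G {k M G : ℕ} (hG : 1 ≤ G) (hMG : M = 2 ^ k + G) : Nc k M G := by
  refine (nc_iff (by omega) hG).2 ⟨1, 2 ^ k, ⟨{(1, k)}, ?_⟩, by omega⟩
  refine ⟨?_, by simp, by simp⟩
  intro p hp
  rw [Finset.mem_singleton] at hp
  subst hp
  exact ⟨le_rfl, le_rfl⟩

/-- TARGET -/
theorem t_c_hi {k r M d G e f : ℕ} {b : ℕ → ℕ} (H : Hyp4 k r M d G)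
    (hId : Identity M (k + 1) b) (he : Nc k M e) (hf : Nc k M f) (hs : Step b M e f)
    (h2 : 2 * M < e) (hn : e + f + 2 ^ (r - 1) = 3 * M) : False := by
  have hH := H
  obtain ⟨hrk, hMG, hdG, hd2, hG5, hd3⟩ := H
  have hd1 : 1 ≤ d := by
    by_contra hcon
    have : d = 0 := by omega
    subst this
    rw [pc_zero] at hd3
    omega
  have hr1 : 1 ≤ r := by
    by_contra hcon
    have : r = 0 := by omega
    subst this
    rw [pow_zero] at hd2
    omega
  obtain ⟨q, rfl⟩ : ∃ q, r = q + 1 := ⟨r - 1, by omega⟩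
  have hq : q + 1 - 1 = q := by omega
  rw [hq] at hn
  have h2r : 2 ^ (q + 1) = 2 * 2 ^ q := by ring
  have h4r : 2 ^ (q + 2) = 4 * 2 ^ q := by ring
  have hh : 1 ≤ 2 ^ q := Nat.one_le_two_pow
  rw [h2r] at hdG hd2
  obtain ⟨G', hG'⟩ : ∃ G', G = 2 ^ q + G' := ⟨2 ^ q - d, by omega⟩
  have hG'0 : 1 ≤ G' := by omega
  have hG'1 : G' < 2 ^ q := by omega
  have pG' : 4 ≤ pc G' := by
    rw [hG', pc_top hG'1] at hG5
    omega
  obtain ⟨Z, hZ⟩ : ∃ Z, Z = 3 * 2 ^ q + 2 * G' := ⟨_, rfl⟩
  have pZ : 4 ≤ pc Z := by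
    have e1 : Z + 2 ^ q = 2 ^ (q + 2) + 2 * G' := by omega
    have e2 := pc_add_le Z (2 ^ q)
    rw [e1, pc_top (by omega), pc_two_mul, pc_pow] at e2
    omega
  obtain ⟨R, hR⟩ : ∃ R, R = 4 * 2 ^ q + 3 * G' := ⟨_, rfl⟩
  have pR : 3 ≤ pc R := by
    have e1 : R = 2 ^ (q + 2) + 3 * G' := by omega
    have e2 := pc_three_mul_ne hG'0
    rw [e1, pc_top (by omega)]
    omega
  have p2G : pc (2 * 2 ^ q + G') = 1 + pc G' := by
    rw [← h2r]
    exact pc_top (by omega)
  have hM : 2 ^ k < M := by omega
  have hw4 : 4 * 2 ^ q ≤ 2 ^ k := by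
    rw [← h4r]
    exact Nat.pow_le_pow_right (by norm_num) hrk
  have he1 : 1 ≤ e := by omega
  have hGf : G ≤ f := by
    have := nc_min hM hf
    omega
  have hGe : G ≤ e := by omega
  have hNG : Nc k M G := nc_G (by omega) hMG
  obtain ⟨y, hy⟩ : ∃ y, f + y = M := ⟨M - f, by omega⟩
  have hey : e + 2 ^ q = 2 * M + y := by omega
  have hyq : 2 ^ q < y := by omega
  rcases t_nc1 hH hf (by omega) hy with ⟨i, hik, hyi⟩ | ⟨j, hjk, hyj⟩
  · -- `y` is a power of two
    have hqi : q < i := by
      by_contra hcon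
      have : 2 ^ i ≤ 2 ^ q := Nat.pow_le_pow_right (by norm_num) (by omega)
      omega
    have h2i : 2 * 2 ^ q ≤ 2 ^ i := by
      rw [← h2r]
      exact Nat.pow_le_pow_right (by norm_num) hqi
    subst hyi
    rcases Nat.lt_or_ge k (i + 2) with hki | hki
    · exfalso
      obtain ⟨L, Y, ⟨T, hT⟩, hLY⟩ := (nc_iff hM he1).1 he
      rcases Nat.lt_or_ge i k with hik1 | hik1
      · -- `i = k - 1`
        have hk1 : k = i + 1 := by omega
        subst hk1
        have hwi : 2 ^ (i + 1) = 2 * 2 ^ i := by ring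
        have hx1 : e + (2 ^ i + (2 * 2 ^ q + G')) = 3 * M := by omega
        rcases red_hi hM hx1 h2 hLY hT with ⟨rfl, hY⟩ | ⟨rfl, hY⟩ | ⟨rfl, hY⟩
        · have h3 := card_le hT
          rcases Nat.lt_or_ge (q + 1) i with hqi1 | hqi1
          · have h4 : 4 * 2 ^ q ≤ 2 ^ i := by
              rw [← h4r]
              exact Nat.pow_le_pow_right (by norm_num) hqi1
            rw [hY, pc_top (by omega), p2G] at h3
            omega
          · have hi1 : i = q + 1 := by omega
            subst hi1
            have e1 : Y = 2 ^ (q + 2) + G' := by omega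
            rw [e1, pc_top (by omega)] at h3
            omega
        · have hY' : Y = 2 ^ (i + 1) + (2 ^ i + Z) := by omega
          rcases lt_trichotomy Z (2 ^ i) with hlt | heq | hgt
          · have h3 := card_le hT
            rw [hY', pc_top (by omega), pc_top hlt] at h3
            omega
          · rw [heq, pc_pow] at pZ
            omega
          · obtain ⟨j, _, _, hj⟩ := TS_four_top hT (by omega)
            have hZj : Z = 2 ^ i + 2 ^ j := by omega
            have h3 := pc_add_le (2 ^ i) (2 ^ j)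
            rw [← hZj, pc_pow, pc_pow] at h3
            omega
        · have hY' : Y - 2 * 2 ^ (i + 1) = 2 ^ i + R := by omega
          obtain ⟨h3, h4⟩ := TS_five_top hT (by omega)
          rw [hY', pc_top (by omega)] at h3
          omega
      · -- `i = k`
        have hk1 : i = k := by omega
        subst hk1
        have hx1 : e + (2 * 2 ^ q + G') = 3 * M := by omega
        rcases red_hi hM hx1 h2 hLY hT with ⟨rfl, hY⟩ | ⟨rfl, hY⟩ | ⟨rfl, hY⟩
        · have h3 := card_le hT
          rw [hY, p2G] at h3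
          omega
        · have hY' : Y = 2 ^ i + Z := by omega
          rcases lt_trichotomy Z (2 ^ i) with hlt | heq | hgt
          · have h3 := card_le hT
            rw [hY', pc_top hlt] at h3
            omega
          · rw [heq, pc_pow] at pZ
            omega
          · obtain ⟨j, _, _, hj⟩ := TS_four_top hT (by omega)
            have hZj : Z = 2 ^ i + 2 ^ j := by omega
            have h3 := pc_add_le (2 ^ i) (2 ^ j)
            rw [← hZj, pc_pow, pc_pow] at h3
            omega
        · have hY' : Y - 2 * 2 ^ i = R := by omega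
          obtain ⟨h3, h4⟩ := TS_five_top hT (by omega)
          rw [hY'] at h3
          omega
    · -- `i ≤ k - 2`
      have h4i : 4 * 2 ^ i ≤ 2 ^ k := by
        have e1 : 2 ^ (i + 2) = 4 * 2 ^ i := by ring
        rw [← e1]
        exact Nat.pow_le_pow_right (by norm_num) hki
      have hY3 : e + G + (2 ^ k - 2 ^ i + 2 ^ q) = 3 * M := by omega
      have pY3 : pc (2 ^ k - 2 ^ i + 2 ^ q) = (k - i) + 1 := by
        rw [pc_diff (by omega) (by omega), pc_pow]
      have hc : ((TS k 3 (2 ^ k - 2 ^ i + 2 ^ q))).ncard ≤ 1 := by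
        rcases Nat.lt_or_ge 3 (pc (2 ^ k - 2 ^ i + 2 ^ q)) with h3 | h3
        · have h4 : TS k 3 (2 ^ k - 2 ^ i + 2 ^ q) = ∅ := by
            rw [Set.eq_empty_iff_forall_notMem]
            intro T hT
            have := card_le hT
            omega
          rw [h4, Set.ncard_empty]
          omega
        · exact TS_uniq (by omega)
      have hA : A (a M) (k + 1) M (e + G) ≤ 1 := by
        refine (A_cover hM {(3, 2 ^ k - 2 ^ i + 2 ^ q)} ?_).trans ?_
        · rintro L Y hLY ⟨T, hT⟩
          rw [Finset.mem_singleton]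
          rcases red_hi hM hY3 (by omega) hLY hT with ⟨rfl, hY⟩ | ⟨rfl, hY⟩ | ⟨rfl, hY⟩
          · rw [hY]
          · exfalso
            rcases Nat.lt_or_ge (q + 1) i with hqi1 | hqi1
            · have h4 : 4 * 2 ^ q ≤ 2 ^ i := by
                rw [← h4r]
                exact Nat.pow_le_pow_right (by norm_num) hqi1
              have e0 : 2 ^ (k + 1) = 2 * 2 ^ k := by ring
              have e1 : Y = 2 ^ (k + 1) - 2 ^ i + (2 * 2 ^ q + G') := by omega
              have h3 := card_le hT
              rw [e1, pc_diff (by omega) (by omega), p2G] at h3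
              omega
            · have hi1 : i = q + 1 := by omega
              subst hi1
              obtain ⟨j, _, _, hj⟩ := TS_four_top hT (by omega)
              have hGj : G' = 2 ^ j := by omega
              rw [hGj, pc_pow] at pG'
              omega
          · exfalso
            obtain ⟨h3, h4⟩ := TS_five_top hT (by omega)
            have hV : Y - 2 * 2 ^ k = 2 ^ k - 2 ^ i + Z := by omega
            rcases Nat.lt_or_ge Z (2 ^ i) with hlt | hge
            · rw [hV, pc_diff (by omega) hlt] at h3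
              omega
            · omega
        · rw [Finset.sum_singleton]
          exact hc
      exact kill hId he hNG hGe hA hGf hs
  · -- `y + G` is a power of two
    have hqj : q + 1 < j := by
      by_contra hcon
      have : 2 ^ j ≤ 2 ^ (q + 1) := Nat.pow_le_pow_right (by norm_num) (by omega)
      omega
    have h4j : 4 * 2 ^ q ≤ 2 ^ j := by
      rw [← h4r]
      exact Nat.pow_le_pow_right (by norm_num) hqj
    have h2j : 2 * 2 ^ j ≤ 2 ^ k := by
      have e1 : 2 ^ (j + 1) = 2 * 2 ^ j := by ring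
      rw [← e1]
      exact Nat.pow_le_pow_right (by norm_num) hjk
    have hY3 : e + G + (2 ^ k - 2 ^ j + (2 * 2 ^ q + G')) = 3 * M := by omega
    have hA : A (a M) (k + 1) M (e + G) ≤ 1 := by
      refine (A_cover hM ∅ ?_).trans (by rw [Finset.sum_empty]; omega)
      rintro L Y hLY ⟨T, hT⟩
      exfalso
      rcases red_hi hM hY3 (by omega) hLY hT with ⟨rfl, hY⟩ | ⟨rfl, hY⟩ | ⟨rfl, hY⟩
      · have h3 := card_le hT
        rw [hY, pc_diff (by omega) (by omega), p2G] at h3
        omega
      · have e0 : 2 ^ (k + 1) = 2 * 2 ^ k := by ring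
        rcases lt_trichotomy Z (2 ^ j) with hlt | heq | hgt
        · have e1 : Y = 2 ^ (k + 1) - 2 ^ j + Z := by omega
          have h3 := card_le hT
          rw [e1, pc_diff (by omega) hlt] at h3
          omega
        · rw [heq, pc_pow] at pZ
          omega
        · obtain ⟨i, _, _, hi⟩ := TS_four_top hT (by omega)
          have hZj : Z = 2 ^ j + 2 ^ i := by omega
          have h3 := pc_add_le (2 ^ j) (2 ^ i)
          rw [← hZj, pc_pow, pc_pow] at h3
          omega
      · obtain ⟨h3, h4⟩ := TS_five_top hT (by omega)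
        have hV : Y - 2 * 2 ^ k = 2 ^ k - 2 ^ j + R := by omega
        rcases Nat.lt_or_ge R (2 ^ j) with hlt | hge
        · rw [hV, pc_diff (by omega) hlt] at h3
          omega
        · omega
    exact kill hId he hNG hGe hA hGf hs

end Pool.Agent.H978D
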