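import Pool.Agent.H978D.DefsR
import Pool.Agent.H978D.D1
import Pool.Agent.H978D.D2
import Pool.Agent.H978D.D3
import Pool.Agent.H978D.D4
import Pool.Agent.H978D.D5
import Pool.Agent.H978D.D6
import Pool.Agent.H978D.D7
import Pool.Agent.H978D.D8
import Pool.Agent.H978D.D9
import Pool.Agent.H978D.R1
import Pool.Agent.H978D.R2
import Pool.Agent.H978D.R3
import Pool.Agent.H978D.R4

/-! # Lemmas R11 -/

set_option autoImplicit false

namespace Pool.Agent.H978D

open Pool.Agent.MPe9218d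
































theorem r11_facts {k r M d G : ℕ} (H : Hyp4 k r M d G) : ∃ s G', r = s + 1 ∧ s + 2 ≤ k ∧
    M = 2 ^ k + G ∧ G = 2 ^ s + G' ∧ 0 < G' ∧ G' < 2 ^ s ∧ 4 ≤ pc G' ∧
    4 ≤ pc (3 * 2 ^ s + 2 * G') := by
  obtain ⟨h1, h2, h3, h4, h5, h6⟩ := H
  have hd : d ≠ 0 := by
    rintro rfl
    rw [pc_zero] at h6
    omega
  obtain ⟨s, rfl⟩ : ∃ s, r = s + 1 := by
    cases r with
    | zero => simp at h4; omega
    | succ s => exact ⟨s, rfl⟩
  have e1 : 2 ^ (s + 1) = 2 * 2 ^ s := by rw [pow_succ]; ring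
  have hlt : G - 2 ^ s < 2 ^ s := by omega
  have hG : G = 2 ^ s + (G - 2 ^ s) := by omega
  have h7 : pc G = 1 + pc (G - 2 ^ s) := by
    conv_lhs => rw [hG]
    exact pc_top hlt
  refine ⟨s, G - 2 ^ s, rfl, by omega, h2, hG, by omega, hlt, by omega, ?_⟩
  have e2 : 2 ^ (s + 2) = 4 * 2 ^ s := by rw [pow_succ, pow_succ]; ring
  have h8 : pc (2 ^ (s + 2) + 2 * (G - 2 ^ s)) = 1 + pc (G - 2 ^ s) := by
    rw [pc_top (by omega), pc_two_mul]
  have h9 : 3 * 2 ^ s + 2 * (G - 2 ^ s) + 2 ^ s = 2 ^ (s + 2) + 2 * (G - 2 ^ s) := by omega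
  have h10 := pc_add_le (3 * 2 ^ s + 2 * (G - 2 ^ s)) (2 ^ s)
  rw [h9, h8, pc_pow] at h10
  omega

theorem r11_pow_lt {a b k : ℕ} (hab : a < b) (hb : b < k) : 2 ^ a + 2 ^ b < 2 ^ k := by
  have h1 : 2 ^ a < 2 ^ b := Nat.pow_lt_pow_right (by norm_num) hab
  have h2 : 2 ^ (b + 1) ≤ 2 ^ k := Nat.pow_le_pow_right (by norm_num) hb
  rw [pow_succ] at h2
  omega

theorem r11_pow_half {j k : ℕ} (hj : j < k) : 2 * 2 ^ j ≤ 2 ^ k := by
  have h2 : 2 ^ (j + 1) ≤ 2 ^ k := Nat.pow_le_pow_right (by norm_num) hj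
  rw [pow_succ] at h2
  omega

/-- TARGET -/
theorem t_c_pow {k r M d G e f i : ℕ} (H : Hyp4 k r M d G)
    (he : Nc k M e) (hf : Nc k M f) (hfe : f < e)
    (hi : i < k) (h2 : e + 2 ^ i = 2 * M) (hn : e + f + 2 ^ (r - 1) = 3 * M) :
    e + 2 ^ (r - 2) = 2 * M ∧ f + 2 ^ (r - 2) = M := by
  obtain ⟨s, G', rfl, hs, hM, hG, hG0, hG1, hG4, hZ4⟩ := r11_facts H
  rw [Nat.add_sub_cancel] at hn
  have hsk : 2 ^ s * 4 ≤ 2 ^ k := by
    have : 2 ^ (s + 2) ≤ 2 ^ k := Nat.pow_le_pow_right (by norm_num) hs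
    rw [pow_succ, pow_succ] at this
    omega
  have hik : 2 * 2 ^ i ≤ 2 ^ k := r11_pow_half hi
  have hi0 : 0 < 2 ^ i := by positivity
  rcases lt_trichotomy i s with his | his | his
  · have hPi : 2 * 2 ^ i ≤ 2 ^ s := r11_pow_half his
    rcases t_nc1 H hf (x := 2 ^ s - 2 ^ i) (by omega) (by omega) with ⟨m, hm, hy⟩ | ⟨j, hj, hy⟩
    · -- `2 ^ s = 2 ^ i + 2 ^ m`
      have hm0 : 0 < 2 ^ m := by positivity
      have hms : m < s := by
        apply (Nat.pow_lt_pow_iff_right (a := 2) (by norm_num)).1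
        omega
      have hPm : 2 * 2 ^ m ≤ 2 ^ s := r11_pow_half hms
      have e1 : 2 ^ s = 2 * 2 ^ (s + 1 - 2) := by
        obtain ⟨u, rfl⟩ : ∃ u, s = u + 1 := ⟨s - 1, by omega⟩
        rw [show u + 1 + 1 - 2 = u by omega, pow_succ]
        ring
      constructor <;> omega
    · exfalso
      have e1 : 2 ^ (s + 1) = 2 * 2 ^ s := by rw [pow_succ]; ring
      have e2 : 2 ^ (s + 2) = 4 * 2 ^ s := by rw [pow_succ, pow_succ]; ring
      have j1 : s < j := by
        apply (Nat.pow_lt_pow_iff_right (a := 2) (by norm_num)).1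
        omega
      have j2 : j < s + 2 := by
        apply (Nat.pow_lt_pow_iff_right (a := 2) (by norm_num)).1
        omega
      have j3 : j = s + 1 := by omega
      subst j3
      have h6 : G' = 2 ^ i := by omega
      rw [h6, pc_pow] at hG4
      omega
  · exfalso
    subst his
    have := (t_nc2 H hf (x := M) le_rfl (by omega)).2.1
    omega
  · exfalso
    have hPi : 2 * 2 ^ s ≤ 2 ^ i := r11_pow_half his
    have hx' : f + (2 ^ k + 2 * 2 ^ s + G' - 2 ^ i) = 2 * M := by omega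
    obtain ⟨-, -, h7⟩ := t_nc2 H hf (by omega) hx'
    rcases Nat.eq_or_lt_of_le (Nat.succ_le_of_lt his) with hii | hii
    · -- `i = r`
      have e1 : 2 ^ i = 2 * 2 ^ s := by rw [← hii, Nat.succ_eq_add_one, pow_succ]; ring
      have e3 : 2 ^ k + 2 * 2 ^ s + G' - 2 ^ i = 2 ^ k + G' := by omega
      rw [e3] at h7
      rcases h7 with h7 | ⟨j, hj, h7⟩ | ⟨a, b, hab, hb, h7⟩ | ⟨j, hj, h7⟩
      · rw [pc_top (by omega)] at h7
        omega
      · have := Nat.pow_le_pow_right (show 0 < 2 by norm_num) hj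
        omega
      · have := r11_pow_lt hab hb
        omega
      · have := r11_pow_half hj
        omega
    · have hPi2 : 4 * 2 ^ s ≤ 2 ^ i := by
        have h8 : 2 ^ (s + 2) ≤ 2 ^ i := Nat.pow_le_pow_right (by norm_num) hii
        rw [pow_succ, pow_succ] at h8
        omega
      have e1 : 2 ^ (s + 1) = 2 * 2 ^ s := by rw [pow_succ]; ring
      have e3 : 2 ^ k + 2 * 2 ^ s + G' - 2 ^ i = 2 ^ k - 2 ^ i + (2 ^ (s + 1) + G') := by omega
      rcases h7 with h7 | ⟨j, hj, h7⟩ | ⟨a, b, hab, hb, h7⟩ | ⟨j, hj, h7⟩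
      · rw [e3, pc_diff hi.le (by omega), pc_top (by omega)] at h7
        omega
      · have hle := Nat.pow_le_pow_right (show 0 < 2 by norm_num) hj
        have e4 : 2 ^ k + 2 * 2 ^ s + G' - 2 ^ i + G = 2 ^ k - 2 ^ i + (3 * 2 ^ s + 2 * G') := by
          omega
        rw [e4] at h7
        rcases lt_or_ge (3 * 2 ^ s + 2 * G') (2 ^ i) with hz | hz
        · have h8 := pc_diff hi.le hz
          rw [h7, pc_pow] at h8
          omega
        · have h8 : 3 * 2 ^ s + 2 * G' = 2 ^ i := by omega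
          rw [h8, pc_pow] at hZ4
          omega
      · have hlt := r11_pow_lt hab hb
        have e4 : 2 ^ k + 2 * 2 ^ s + G' - 2 ^ i + G = 2 ^ k - 2 ^ i + (3 * 2 ^ s + 2 * G') := by
          omega
        rw [e4] at h7
        rcases lt_or_ge (3 * 2 ^ s + 2 * G') (2 ^ i) with hz | hz
        · have h8 := pc_diff hi.le hz
          have h9 := pc_add_le (2 ^ a) (2 ^ b)
          rw [pc_pow, pc_pow] at h9
          rw [h7] at h8
          omega
        · omega
      · have := r11_pow_half hj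
        omega

/-- TARGET -/
theorem t_c_spec {k r M d G e f x : ℕ} (H : Hyp4 k r M d G)
    (he : Nc k M e) (hf : Nc k M f) (hfe : f < e)
    (h2 : e + x = 2 * M) (hx : pc x = 2) (hGx : G < x) (hxw : x < 2 ^ k) (hx2 : pc (x - G) ≤ 2)
    (hn : e + f + 2 ^ (r - 1) = 3 * M) : False := by
  obtain ⟨s, G', rfl, hs, hM, hG, hG0, hG1, hG4, hZ4⟩ := r11_facts H
  rw [Nat.add_sub_cancel] at hn
  have hsk : 2 ^ s * 4 ≤ 2 ^ k := by
    have : 2 ^ (s + 2) ≤ 2 ^ k := Nat.pow_le_pow_right (by norm_num) hs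
    rw [pow_succ, pow_succ] at this
    omega
  obtain ⟨x', hx'⟩ : ∃ x', x' = M + 2 ^ s - x := ⟨_, rfl⟩
  have h3 : f + x' = 2 * M := by omega
  have h4 : x + x' = 2 ^ k + (2 ^ (s + 1) + G') := by
    have e1 : 2 ^ (s + 1) = 2 * 2 ^ s := by rw [pow_succ]; ring
    omega
  have h5 : x < x' := by omega
  obtain ⟨-, -, h7⟩ := t_nc2 H hf (by omega : x' ≤ M) h3
  have e1 : 2 ^ (s + 1) = 2 * 2 ^ s := by rw [pow_succ]; ring
  have hsum : x + (x' + G) = 2 ^ k + (3 * 2 ^ s + 2 * G') := by omega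
  rcases h7 with h7 | ⟨j, hj, h7⟩ | ⟨a, b, hab, hb, h7⟩ | ⟨j, hj, h7⟩
  · have h8 := pc_add_le x x'
    rw [h4, pc_top (by omega), pc_top (by omega)] at h8
    omega
  · have hle := Nat.pow_le_pow_right (show 0 < 2 by norm_num) hj
    rcases lt_or_ge (3 * 2 ^ s + 2 * G') (2 ^ k) with hz | hz
    · have h8 := pc_add_le x (x' + G)
      rw [hsum, pc_top hz, h7, pc_pow] at h8
      omega
    · omega
  · have hlt := r11_pow_lt hab hb
    rcases lt_or_ge (3 * 2 ^ s + 2 * G') (2 ^ k) with hz | hz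
    · have h8 := pc_add_le x (x' + G)
      have h9 := pc_add_le (2 ^ a) (2 ^ b)
      rw [pc_pow, pc_pow] at h9
      rw [hsum, pc_top hz, h7] at h8
      omega
    · omega
  · have := r11_pow_half hj
    omega

end Pool.Agent.H978D
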