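import Pool.Agent.H978D.DefsR
import Pool.Agent.H978D.D1
import Pool.Agent.H978D.D2
import Pool.Agent.H978D.D3
import Pool.Agent.H978D.D4
import Pool.Agent.H978D.D5
import Pool.Agent.H978D.D6
import Pool.Agent.H978D.D7
import Pool.Agent.H978D.D8
import Pool.Agent.H978D.D9
import Pool.Agent.H978D.R1
import Pool.Agent.H978D.R2
import Pool.Agent.H978D.R3

set_option autoImplicit false

namespace Pool.Agent.H978D

open Pool.Agent.MPe9218d































theorem R12_ne {S T : Finset (ℕ × ℕ)} (x : ℕ × ℕ) (h1 : x ∈ S) (h2 : x ∉ T) : S ≠ T := by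
  rintro rfl; exact h2 h1

theorem R12_TS2 {k L Y q1 i1 q2 i2 : ℕ} (h1 : 1 ≤ q1) (h2 : 1 ≤ q2) (k1 : i1 ≤ k) (k2 : i2 ≤ k)
    (hne : (q1, i1) ≠ (q2, i2)) (hL : q1 + q2 = L) (hY : 2 ^ i1 + 2 ^ i2 = Y) :
    ({(q1, i1), (q2, i2)} : Finset (ℕ × ℕ)) ∈ TS k L Y := by
  refine ⟨?_, ?_, ?_⟩
  · intro p hp
    rcases Finset.mem_insert.1 hp with rfl | hp
    · exact ⟨h1, k1⟩
    · rw [Finset.mem_singleton.1 hp]; exact ⟨h2, k2⟩
  · rw [Finset.sum_pair hne]; exact hL
  · rw [Finset.sum_pair hne]; exact hY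

theorem R12_TS3 {k L Y q1 i1 q2 i2 q3 i3 : ℕ} (h1 : 1 ≤ q1) (h2 : 1 ≤ q2) (h3 : 1 ≤ q3)
    (k1 : i1 ≤ k) (k2 : i2 ≤ k) (k3 : i3 ≤ k)
    (h12 : (q1, i1) ≠ (q2, i2)) (h13 : (q1, i1) ≠ (q3, i3)) (h23 : (q2, i2) ≠ (q3, i3))
    (hL : q1 + (q2 + q3) = L) (hY : 2 ^ i1 + (2 ^ i2 + 2 ^ i3) = Y) :
    ({(q1, i1), (q2, i2), (q3, i3)} : Finset (ℕ × ℕ)) ∈ TS k L Y := by
  have hn : (q1, i1) ∉ ({(q2, i2), (q3, i3)} : Finset (ℕ × ℕ)) := by
    intro h
    rcases Finset.mem_insert.1 h with h | h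
    · exact h12 h
    · exact h13 (Finset.mem_singleton.1 h)
  refine ⟨?_, ?_, ?_⟩
  · intro p hp
    rcases Finset.mem_insert.1 hp with rfl | hp
    · exact ⟨h1, k1⟩
    · rcases Finset.mem_insert.1 hp with rfl | hp
      · exact ⟨h2, k2⟩
      · rw [Finset.mem_singleton.1 hp]; exact ⟨h3, k3⟩
  · rw [Finset.sum_insert hn, Finset.sum_pair h23]; exact hL
  · rw [Finset.sum_insert hn, Finset.sum_pair h23]; exact hY

theorem R12_lower_list {k M n : ℕ} (hM : 2 ^ k < M) (l : List (Finset (ℕ × ℕ))) (hl : l.Nodup)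
    (h : ∀ T ∈ l, ∃ L Y, T ∈ TS k L Y ∧ n + Y = L * M) :
    l.length ≤ A (a M) (k + 1) M n := by
  classical
  have h1 := A_lower (n := n) hM l.toFinset (by
    intro T hT
    exact h T (List.mem_toFinset.1 hT))
  rwa [List.toFinset_card_of_nodup hl] at h1

theorem R12_basic {k r M d G : ℕ} (H : Hyp4 k r M d G) :
    ∃ s, r = s + 2 ∧ 4 * 2 ^ s = 2 ^ r ∧ 2 * 2 ^ r ≤ 2 ^ k ∧ 1 ≤ d ∧ 2 ^ k < M ∧ 1 ≤ 2 ^ s := by
  obtain ⟨hr, hM, hd, h2, h5, h3⟩ := H
  have hd1 : 1 ≤ d := by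
    rcases Nat.eq_zero_or_pos d with h | h
    · rw [h, pc_zero] at h3; omega
    · exact h
  have hr2 : 2 ≤ r := by
    by_contra hlt
    have : r = 0 ∨ r = 1 := by omega
    rcases this with rfl | rfl
    · simp at h2; omega
    · norm_num at h2; omega
  obtain ⟨s, rfl⟩ : ∃ s, r = s + 2 := ⟨r - 2, by omega⟩
  have e1 : 2 ^ (s + 2) = 4 * 2 ^ s := by rw [pow_add]; ring
  have e2 : 2 ^ (s + 2 + 1) ≤ 2 ^ k := Nat.pow_le_pow_right (by norm_num) hr
  have e3 : 2 ^ (s + 2 + 1) = 2 * 2 ^ (s + 2) := by rw [pow_succ]; ring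
  have e4 : 1 ≤ 2 ^ s := Nat.one_le_two_pow
  exact ⟨s, rfl, e1.symm, by omega, hd1, by omega, e4⟩

/-- TARGET -/
theorem t_d_lower {k r M d G : ℕ} (H : Hyp4 k r M d G) :
    4 + (if r + 2 ≤ k then 1 else 0) + (if pc d = 3 then 1 else 0) ≤
      A (a M) (k + 1) M (3 * M - d) := by
  obtain ⟨s, hrs, es, hrk, hd1, hkM, h1s⟩ := R12_basic H
  obtain ⟨hr, hM, hd, h2, h5, h3⟩ := H
  have hG : G = 2 ^ r - d := by omega
  have q1 : 2 ^ (r - 1) + 2 ^ (r - 1) = 2 ^ r := by
    have : r = (r - 1) + 1 := by omega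
    conv_rhs => rw [this, pow_succ]
    ring
  have q2 : 2 ^ (k - 1) + 2 ^ (k - 1) = 2 ^ k := by
    have : k = (k - 1) + 1 := by omega
    conv_rhs => rw [this, pow_succ]
    ring
  have hY : 3 * M - d + (2 ^ k + 2 ^ r) = 4 * M := by omega
  have t1 : ∃ L Y, ({(3, k), (1, r)} : Finset (ℕ × ℕ)) ∈ TS k L Y ∧ 3 * M - d + Y = L * M :=
    ⟨4, 2 ^ k + 2 ^ r, R12_TS2 (by norm_num) (by norm_num) le_rfl (by omega) (by simp) rfl rfl, hY⟩
  have t2 : ∃ L Y, ({(3, r), (1, k)} : Finset (ℕ × ℕ)) ∈ TS k L Y ∧ 3 * M - d + Y = L * M :=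
    ⟨4, 2 ^ k + 2 ^ r, R12_TS2 (by norm_num) (by norm_num) (by omega) le_rfl (by simp) rfl
      (by omega), hY⟩
  have t3 : ∃ L Y, ({(2, k), (2, r)} : Finset (ℕ × ℕ)) ∈ TS k L Y ∧ 3 * M - d + Y = L * M :=
    ⟨4, 2 ^ k + 2 ^ r, R12_TS2 (by norm_num) (by norm_num) le_rfl (by omega)
      (by simp; omega) rfl rfl, hY⟩
  have t4 : ∃ L Y, ({(2, r - 1), (1, r - 1), (1, k)} : Finset (ℕ × ℕ)) ∈ TS k L Y ∧
      3 * M - d + Y = L * M :=
    ⟨4, 2 ^ k + 2 ^ r, R12_TS3 (by norm_num) (by norm_num) (by norm_num) (by omega) (by omega)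
      le_rfl (by simp) (by simp) (by simp; omega) rfl (by omega), hY⟩
  have t5 : r + 2 ≤ k → ∃ L Y, ({(2, k - 1), (1, k - 1), (1, r)} : Finset (ℕ × ℕ)) ∈ TS k L Y ∧
      3 * M - d + Y = L * M := fun hrk2 =>
    ⟨4, 2 ^ k + 2 ^ r, R12_TS3 (by norm_num) (by norm_num) (by norm_num) (by omega) (by omega)
      (by omega) (by simp) (by simp) (by simp; omega) rfl (by omega), hY⟩
  have t6 : pc d = 3 → ∃ i j l, ∃ L Y, ({(1, i), (1, j), (1, l)} : Finset (ℕ × ℕ)) ∈ TS k L Y ∧
      3 * M - d + Y = L * M := by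
    intro h
    obtain ⟨i, j, t, hji, htj, ht1, hE, hpc⟩ := pc_split h.ge
    obtain ⟨l, hl⟩ := pc_one (n := t) (by omega)
    subst hl
    have hlj : l < j := (Nat.pow_lt_pow_iff_right (by norm_num)).1 htj
    have hi : i < k := by
      have : 2 ^ i < 2 ^ k := by omega
      exact (Nat.pow_lt_pow_iff_right (by norm_num)).1 this
    exact ⟨i, j, l, 3, d, R12_TS3 (by norm_num) (by norm_num) (by norm_num) (by omega) (by omega)
      (by omega) (by simp; omega) (by simp; omega) (by simp; omega) rfl (by omega), by omega⟩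
  have n12 : ({(3, k), (1, r)} : Finset (ℕ × ℕ)) ≠ {(3, r), (1, k)} := by
    refine R12_ne (3, k) (by simp) ?_
    simp only [Finset.mem_insert, Finset.mem_singleton, Prod.mk.injEq]; omega
  have n13 : ({(3, k), (1, r)} : Finset (ℕ × ℕ)) ≠ {(2, k), (2, r)} := by
    refine R12_ne (3, k) (by simp) ?_
    simp only [Finset.mem_insert, Finset.mem_singleton, Prod.mk.injEq]; omega
  have n14 : ({(3, k), (1, r)} : Finset (ℕ × ℕ)) ≠ {(2, r - 1), (1, r - 1), (1, k)} := by
    refine R12_ne (3, k) (by simp) ?_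
    simp only [Finset.mem_insert, Finset.mem_singleton, Prod.mk.injEq]; omega
  have n15 : ({(3, k), (1, r)} : Finset (ℕ × ℕ)) ≠ {(2, k - 1), (1, k - 1), (1, r)} := by
    refine R12_ne (3, k) (by simp) ?_
    simp only [Finset.mem_insert, Finset.mem_singleton, Prod.mk.injEq]; omega
  have n16 : ∀ i j l : ℕ, ({(3, k), (1, r)} : Finset (ℕ × ℕ)) ≠ {(1, i), (1, j), (1, l)} := by
    intro i j l
    refine R12_ne (3, k) (by simp) ?_
    simp only [Finset.mem_insert, Finset.mem_singleton, Prod.mk.injEq]; omega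
  have n23 : ({(3, r), (1, k)} : Finset (ℕ × ℕ)) ≠ {(2, k), (2, r)} := by
    refine R12_ne (3, r) (by simp) ?_
    simp only [Finset.mem_insert, Finset.mem_singleton, Prod.mk.injEq]; omega
  have n24 : ({(3, r), (1, k)} : Finset (ℕ × ℕ)) ≠ {(2, r - 1), (1, r - 1), (1, k)} := by
    refine R12_ne (3, r) (by simp) ?_
    simp only [Finset.mem_insert, Finset.mem_singleton, Prod.mk.injEq]; omega
  have n25 : ({(3, r), (1, k)} : Finset (ℕ × ℕ)) ≠ {(2, k - 1), (1, k - 1), (1, r)} := by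
    refine R12_ne (3, r) (by simp) ?_
    simp only [Finset.mem_insert, Finset.mem_singleton, Prod.mk.injEq]; omega
  have n26 : ∀ i j l : ℕ, ({(3, r), (1, k)} : Finset (ℕ × ℕ)) ≠ {(1, i), (1, j), (1, l)} := by
    intro i j l
    refine R12_ne (3, r) (by simp) ?_
    simp only [Finset.mem_insert, Finset.mem_singleton, Prod.mk.injEq]; omega
  have n34 : ({(2, k), (2, r)} : Finset (ℕ × ℕ)) ≠ {(2, r - 1), (1, r - 1), (1, k)} := by
    refine R12_ne (2, k) (by simp) ?_
    simp only [Finset.mem_insert, Finset.mem_singleton, Prod.mk.injEq]; omega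
  have n35 : ({(2, k), (2, r)} : Finset (ℕ × ℕ)) ≠ {(2, k - 1), (1, k - 1), (1, r)} := by
    refine R12_ne (2, k) (by simp) ?_
    simp only [Finset.mem_insert, Finset.mem_singleton, Prod.mk.injEq]; omega
  have n36 : ∀ i j l : ℕ, ({(2, k), (2, r)} : Finset (ℕ × ℕ)) ≠ {(1, i), (1, j), (1, l)} := by
    intro i j l
    refine R12_ne (2, k) (by simp) ?_
    simp only [Finset.mem_insert, Finset.mem_singleton, Prod.mk.injEq]; omega
  have n45 : ({(2, r - 1), (1, r - 1), (1, k)} : Finset (ℕ × ℕ)) ≠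
      {(2, k - 1), (1, k - 1), (1, r)} := by
    refine R12_ne (2, r - 1) (by simp) ?_
    simp only [Finset.mem_insert, Finset.mem_singleton, Prod.mk.injEq]; omega
  have n46 : ∀ i j l : ℕ, ({(2, r - 1), (1, r - 1), (1, k)} : Finset (ℕ × ℕ)) ≠
      {(1, i), (1, j), (1, l)} := by
    intro i j l
    refine R12_ne (2, r - 1) (by simp) ?_
    simp only [Finset.mem_insert, Finset.mem_singleton, Prod.mk.injEq]; omega
  have n56 : ∀ i j l : ℕ, ({(2, k - 1), (1, k - 1), (1, r)} : Finset (ℕ × ℕ)) ≠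
      {(1, i), (1, j), (1, l)} := by
    intro i j l
    refine R12_ne (2, k - 1) (by simp) ?_
    simp only [Finset.mem_insert, Finset.mem_singleton, Prod.mk.injEq]; omega
  by_cases c5 : r + 2 ≤ k
  · by_cases c6 : pc d = 3
    · rw [if_pos c5, if_pos c6]
      obtain ⟨i, j, l, t6'⟩ := t6 c6
      refine R12_lower_list hkM [{(3, k), (1, r)}, {(3, r), (1, k)}, {(2, k), (2, r)},
        {(2, r - 1), (1, r - 1), (1, k)}, {(2, k - 1), (1, k - 1), (1, r)},
        {(1, i), (1, j), (1, l)}] ?_ ?_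
      · simp only [List.nodup_cons, List.mem_cons, List.not_mem_nil, or_false, not_or,
          List.nodup_nil, not_false_eq_true, and_true]
        exact ⟨⟨n12, n13, n14, n15, n16 i j l⟩, ⟨n23, n24, n25, n26 i j l⟩,
          ⟨n34, n35, n36 i j l⟩, ⟨n45, n46 i j l⟩, n56 i j l⟩
      · intro T hT
        simp only [List.mem_cons, List.not_mem_nil, or_false] at hT
        rcases hT with rfl | rfl | rfl | rfl | rfl | rfl
        · exact t1
        · exact t2
        · exact t3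
        · exact t4
        · exact t5 c5
        · exact t6'
    · rw [if_pos c5, if_neg c6]
      refine R12_lower_list hkM [{(3, k), (1, r)}, {(3, r), (1, k)}, {(2, k), (2, r)},
        {(2, r - 1), (1, r - 1), (1, k)}, {(2, k - 1), (1, k - 1), (1, r)}] ?_ ?_
      · simp only [List.nodup_cons, List.mem_cons, List.not_mem_nil, or_false, not_or,
          List.nodup_nil, not_false_eq_true, and_true]
        exact ⟨⟨n12, n13, n14, n15⟩, ⟨n23, n24, n25⟩, ⟨n34, n35⟩, n45⟩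
      · intro T hT
        simp only [List.mem_cons, List.not_mem_nil, or_false] at hT
        rcases hT with rfl | rfl | rfl | rfl | rfl
        · exact t1
        · exact t2
        · exact t3
        · exact t4
        · exact t5 c5
  · by_cases c6 : pc d = 3
    · rw [if_neg c5, if_pos c6]
      obtain ⟨i, j, l, t6'⟩ := t6 c6
      refine R12_lower_list hkM [{(3, k), (1, r)}, {(3, r), (1, k)}, {(2, k), (2, r)},
        {(2, r - 1), (1, r - 1), (1, k)}, {(1, i), (1, j), (1, l)}] ?_ ?_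
      · simp only [List.nodup_cons, List.mem_cons, List.not_mem_nil, or_false, not_or,
          List.nodup_nil, not_false_eq_true, and_true]
        exact ⟨⟨n12, n13, n14, n16 i j l⟩, ⟨n23, n24, n26 i j l⟩,
          ⟨n34, n36 i j l⟩, n46 i j l⟩
      · intro T hT
        simp only [List.mem_cons, List.not_mem_nil, or_false] at hT
        rcases hT with rfl | rfl | rfl | rfl | rfl
        · exact t1
        · exact t2
        · exact t3
        · exact t4
        · exact t6'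
    · rw [if_neg c5, if_neg c6]
      refine R12_lower_list hkM [{(3, k), (1, r)}, {(3, r), (1, k)}, {(2, k), (2, r)},
        {(2, r - 1), (1, r - 1), (1, k)}] ?_ ?_
      · simp only [List.nodup_cons, List.mem_cons, List.not_mem_nil, or_false, not_or,
          List.nodup_nil, not_false_eq_true, and_true]
        exact ⟨⟨n12, n13, n14⟩, ⟨n23, n24⟩, n34⟩
      · intro T hT
        simp only [List.mem_cons, List.not_mem_nil, or_false] at hT
        rcases hT with rfl | rfl | rfl | rfl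
        · exact t1
        · exact t2
        · exact t3
        · exact t4

/-- TARGET -/
theorem t_c_lower {k r M d G : ℕ} (H : Hyp4 k r M d G) :
    2 ≤ A (a M) (k + 1) M (3 * M - 2 ^ (r - 1)) := by
  obtain ⟨s, hrs, es, hrk, hd1, hkM, h1s⟩ := R12_basic H
  obtain ⟨hr, hM, hd, h2, h5, h3⟩ := H
  subst hrs
  have q1 : s + 2 - 1 = s + 1 := by omega
  have q2 : 2 ^ (s + 1) = 2 * 2 ^ s := by rw [pow_succ]; ring
  rw [q1]
  refine R12_lower_list hkM [{(3, s + 1)}, {(2, s), (1, s)}] ?_ ?_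
  · simp only [List.nodup_cons, List.mem_cons, List.not_mem_nil, or_false,
      List.nodup_nil, not_false_eq_true, and_true]
    refine R12_ne (3, s + 1) (by simp) ?_
    simp only [Finset.mem_insert, Finset.mem_singleton, Prod.mk.injEq]; omega
  · intro T hT
    simp only [List.mem_cons, List.not_mem_nil, or_false] at hT
    rcases hT with rfl | rfl
    · refine ⟨3, 2 ^ (s + 1), ⟨?_, ?_, ?_⟩, by omega⟩
      · intro p hp
        rw [Finset.mem_singleton.1 hp]
        exact ⟨by norm_num, by show s + 1 ≤ k; omega⟩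
      · rw [Finset.sum_singleton]
      · rw [Finset.sum_singleton]
    · exact ⟨3, 2 ^ (s + 1), R12_TS2 (by norm_num) (by norm_num) (by omega) (by omega) (by simp) rfl
        (by omega), by omega⟩

/-- TARGET -/
theorem t_c_upper {k r M d G : ℕ} (H : Hyp4 k r M d G) :
    A (a M) (k + 1) M (3 * M - 3 * 2 ^ (r - 2)) ≤ 2 := by
  obtain ⟨s, hrs, es, hrk, hd1, hkM, h1s⟩ := R12_basic H
  obtain ⟨hr, hM, hd, h2, h5, h3⟩ := H
  subst hrs
  have q1 : s + 2 - 2 = s := by omega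
  have q2 : 2 ^ (s + 1) = 2 * 2 ^ s := by rw [pow_succ]; ring
  have q3 : 2 ^ (s + 2) = 4 * 2 ^ s := es.symm
  have q4 : 2 ^ (s + 3) = 8 * 2 ^ s := by rw [pow_add]; ring
  rw [q1]
  obtain ⟨G', hG'⟩ : ∃ G', G = 2 ^ (s + 1) + G' := ⟨G - 2 ^ (s + 1), by omega⟩
  have hG's : G' < 2 ^ (s + 1) := by omega
  have hpG : pc G = 1 + pc G' := by rw [hG']; exact pc_top hG's
  have hcov := A_cover (n := 3 * M - 3 * 2 ^ s) hkM {(3, 3 * 2 ^ s)} (by
    intro L Y hLY hne
    obtain ⟨T, hT⟩ := hne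
    rw [Finset.mem_singleton]
    have hb := TS_bound hT
    have hc := TS_card hT
    rcases Nat.lt_or_ge L 3 with hL | hL
    · exfalso
      have : L * M ≤ 2 * M := Nat.mul_le_mul_right M (by omega)
      omega
    rcases Nat.lt_or_ge L 7 with hL7 | hL7
    · have : L = 3 ∨ L = 4 ∨ L = 5 ∨ L = 6 := by omega
      rcases this with rfl | rfl | rfl | rfl
      · have : Y = 3 * 2 ^ s := by omega
        rw [this]
      · exfalso
        have hYe : Y = 2 ^ k + (2 ^ (s + 2) + (2 ^ s + G')) := by omega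
        have p1 : pc Y = 1 + pc (2 ^ (s + 2) + (2 ^ s + G')) := by
          rw [hYe]; exact pc_top (by omega)
        have p2 : pc (2 ^ (s + 2) + (2 ^ s + G')) = 1 + pc (2 ^ s + G') := pc_top (by omega)
        have p3 := pc_add_le (2 ^ s + G') (2 ^ s)
        have p4 : 2 ^ s + G' + 2 ^ s = G := by omega
        rw [p4, pc_pow] at p3
        omega
      · exfalso
        have hYe : Y = 2 * 2 ^ k + (3 * 2 ^ s + 2 * G) := by omega
        have h5t := (TS_five_top hT (by omega)).1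
        have p0 : Y - 2 * 2 ^ k = 3 * 2 ^ s + 2 * G := by omega
        rw [p0] at h5t
        have p3 := pc_add_le (3 * 2 ^ s + 2 * G) (2 ^ s)
        have p4 : 3 * 2 ^ s + 2 * G + 2 ^ s = 2 * (2 ^ (s + 2) + G') := by omega
        have p5 : pc (2 ^ (s + 2) + G') = 1 + pc G' := pc_top (by omega)
        rw [p4, pc_two_mul, pc_pow, p5] at p3
        omega
      · exfalso
        have := TS_six_bound hT
        omega
    · exfalso
      obtain ⟨u, rfl⟩ : ∃ u, L = 7 + u := ⟨L - 7, by omega⟩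
      have e1 : (7 + u) * M = 7 * M + u * M := by ring
      have e2 : 2 ^ k * (7 + u + 1) = 8 * 2 ^ k + u * 2 ^ k := by ring
      have e3 : u * 2 ^ k ≤ u * M := Nat.mul_le_mul_left u hkM.le
      rw [e1] at hLY
      rw [e2] at hb
      omega)
  rw [Finset.sum_singleton] at hcov
  have hp3 : 2 ≤ pc (3 * 2 ^ s) := pc_three_mul_ne h1s
  exact hcov.trans (TS_three_card hp3)

end Pool.Agent.H978D
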