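import Pool.Agent.H978D.DefsR
import Pool.Agent.H978D.D1
import Pool.Agent.H978D.D2
import Pool.Agent.H978D.D3
import Pool.Agent.H978D.D4
import Pool.Agent.H978D.D5
import Pool.Agent.H978D.D6
import Pool.Agent.H978D.D7
import Pool.Agent.H978D.D8
import Pool.Agent.H978D.D9
import Pool.Agent.H978D.R1
import Pool.Agent.H978D.R2
import Pool.Agent.H978D.R3
import Pool.Agent.H978D.R4

set_option autoImplicit false

namespace Pool.Agent.H978D

open Pool.Agent.MPe9218d
































theorem R5_pow_lt {a b : ℕ} (h : 2 ^ a < 2 ^ b) : a < b :=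
  (Nat.pow_lt_pow_iff_right (by norm_num)).1 h

theorem R5_pow_le {a b : ℕ} (h : a ≤ b) : 2 ^ a ≤ 2 ^ b := Nat.pow_le_pow_right (by norm_num) h

theorem R5_ncard_zero {k L Y : ℕ} (h : L < pc Y) : (TS k L Y).ncard = 0 := by
  have h1 : TS k L Y = ∅ := by
    rw [Set.eq_empty_iff_forall_notMem]
    intro T hT
    have h2 := TS_card hT
    omega
  rw [h1, Set.ncard_empty]

theorem R5_four {k Y : ℕ} (hY : 2 * 2 ^ k < Y) : (TS k 4 Y).ncard ≤ 1 := by
  rcases (TS k 4 Y).eq_empty_or_nonempty with h | ⟨T, hT⟩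
  · rw [h, Set.ncard_empty]; exact zero_le_one
  · obtain ⟨i, hi, hTi, hYi⟩ := TS_four_top hT hY
    have h1 : TS k 4 Y ⊆ {T} := by
      intro T' hT'
      obtain ⟨j, hj, hTj, hYj⟩ := TS_four_top hT' hY
      have h2 : 2 ^ i = 2 ^ j := by omega
      have h3 : i = j := Nat.pow_right_injective (le_refl 2) h2
      subst h3
      rw [Set.mem_singleton_iff, hTi, hTj]
    exact (Set.ncard_le_ncard h1 (Set.finite_singleton T)).trans (by rw [Set.ncard_singleton])

theorem R5_three {k : ℕ} : (TS k 3 (2 * 2 ^ k)).ncard ≤ 1 := by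
  have h1 : TS k 3 (2 * 2 ^ k) ⊆ {{(1, k), (2, k)}} := by
    intro T' hT'
    exact (TS_three_top hT' le_rfl).1
  exact (Set.ncard_le_ncard h1 (Set.finite_singleton _)).trans (by rw [Set.ncard_singleton])

theorem R5_two {k x : ℕ} (hx1 : 1 ≤ x) (hxk : x < 2 ^ k) (hnp : ¬ ∃ i, i < k ∧ x = 2 ^ i) :
    2 ≤ pc x := by
  by_contra hcon
  have h1 : pc x = 1 := by
    have := pc_pos hx1
    omega
  obtain ⟨i, hi⟩ := pc_one h1
  refine hnp ⟨i, R5_pow_lt ?_, hi⟩
  rw [← hi]; exact hxk

theorem R5_wx {k x : ℕ} (hx1 : 1 ≤ x) (hxk : x < 2 ^ k) (hnp : ¬ ∃ i, i < k ∧ x = 2 ^ i) :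
    (TS k 3 (2 ^ k + x)).ncard ≤ 1 := by
  have h2 := R5_two hx1 hxk hnp
  have h3 := pc_top hxk
  rcases Nat.lt_or_ge 2 (pc x) with h | h
  · rw [R5_ncard_zero (by omega)]; exact zero_le_one
  · exact TS_uniq (by omega)

theorem R5_wx0 {k x : ℕ} (hxk : x < 2 ^ k) (h : 3 ≤ pc x) (T : Finset (ℕ × ℕ)) :
    T ∉ TS k 3 (2 ^ k + x) := by
  intro hT
  have h3 := pc_top hxk
  have h2 := TS_card hT
  omega

/-- TARGET -/
theorem t_nf1 {k r M d G e x : ℕ} (H : Hyp4 k r M d G) (he : Nc k M e) (hx1 : 1 ≤ x)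
    (hx : e + x = M) : A (a M) (k + 1) M (e + G) ≤ 1 := by
  obtain ⟨h1, h2, h3, h4, h5, h6⟩ := H
  have hrk : 2 * 2 ^ r ≤ 2 ^ k := by
    calc 2 * 2 ^ r = 2 ^ (r + 1) := by ring
      _ ≤ 2 ^ k := R5_pow_le h1
  have hd1 : 1 ≤ d := by
    rcases Nat.eq_zero_or_pos d with h | h
    · rw [h, pc_zero] at h6; omega
    · exact h
  have hw : 1 ≤ 2 ^ k := Nat.one_le_two_pow
  have hr1 : 1 ≤ 2 ^ r := Nat.one_le_two_pow
  have hM : 2 ^ k < M := by omega
  have hG : 2 ^ r < 2 * G := by omega
  have lev : ∀ L Y, (e + G) + Y = L * M → (TS k L Y).Nonempty →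
      (L = 1 ∧ Y + G = x) ∨ (L = 2 ∧ Y = 2 ^ k + x ∧ 2 * x ≤ 2 ^ k) := by
    intro L Y hLY hne
    obtain ⟨T, hT⟩ := hne
    have hb := TS_bound hT
    rcases Nat.lt_or_ge L 3 with hL | hL
    · interval_cases L
      · omega
      · left; omega
      · right; refine ⟨rfl, by omega, by omega⟩
    · exfalso
      obtain ⟨u, rfl⟩ := Nat.exists_eq_add_of_le hL
      have e1 : (3 + u) * M = 2 * M + (1 + u) * M := by ring
      have e2 : (1 + u) * 2 ^ k ≤ (1 + u) * M := Nat.mul_le_mul_left _ hM.le
      have e3 : (1 + u) * 2 ^ k = 2 ^ k + u * 2 ^ k := by ring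
      have e4 : 2 ^ k * (3 + u + 1) = 4 * 2 ^ k + u * 2 ^ k := by ring
      omega
  by_cases hA : ∃ b, x = G + 2 ^ b
  · obtain ⟨b, hb⟩ := hA
    refine (A_cover hM {(1, 2 ^ b)} ?_).trans ?_
    · intro L Y hLY hne
      rcases lev L Y hLY hne with ⟨rfl, hY⟩ | ⟨rfl, hY, hxw⟩
      · have h7 : Y = 2 ^ b := by omega
        simp [h7]
      · exfalso
        obtain ⟨T, hT⟩ := hne
        have hc := TS_card hT
        rw [hY] at hc
        have hxk : x < 2 ^ k := by omega
        have h7 := pc_top hxk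
        have h8 := pc_pos hx1
        obtain ⟨j, hj⟩ := pc_one (show pc x = 1 by omega)
        have hb1 : 1 ≤ 2 ^ b := Nat.one_le_two_pow
        have h9 : r < j + 1 := by
          apply R5_pow_lt
          have : 2 ^ (j + 1) = 2 * 2 ^ j := by ring
          omega
        have h10 : j < r + 1 := by
          by_contra hcon
          have h11 : 2 ^ (r + 1) ≤ 2 ^ j := R5_pow_le (by omega)
          have h12 : 2 ^ (r + 1) = 2 * 2 ^ r := by ring
          have h13 : b < j := R5_pow_lt (by omega)
          have h14 : 2 * 2 ^ b ≤ 2 ^ j := by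
            calc 2 * 2 ^ b = 2 ^ (b + 1) := by ring
              _ ≤ 2 ^ j := R5_pow_le h13
          omega
        obtain rfl : j = r := by omega
        have h15 : d = 2 ^ b := by omega
        rw [h15, pc_pow] at h6
        omega
    · rw [Finset.sum_singleton]
      exact TS_uniq (pc_pow b)
  · refine (A_cover hM {(2, 2 ^ k + x)} ?_).trans ?_
    · intro L Y hLY hne
      rcases lev L Y hLY hne with ⟨rfl, hY⟩ | ⟨rfl, hY, hxw⟩
      · exfalso
        obtain ⟨T, hT⟩ := hne
        obtain ⟨i, hi, hYi⟩ := TS_one hT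
        exact hA ⟨i, by omega⟩
      · simp [hY]
    · rw [Finset.sum_singleton]
      exact TS_two_card _ _

/-- TARGET -/
theorem t_nf2 {k r M d G e x : ℕ} (H : Hyp4 k r M d G) (he : Nc k M e) (hxM : x ≤ M)
    (hx : e + x = 2 * M) (hnp : ¬ ∃ i, i < k ∧ x = 2 ^ i)
    (hnp2 : ¬ (pc x = 2 ∧ G < x ∧ x < 2 ^ k ∧ pc (x - G) ≤ 2)) :
    A (a M) (k + 1) M (e + G) ≤ 1 := by
  obtain ⟨hx1, hxM', hcases⟩ := t_nc2 H he hxM hx
  obtain ⟨h1, h2, h3, h4, h5, h6⟩ := H
  have hrk : 2 * 2 ^ r ≤ 2 ^ k := by
    calc 2 * 2 ^ r = 2 ^ (r + 1) := by ring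
      _ ≤ 2 ^ k := R5_pow_le h1
  have hd1 : 1 ≤ d := by
    rcases Nat.eq_zero_or_pos d with h | h
    · rw [h, pc_zero] at h6; omega
    · exact h
  have hw : 1 ≤ 2 ^ k := Nat.one_le_two_pow
  have hr1 : 1 ≤ 2 ^ r := Nat.one_le_two_pow
  have hM : 2 ^ k < M := by omega
  have hG : 2 ^ r < 2 * G := by omega
  rcases lt_trichotomy x G with hxG | hxG | hxG
  · -- (A)
    have lev : ∀ L Y, (e + G) + Y = L * M → (TS k L Y).Nonempty →
        (L = 3 ∧ Y = 2 ^ k + x) ∨ (L = 4 ∧ Y = 2 * 2 ^ k + (x + G)) := by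
      intro L Y hLY hne
      obtain ⟨T, hT⟩ := hne
      have hb := TS_bound hT
      rcases Nat.lt_or_ge L 6 with hL | hL
      · interval_cases L
        · omega
        · omega
        · omega
        · left; omega
        · right; omega
        · omega
      · exfalso
        obtain ⟨u, rfl⟩ := Nat.exists_eq_add_of_le hL
        have e1 : (6 + u) * M = 3 * M + (3 + u) * M := by ring
        have e2 : (3 + u) * 2 ^ k ≤ (3 + u) * M := Nat.mul_le_mul_left _ hM.le
        have e3 : (3 + u) * 2 ^ k = 3 * 2 ^ k + u * 2 ^ k := by ring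
        have e4 : 2 ^ k * (6 + u + 1) = 7 * 2 ^ k + u * 2 ^ k := by ring
        omega
    have hxk : x < 2 ^ k := by omega
    by_cases hA : ∃ i, i < k ∧ x + G = 2 ^ i
    · obtain ⟨i, hik, hi⟩ := hA
      have h7 : r < i + 1 := by
        apply R5_pow_lt
        have : 2 ^ (i + 1) = 2 * 2 ^ i := by ring
        omega
      have h8 : i < r + 1 := by
        apply R5_pow_lt
        have : 2 ^ (r + 1) = 2 * 2 ^ r := by ring
        omega
      obtain rfl : i = r := by omega
      have h9 : x = d := by omega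
      refine (A_cover hM {(4, 2 * 2 ^ k + (x + G))} ?_).trans ?_
      · intro L Y hLY hne
        rcases lev L Y hLY hne with ⟨rfl, hY⟩ | ⟨rfl, hY⟩
        · exfalso
          obtain ⟨T, hT⟩ := hne
          rw [hY] at hT
          exact R5_wx0 hxk (by rw [h9]; exact h6) T hT
        · simp [hY]
      · rw [Finset.sum_singleton]
        exact R5_four (by omega)
    · refine (A_cover hM {(3, 2 ^ k + x)} ?_).trans ?_
      · intro L Y hLY hne
        rcases lev L Y hLY hne with ⟨rfl, hY⟩ | ⟨rfl, hY⟩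
        · simp [hY]
        · exfalso
          obtain ⟨T, hT⟩ := hne
          obtain ⟨i, hi, -, hYi⟩ := TS_four_top hT (by omega)
          exact hA ⟨i, hi, by omega⟩
      · rw [Finset.sum_singleton]
        exact R5_wx hx1 hxk hnp
  · -- (B)
    exfalso
    subst hxG
    have h2x : pc (x + x) = pc x := by rw [← two_mul, pc_two_mul]
    rcases hcases with h | ⟨j, -, hj⟩ | ⟨i, j, -, -, hij⟩ | ⟨j, -, hj⟩
    · omega
    · rw [hj, pc_pow] at h2x; omega
    · have h7 := pc_add_le (2 ^ i) (2 ^ j)
      rw [pc_pow, pc_pow] at h7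
      rw [hij] at h2x
      omega
    · have h7 := pc_three_mul_ne hx1
      have h8 : 3 * x = 2 ^ j := by omega
      rw [h8, pc_pow] at h7
      omega
  · -- (C)
    obtain ⟨y, rfl⟩ : ∃ y, x = G + y := ⟨x - G, by omega⟩
    have hy1 : 1 ≤ y := by omega
    have hyk : y < 2 ^ k := by omega
    have lev : ∀ L Y, (e + G) + Y = L * M → (TS k L Y).Nonempty →
        (L = 2 ∧ Y = y) ∨ (L = 3 ∧ Y = 2 ^ k + (G + y) ∧ G + y ≤ 2 ^ k) ∨
        (L = 4 ∧ Y = 2 * 2 ^ k + ((G + y) + G)) := by
      intro L Y hLY hne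
      obtain ⟨T, hT⟩ := hne
      have hb := TS_bound hT
      rcases Nat.lt_or_ge L 6 with hL | hL
      · interval_cases L
        · omega
        · omega
        · left; omega
        · right; left; refine ⟨rfl, by omega, by omega⟩
        · right; right; omega
        · omega
      · exfalso
        obtain ⟨u, rfl⟩ := Nat.exists_eq_add_of_le hL
        have e1 : (6 + u) * M = 2 * M + (4 + u) * M := by ring
        have e2 : (4 + u) * 2 ^ k ≤ (4 + u) * M := Nat.mul_le_mul_left _ hM.le
        have e3 : (4 + u) * 2 ^ k = 4 * 2 ^ k + u * 2 ^ k := by ring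
        have e4 : 2 ^ k * (6 + u + 1) = 7 * 2 ^ k + u * 2 ^ k := by ring
        omega
    by_cases hA : ∃ i, i < k ∧ (G + y) + G = 2 ^ i
    · -- C1
      obtain ⟨i, hik, hi⟩ := hA
      have h7 : r < i := R5_pow_lt (by omega)
      have hri : 2 * 2 ^ r ≤ 2 ^ i := by
        calc 2 * 2 ^ r = 2 ^ (r + 1) := by ring
          _ ≤ 2 ^ i := R5_pow_le h7
      have hik2 : 2 ^ i < 2 ^ k := (Nat.pow_lt_pow_iff_right (by norm_num)).2 hik
      have hpx : 4 ≤ pc (G + y) := by
        have h8 := pc_diff (k := i) (i := r) (t := d) h7.le (by omega)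
        have h9 : 2 ^ i - 2 ^ r + d = G + y := by omega
        rw [h9] at h8
        omega
      have hpy : 3 ≤ pc y := by
        have e5 : 2 ^ (r + 1) = 2 * 2 ^ r := by ring
        have h8 := pc_diff (k := i) (i := r + 1) (t := 2 * d) h7 (by omega)
        have h9 : 2 ^ i - 2 ^ (r + 1) + 2 * d = y := by omega
        rw [h9, pc_two_mul] at h8
        omega
      refine (A_cover hM {(4, 2 * 2 ^ k + ((G + y) + G))} ?_).trans ?_
      · intro L Y hLY hne
        rcases lev L Y hLY hne with ⟨rfl, hY⟩ | ⟨rfl, hY, hle⟩ | ⟨rfl, hY⟩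
        · exfalso
          obtain ⟨T, hT⟩ := hne
          have hc := TS_card hT
          rw [hY] at hc
          omega
        · exfalso
          obtain ⟨T, hT⟩ := hne
          rw [hY] at hT
          exact R5_wx0 (by omega) (by omega) T hT
        · simp [hY]
      · rw [Finset.sum_singleton]
        exact R5_four (by omega)
    · -- C2
      have no4 : ∀ Y, Y = 2 * 2 ^ k + ((G + y) + G) → ¬ (TS k 4 Y).Nonempty := by
        rintro Y hY ⟨T, hT⟩
        obtain ⟨i, hi, -, hYi⟩ := TS_four_top hT (by omega)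
        exact hA ⟨i, hi, by omega⟩
      by_cases hy3 : 3 ≤ pc y
      · -- only L = 3
        rcases Nat.lt_or_ge (2 ^ k) (G + y) with hc | hc
        · refine (A_cover hM ∅ ?_).trans ?_
          · intro L Y hLY hne
            exfalso
            rcases lev L Y hLY hne with ⟨rfl, hY⟩ | ⟨rfl, hY, hle⟩ | ⟨rfl, hY⟩
            · obtain ⟨T, hT⟩ := hne
              have hc := TS_card hT
              rw [hY] at hc
              omega
            · omega
            · exact no4 Y hY hne
          · simp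
        · refine (A_cover hM {(3, 2 ^ k + (G + y))} ?_).trans ?_
          · intro L Y hLY hne
            rcases lev L Y hLY hne with ⟨rfl, hY⟩ | ⟨rfl, hY, hle⟩ | ⟨rfl, hY⟩
            · exfalso
              obtain ⟨T, hT⟩ := hne
              have hc := TS_card hT
              rw [hY] at hc
              omega
            · simp [hY]
            · exact absurd hne (no4 Y hY)
          · rw [Finset.sum_singleton]
            rcases Nat.eq_or_lt_of_le hc with h | h
            · have h8 : 2 ^ k + (G + y) = 2 * 2 ^ k := by omega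
              show (TS k 3 (2 ^ k + (G + y))).ncard ≤ 1
              rw [h8]
              exact R5_three
            · exact R5_wx hx1 h hnp
      · -- only L = 2
        refine (A_cover hM {(2, y)} ?_).trans ?_
        · intro L Y hLY hne
          rcases lev L Y hLY hne with ⟨rfl, hY⟩ | ⟨rfl, hY, hle⟩ | ⟨rfl, hY⟩
          · simp [hY]
          · exfalso
            have hc : G + y < 2 ^ k := by
              rcases Nat.eq_or_lt_of_le hle with h | h
              · exfalso
                have h8 := pc_diff (k := k) (i := r) (t := d) (by omega) (by omega)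
                have h9 : 2 ^ k - 2 ^ r + d = y := by omega
                rw [h9] at h8
                omega
              · exact h
            have h8 := R5_two hx1 hc hnp
            have h9 : 3 ≤ pc (G + y) := by
              by_contra hcon
              refine hnp2 ⟨by omega, by omega, hc, ?_⟩
              have : G + y - G = y := by omega
              rw [this]
              omega
            obtain ⟨T, hT⟩ := hne
            rw [hY] at hT
            exact R5_wx0 hc h9 T hT
          · exact absurd hne (no4 Y hY)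
        · rw [Finset.sum_singleton]
          exact TS_two_card _ _

end Pool.Agent.H978D
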