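import Pool.Agent.H978D.DefsR
import Pool.Agent.H978D.D1
import Pool.Agent.H978D.D2
import Pool.Agent.H978D.D3
import Pool.Agent.H978D.D4
import Pool.Agent.H978D.D5
import Pool.Agent.H978D.D6
import Pool.Agent.H978D.D7
import Pool.Agent.H978D.D8
import Pool.Agent.H978D.D9
import Pool.Agent.H978D.R1
import Pool.Agent.H978D.R2
import Pool.Agent.H978D.R3
import Pool.Agent.H978D.R4
import Pool.Agent.H978D.R5

set_option autoImplicit false

namespace Pool.Agent.H978D

open Pool.Agent.MPe9218d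


































theorem r6_basic {k r M d G : ℕ} (H : Hyp4 k r M d G) :
    1 ≤ G ∧ 1 ≤ d ∧ 2 ^ k < M ∧ 1 ≤ r ∧ 2 ^ (r - 1) < G ∧ G < 2 ^ r ∧ Nc k M G := by
  obtain ⟨hr, hM, hd, h2d, hpG, hpd⟩ := H
  have hG : 1 ≤ G := by
    by_contra h
    have h0 : G = 0 := by omega
    rw [h0, pc_zero] at hpG
    omega
  have hd1 : 1 ≤ d := by
    by_contra h
    have h0 : d = 0 := by omega
    rw [h0, pc_zero] at hpd
    omega
  have hwM : 2 ^ k < M := by omega
  have hr1 : 1 ≤ r := by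
    by_contra h
    have h0 : r = 0 := by omega
    rw [h0] at h2d
    simp at h2d
    omega
  have hpow : 2 ^ r = 2 * 2 ^ (r - 1) := by
    rw [← pow_succ']
    congr 1
    omega
  refine ⟨hG, hd1, hwM, hr1, by omega, by omega, ?_⟩
  rw [nc_iff hwM hG]
  refine ⟨1, 2 ^ k, ⟨{(1, k)}, ?_, ?_, ?_⟩, by omega⟩
  · intro p hp
    rw [Finset.mem_singleton] at hp
    subst hp
    exact ⟨le_rfl, le_rfl⟩
  · simp
  · simp

/-- TARGET -/
theorem t_follow {k r M d G e f : ℕ} {b : ℕ → ℕ} (H : Hyp4 k r M d G)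
    (hId : Identity M (k + 1) b) (he : Nc k M e) (hf : Nc k M f) (hs : Step b M e f) :
    2 * M < e ∨ (∃ i, i < k ∧ e + 2 ^ i = 2 * M) ∨
      ∃ x, e + x = 2 * M ∧ pc x = 2 ∧ G < x ∧ x < 2 ^ k ∧ pc (x - G) ≤ 2 := by
  obtain ⟨hG, hd1, hwM, hr1, hG1, hG2, hNG⟩ := r6_basic H
  have hfm := nc_min hwM hf
  have hem := nc_min hwM he
  have hMG : M = 2 ^ k + G := H.2.1
  have hfG : G ≤ f := by omega
  have heG : G ≤ e := by omega
  by_cases h1 : 2 * M < e
  · exact Or.inl h1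
  right
  by_cases h2 : e < M
  · exfalso
    have hA := t_nf1 (x := M - e) H he (by omega) (by omega)
    exact kill hId he hNG heG hA hfG hs
  · by_contra hcon
    push Not at hcon
    obtain ⟨hc1, hc2⟩ := hcon
    have hA := t_nf2 (x := 2 * M - e) H he (by omega) (by omega)
      (by
        rintro ⟨i, hi, hx⟩
        exact hc1 i hi (by omega))
      (by
        rintro ⟨ha, hb, hc, hd⟩
        have := hc2 (2 * M - e) (by omega) ha hb hc
        omega)
    exact kill hId he hNG heG hA hfG hs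

/-- TARGET -/
theorem t_len_two {k r M d G n : ℕ} {b : ℕ → ℕ} {l : List ℕ} (H : Hyp4 k r M d G)
    (hb : ∀ j, 1 ≤ j → j ≤ M → 1 ≤ b j) (hId : Identity M (k + 1) b) (hn1 : 1 ≤ n)
    (hn : n < 3 * M) (hl : l ∈ BSet b M (C M (k + 1)) n) :
    l = [n] ∨ ∃ e f, l = [e, f] ∧ e + f = n ∧ f < e ∧ Nc k M e ∧ Nc k M f ∧ Step b M e f := by
  obtain ⟨hG, hd1, hwM, hr1, hG1, hG2, hNG⟩ := r6_basic H
  have hMG : M = 2 ^ k + G := H.2.1
  have hM1 : 1 ≤ M := by omega
  obtain ⟨⟨hp, hpos, hsum⟩, hC, hch⟩ := hl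
  rcases l with _ | ⟨e₁, _ | ⟨e₂, _ | ⟨e₃, l'⟩⟩⟩
  · simp at hsum
    omega
  · left
    simp at hsum
    rw [hsum]
  · right
    have hs : Step b M e₁ e₂ := by simpa using hch
    have h1 : Nc k M e₁ := ⟨hpos e₁ (by simp), hC e₁ (by simp)⟩
    have h2 : Nc k M e₂ := ⟨hpos e₂ (by simp), hC e₂ (by simp)⟩
    refine ⟨e₁, e₂, rfl, by simpa using hsum, step_lt hM1 hb hs, h1, h2, hs⟩
  · exfalso
    have hs12 : Step b M e₁ e₂ := by
      rw [List.isChain_cons_cons] at hch
      exact hch.1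
    have hs23 : Step b M e₂ e₃ := by
      rw [List.isChain_cons_cons, List.isChain_cons_cons] at hch
      exact hch.2.1
    have h1 : Nc k M e₁ := ⟨hpos e₁ (by simp), hC e₁ (by simp)⟩
    have h2 : Nc k M e₂ := ⟨hpos e₂ (by simp), hC e₂ (by simp)⟩
    have h3 : Nc k M e₃ := ⟨hpos e₃ (by simp), hC e₃ (by simp)⟩
    have hlt1 := step_lt hM1 hb hs12
    have hlt2 := step_lt hM1 hb hs23
    have hm3 := nc_min hwM h3
    have hle : e₁ + e₂ + e₃ ≤ n := by
      simp only [List.sum_cons] at hsum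
      omega
    have hk1 : 1 ≤ k := by have := H.1; omega
    have hpk : 2 ^ k = 2 * 2 ^ (k - 1) := by
      rw [← pow_succ']
      congr 1
      omega
    rcases t_follow H hId h2 h3 hs23 with h | ⟨i, hi, hx⟩ | ⟨x, hx, hpx, hxG, hxk, hpxG⟩
    · omega
    · have hi2 : 2 ^ i ≤ 2 ^ (k - 1) := Nat.pow_le_pow_right (by norm_num) (by omega)
      omega
    · obtain ⟨i, j, hij, hxe⟩ := pc_two hpx
      have hi0 : 1 ≤ 2 ^ i := Nat.one_le_two_pow
      have hjk : j < k := by
        by_contra h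
        have : 2 ^ k ≤ 2 ^ j := Nat.pow_le_pow_right (by norm_num) (by omega)
        omega
      have hij2 : 2 ^ i < 2 ^ j := Nat.pow_lt_pow_right (by norm_num) hij
      have hjk1 : j = k - 1 := by
        by_contra h
        have h5 : 2 ^ (j + 1) ≤ 2 ^ (k - 1) := Nat.pow_le_pow_right (by norm_num) (by omega)
        rw [pow_succ] at h5
        omega
      subst hjk1
      have hiG : G < 2 ^ i := by omega
      have hri : r ≤ i := by
        by_contra h
        have : 2 ^ i ≤ 2 ^ (r - 1) := Nat.pow_le_pow_right (by norm_num) (by omega)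
        omega
      have hri2 : 2 ^ r ≤ 2 ^ i := Nat.pow_le_pow_right (by norm_num) hri
      obtain ⟨_, _, hd, h2d, hpG, hpd⟩ := H
      have e1 : x - G = 2 ^ (k - 1) + (2 ^ i - 2 ^ r + d) := by omega
      have e2 : pc (2 ^ i - 2 ^ r + d) = (i - r) + pc d := pc_diff hri (by omega)
      have e3 : pc (2 ^ (k - 1) + (2 ^ i - 2 ^ r + d)) = 1 + pc (2 ^ i - 2 ^ r + d) :=
        pc_top (by omega)
      rw [e1, e3, e2] at hpxG
      omega

end Pool.Agent.H978D
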