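import Pool.Agent.H978D.DefsR
import Pool.Agent.H978D.D1
import Pool.Agent.H978D.D8
import Pool.Agent.H978D.D9
import Pool.Agent.H978D.R10
import Pool.Agent.H978D.R11
import Pool.Agent.H978D.R12
import Pool.Agent.H978D.R4
import Pool.Agent.H978D.R6

set_option autoImplicit false

namespace Pool.Agent.H978D

open Pool.Agent.MPe9218d



















/-- TARGET -/
theorem t_no_step {k r M d G : ℕ} {b : ℕ → ℕ} (H : Hyp4 k r M d G)
    (hb : ∀ j, 1 ≤ j → j ≤ M → 1 ≤ b j) (hId : Identity M (k + 1) b) :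
    ¬ Step b M (2 * M - 2 ^ (r - 1)) (2 * M - (2 ^ k + 2 ^ (r - 1))) := by
  intro hs
  obtain ⟨h1, hMG, hdG, hd, hG, hpd⟩ := id H
  have hd0 : 1 ≤ d := by
    rcases Nat.eq_zero_or_pos d with h | h
    · exfalso
      rw [h] at hpd
      simp [pc] at hpd
    · exact h
  have hr2 : 2 ≤ r := by
    by_contra hlt
    have hr : r = 0 ∨ r = 1 := by omega
    rcases hr with h | h <;> subst h <;> norm_num at hd <;> omega
  obtain ⟨q, rfl⟩ : ∃ q, r = q + 2 := ⟨r - 2, by omega⟩
  have e1 : q + 2 - 1 = q + 1 := by omega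
  have e2 : q + 2 - 2 = q := by omega
  have hu0 : 1 ≤ 2 ^ q := Nat.one_le_two_pow
  have hu1 : 2 ^ (q + 1) = 2 * 2 ^ q := by ring
  have hu2 : 2 ^ (q + 2) = 4 * 2 ^ q := by ring
  have hk : 8 * 2 ^ q ≤ 2 ^ k := by
    calc 8 * 2 ^ q = 2 ^ (q + 3) := by ring
      _ ≤ 2 ^ k := Nat.pow_le_pow_right (by norm_num) (by omega)
  rw [hu2] at hdG hd
  have hwM : 2 ^ k < M := by omega
  rw [e1, hu1] at hs
  -- allowed parts
  have hone : ∀ L i, 1 ≤ L → i ≤ k → ∀ n, 1 ≤ n → n + 2 ^ i = L * M → Nc k M n := by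
    intro L i hL hi n hn hnL
    rw [nc_iff hwM hn]
    refine ⟨L, 2 ^ i, ⟨{(L, i)}, ?_, ?_, ?_⟩, hnL⟩
    · intro p hp
      rw [Finset.mem_singleton] at hp
      subst hp
      exact ⟨hL, hi⟩
    · simp
    · simp
  have hN1 : Nc k M (3 * M - 3 * 2 ^ q) := by
    rw [nc_iff hwM (by omega)]
    refine ⟨3, 3 * 2 ^ q, ⟨{(2, q + 1), (1, q)}, ?_, ?_, ?_⟩, by omega⟩
    · intro p hp
      simp only [Finset.mem_insert, Finset.mem_singleton] at hp
      rcases hp with rfl | rfl
      · exact ⟨by norm_num, by simp only; omega⟩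
      · exact ⟨le_rfl, by simp only; omega⟩
    · rw [Finset.sum_pair (by simp)]
      norm_num
    · rw [Finset.sum_pair (by simp)]
      simp only
      omega
  have hN2 : Nc k M (2 * M - 2 * 2 ^ q) :=
    hone 2 (q + 1) (by norm_num) (by omega) _ (by omega) (by omega)
  have hN3 : Nc k M (M - 2 ^ q) := hone 1 q le_rfl (by omega) _ (by omega) (by omega)
  have hN4 : Nc k M (2 * M - 2 ^ q) := hone 2 q (by norm_num) (by omega) _ (by omega) (by omega)
  have hN5 : Nc k M (M - 2 * 2 ^ q) := hone 1 (q + 1) le_rfl (by omega) _ (by omega) (by omega)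
  -- first step: the step from `2 * M - 2 ^ q`
  have hstep : Step b M (2 * M - 2 ^ q) (M - 2 ^ q) := by
    have hlow := t_c_lower H
    rw [e1, hu1] at hlow
    have hn1 : 1 ≤ 3 * M - 2 * 2 ^ q := by omega
    rw [hId _ hn1] at hlow
    unfold B0 at hlow
    have hlow2 : 1 < (BSet b M (C M (k + 1)) (3 * M - 2 * 2 ^ q)).ncard := by omega
    obtain ⟨l, hl, hne2⟩ := Set.exists_ne_of_one_lt_ncard hlow2 ([3 * M - 2 * 2 ^ q])
    rcases t_len_two H hb hId hn1 (by omega) hl with h | ⟨e, f, hlef, hef, hfe, hNe, hNf, hst⟩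
    · exact absurd h hne2
    · have hn : e + f + 2 ^ (q + 2 - 1) = 3 * M := by
        rw [e1, hu1]
        omega
      rcases t_follow H hId hNe hNf hst with h2 | ⟨i, hi, h2⟩ | ⟨x, h2, hx, hGx, hxw, hx2⟩
      · exact (t_c_hi H hId hNe hNf hst h2 hn).elim
      · obtain ⟨he, hf⟩ := t_c_pow H hNe hNf hfe hi h2 hn
        rw [e2] at he hf
        have he' : e = 2 * M - 2 ^ q := by omega
        have hf' : f = M - 2 ^ q := by omega
        rw [← he', ← hf']
        exact hst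
      · exact (t_c_spec H hNe hNf hfe h2 hx hGx hxw hx2 hn).elim
  -- three elements
  have hup := t_c_upper H
  rw [e2, hId _ (by omega)] at hup
  unfold B0 at hup
  have hfin := finite_BSet b M (C M (k + 1)) (3 * M - 3 * 2 ^ q)
  have hthree : 2 < (BSet b M (C M (k + 1)) (3 * M - 3 * 2 ^ q)).ncard := by
    rw [Set.two_lt_ncard_iff hfin]
    refine ⟨[3 * M - 3 * 2 ^ q], [2 * M - 2 * 2 ^ q, M - 2 ^ q], [2 * M - 2 ^ q, M - 2 * 2 ^ q],
      mem_BSet_one (by omega) hN1.2,
      mem_BSet_two (by omega) (by omega) hN2.2 hN3.2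
        (step_mono hs (Nat.ModEq.refl _) (by omega)) (by omega),
      mem_BSet_two (by omega) (by omega) hN4.2 hN5.2
        (step_mono hstep (Nat.ModEq.refl _) (by omega)) (by omega), by simp, by simp, ?_⟩
    intro h
    have := (List.cons.inj h).1
    omega
  omega
end Pool.Agent.H978D
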