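import Pool.Agent.H978D.DefsR
import Pool.Agent.H978D.D1
import Pool.Agent.H978D.D2
import Pool.Agent.H978D.D3
import Pool.Agent.H978D.D4
import Pool.Agent.H978D.D5
import Pool.Agent.H978D.D6
import Pool.Agent.H978D.D7
import Pool.Agent.H978D.D8
import Pool.Agent.H978D.D9
import Pool.Agent.H978D.R1
import Pool.Agent.H978D.R2
import Pool.Agent.H978D.R3
import Pool.Agent.H978D.R4

set_option autoImplicit false

namespace Pool.Agent.H978D

open Pool.Agent.MPe9218d































theorem r7_empty {k L Y : ℕ} (h : L < pc Y) : (TS k L Y).ncard = 0 := by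
  have e : TS k L Y = ∅ := by
    apply Set.eq_empty_of_forall_notMem
    intro T hT
    have h1 := TS_card hT
    have h2 := h1.1
    have h3 := h1.2.1
    omega
  rw [e, Set.ncard_empty]

theorem r7_one {k L Y : ℕ} (h : L ≤ pc Y) : (TS k L Y).ncard ≤ 1 := by
  rcases Nat.lt_or_ge L (pc Y) with h1 | h1
  · rw [r7_empty h1]
    exact Nat.zero_le _
  · exact TS_uniq (le_antisymm h1 h)

theorem r7_L {k M n Y3 L Y : ℕ} (hM : 2 ^ k < M) (h3 : n + Y3 = 3 * M) (hY : Y3 < M)
    (hL : n + Y = L * M) (hne : (TS k L Y).Nonempty) :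
    (L = 3 ∧ Y = Y3) ∨ (L = 4 ∧ Y = Y3 + M) ∨ (L = 5 ∧ Y = Y3 + 2 * M) := by
  obtain ⟨T, hT⟩ := hne
  have hb := TS_bound hT
  have hcases : L ≤ 2 ∨ L = 3 ∨ L = 4 ∨ L = 5 ∨ L = 6 ∨ 7 ≤ L := by omega
  rcases hcases with h | rfl | rfl | rfl | rfl | h
  · exfalso
    have h1 : L * M ≤ 2 * M := Nat.mul_le_mul_right _ h
    omega
  · left; exact ⟨rfl, by omega⟩
  · right; left; exact ⟨rfl, by omega⟩
  · right; right; exact ⟨rfl, by omega⟩
  · exfalso
    have h6 := TS_six_bound hT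
    omega
  · exfalso
    obtain ⟨u, rfl⟩ : ∃ u, L = 7 + u := ⟨L - 7, by omega⟩
    have h1 : u * 2 ^ k ≤ u * M := Nat.mul_le_mul_left _ hM.le
    have h2 : (7 + u) * M = 7 * M + u * M := by ring
    have h4 : 2 ^ k * (7 + u + 1) = 8 * 2 ^ k + u * 2 ^ k := by ring
    rw [h2] at hL
    rw [h4] at hb
    omega

theorem r7_cov {k M n Y3 : ℕ} (hM : 2 ^ k < M) (h3 : n + Y3 = 3 * M) (hY : Y3 < M) :
    A (a M) (k + 1) M n ≤ (TS k 3 Y3).ncard + ((TS k 4 (Y3 + M)).ncard +
      (TS k 5 (Y3 + 2 * M)).ncard) := by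
  classical
  have h := A_cover (k := k) (M := M) (n := n) hM {(3, Y3), (4, Y3 + M), (5, Y3 + 2 * M)} (by
    intro L Y hL hne
    rcases r7_L hM h3 hY hL hne with ⟨rfl, rfl⟩ | ⟨rfl, rfl⟩ | ⟨rfl, rfl⟩ <;> simp)
  refine h.trans (le_of_eq ?_)
  rw [Finset.sum_insert (by simp), Finset.sum_insert (by simp), Finset.sum_singleton]

theorem r7_four {k Y : ℕ} (hY : 2 * 2 ^ k < Y) : (TS k 4 Y).ncard ≤ 1 := by
  rw [Set.ncard_le_one (TS_finite k 4 Y)]
  intro T hT T' hT'
  obtain ⟨i, -, h1, h2⟩ := TS_four_top hT hY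
  obtain ⟨j, -, h3, h4⟩ := TS_four_top hT' hY
  have h5 : 2 ^ i = 2 ^ j := by omega
  have h6 : i = j := Nat.pow_right_injective (le_refl 2) h5
  subst h6
  rw [h1, h3]

theorem r7_bound5 {k Y : ℕ} (hY : 3 * 2 ^ k < Y) : (TS k 5 Y).ncard = 0 := by
  have e : TS k 5 Y = ∅ := by
    apply Set.eq_empty_of_forall_notMem
    intro T hT
    have h1 := TS_bound hT
    omega
  rw [e, Set.ncard_empty]

/-- the numbers `G` and `G' = G - 2^(r-1)` -/
theorem r7_G {k r M d G : ℕ} (H : Hyp4 k r M d G) :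
    ∃ q, r = q + 1 ∧ 2 ^ q < G ∧ G < 2 ^ r ∧ 4 ≤ pc (2 * G - 2 ^ r) := by
  obtain ⟨h1, h2, h3, h4, h5, h6⟩ := H
  have hr : 1 ≤ r := by
    rcases Nat.eq_zero_or_pos r with h | h
    · subst h
      have hd : d = 0 := by
        rw [pow_zero] at h4
        omega
      subst hd
      rw [pc_zero] at h6
      omega
    · exact h
  obtain ⟨q, rfl⟩ : ∃ q, r = q + 1 := ⟨r - 1, by omega⟩
  have e : 2 ^ (q + 1) = 2 * 2 ^ q := by rw [pow_succ]; ring
  have hd : 0 < d := by
    rcases Nat.eq_zero_or_pos d with h | h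
    · subst h
      rw [pc_zero] at h6
      omega
    · exact h
  refine ⟨q, rfl, by omega, by omega, ?_⟩
  obtain ⟨G', hG'⟩ : ∃ G', G = 2 ^ q + G' := ⟨G - 2 ^ q, by omega⟩
  have hlt : G' < 2 ^ q := by omega
  have hp := pc_top hlt
  rw [← hG'] at hp
  have e2 : 2 * G - 2 ^ (q + 1) = 2 * G' := by omega
  rw [e2, pc_two_mul]
  omega

/-- TARGET -/
theorem t_d_hi {k r M d G e f : ℕ} {b : ℕ → ℕ} (H : Hyp4 k r M d G)
    (hId : Identity M (k + 1) b) (he : Nc k M e) (hf : Nc k M f) (hs : Step b M e f)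
    (h2 : 2 * M < e) (hn : e + f + d = 3 * M) :
    (e + 2 ^ r = 3 * M ∧ f + 2 ^ k = M) ∨ (e + 2 ^ k = 3 * M ∧ f + 2 ^ r = M) ∨
    (r + 2 ≤ k ∧ e + (2 ^ (k - 1) + 2 ^ r) = 3 * M ∧ f + 2 ^ (k - 1) = M) := by
  have H0 := H
  obtain ⟨h1, hMG, hdG, h4, h5, h6⟩ := H0
  obtain ⟨q, hq, hG1, hG2, hG3⟩ := r7_G H
  have hkr : 2 ^ r * 2 ≤ 2 ^ k := by
    have h := Nat.pow_le_pow_right (show 0 < 2 by norm_num) h1
    rwa [pow_succ] at h
  have hr0 : 0 < 2 ^ r := Nat.pow_pos (by norm_num)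
  have hMw : 2 ^ k < M := by omega
  have hfM : f < M := by omega
  obtain ⟨y, hy⟩ : ∃ y, f + y = M := ⟨M - f, by omega⟩
  have hy1 : 1 ≤ y := by omega
  have hyd : d < y := by omega
  have hGw : Nc k M G := by
    rw [nc_iff hMw (by omega)]
    refine ⟨1, 2 ^ k, ⟨{(1, k)}, ?_⟩, by omega⟩
    refine ⟨?_, by simp, by simp⟩
    intro p hp
    rw [Finset.mem_singleton] at hp
    subst hp
    exact ⟨le_refl _, le_refl _⟩
  have hGf : G ≤ f := by
    have h := nc_min hMw hf
    omega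
  have hkill : A (a M) (k + 1) M (e + G) ≤ 1 → False := fun hA =>
    kill hId he hGw (by omega) hA hGf hs
  have hrr : 2 ^ (r + 1) = 2 * 2 ^ r := by rw [pow_succ]; ring
  have hqq : 2 ^ r = 2 * 2 ^ q := by rw [hq, pow_succ]; ring
  have hp2r : pc (2 ^ r + G) = 1 + pc G := pc_top hG2
  have hp2r2 : pc (2 ^ r + 2 * G) = 1 + pc (2 * G - 2 ^ r) := by
    have e1 : 2 ^ r + 2 * G = 2 ^ (r + 1) + (2 * G - 2 ^ r) := by omega
    rw [e1]
    exact pc_top (by omega)
  have hkk : 2 ^ (k + 1) = 2 * 2 ^ k := by rw [pow_succ]; ring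
  rcases t_nc1 H hf hy1 hy with ⟨i, hik, hyi⟩ | ⟨j, hjk, hyj⟩
  · -- y = 2 ^ i
    rcases Nat.lt_or_ge i k with hik' | hik'
    swap
    · have : i = k := le_antisymm hik hik'
      subst this
      left
      constructor <;> omega
    rcases lt_trichotomy i r with hir | hir | hir
    · -- i < r
      exfalso
      apply hkill
      have hi2 : 2 ^ i < 2 ^ r := Nat.pow_lt_pow_right (by norm_num) hir
      have hdi : d < 2 ^ i := by omega
      have hc := r7_cov (k := k) (M := M) (n := e + G) (Y3 := 2 ^ k - 2 ^ i + d) hMw (by omega)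
        (by omega)
      have c3 : (TS k 3 (2 ^ k - 2 ^ i + d)).ncard = 0 := by
        apply r7_empty
        rw [pc_diff hik hdi]
        omega
      have c4 : (TS k 4 (2 ^ k - 2 ^ i + d + M)).ncard ≤ 1 := r7_four (by omega)
      have c5 : (TS k 5 (2 ^ k - 2 ^ i + d + 2 * M)).ncard = 0 := r7_bound5 (by omega)
      omega
    · subst hir
      right; left
      constructor <;> omega
    · -- r < i < k
      have hri : 2 ^ (r + 1) ≤ 2 ^ i := Nat.pow_le_pow_right (by norm_num) hir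
      rcases Nat.lt_or_ge (i + 1) k with hik2 | hik2
      · exfalso
        apply hkill
        have hi4 : 2 ^ (i + 1) ≤ 2 ^ k := Nat.pow_le_pow_right (by norm_num) hik2.le
        have hi5 : 2 ^ (i + 1) = 2 * 2 ^ i := by rw [pow_succ]; ring
        have hc := r7_cov (k := k) (M := M) (n := e + G) (Y3 := 2 ^ k - 2 ^ i + d) hMw (by omega)
          (by omega)
        have c3 : (TS k 3 (2 ^ k - 2 ^ i + d)).ncard = 0 := by
          apply r7_empty
          rw [pc_diff hik (by omega)]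
          omega
        have c4 : (TS k 4 (2 ^ k - 2 ^ i + d + M)).ncard ≤ 1 := by
          apply r7_one
          have e1 : 2 ^ k - 2 ^ i + d + M = 2 ^ k + (2 ^ k - 2 ^ i + 2 ^ r) := by omega
          rw [e1, pc_top (by omega), pc_diff hik (by omega), pc_pow]
          omega
        have c5 : (TS k 5 (2 ^ k - 2 ^ i + d + 2 * M)).ncard = 0 := by
          apply r7_empty
          have e1 : 2 ^ k - 2 ^ i + d + 2 * M = 2 ^ (k + 1) + (2 ^ k - 2 ^ i + (2 ^ r + G)) := by
            omega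
          rw [e1, pc_top (by omega), pc_diff hik (by omega), hp2r]
          omega
        omega
      · have hik3 : k = i + 1 := by omega
        subst hik3
        right; right
        have e1 : i + 1 - 1 = i := by omega
        have hi5 : 2 ^ (i + 1) = 2 * 2 ^ i := by rw [pow_succ]; ring
        rw [e1]
        refine ⟨by omega, by omega, by omega⟩
  · -- y + G = 2 ^ j
    exfalso
    have hrj : 2 ^ r < 2 ^ j := by omega
    have hrj' : r < j := (Nat.pow_lt_pow_iff_right (by norm_num)).mp hrj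
    have hrj2 : 2 ^ (r + 1) ≤ 2 ^ j := Nat.pow_le_pow_right (by norm_num) hrj'
    have hj5 : 2 ^ (j + 1) = 2 * 2 ^ j := by rw [pow_succ]; ring
    have hj4 : 2 ^ (j + 1) ≤ 2 ^ k := Nat.pow_le_pow_right (by norm_num) hjk
    rcases Nat.lt_or_ge (j + 1) k with hjk2 | hjk2
    · apply hkill
      have hc := r7_cov (k := k) (M := M) (n := e + G) (Y3 := 2 ^ k - 2 ^ j + 2 ^ r) hMw (by omega)
        (by omega)
      have c3 : (TS k 3 (2 ^ k - 2 ^ j + 2 ^ r)).ncard ≤ 1 := by
        apply r7_one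
        rw [pc_diff hjk.le (by omega), pc_pow]
        omega
      have c4 : (TS k 4 (2 ^ k - 2 ^ j + 2 ^ r + M)).ncard = 0 := by
        apply r7_empty
        have e1 : 2 ^ k - 2 ^ j + 2 ^ r + M = 2 ^ k + (2 ^ k - 2 ^ j + (2 ^ r + G)) := by omega
        rw [e1, pc_top (by omega), pc_diff hjk.le (by omega), hp2r]
        omega
      have c5 : (TS k 5 (2 ^ k - 2 ^ j + 2 ^ r + 2 * M)).ncard = 0 := by
        rcases Nat.lt_or_ge (2 ^ r + 2 * G) (2 ^ j) with h7 | h7
        · apply r7_empty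
          have e1 : 2 ^ k - 2 ^ j + 2 ^ r + 2 * M =
              2 ^ (k + 1) + (2 ^ k - 2 ^ j + (2 ^ r + 2 * G)) := by omega
          rw [e1, pc_top (by omega), pc_diff hjk.le h7, hp2r2]
          omega
        · apply r7_bound5
          have hr2 : 2 ^ (r + 1 + 1) = 2 * 2 ^ (r + 1) := by rw [pow_succ]; ring
          have h8 : 2 ^ j < 2 ^ (r + 1 + 1) := by omega
          have h9 : j < r + 1 + 1 := (Nat.pow_lt_pow_iff_right (by norm_num)).mp h8
          have h10 : j = r + 1 := by omega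
          subst h10
          omega
      omega
    · have hk : k = j + 1 := by omega
      subst hk
      -- e is not allowed
      have hx : e + (2 ^ j + 2 ^ r + G) = 3 * M := by omega
      rw [nc_iff hMw (by omega)] at he
      obtain ⟨L, Y, hne, hLY⟩ := he
      have hne' := hne
      obtain ⟨T, hT⟩ := hne
      rcases r7_L hMw hx (by omega) hLY hne' with ⟨rfl, rfl⟩ | ⟨rfl, rfl⟩ | ⟨rfl, rfl⟩
      · have hc := TS_card hT
        have hp : pc (2 ^ j + 2 ^ r + G) = 2 + pc G := by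
          rw [add_assoc, pc_top (by omega), hp2r]
          omega
        have h11 := hc.1
        have h12 := hc.2.1
        omega
      · rcases Nat.lt_or_ge (r + 1) j with h7 | h7
        · have hr2 : 2 ^ (r + 1 + 1) = 2 * 2 ^ (r + 1) := by rw [pow_succ]; ring
          have hr3 : 2 ^ (r + 1 + 1) ≤ 2 ^ j := Nat.pow_le_pow_right (by norm_num) h7
          have hc := TS_card hT
          have e1 : 2 ^ j + 2 ^ r + G + M = 2 ^ (j + 1) + (2 ^ j + (2 ^ r + 2 * G)) := by omega
          have h11 := hc.1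
          have h12 := hc.2.1
          rw [e1, pc_top (by omega), pc_top (by omega), hp2r2] at h12
          omega
        · have h10 : j = r + 1 := by omega
          subst h10
          obtain ⟨i, -, -, h2⟩ := TS_four_top hT (by omega)
          have h13 : 2 * G - 2 ^ r = 2 ^ i := by omega
          rw [h13, pc_pow] at hG3
          omega
      · obtain ⟨h14, h15⟩ := TS_five_top hT (by omega)
        have e1 : 2 ^ j + 2 ^ r + G + 2 * M - 2 * 2 ^ (j + 1) = 2 ^ j + (2 ^ r + 3 * G) := by omega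
        rw [e1, pc_top (by omega)] at h14
        have h16 := pc_pos (n := 2 ^ r + 3 * G) (by omega)
        obtain ⟨m, hm⟩ := pc_one (n := 2 ^ r + 3 * G) (by omega)
        have hr2 : 2 ^ (r + 1 + 1) = 2 * 2 ^ (r + 1) := by rw [pow_succ]; ring
        have h17 : 2 ^ (r + 1) < 2 ^ m := by omega
        have h18 : 2 ^ m < 2 ^ (r + 1 + 1) := by omega
        have h19 : r + 1 < m := (Nat.pow_lt_pow_iff_right (by norm_num)).mp h17
        have h20 : m < r + 1 + 1 := (Nat.pow_lt_pow_iff_right (by norm_num)).mp h18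
        omega

end Pool.Agent.H978D
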