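import Pool.Agent.H978D.DefsR
import Pool.Agent.H978D.D1
import Pool.Agent.H978D.D2
import Pool.Agent.H978D.D3
import Pool.Agent.H978D.D4
import Pool.Agent.H978D.D5
import Pool.Agent.H978D.D6
import Pool.Agent.H978D.D7
import Pool.Agent.H978D.D8
import Pool.Agent.H978D.D9
import Pool.Agent.H978D.R1
import Pool.Agent.H978D.R2
import Pool.Agent.H978D.R3
import Pool.Agent.H978D.R4

set_option autoImplicit false

namespace Pool.Agent.H978D

open Pool.Agent.MPe9218d
































theorem nc_one_397 {k M n j : ℕ} (hM : 2 ^ k < M) (hn : 1 ≤ n) (hj : j ≤ k)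
    (h : n + 2 ^ j = M) : Nc k M n := by
  rw [nc_iff hM hn]
  refine ⟨1, 2 ^ j, ⟨{(1, j)}, ?_⟩, by omega⟩
  simp [TS, hj]

theorem A_aux_397 {k M n y : ℕ} (hM : 2 ^ k < M) (hn : 1 ≤ n) (hy : 2 ^ k ≤ y)
    (hny : n + y = 2 * M) (hp : ∀ Y, n + Y = M → 2 ≤ pc Y) :
    A (a M) (k + 1) M n ≤ 1 := by
  have h := A_cover (n := n) hM {(2, y)} ?_
  · rw [Finset.sum_singleton] at h
    exact h.trans (TS_two_card k y)
  · intro L Y hLY hne
    obtain ⟨T, hT⟩ := hne
    rcases L with _ | _ | _ | L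
    · exfalso
      rw [Nat.zero_mul] at hLY
      omega
    · exfalso
      have h1 := hp Y (by omega)
      obtain ⟨j, hj, hYj⟩ := TS_one hT
      rw [hYj, pc_pow] at h1
      omega
    · have : Y = y := by omega
      simp [this]
    · exfalso
      have hb := TS_bound hT
      have h1 : (L + 1) * (2 ^ k + 1) ≤ (L + 1) * M := Nat.mul_le_mul_left _ hM
      have h2 : (L + 1) * (2 ^ k + 1) = L * 2 ^ k + 2 ^ k + L + 1 := by ring
      have h3 : (L + 1 + 1 + 1) * M = (L + 1) * M + 2 * M := by ring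
      have h4 : 2 ^ k * (L + 1 + 1 + 1 + 1) = L * 2 ^ k + 4 * 2 ^ k := by ring
      omega

/-- TARGET -/
theorem t_d_pow {k r M d G e f i : ℕ} {b : ℕ → ℕ} (H : Hyp4 k r M d G)
    (hId : Identity M (k + 1) b) (he : Nc k M e) (hf : Nc k M f) (hfe : f < e)
    (hs : Step b M e f) (hi : i < k) (h2 : e + 2 ^ i = 2 * M) (hn : e + f + d = 3 * M) :
    e + 2 ^ (r - 1) = 2 * M ∧ f + (2 ^ k + 2 ^ (r - 1)) = 2 * M := by
  obtain ⟨hr, hM, hdG, h2d, hpG, hpd⟩ := id H
  have hG1 : 1 ≤ G := by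
    rcases Nat.eq_zero_or_pos G with h | h
    · rw [h, pc_zero] at hpG; omega
    · exact h
  have hd1 : 1 ≤ d := by
    rcases Nat.eq_zero_or_pos d with h | h
    · rw [h, pc_zero] at hpd; omega
    · exact h
  have hwM : 2 ^ k < M := by omega
  have hr1 : 1 ≤ r := by
    rcases Nat.eq_zero_or_pos r with h | h
    · subst h
      rw [pow_zero] at h2d
      omega
    · exact h
  have hrr : 2 ^ r = 2 * 2 ^ (r - 1) := by
    obtain ⟨s, rfl⟩ : ∃ s, r = s + 1 := ⟨r - 1, by omega⟩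
    rw [Nat.add_sub_cancel, pow_succ]
    ring
  have hrk' : 2 * 2 ^ r ≤ 2 ^ k := by
    have hrk : 2 ^ (r + 1) ≤ 2 ^ k := Nat.pow_le_pow_right (by norm_num) hr
    rw [pow_succ] at hrk
    omega
  have hik : 2 * 2 ^ i ≤ 2 ^ k := by
    have h : 2 ^ (i + 1) ≤ 2 ^ k := Nat.pow_le_pow_right (by norm_num) hi
    rw [pow_succ] at h
    omega
  have hip : 1 ≤ 2 ^ i := Nat.one_le_two_pow
  rcases lt_trichotomy (2 ^ i) d with hid | hid | hid
  · exfalso
    obtain ⟨y, hy⟩ : ∃ y, d = 2 ^ i + y := ⟨d - 2 ^ i, by omega⟩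
    have hfy : f + y = M := by omega
    rcases t_nc1 H hf (by omega) hfy with ⟨j, hj, hyj⟩ | ⟨j, hj, hyj⟩
    · have h := pc_add_le (2 ^ i) (2 ^ j)
      rw [pc_pow, pc_pow] at h
      rw [hy, hyj] at hpd
      omega
    · have h1 : 2 ^ (r - 1) < 2 ^ j := by omega
      have h2' : 2 ^ j < 2 ^ r := by omega
      have h3 := (Nat.pow_lt_pow_iff_right (by norm_num : 1 < 2)).1 h1
      have h4 := (Nat.pow_lt_pow_iff_right (by norm_num : 1 < 2)).1 h2'
      omega
  · exfalso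
    rw [← hid, pc_pow] at hpd
    omega
  · by_cases hir : i + 1 = r
    · subst hir
      rw [Nat.add_sub_cancel] at hrr ⊢
      constructor
      · exact h2
      · omega
    by_cases hri : r ≤ i
    · exfalso
      have hri' : 2 ^ r ≤ 2 ^ i := Nat.pow_le_pow_right (by norm_num) hri
      obtain ⟨e0, he0⟩ : ∃ e0, e = e0 + M := ⟨e - M, by omega⟩
      obtain ⟨f0, hf0⟩ : ∃ f0, f = f0 + M := ⟨f - M, by omega⟩
      obtain ⟨g, hg⟩ : ∃ g, g + 2 ^ k = M := ⟨M - 2 ^ k, by omega⟩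
      subst he0 hf0
      have hs' : Step b M e0 f0 := step_shift.1 hs
      have hNe : Nc k M e0 := nc_one_397 (j := i) hwM (by omega) hi.le (by omega)
      have hNg : Nc k M g := nc_one_397 (j := k) hwM (by omega) le_rfl hg
      have hA : A (a M) (k + 1) M (e0 + g) ≤ 1 := by
        refine A_aux_397 (y := 2 ^ i + 2 ^ k) hwM (by omega) (by omega) (by omega) ?_
        intro Y hY
        have hY' : Y = 2 ^ i - 2 ^ r + d := by omega
        rw [hY', pc_diff hri (by omega)]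
        omega
      exact kill hId hNe hNg (by omega) hA (by omega) hs'
    · exfalso
      have hi2 : i + 2 ≤ r := by omega
      have hir' : 2 ^ i < 2 ^ r := Nat.pow_lt_pow_right (by norm_num) (by omega)
      obtain ⟨x, hx⟩ : ∃ x, x + 2 ^ i = 2 ^ k + 2 ^ r := ⟨2 ^ k + 2 ^ r - 2 ^ i, by omega⟩
      obtain ⟨hx1, hxM, h⟩ := t_nc2 (x := x) H hf (by omega) (by omega)
      have hpx : pc x = 1 + (r - i) := by
        have h1 : x = 2 ^ k + (2 ^ r - 2 ^ i + 0) := by omega
        rw [h1, pc_top (by omega), pc_diff (by omega) (by omega), pc_zero]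
        omega
      rcases h with h | ⟨j, hj, h⟩ | ⟨i', j, hij, hj, h⟩ | ⟨j, hj, h⟩
      · omega
      · have h5 : 2 ^ j ≤ 2 ^ k := Nat.pow_le_pow_right (by norm_num) hj
        omega
      · have h5 : 2 ^ (j + 1) ≤ 2 ^ k := Nat.pow_le_pow_right (by norm_num) hj
        have h6 : 2 ^ i' < 2 ^ j := Nat.pow_lt_pow_right (by norm_num) hij
        rw [pow_succ] at h5
        omega
      · have h5 : 2 ^ j < 2 ^ k := Nat.pow_lt_pow_right (by norm_num) hj
        omega

end Pool.Agent.H978D
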