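import Pool.Agent.H978D.DefsR
import Pool.Agent.H978D.D1
import Pool.Agent.H978D.D2
import Pool.Agent.H978D.D3
import Pool.Agent.H978D.D4
import Pool.Agent.H978D.D5
import Pool.Agent.H978D.D6
import Pool.Agent.H978D.D7
import Pool.Agent.H978D.R1
import Pool.Agent.H978D.R2
import Pool.Agent.H978D.R4

set_option autoImplicit false

namespace Pool.Agent.H978D

open Pool.Agent.MPe9218d

























/-- TARGET -/
theorem t_d_spec {k r M d G e f x : ℕ} (H : Hyp4 k r M d G)
    (he : Nc k M e) (hf : Nc k M f) (hfe : f < e)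
    (h2 : e + x = 2 * M) (hx : pc x = 2) (hGx : G < x) (hxw : x < 2 ^ k) (hx2 : pc (x - G) ≤ 2)
    (hn : e + f + d = 3 * M) :
    pc d = 3 ∧ e + 3 * 2 ^ (r - 2) = 2 * M ∧ f + (2 ^ k + 2 ^ (r - 2)) = 2 * M := by
  obtain ⟨H1, H2, H3, H4, H5, H6⟩ := H
  have H : Hyp4 k r M d G := ⟨H1, H2, H3, H4, H5, H6⟩
  have hrk : 2 * 2 ^ r ≤ 2 ^ k := by
    calc 2 * 2 ^ r = 2 ^ (r + 1) := by ring
      _ ≤ 2 ^ k := Nat.pow_le_pow_right (by norm_num) H1
  obtain ⟨y, hy⟩ : ∃ y, y = x - G := ⟨_, rfl⟩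
  have hxy : x = G + y := by omega
  have hy2 : pc y ≤ 2 := by rw [hy]; exact hx2
  have hy1 : 1 ≤ y := by omega
  obtain ⟨x', hx'⟩ : ∃ x', x' = M + d - x := ⟨_, rfl⟩
  have e1 : x' + y = 2 ^ k + d := by omega
  have e2 : f + x' = 2 * M := by omega
  have e3 : x < x' := by omega
  obtain ⟨n1, n2, n3⟩ := t_nc2 H hf (x := x') (by omega) e2
  have hGr : G < 2 ^ r := by
    have : 1 ≤ d := by
      rcases Nat.eq_zero_or_pos d with h | h
      · rw [h, pc_zero] at H6; omega
      · exact h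
    omega
  have hpG : pc (2 ^ r + G) = 1 + pc G := pc_top hGr
  rcases n3 with n3 | ⟨j, hj, n3⟩ | ⟨i, j, hij, hjk, n3⟩ | ⟨j, hj, n3⟩
  · rcases lt_trichotomy y d with h | h | h
    · have a1 : x' = 2 ^ k + (d - y) := by omega
      have a2 : pc x' = 1 + pc (d - y) := by
        rw [a1]
        exact pc_top (by omega)
      have a3 : 1 ≤ pc (d - y) := pc_pos (by omega)
      obtain ⟨m, hm⟩ := pc_one (n := d - y) (by omega)
      have a4 : d = y + 2 ^ m := by omega
      have a5 : pc d ≤ pc y + pc (2 ^ m) := by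
        conv_lhs => rw [a4]
        exact pc_add_le _ _
      rw [pc_pow] at a5
      have a6 : 2 ^ m < 2 ^ r := by omega
      have a7 : m < r := (Nat.pow_lt_pow_iff_right (by norm_num)).1 a6
      have a8 : x = 2 ^ r - 2 ^ m + 0 := by omega
      have a9 := pc_diff (k := r) (i := m) (t := 0) a7.le (by positivity)
      rw [← a8, pc_zero, hx] at a9
      have a10 : m = r - 2 := by omega
      have a11 : 2 ^ r = 4 * 2 ^ (r - 2) := by
        conv_lhs => rw [show r = (r - 2) + 2 by omega]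
        ring
      rw [a10] at a4 a8 hm
      refine ⟨by omega, by omega, by omega⟩
    · rw [h] at hy2
      omega
    · have b1 : x' < 2 ^ k := by omega
      have b2 : y < 2 ^ k := by omega
      have b3 := pc_carry b1 b2 (by omega)
      rw [e1] at b3
      have b4 : pc (2 ^ k + d) = 1 + pc d := pc_top (by omega)
      omega
  · have c1 : 2 ^ k + 2 ^ r = 2 ^ j + y := by omega
    rcases hj.lt_or_eq with h | h
    · rcases lt_or_ge r j with h' | h'
      · have hjk : 2 ^ j ≤ 2 ^ k := Nat.pow_le_pow_right (by norm_num) hj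
        have hrj : 2 ^ r < 2 ^ j := Nat.pow_lt_pow_right (by norm_num) h'
        have c2 : y = 2 ^ k - 2 ^ j + 2 ^ r := by omega
        have c3 := pc_diff (k := k) (i := j) (t := 2 ^ r) hj hrj
        rw [← c2, pc_pow] at c3
        have c4 : k = j + 1 := by omega
        have c5 : 2 ^ k = 2 * 2 ^ j := by rw [c4]; ring
        have c6 : x = 2 ^ j + (2 ^ r + G) := by omega
        have c7 : 2 ^ r + G < 2 ^ j := by
          have : 2 * 2 ^ r ≤ 2 ^ j := by
            calc 2 * 2 ^ r = 2 ^ (r + 1) := by ring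
              _ ≤ 2 ^ j := Nat.pow_le_pow_right (by norm_num) h'
          omega
        have c8 : pc (2 ^ j + (2 ^ r + G)) = 1 + pc (2 ^ r + G) := pc_top c7
        rw [← c6] at c8
        omega
      · have : 2 ^ j ≤ 2 ^ r := Nat.pow_le_pow_right (by norm_num) h'
        omega
    · rw [h] at c1
      have c2 : x = 2 ^ r + G := by omega
      rw [c2] at hx
      omega
  · have d1 : 2 ^ k + 2 ^ r = 2 ^ i + 2 ^ j + y := by omega
    have hk1 : 2 ^ k = 2 * 2 ^ (k - 1) := by
      conv_lhs => rw [show k = (k - 1) + 1 by omega]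
      ring
    have d2 : y < 2 ^ (k - 1) := by omega
    have hij' : 2 ^ i < 2 ^ j := Nat.pow_lt_pow_right (by norm_num) hij
    have d3 : j = k - 1 := by
      by_contra hne
      have : 2 * 2 ^ j ≤ 2 ^ (k - 1) := by
        calc 2 * 2 ^ j = 2 ^ (j + 1) := by ring
          _ ≤ 2 ^ (k - 1) := Nat.pow_le_pow_right (by norm_num) (by omega)
      omega
    rw [d3] at d1 hij hij'
    have d4 : 2 ^ r < 2 ^ i := by omega
    have d5 : r < i := (Nat.pow_lt_pow_iff_right (by norm_num)).1 d4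
    have d6 : y = 2 ^ (k - 1) - 2 ^ i + 2 ^ r := by omega
    have d7 := pc_diff (k := k - 1) (i := i) (t := 2 ^ r) hij.le d4
    rw [← d6, pc_pow] at d7
    have d8 : k - 1 = i + 1 := by omega
    have d9 : 2 ^ (k - 1) = 2 * 2 ^ i := by rw [d8]; ring
    have d10 : x = 2 ^ i + (2 ^ r + G) := by omega
    have d11 : 2 ^ r + G < 2 ^ i := by
      have : 2 * 2 ^ r ≤ 2 ^ i := by
        calc 2 * 2 ^ r = 2 ^ (r + 1) := by ring
          _ ≤ 2 ^ i := Nat.pow_le_pow_right (by norm_num) d5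
      omega
    have d12 : pc (2 ^ i + (2 ^ r + G)) = 1 + pc (2 ^ r + G) := pc_top d11
    rw [← d10] at d12
    omega
  · have : 2 * 2 ^ j ≤ 2 ^ k := by
      calc 2 * 2 ^ j = 2 ^ (j + 1) := by ring
        _ ≤ 2 ^ k := Nat.pow_le_pow_right (by norm_num) hj
    omega

end Pool.Agent.H978D
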