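import Pool.Agent.H978D.DefsR
import Pool.Agent.H978D.D1
import Pool.Agent.H978D.D3
import Pool.Agent.H978D.R12
import Pool.Agent.H978D.R13
import Pool.Agent.H978D.R3
import Pool.Agent.H978D.R6
import Pool.Agent.H978D.R7
import Pool.Agent.H978D.R8
import Pool.Agent.H978D.R9

set_option autoImplicit false

namespace Pool.Agent.H978D

open Pool.Agent.MPe9218d











/-- TARGET -/
theorem t_main {k r M d G : ℕ} {b : ℕ → ℕ} (H : Hyp4 k r M d G)
    (hb : ∀ j, 1 ≤ j → j ≤ M → 1 ≤ b j) : ¬ Identity M (k + 1) b := by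
  intro hId
  have hlow := t_d_lower H
  have hns := t_no_step H hb hId
  have hH := H
  obtain ⟨hrk, hM, hdG, hd2, hG5, hd3⟩ := hH
  have h2r : 2 ^ r ≤ 2 ^ k := Nat.pow_le_pow_right (by norm_num) (by omega)
  have h1r : 1 ≤ 2 ^ r := Nat.one_le_two_pow
  have hd1 : 1 ≤ d := by
    rcases Nat.eq_zero_or_pos d with h | h
    · subst h
      simp [pc] at hd3
    · exact h
  have hn1 : 1 ≤ 3 * M - d := by omega
  have hn3 : 3 * M - d < 3 * M := by omega
  rw [hId _ hn1] at hlow
  set S1 : Set (List ℕ) := if r + 2 ≤ k then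
    {[3 * M - (2 ^ (k - 1) + 2 ^ r), M - 2 ^ (k - 1)]} else ∅ with hS1
  set S2 : Set (List ℕ) := if pc d = 3 then
    {[2 * M - 3 * 2 ^ (r - 2), 2 * M - (2 ^ k + 2 ^ (r - 2))]} else ∅ with hS2
  have hsub : BSet b M (C M (k + 1)) (3 * M - d) ⊆
      (({[3 * M - d], [3 * M - 2 ^ r, M - 2 ^ k], [3 * M - 2 ^ k, M - 2 ^ r]} :
        Set (List ℕ)) ∪ S1) ∪ S2 := by
    intro l hl
    rcases t_len_two H hb hId hn1 hn3 hl with h | ⟨e, f, rfl, hef, hfe, he, hf, hs⟩
    · left; left; left; exact h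
    · have hsum : e + f + d = 3 * M := by omega
      rcases t_follow H hId he hf hs with h2 | ⟨i, hi, h2⟩ | ⟨x, h2, hx, hGx, hxw, hx2⟩
      · rcases t_d_hi H hId he hf hs h2 hsum with ⟨h3, h4⟩ | ⟨h3, h4⟩ | ⟨hrk2, h3, h4⟩
        · left; left; right; left
          have e1 : e = 3 * M - 2 ^ r := by omega
          have e2 : f = M - 2 ^ k := by omega
          rw [e1, e2]
        · left; left; right; right
          have e1 : e = 3 * M - 2 ^ k := by omega
          have e2 : f = M - 2 ^ r := by omega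
          rw [Set.mem_singleton_iff, e1, e2]
        · left; right
          have e1 : e = 3 * M - (2 ^ (k - 1) + 2 ^ r) := by omega
          have e2 : f = M - 2 ^ (k - 1) := by omega
          rw [hS1, if_pos hrk2, Set.mem_singleton_iff, e1, e2]
      · exfalso
        obtain ⟨h3, h4⟩ := t_d_pow H hId he hf hfe hs hi h2 hsum
        have e1 : e = 2 * M - 2 ^ (r - 1) := by omega
        have e2 : f = 2 * M - (2 ^ k + 2 ^ (r - 1)) := by omega
        rw [e1, e2] at hs
        exact hns hs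
      · right
        obtain ⟨hp, h3, h4⟩ := t_d_spec H he hf hfe h2 hx hGx hxw hx2 hsum
        have e1 : e = 2 * M - 3 * 2 ^ (r - 2) := by omega
        have e2 : f = 2 * M - (2 ^ k + 2 ^ (r - 2)) := by omega
        rw [hS2, if_pos hp, Set.mem_singleton_iff, e1, e2]
  have hf1 : S1.Finite := by
    rw [hS1]; split_ifs
    · exact Set.finite_singleton _
    · exact Set.finite_empty
  have hf2 : S2.Finite := by
    rw [hS2]; split_ifs
    · exact Set.finite_singleton _
    · exact Set.finite_empty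
  have hc1 : S1.ncard ≤ if r + 2 ≤ k then 1 else 0 := by
    rw [hS1]; split_ifs
    · rw [Set.ncard_singleton]
    · rw [Set.ncard_empty]
  have hc2 : S2.ncard ≤ if pc d = 3 then 1 else 0 := by
    rw [hS2]; split_ifs
    · rw [Set.ncard_singleton]
    · rw [Set.ncard_empty]
  have hf0 : ({[3 * M - d], [3 * M - 2 ^ r, M - 2 ^ k], [3 * M - 2 ^ k, M - 2 ^ r]} :
        Set (List ℕ)).Finite := ((Set.finite_singleton _).insert _).insert _
  have hc0 : ({[3 * M - d], [3 * M - 2 ^ r, M - 2 ^ k], [3 * M - 2 ^ k, M - 2 ^ r]} :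
        Set (List ℕ)).ncard ≤ 3 := by
    refine (Set.ncard_insert_le _ _).trans ?_
    have := Set.ncard_insert_le [3 * M - 2 ^ r, M - 2 ^ k]
      ({[3 * M - 2 ^ k, M - 2 ^ r]} : Set (List ℕ))
    rw [Set.ncard_singleton] at this
    omega
  have h2 : B0 b M (C M (k + 1)) (3 * M - d) ≤
      3 + (if r + 2 ≤ k then 1 else 0) + (if pc d = 3 then 1 else 0) := by
    unfold B0
    refine (Set.ncard_le_ncard hsub ((hf0.union hf1).union hf2)).trans ?_
    refine (Set.ncard_union_le _ _).trans ?_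
    have h3 := Set.ncard_union_le
      ({[3 * M - d], [3 * M - 2 ^ r, M - 2 ^ k], [3 * M - 2 ^ k, M - 2 ^ r]} :
        Set (List ℕ)) S1
    exact Nat.add_le_add (h3.trans (Nat.add_le_add hc0 hc1)) hc2
  omega

end Pool.Agent.H978D
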