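import Pool.Agent.H978D.DefsR
import Pool.Agent.H978D.D1
import Pool.Agent.H978D.D2
import Pool.Agent.H978D.D3
import Pool.Agent.H978D.D4
import Pool.Agent.H978D.D5
import Pool.Agent.H978D.D6
import Pool.Agent.H978D.D7
import Pool.Agent.H978D.D8
import Pool.Agent.H978D.D9
import Pool.Agent.H978D.R1
import Pool.Agent.H978D.R2
import Pool.Agent.H978D.R3

set_option autoImplicit false

namespace Pool.Agent.H978D

open Pool.Agent.MPe9218d






























/-- TARGET -/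
theorem u_nc1 {k r M d G e x : ℕ} (H : Hyp5 k r M d G) (he : Nc k M e) (hx1 : 1 ≤ x)
    (hx : e + x = M) : (∃ i, i ≤ k ∧ x = 2 ^ i) ∨ ∃ j, j < k ∧ x + G = 2 ^ j := by
  obtain ⟨hrk, hM, hG, hd, hpc⟩ := H
  have hw : 2 ^ k < M := by omega
  have he1 : 1 ≤ e := he.1
  obtain ⟨L, Y, ⟨T, hT⟩, hY⟩ := (nc_iff hw he1).1 he
  have hb := TS_bound hT
  have hc := TS_card hT
  rcases L with _ | L
  · omega
  rcases L with _ | L
  · left
    have hYx : Y = x := by omega
    obtain ⟨i, hi, h⟩ := TS_one hT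
    exact ⟨i, hi, by omega⟩
  rcases L with _ | L
  · right
    have hYx : Y = 2 ^ k + (x + G) := by omega
    have h2 : 2 * (x + G) ≤ 2 ^ k := by omega
    have hlt : x + G < 2 ^ k := by omega
    have h3 := pc_top hlt
    rw [← hYx] at h3
    have h4 := pc_pos (n := x + G) (by omega)
    have h5 : pc (x + G) = 1 := by omega
    obtain ⟨j, hj⟩ := pc_one h5
    refine ⟨j, ?_, hj⟩
    rw [hj] at hlt
    exact (Nat.pow_lt_pow_iff_right (by norm_num)).1 hlt
  · exfalso
    have h1 : (L + 1 + 1 + 1) * M = L * M + 3 * M := by ring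
    have h2 : 2 ^ k * (L + 1 + 1 + 1 + 1) = L * 2 ^ k + 4 * 2 ^ k := by ring
    have h3 : L * 2 ^ k ≤ L * M := Nat.mul_le_mul_left _ hw.le
    rw [h1] at hY
    rw [h2] at hb
    omega

theorem hyp5_aux {k r M d G : ℕ} (H : Hyp5 k r M d G) : ∃ i j, i < j ∧ j < r ∧ d = 2 ^ i + 2 ^ j ∧
    2 ^ r ≤ 4 * G ∧ 2 * 2 ^ r ≤ 2 ^ k := by
  obtain ⟨hrk, hM, hG, hd, hpc⟩ := H
  obtain ⟨i, j, hij, h⟩ := pc_two hpc
  have h1 : 2 ^ j < 2 ^ r := by
    have := Nat.one_le_two_pow (n := i)
    omega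
  have hjr : j < r := (Nat.pow_lt_pow_iff_right (by norm_num)).1 h1
  have h2 : 2 * 2 ^ i ≤ 2 ^ j := by
    calc 2 * 2 ^ i = 2 ^ (i + 1) := by ring
      _ ≤ 2 ^ j := Nat.pow_le_pow_right (by norm_num) hij
  have h3 : 2 * 2 ^ j ≤ 2 ^ r := by
    calc 2 * 2 ^ j = 2 ^ (j + 1) := by ring
      _ ≤ 2 ^ r := Nat.pow_le_pow_right (by norm_num) hjr
  have h4 : 2 * 2 ^ r ≤ 2 ^ k := by
    calc 2 * 2 ^ r = 2 ^ (r + 1) := by ring
      _ ≤ 2 ^ k := Nat.pow_le_pow_right (by norm_num) hrk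
  exact ⟨i, j, hij, hjr, h, by omega, h4⟩

/-- TARGET -/
theorem u_lower {k r M d G : ℕ} (H : Hyp5 k r M d G) :
    3 ≤ A (a M) (k + 1) M (2 * M - d) := by
  obtain ⟨i, j, hij, hjr, hdd, h4, hrk2⟩ := hyp5_aux H
  obtain ⟨hrk, hM, hG, hd, hpc⟩ := H
  have hw : 2 ^ k < M := by omega
  have hF : ({({(1, i), (1, j)} : Finset (ℕ × ℕ)), {(2, k), (1, r)}, {(2, r), (1, k)}} :
      Finset (Finset (ℕ × ℕ))).card = 3 := by
    have n1 : ({(1, i), (1, j)} : Finset (ℕ × ℕ)) ≠ {(2, k), (1, r)} := by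
      intro h
      have : ((2, k) : ℕ × ℕ) ∈ ({(1, i), (1, j)} : Finset (ℕ × ℕ)) := by rw [h]; simp
      simp at this
    have n2 : ({(1, i), (1, j)} : Finset (ℕ × ℕ)) ≠ {(2, r), (1, k)} := by
      intro h
      have : ((2, r) : ℕ × ℕ) ∈ ({(1, i), (1, j)} : Finset (ℕ × ℕ)) := by rw [h]; simp
      simp at this
    have n3 : ({(2, k), (1, r)} : Finset (ℕ × ℕ)) ≠ {(2, r), (1, k)} := by
      intro h
      have : ((2, k) : ℕ × ℕ) ∈ ({(2, r), (1, k)} : Finset (ℕ × ℕ)) := by rw [← h]; simp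
      simp at this
      omega
    rw [Finset.card_insert_of_notMem, Finset.card_insert_of_notMem, Finset.card_singleton]
    · simpa using n3
    · simp only [Finset.mem_insert, Finset.mem_singleton, not_or]
      exact ⟨n1, n2⟩
  rw [← hF]
  apply A_lower hw
  intro T hT
  simp only [Finset.mem_insert, Finset.mem_singleton] at hT
  rcases hT with rfl | rfl | rfl
  · refine ⟨2, d, ⟨?_, ?_, ?_⟩, by omega⟩
    · intro p hp
      simp only [Finset.mem_insert, Finset.mem_singleton] at hp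
      rcases hp with rfl | rfl
      · exact ⟨le_refl _, by simp only; omega⟩
      · exact ⟨le_refl _, by simp only; omega⟩
    · rw [Finset.sum_pair (by simp; omega)]
      norm_num
    · rw [Finset.sum_pair (by simp; omega)]
      exact hdd.symm
  · refine ⟨3, 2 ^ k + 2 ^ r, ⟨?_, ?_, ?_⟩, by omega⟩
    · intro p hp
      simp only [Finset.mem_insert, Finset.mem_singleton] at hp
      rcases hp with rfl | rfl
      · exact ⟨by norm_num, by simp⟩
      · exact ⟨by norm_num, by simp only; omega⟩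
    · rw [Finset.sum_pair (by simp)]
      norm_num
    · rw [Finset.sum_pair (by simp)]
  · refine ⟨3, 2 ^ k + 2 ^ r, ⟨?_, ?_, ?_⟩, by omega⟩
    · intro p hp
      simp only [Finset.mem_insert, Finset.mem_singleton] at hp
      rcases hp with rfl | rfl
      · exact ⟨by norm_num, by simp only; omega⟩
      · exact ⟨by norm_num, by simp⟩
    · rw [Finset.sum_pair (by simp)]
      norm_num
    · rw [Finset.sum_pair (by simp)]
      exact Nat.add_comm _ _

/-- TARGET -/
theorem u_pair_lo {k r M d G e f : ℕ} {b : ℕ → ℕ} (H : Hyp5 k r M d G)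
    (hId : Identity M (k + 1) b) (he : Nc k M e) (hf : Nc k M f) (hfe : f < e)
    (hs : Step b M e f) (heM : e < M) (hn : e + f + d = 2 * M) : False := by
  obtain ⟨i0, j0, hij, hjr, hdd, h4, hrk2⟩ := hyp5_aux H
  have H' := H
  obtain ⟨hrk, hM, hG, hd, hpc⟩ := H'
  have hw : 2 ^ k < M := by omega
  obtain ⟨x, hx⟩ : ∃ x, e + x = M := ⟨M - e, by omega⟩
  have hx1 : 1 ≤ x := by omega
  have hxG : x ≤ G := by
    rcases u_nc1 H he hx1 hx with ⟨i, hi, hxi⟩ | ⟨j, hj, hxj⟩
    · have h5 : 2 ^ (i + 1) < 2 ^ r := by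
        have : 2 ^ (i + 1) = 2 * 2 ^ i := by ring
        omega
      have h6 : i + 1 < r := (Nat.pow_lt_pow_iff_right (by norm_num)).1 h5
      have h7 : 2 ^ (i + 1 + 1) ≤ 2 ^ r := Nat.pow_le_pow_right (by norm_num) h6
      have h8 : 2 ^ (i + 1 + 1) = 4 * 2 ^ i := by ring
      omega
    · have h5 : 2 ^ j < 2 ^ r := by omega
      have h6 : j < r := (Nat.pow_lt_pow_iff_right (by norm_num)).1 h5
      have h7 : 2 ^ (j + 1) ≤ 2 ^ r := Nat.pow_le_pow_right (by norm_num) h6
      have h8 : 2 ^ (j + 1) = 2 * 2 ^ j := by ring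
      omega
  have hGe : M ≤ e + 2 ^ k := nc_min hw he
  have hGf : M ≤ f + 2 ^ k := nc_min hw hf
  have hNG : Nc k M G := by
    rw [nc_iff hw hG]
    refine ⟨1, 2 ^ k, ⟨{(1, k)}, ?_, ?_, ?_⟩, by omega⟩
    · intro p hp
      rw [Finset.mem_singleton] at hp
      rw [hp]
      exact ⟨le_refl _, le_refl _⟩
    · simp
    · simp
  have hA : A (a M) (k + 1) M (e + G) ≤ 1 := by
    have h1 := A_cover (n := e + G) hw {(2, x + 2 ^ k)} (by
      intro L Y hY hne
      obtain ⟨T, hT⟩ := hne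
      have hb := TS_bound hT
      have hc := TS_card hT
      rw [Finset.mem_singleton]
      rcases L with _ | L
      · omega
      rcases L with _ | L
      · exfalso
        have := hc.2.2.2.1 (by norm_num)
        omega
      rcases L with _ | L
      · have : Y = x + 2 ^ k := by omega
        rw [this]
      · exfalso
        have h1 : (L + 1 + 1 + 1) * M = L * M + 3 * M := by ring
        have h2 : 2 ^ k * (L + 1 + 1 + 1 + 1) = L * 2 ^ k + 4 * 2 ^ k := by ring
        have h3 : L * 2 ^ k ≤ L * M := Nat.mul_le_mul_left _ hw.le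
        rw [h1] at hY
        rw [h2] at hb
        omega)
    rw [Finset.sum_singleton] at h1
    exact h1.trans (TS_two_card k _)
  exact kill hId he hNG (by omega) hA (by omega) hs

end Pool.Agent.H978D
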