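import Pool.Agent.H978D.DefsR
import Pool.Agent.H978D.D1
import Pool.Agent.H978D.D2
import Pool.Agent.H978D.D3
import Pool.Agent.H978D.D4
import Pool.Agent.H978D.D5
import Pool.Agent.H978D.D6
import Pool.Agent.H978D.D7
import Pool.Agent.H978D.D8
import Pool.Agent.H978D.D9
import Pool.Agent.H978D.R1
import Pool.Agent.H978D.R15
import Pool.Agent.H978D.R2
import Pool.Agent.H978D.R3

set_option autoImplicit false

namespace Pool.Agent.H978D

open Pool.Agent.MPe9218d































theorem R16_nG {k r M d G : ℕ} (H : Hyp5 k r M d G) : Nc k M G := by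
  obtain ⟨hr, hM, hG, hd, hpc⟩ := id H
  rw [nc_iff (by omega) hG]
  refine ⟨1, 2 ^ k, ⟨{(1, k)}, ?_, ?_, ?_⟩, by omega⟩
  · intro p hp
    rw [Finset.mem_singleton] at hp
    subst hp
    exact ⟨le_refl _, le_refl _⟩
  · simp
  · simp

theorem R16_cover {k M n L0 Y0 : ℕ} (hM : 2 ^ k < M)
    (h : ∀ L Y, n + Y = L * M → (TS k L Y).Nonempty → L = L0 ∧ Y = Y0)
    (hc : (TS k L0 Y0).ncard ≤ 1) : A (a M) (k + 1) M n ≤ 1 := by
  refine (A_cover hM {(L0, Y0)} ?_).trans ?_
  · intro L Y h1 h2
    obtain ⟨h3, h4⟩ := h L Y h1 h2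
    rw [h3, h4]
    exact Finset.mem_singleton_self _
  · simpa using hc

theorem R16_three {k : ℕ} : (TS k 3 (2 * 2 ^ k)).ncard ≤ 1 := by
  rw [Set.ncard_le_one (TS_finite _ _ _)]
  intro T hT T' hT'
  rw [(TS_three_top hT (le_refl _)).1, (TS_three_top hT' (le_refl _)).1]

theorem R16_pc {k L Y : ℕ} {T : Finset (ℕ × ℕ)} (h : T ∈ TS k L Y) : pc Y ≤ L := by
  obtain ⟨h1, h2, -⟩ := TS_card h
  omega

/-- TARGET -/
theorem u_pair_hi {k r M d G e f : ℕ} {b : ℕ → ℕ} (H : Hyp5 k r M d G)
    (hId : Identity M (k + 1) b) (he : Nc k M e) (hf : Nc k M f) (hfe : f < e)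
    (hs : Step b M e f) (heM : M ≤ e) (hn : e + f + d = 2 * M) :
    e + 2 ^ r = 2 * M ∧ f + 2 ^ k = M := by
  obtain ⟨hr, hM, hG, hd, hpc⟩ := id H
  have hMk : 2 ^ k < M := by omega
  have hd1 : 1 ≤ d := by
    rcases Nat.eq_zero_or_pos d with h | h
    · rw [h, pc_zero] at hpc
      omega
    · exact h
  have hfG : G ≤ f := by
    have := nc_min hMk hf
    omega
  obtain ⟨y, hy⟩ : ∃ y, f + y = M := ⟨M - f, by omega⟩
  have hyd : d ≤ y := by omega
  have hkill : A (a M) (k + 1) M (e + G) ≤ 1 → False :=
    fun h => kill hId he (R16_nG H) (by omega) h hfG hs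
  obtain ⟨w, hw⟩ : ∃ w, w = 2 ^ k := ⟨_, rfl⟩
  obtain ⟨v, hv⟩ : ∃ v, v = 2 ^ r := ⟨_, rfl⟩
  have hvw : 2 * v ≤ w := by
    have h1 : 2 ^ (r + 1) ≤ 2 ^ k := Nat.pow_le_pow_right (by norm_num) hr
    rw [pow_succ] at h1
    omega
  have hwM : w ≤ M := by omega
  rcases eq_or_lt_of_le hyd with hyd | hyd
  · have heM' : e = M := by omega
    exfalso
    refine hkill (R16_cover hMk (L0 := 2) (Y0 := w) ?_ (TS_two_card k w))
    rintro L Y h1 ⟨T, hT⟩
    have hb := TS_bound hT
    rw [← hw] at hb
    rcases L with _ | _ | _ | L'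
    · omega
    · omega
    · exact ⟨rfl, by omega⟩
    · exfalso
      have h3 := Nat.mul_le_mul_left L' hwM
      have h4 := Nat.zero_le (L' * w)
      nlinarith
  have heM2 : M < e := by omega
  rcases u_nc1 H hf (x := y) (by omega) hy with ⟨i, hi, hyi⟩ | ⟨j, hj, hyj⟩
  · rcases eq_or_lt_of_le hi with hik | hik
    · subst hik
      constructor
      · omega
      · omega
    exfalso
    obtain ⟨u, hu⟩ : ∃ u, u = 2 ^ i := ⟨_, rfl⟩
    have huw : 2 * u ≤ w := by
      have h1 : 2 ^ (i + 1) ≤ 2 ^ k := Nat.pow_le_pow_right (by norm_num) hik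
      rw [pow_succ] at h1
      omega
    rcases Nat.lt_trichotomy i r with hir | hir | hir
    · have huv : 2 * u ≤ v := by
        have h1 : 2 ^ (i + 1) ≤ 2 ^ r := Nat.pow_le_pow_right (by norm_num) hir
        rw [pow_succ] at h1
        omega
      have hri : r = i + 1 := by
        obtain ⟨L, Y, ⟨T, hT⟩, h1⟩ := (nc_iff hMk he.1).1 he
        have hb := TS_bound hT
        rw [← hw] at hb
        have hp := R16_pc hT
        rcases L with _ | _ | _ | L'
        · omega
        · omega
        · have hY : Y = 2 ^ k + (2 ^ r - 2 ^ i + 0) := by omega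
          have h5 : pc Y = 1 + ((r - i) + pc 0) := by
            rw [hY, pc_top (by omega), pc_diff hir.le (by positivity)]
          rw [pc_zero] at h5
          omega
        · exfalso
          have h3 := Nat.mul_le_mul_left L' hwM
          have h4 := Nat.zero_le (L' * w)
          nlinarith
      subst hri
      rw [pow_succ] at hv
      refine hkill (R16_cover hMk (L0 := 2) (Y0 := 0) ?_ (TS_two_card k 0))
      rintro L Y h1 ⟨T, hT⟩
      exfalso
      have hb := TS_bound hT
      rw [← hw] at hb
      have hp := R16_pc hT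
      rcases L with _ | _ | _ | L'
      · omega
      · omega
      · have hY : Y = 2 ^ k - 2 ^ i + d := by omega
        have h5 : pc Y = (k - i) + pc d := by
          rw [hY, pc_diff hi (by omega)]
        omega
      · have h3 := Nat.mul_le_mul_left L' hwM
        have h4 := Nat.zero_le (L' * w)
        have h5 : 1 ≤ u := by omega
        have h6 : d + G = 2 * u := by
          rw [hd, hu, pow_succ]
          ring
        have h7 : y = u := by omega
        nlinarith
    · subst hir
      refine hkill (R16_cover hMk (L0 := 3) (Y0 := 2 * 2 ^ k) ?_ R16_three)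
      rintro L Y h1 ⟨T, hT⟩
      have hb := TS_bound hT
      rw [← hw] at hb
      have hp := R16_pc hT
      rcases L with _ | _ | _ | _ | L'
      · omega
      · omega
      · exfalso
        have hY : Y = 2 ^ k - 2 ^ i + d := by omega
        have h5 : pc Y = (k - i) + pc d := by
          rw [hY, pc_diff hi (by omega)]
        omega
      · exact ⟨rfl, by omega⟩
      · exfalso
        have h3 := Nat.mul_le_mul_left L' hwM
        have h4 := Nat.zero_le (L' * w)
        nlinarith
    · have hvu : 2 * v ≤ u := by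
        have h1 : 2 ^ (r + 1) ≤ 2 ^ i := Nat.pow_le_pow_right (by norm_num) hir
        rw [pow_succ] at h1
        omega
      rcases eq_or_lt_of_le (Nat.succ_le_of_lt hik) with hik2 | hik2
      · have hk2 : w = 2 * u := by
          rw [hw, hu, ← hik2, Nat.succ_eq_add_one, pow_succ]
          ring
        refine hkill (R16_cover hMk (L0 := 3) (Y0 := 2 ^ k + (2 ^ i + 2 ^ r)) ?_ ?_)
        · rintro L Y h1 ⟨T, hT⟩
          have hb := TS_bound hT
          rw [← hw] at hb
          have hp := R16_pc hT
          rcases L with _ | _ | _ | _ | L'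
          · omega
          · omega
          · exfalso
            have hY : Y = 2 ^ i + d := by omega
            have h5 : pc Y = 1 + pc d := by
              rw [hY, pc_top (by omega)]
            omega
          · exact ⟨rfl, by omega⟩
          · exfalso
            have h3 := Nat.mul_le_mul_left L' hwM
            have h4 := Nat.zero_le (L' * w)
            nlinarith
        · refine TS_uniq ?_
          rw [pc_top (by omega), pc_top (by omega), pc_pow]
      · have hk4 : 4 * u ≤ w := by
          have h1 : 2 ^ (i + 2) ≤ 2 ^ k := Nat.pow_le_pow_right (by norm_num) hik2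
          rw [pow_add] at h1
          omega
        obtain ⟨L, Y, ⟨T, hT⟩, h1⟩ := (nc_iff hMk he.1).1 he
        have hb := TS_bound hT
        rw [← hw] at hb
        have hp := R16_pc hT
        rcases L with _ | _ | _ | _ | _ | L'
        · omega
        · omega
        · have hY : Y = 2 ^ k - 2 ^ i + 2 ^ r := by omega
          have h5 : pc Y = (k - i) + pc (2 ^ r) := by
            rw [hY, pc_diff hi (by omega)]
          rw [pc_pow] at h5
          omega
        · have hY : Y = 2 ^ k + (2 ^ k - 2 ^ i + (2 ^ r + G)) := by omega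
          have h5 : pc Y = 1 + ((k - i) + (1 + pc G)) := by
            rw [hY, pc_top (by omega), pc_diff hi (by omega), pc_top (by omega)]
          omega
        · obtain ⟨m, hm, -, hm2⟩ := TS_four_top hT (by omega)
          have h6 : 2 ^ (m + 1) ≤ 2 ^ k := Nat.pow_le_pow_right (by norm_num) hm
          rw [pow_succ] at h6
          omega
        · have h3 := Nat.mul_le_mul_left L' hwM
          have h4 := Nat.zero_le (L' * w)
          nlinarith
  · exfalso
    obtain ⟨u, hu⟩ : ∃ u, u = 2 ^ j := ⟨_, rfl⟩
    have huw : 2 * u ≤ w := by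
      have h1 : 2 ^ (j + 1) ≤ 2 ^ k := Nat.pow_le_pow_right (by norm_num) hj
      rw [pow_succ] at h1
      omega
    have hrj : r < j := by
      rw [← Nat.pow_lt_pow_iff_right (a := 2) (by norm_num)]
      omega
    have hvu : 2 * v ≤ u := by
      have h1 : 2 ^ (r + 1) ≤ 2 ^ j := Nat.pow_le_pow_right (by norm_num) hrj
      rw [pow_succ] at h1
      omega
    have hpG : 1 ≤ pc G := pc_pos hG
    obtain ⟨R, hR⟩ : ∃ R, R = 2 ^ r + 2 * G := ⟨_, rfl⟩
    have hR2 : 2 ≤ pc R := by
      have h2 := pc_pos (n := R) (by omega)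
      rcases eq_or_lt_of_le h2 with h3 | h3
      · exfalso
        obtain ⟨l, hl⟩ := pc_one h3.symm
        have h4 : r < l := by
          rw [← Nat.pow_lt_pow_iff_right (a := 2) (by norm_num)]
          omega
        have h5 : l < r + 2 := by
          rw [← Nat.pow_lt_pow_iff_right (a := 2) (by norm_num), pow_add]
          omega
        have h6 : l = r + 1 := by omega
        rw [h6, pow_succ] at hl
        rcases Nat.eq_zero_or_pos r with h7 | h7
        · rw [h7] at hl hd
          omega
        · obtain ⟨r', rfl⟩ : ∃ r', r = r' + 1 := ⟨r - 1, by omega⟩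
          have h8 : d = 2 ^ r' := by
            have h9 : 2 ^ (r' + 1) = 2 * 2 ^ r' := by
              rw [pow_succ]
              ring
            omega
          rw [h8, pc_pow] at hpc
          omega
      · exact h3
    obtain ⟨L, Y, ⟨T, hT⟩, h1⟩ := (nc_iff hMk he.1).1 he
    have hb := TS_bound hT
    rw [← hw] at hb
    have hp := R16_pc hT
    rcases L with _ | _ | _ | _ | _ | L'
    · omega
    · omega
    · have hY : Y = 2 ^ k - 2 ^ j + (2 ^ r + G) := by omega
      have h5 : pc Y = (k - j) + (1 + pc G) := by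
        rw [hY, pc_diff hj.le (by omega), pc_top (by omega)]
      omega
    · rcases Nat.lt_or_ge R u with h7 | h7
      · have hY : Y = 2 ^ k + (2 ^ k - 2 ^ j + R) := by omega
        have h5 : pc Y = 1 + ((k - j) + pc R) := by
          rw [hY, pc_top (by omega), pc_diff hj.le (by omega)]
        omega
      · have h8 : R ≠ 2 ^ j := by
          intro h9
          rw [h9, pc_pow] at hR2
          omega
        omega
    · obtain ⟨m, hm, -, hm2⟩ := TS_four_top hT (by omega)
      have h6 : 2 ^ (m + 1) ≤ 2 ^ k := Nat.pow_le_pow_right (by norm_num) hm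
      rw [pow_succ] at h6
      omega
    · have h3 := Nat.mul_le_mul_left L' hwM
      have h4 := Nat.zero_le (L' * w)
      nlinarith

end Pool.Agent.H978D
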