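import Pool.Agent.H978D.DefsR
import Pool.Agent.H978D.D1
import Pool.Agent.H978D.D2
import Pool.Agent.H978D.D3
import Pool.Agent.H978D.D4
import Pool.Agent.H978D.D5
import Pool.Agent.H978D.D6
import Pool.Agent.H978D.D7
import Pool.Agent.H978D.D8
import Pool.Agent.H978D.D9
import Pool.Agent.H978D.R1
import Pool.Agent.H978D.R15
import Pool.Agent.H978D.R16
import Pool.Agent.H978D.R2
import Pool.Agent.H978D.R3

set_option autoImplicit false

namespace Pool.Agent.H978D

open Pool.Agent.MPe9218d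


































theorem pw_tri (i j : ℕ) : 2 ^ i = 2 ^ j ∨ 2 * 2 ^ i ≤ 2 ^ j ∨ 2 * 2 ^ j ≤ 2 ^ i := by
  rcases lt_trichotomy i j with h | h | h
  · right; left
    calc 2 * 2 ^ i = 2 ^ (i + 1) := by ring
      _ ≤ 2 ^ j := Nat.pow_le_pow_right (by norm_num) h
  · left; rw [h]
  · right; right
    calc 2 * 2 ^ j = 2 ^ (j + 1) := by ring
      _ ≤ 2 ^ i := Nat.pow_le_pow_right (by norm_num) h

theorem u_star {k r M d G z e f : ℕ} {b : ℕ → ℕ} (H : Hyp5 k r M d G)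
    (hId : Identity M (k + 1) b) (he : Nc k M e) (hf : Nc k M f) (hs : Step b M e f)
    (hz1 : 1 ≤ z) (hz : e + z = M) : ∃ i m, z = 2 ^ i ∧ z = G + 2 ^ m := by
  obtain ⟨hrk, hM, hG, hd, hpc⟩ := H
  have hw : 1 ≤ 2 ^ k := Nat.one_le_two_pow
  have hwM : 2 ^ k < M := by omega
  have hncG : Nc k M G := (nc_iff hwM hG).2 ⟨1, 2 ^ k, ⟨{(1, k)}, by simp [TS]⟩, by omega⟩
  have hGe := nc_min hwM he
  have hGf := nc_min hwM hf
  by_contra hcon
  refine kill (g := f) (f := G) hId he hncG (by omega) ?_ (by omega) hs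
  refine (A_cover hwM {(1, z - G), (2, 2 ^ k + z)} ?_).trans ?_
  · intro L Y hY hne
    obtain ⟨T, hT⟩ := hne
    have hb := TS_bound hT
    obtain ⟨_, _, _, c1, c2⟩ := TS_card hT
    rw [Finset.mem_insert, Finset.mem_singleton, Prod.mk.injEq, Prod.mk.injEq]
    by_cases h0 : L = 0
    · subst h0
      rw [Nat.zero_mul] at hY
      omega
    by_cases h1 : L = 1
    · subst h1
      rw [Nat.one_mul] at hY
      exact Or.inl ⟨rfl, by omega⟩
    by_cases h2 : L = 2
    · subst h2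
      exact Or.inr ⟨rfl, by omega⟩
    exfalso
    obtain ⟨t, rfl⟩ : ∃ t, L = t + 3 := ⟨L - 3, by omega⟩
    have e1 : (t + 3) * M = t * 2 ^ k + t * G + 3 * 2 ^ k + 3 * G := by rw [hM]; ring
    have e2 : 2 ^ k * (t + 3 + 1) = t * 2 ^ k + 4 * 2 ^ k := by ring
    rw [e1] at hY
    rw [e2] at hb
    have p1 : 0 ≤ t * 2 ^ k := Nat.zero_le _
    have p2 : 0 ≤ t * G := Nat.zero_le _
    omega
  · rw [Finset.sum_pair (by simp)]
    by_cases n1 : (TS k 1 (z - G)).Nonempty
    · obtain ⟨T1, hT1⟩ := n1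
      obtain ⟨m, _, hm⟩ := TS_one hT1
      by_cases n2 : (TS k 2 (2 ^ k + z)).Nonempty
      · exfalso
        obtain ⟨T2, hT2⟩ := n2
        have hb := TS_bound hT2
        obtain ⟨c1, c2, _, _, _⟩ := TS_card hT2
        have hm1 : 1 ≤ 2 ^ m := Nat.one_le_two_pow
        have hzk : z < 2 ^ k := by omega
        have h3 := pc_top hzk
        have h4 := pc_pos hz1
        obtain ⟨i, hi⟩ := pc_one (n := z) (by omega)
        exact hcon ⟨i, m, hi, by omega⟩
      · rw [Set.not_nonempty_iff_eq_empty] at n2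
        rw [n2, Set.ncard_empty, add_zero]
        exact TS_uniq (by rw [hm, pc_pow])
    · rw [Set.not_nonempty_iff_eq_empty] at n1
      rw [n1, Set.ncard_empty, zero_add]
      exact TS_two_card _ _

/-- TARGET -/
theorem u_len_two {k r M d G : ℕ} {b : ℕ → ℕ} {l : List ℕ} (H : Hyp5 k r M d G)
    (hb : ∀ j, 1 ≤ j → j ≤ M → 1 ≤ b j) (hId : Identity M (k + 1) b)
    (hl : l ∈ BSet b M (C M (k + 1)) (2 * M - d)) :
    l = [2 * M - d] ∨ ∃ e f, l = [e, f] ∧ e + f + d = 2 * M ∧ f < e ∧ Nc k M e ∧ Nc k M f ∧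
      Step b M e f := by
  have H' := H
  obtain ⟨hrk, hM, hG, hd, hpc⟩ := H'
  have hw : 1 ≤ 2 ^ k := Nat.one_le_two_pow
  have hrw : 2 ^ r ≤ 2 ^ k := Nat.pow_le_pow_right (by norm_num) (by omega)
  have hwM : 2 ^ k < M := by omega
  obtain ⟨⟨hp, h1, hsum⟩, hC, hch⟩ := hl
  rcases l with _ | ⟨e1, _ | ⟨e2, _ | ⟨e3, t⟩⟩⟩
  · simp only [List.sum_nil] at hsum
    omega
  · left
    simp only [List.sum_cons, List.sum_nil, add_zero] at hsum
    rw [hsum]
  · right
    have hs : Step b M e1 e2 := by simpa using hch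
    have hlt := step_lt (by omega) hb hs
    simp only [List.sum_cons, List.sum_nil, add_zero] at hsum
    exact ⟨e1, e2, rfl, by omega, hlt, ⟨h1 _ (by simp), hC _ (by simp)⟩,
      ⟨h1 _ (by simp), hC _ (by simp)⟩, hs⟩
  · exfalso
    have n1 : Nc k M e1 := ⟨h1 _ (by simp), hC _ (by simp)⟩
    have n2 : Nc k M e2 := ⟨h1 _ (by simp), hC _ (by simp)⟩
    have n3 : Nc k M e3 := ⟨h1 _ (by simp), hC _ (by simp)⟩
    rw [List.isChain_cons_cons, List.isChain_cons_cons] at hch
    obtain ⟨hs1, hs2, _⟩ := hch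
    have l1 := step_lt (by omega) hb hs1
    have l2 := step_lt (by omega) hb hs2
    have g3 := nc_min hwM n3
    simp only [List.sum_cons] at hsum
    have h2M : e2 < M := by omega
    obtain ⟨i, m, hi, hm⟩ := u_star (z := M - e2) H hId n2 n3 hs2 (by omega) (by omega)
    have hm0 : 1 ≤ 2 ^ m := Nat.one_le_two_pow
    by_cases h1M : e1 < M
    · obtain ⟨i', m', hi', hm'⟩ := u_star (z := M - e1) H hId n1 n2 hs1 (by omega) (by omega)
      have t1 := pw_tri m i
      have t2 := pw_tri i' i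
      have hm0' : 1 ≤ 2 ^ m' := Nat.one_le_two_pow
      omega
    · have hri : 2 ^ r ≤ 2 ^ i := by omega
      have hri' : r ≤ i := (Nat.pow_le_pow_iff_right (by norm_num)).1 hri
      have h5 := pc_diff (k := i) (i := r) (t := d) hri' (by omega)
      have h6 : 2 ^ i - 2 ^ r + d = 2 ^ m := by omega
      rw [h6, pc_pow, hpc] at h5
      omega

/-- TARGET -/
theorem u_main {k r M d G : ℕ} {b : ℕ → ℕ} (H : Hyp5 k r M d G)
    (hb : ∀ j, 1 ≤ j → j ≤ M → 1 ≤ b j) : ¬ Identity M (k + 1) b := by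
  intro hId
  have H' := H
  obtain ⟨hrk, hM, hG, hd, hpc⟩ := H'
  have hw : 1 ≤ 2 ^ k := Nat.one_le_two_pow
  have hrw : 2 ^ r ≤ 2 ^ k := Nat.pow_le_pow_right (by norm_num) (by omega)
  have h3 := u_lower H
  rw [hId (2 * M - d) (by omega)] at h3
  unfold B0 at h3
  have hsub : BSet b M (C M (k + 1)) (2 * M - d) ⊆
      {[2 * M - d], [2 * M - 2 ^ r, M - 2 ^ k]} := by
    intro l hl
    rcases u_len_two H hb hId hl with h | ⟨e, f, rfl, hn, hfe, he, hf, hs⟩
    · exact Or.inl h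
    · right
      rw [Set.mem_singleton_iff]
      by_cases heM : e < M
      · exact absurd (u_pair_lo H hId he hf hfe hs heM hn) (by simp)
      · obtain ⟨h1, h2⟩ := u_pair_hi H hId he hf hfe hs (by omega) hn
        have e1 : e = 2 * M - 2 ^ r := by omega
        have e2 : f = M - 2 ^ k := by omega
        rw [e1, e2]
  have h4 := (Set.ncard_le_ncard hsub (Set.toFinite _)).trans (Set.ncard_insert_le _ _)
  rw [Set.ncard_singleton] at h4
  omega

end Pool.Agent.H978D
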