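import Pool.Agent.H978D.DefsR
import Pool.Agent.H978D.D1
import Pool.Agent.H978D.R1
import Pool.Agent.H978D.R14
import Pool.Agent.H978D.R17

set_option autoImplicit false

namespace Pool.Agent.H978D

open Pool.Agent.MPe9218d












/-- TARGET -/
theorem lower_half {k M : ℕ} {b : ℕ → ℕ} (hb : ∀ j, 1 ≤ j → j ≤ M → 1 ≤ b j)
    (h1 : 2 ^ k < M) (h2 : 2 * M < 3 * 2 ^ k) (h3 : 3 ≤ pc (2 * 2 ^ k - M)) (h6 : 6 ≤ pc M) :
    ¬ Identity M (k + 1) b := by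
  obtain ⟨G, hG⟩ : ∃ G, M = 2 ^ k + G := ⟨M - 2 ^ k, by omega⟩
  have hG1 : 1 ≤ G := by omega
  have hk1 : 1 ≤ k := by
    rcases Nat.eq_zero_or_pos k with h | h
    · subst h
      rw [pow_zero] at h1 h2
      omega
    · exact h
  obtain ⟨k', rfl⟩ : ∃ k', k = k' + 1 := ⟨k - 1, by omega⟩
  have hGk : G < 2 ^ k' := by
    rw [hG, pow_succ] at h2
    omega
  have hpG : 5 ≤ pc G := by
    have h : pc (2 ^ (k' + 1) + G) = 1 + pc G := pc_top (by rw [pow_succ]; omega)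
    rw [hG, h] at h6
    omega
  obtain ⟨r, hr⟩ : ∃ r, r = Nat.size G := ⟨_, rfl⟩
  have hr1 : G < 2 ^ r := by rw [hr]; exact Nat.lt_size_self G
  have hr2 : r ≤ k' := by rw [hr]; exact Nat.size_le.2 hGk
  have hr0 : 1 ≤ r := by
    rcases Nat.eq_zero_or_pos r with h | h
    · rw [h, pow_zero] at hr1
      omega
    · exact h
  have hr3 : 2 ^ (r - 1) ≤ G := by
    have h : r - 1 < Nat.size G := by omega
    exact Nat.lt_size.1 h
  obtain ⟨r', rfl⟩ : ∃ r', r = r' + 1 := ⟨r - 1, by omega⟩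
  rw [Nat.add_sub_cancel] at hr3
  obtain ⟨d, hd⟩ : ∃ d, d + G = 2 ^ (r' + 1) := ⟨2 ^ (r' + 1) - G, by omega⟩
  have hpr : 2 ^ (r' + 1) = 2 * 2 ^ r' := by rw [pow_succ]; ring
  have hd1 : 1 ≤ d := by omega
  have hd2 : d ≤ 2 ^ r' := by omega
  have hdr : d < 2 ^ (r' + 1) := by omega
  have hle : 2 ^ (r' + 1) ≤ 2 ^ (k' + 1) := Nat.pow_le_pow_right (by norm_num) (by omega)
  have e1 : 2 * 2 ^ (k' + 1) - M = 2 ^ (k' + 1) - 2 ^ (r' + 1) + d := by omega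
  have e2 : pc (2 ^ (k' + 1) - 2 ^ (r' + 1) + d) = (k' + 1 - (r' + 1)) + pc d :=
    pc_diff (by omega) hdr
  rw [e1, e2] at h3
  have hpd : 1 ≤ pc d := pc_pos hd1
  by_cases h4 : 3 ≤ pc d
  · have hne : d ≠ 2 ^ r' := by
      intro h
      rw [h, pc_pow] at h4
      omega
    exact t_main ⟨by omega, hG, hd, by omega, hpG, h4⟩ hb
  · by_cases h5 : pc d = 2
    · exact u_main ⟨by omega, hG, hG1, hd, h5⟩ hb
    · have h7 : pc d = 1 := by omega
      have h8 : pc (2 ^ (r' + 1) + d) = 2 := by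
        rw [pc_top hdr, h7]
      have h9 : 2 ^ (r' + 1) + d + G = 2 ^ (r' + 1 + 1) := by
        rw [pow_succ 2 (r' + 1)]
        omega
      have h10 : r' + 1 + 1 + 1 ≤ k' + 1 := by omega
      have h11 : Hyp5 (k' + 1) (r' + 1 + 1) M (2 ^ (r' + 1) + d) G := ⟨h10, hG, hG1, h9, h8⟩
      exact u_main h11 hb

end Pool.Agent.H978D
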