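import Pool.Agent.H978D.Final

set_option autoImplicit false
set_option maxRecDepth 1000000

namespace Pool.Agent.H978D

open Pool.Agent.MPe9218d Pool.Agent.H372R3.GE

def ut_13_1 : Tree :=
    (.b 12 13 (.l 37) (.b 11 25 (.l 49) (.b 12 26 (.l 50) (.b 11 38 (.l 62) (.b 12 39 (.b 11 51
    (.l 75) (.b 10 63 (.l 87) (.b 11 64 (.l 88) (.b 10 76 (.l 100) (.b 11 77 (.b 12 27 (.l 101)
    (.b 10 89 (.l 113) (.b 10 102 (.l 126) (.b 9 114 (.l 138) (.b 10 115 (.l 139) (.b 11 65 (.l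
    139) (.b 9 127 (.l 151) (.b 10 128 (.l 152) (.b 9 140 (.l 164) (.b 10 141 (.l 191) (.l
    165))))))))))) (.b 12 27 (.b 10 89 (.l 113) (.b 11 90 (.b 10 102 (.l 126) (.b 9 114 (.l 138)
    (.b 10 115 (.l 139) (.b 9 127 (.l 151) (.b 10 128 (.l 203) (.b 11 78 (.b 9 140 (.l 164) (.b
    10 141 (.l 204) (.l 165))) (.l 152))))))) (.l 114))) (.l 101))))))) (.l 63))))))

theorem u_13_1 {b : ℕ → ℕ} (hb : ∀ j, 1 ≤ j → j ≤ 13 → 1 ≤ b j)
    (hId : ∀ n, good 13 16 n = true → A (a 13) 1 13 n = B0 b 13 (C 13 1) n) : False := by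
  have h := final' (N := 204) (mask := 38615166348224898067245182702438990336649859846403406579109888)
    (t := ut_13_1) (sols := []) (by norm_num) hb hId (by decide +kernel) (by decide +kernel)
    (by decide +kernel) (by decide +kernel)
  simp at h

end Pool.Agent.H978D
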