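import Pool.Agent.H978D.Final

set_option autoImplicit false
set_option maxRecDepth 1000000

namespace Pool.Agent.H978D

open Pool.Agent.MPe9218d Pool.Agent.H372R3.GE

def ut_18_2 : Tree :=
    (.b 17 1 (.l 33) (.b 15 17 (.l 49) (.b 16 18 (.l 50) (.b 17 19 (.b 17 18 (.b 14 34 (.l 66)
    (.b 15 35 (.l 67) (.b 16 36 (.b 17 2 (.l 68) (.b 16 35 (.b 13 51 (.l 83) (.b 14 52 (.l 84)
    (.b 15 53 (.b 16 19 (.l 85) (.b 15 52 (.b 13 69 (.l 101) (.b 14 70 (.b 15 36 (.l 102) (.b 14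
    69 (.b 17 3 (.l 103) (.b 12 86 (.l 118) (.b 13 87 (.l 119) (.b 14 53 (.l 119) (.b 16 20 (.l
    120) (.b 11 103 (.l 135) (.b 12 104 (.l 136) (.b 13 105 (.l 137) (.b 15 37 (.l 137) (.b 17 4
    (.b 11 121 (.l 153) (.b 12 122 (.l 154) (.b 14 54 (.l 154) (.b 13 123 (.b 16 21 (.l 155) (.l
    191)) (.l 156))))) (.l 138))))))))))) (.b 17 3 (.b 12 86 (.l 118) (.b 13 87 (.l 119) (.b 16
    20 (.l 120) (.l 156)))) (.l 103)))) (.b 15 36 (.b 17 3 (.b 12 86 (.l 118) (.b 13 87 (.l 119)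
    (.b 14 88 (.b 16 20 (.l 120) (.l 156)) (.l 121)))) (.l 103)) (.l 102)))) (.l 86))) (.l
    86)))) (.l 69))) (.l 69)))) (.l 52)) (.l 51)))))

theorem u_18_2 {b : ℕ → ℕ} (hb : ∀ j, 1 ≤ j → j ≤ 18 → 1 ≤ b j)
    (hId : ∀ n, good 18 11 n = true → A (a 18) 2 18 n = B0 b 18 (C 18 2) n) : False := by
  have h := final' (N := 191) (mask := 5493990533516697762681670409042731289633413098543325052928)
    (t := ut_18_2) (sols := []) (by norm_num) hb hId (by decide +kernel) (by decide +kernel)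
    (by decide +kernel) (by decide +kernel)
  simp at h

end Pool.Agent.H978D
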