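import Pool.Agent.H978D.Final

set_option autoImplicit false
set_option maxRecDepth 1000000

namespace Pool.Agent.H978D

open Pool.Agent.MPe9218d Pool.Agent.H372R3.GE

def ut_28_3 : Tree :=
    (.b 26 2 (.l 50) (.b 27 3 (.l 51) (.b 22 26 (.l 74) (.b 23 27 (.l 75) (.b 24 28 (.l 76) (.b
    25 29 (.l 77) (.b 26 30 (.b 27 31 (.b 26 28 (.b 27 29 (.b 26 27 (.l 81) (.b 27 28 (.b 20 52
    (.l 100) (.b 21 53 (.l 101) (.b 22 54 (.l 102) (.b 23 55 (.l 103) (.b 24 56 (.b 25 57 (.b 27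
    5 (.b 24 54 (.b 27 4 (.b 25 55 (.b 24 53 (.b 25 54 (.b 18 78 (.l 126) (.b 19 79 (.l 127) (.b
    20 80 (.l 128) (.b 21 81 (.l 129) (.b 22 82 (.b 24 30 (.l 130) (.b 23 83 (.b 25 31 (.b 22 80
    (.b 25 30 (.b 23 81 (.b 22 79 (.b 23 80 (.b 17 105 (.l 153) (.b 18 106 (.l 154) (.b 19 107
    (.l 155) (.b 20 108 (.b 22 56 (.l 156) (.b 21 109 (.b 23 57 (.b 20 106 (.b 23 56 (.b 21 107
    (.b 20 105 (.b 21 106 (.b 16 132 (.l 180) (.b 17 133 (.l 181) (.b 18 134 (.l 182) (.b 20 82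
    (.l 182) (.b 19 135 (.l 214) (.l 185)))))) (.l 160)) (.l 159)) (.l 159)) (.l 158)) (.l 158))
    (.l 157)) (.l 157))) (.l 158))))) (.l 134)) (.l 133)) (.l 133)) (.l 132)) (.l 132)) (.l
    131)) (.l 131))) (.l 132)))))) (.l 108)) (.l 107)) (.l 107)) (.l 106)) (.l 106)) (.l 105))
    (.l 105)) (.l 104)))))) (.l 82))) (.l 82)) (.l 80)) (.l 79)) (.l 78))))))))

theorem u_28_3 {b : ℕ → ℕ} (hb : ∀ j, 1 ≤ j → j ≤ 28 → 1 ≤ b j)
    (hId : ∀ n, good 28 8 n = true → A (a 28) 3 28 n = B0 b 28 (C 28 3) n) : False := by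
  have h := final' (N := 214) (mask := 51833493983116148404386892683734913424949294220030053836929368064)
    (t := ut_28_3) (sols := []) (by norm_num) hb hId (by decide +kernel) (by decide +kernel)
    (by decide +kernel) (by decide +kernel)
  simp at h

end Pool.Agent.H978D
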