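import Pool.Agent.H372R3.GE12
import Pool.Agent.H978D.E5
import Pool.Agent.H978D.U1
import Pool.Agent.H978D.U2
import Pool.Agent.H978D.U3
import Pool.Agent.H978D.P01
import Pool.Agent.H978D.P02
import Pool.Agent.H978D.P03
import Pool.Agent.H978D.P04
import Pool.Agent.H978D.P05
import Pool.Agent.H978D.P06
import Pool.Agent.H978D.P07
import Pool.Agent.H978D.P08
import Pool.Agent.H978D.P09
import Pool.Agent.H978D.P10
import Pool.Agent.H978D.P11
import Pool.Agent.H978D.P12

set_option autoImplicit false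

namespace Pool.Agent.H978D

open Pool.Agent.MPe9218d Pool.Agent.H372R3.GE

/-- passing from the no-wrap range of a large modulus `M` to the base modulus `W` -/
theorem toBase {k M W Q0 : ℕ} {b : ℕ → ℕ} (hb : ∀ j, 1 ≤ j → j ≤ M → 1 ≤ b j)
    (hWM : W ≤ M) (hkW : 2 ^ k < W) (hQ0 : 1 ≤ Q0) (h1 : 2 ^ k * (Q0 + 2) ≤ 2 * W)
    (h2 : 2 ^ k * (3 * Q0 + 4) < 4 * (W + 1)) (hId : Identity M (k + 1) b) :
    ∃ b' : ℕ → ℕ, (∀ j, 1 ≤ j → j ≤ W → 1 ≤ b' j) ∧ ∀ n, good W Q0 n = true →
      A (a W) (k + 1) W n = B0 b' W (C W (k + 1)) n := by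
  obtain ⟨b', hb', h⟩ := transfer_id hb hWM hkW hQ0 h1 h2 hId
  refine ⟨b', fun j _ _ => hb' j, fun n hn => ?_⟩
  unfold good at hn
  rw [Bool.and_eq_true, Nat.blt_eq, Nat.ble_eq] at hn
  obtain ⟨hn1, hn2⟩ := hn
  have hW0 : 0 < W := lt_of_le_of_lt (Nat.zero_le _) hkW
  have hlt : n % W < W := Nat.mod_lt _ hW0
  have hdm : W * (n / W) + n % W = n := Nat.div_add_mod n W
  have key : (n / W + 1) * W - (W - n % W) = n := by
    have h5 : (n / W + 1) * W = W * (n / W) + W := by ring
    rw [h5]
    clear h5 h1 h2 h hId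
    generalize W * (n / W) = z at *
    omega
  have h6 := h (n / W + 1) (W - n % W) (Nat.le_add_left 1 _) hn2 (by clear h1 h2 h key; omega)
    (by clear h1 h2 h key; omega)
  rwa [key] at h6

/-- for `s ≤ 3` the identity fails for every `M ≥ 12` -/
theorem noId_small {M s : ℕ} {b : ℕ → ℕ} (hs1 : 1 ≤ s) (hs3 : s ≤ 3) (hM : 12 ≤ M)
    (hb : ∀ j, 1 ≤ j → j ≤ M → 1 ≤ b j) : ¬ Identity M s b := by
  intro hId
  interval_cases s
  · by_cases h : M < 13
    · have : M = 12 := by omega
      subst this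
      exact c_12_1 hb hId
    · obtain ⟨b', hb', h'⟩ := toBase (k := 0) (W := 13) (Q0 := 16) hb (by omega) (by norm_num)
        (by norm_num) (by norm_num) (by norm_num) hId
      exact u_13_1 hb' h'
  · by_cases h : M < 18
    · interval_cases M
      · exact c_12_2 hb hId
      · exact c_13_2 hb hId
      · exact c_14_2 hb hId
      · exact c_15_2 hb hId
      · exact c_16_2 hb hId
      · exact c_17_2 hb hId
    · obtain ⟨b', hb', h'⟩ := toBase (k := 1) (W := 18) (Q0 := 11) hb (by omega) (by norm_num)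
        (by norm_num) (by norm_num) (by norm_num) hId
      exact u_18_2 hb' h'
  · by_cases h : M < 28
    · interval_cases M
      · exact c_12_3 hb hId
      · exact c_13_3 hb hId
      · exact c_14_3 hb hId
      · exact c_15_3 hb hId
      · exact c_16_3 hb hId
      · exact c_17_3 hb hId
      · exact c_18_3 hb hId
      · exact c_19_3 hb hId
      · exact c_20_3 hb hId
      · exact c_21_3 hb hId
      · exact c_22_3 hb hId
      · exact c_23_3 hb hId
      · exact c_24_3 hb hId
      · exact c_25_3 hb hId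
      · exact c_26_3 hb hId
      · exact c_27_3 hb hId
    · obtain ⟨b', hb', h'⟩ := toBase (k := 2) (W := 28) (Q0 := 8) hb (by omega) (by norm_num)
        (by norm_num) (by norm_num) (by norm_num) hId
      exact u_28_3 hb' h'

end Pool.Agent.H978D
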