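import Pool.Agent.H978D.VDefs

/-!
Certificates with a check of small kernel memory (job X1 of helper978, by helper732); the trees are
those of the files `P01` to `P12`, `U1` to `U3`.
-/

set_option autoImplicit false
set_option maxRecDepth 1000000

namespace Pool.Agent.H978D

open Pool.Agent.MPe9218d Pool.Agent.H372R3.GE

def t_12_1 : Tree :=
    (.b 11 12 (.l 34) (.b 10 23 (.l 45) (.b 11 24 (.l 46) (.b 10 35 (.l 57) (.b 11 36 (.b 10 47
    (.l 69) (.b 9 58 (.l 80) (.b 10 59 (.l 81) (.b 9 70 (.l 92) (.b 10 71 (.b 11 25 (.l 93) (.b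
    9 82 (.l 104) (.b 9 94 (.l 116) (.b 8 105 (.l 127) (.b 9 106 (.l 128) (.b 10 60 (.l 128) (.b
    8 117 (.l 139) (.b 9 118 (.l 140) (.b 8 129 (.l 151) (.b 9 130 (.l 176) (.l 152)))))))))))
    (.b 11 25 (.b 9 82 (.l 104) (.b 10 83 (.b 9 94 (.l 116) (.b 8 105 (.l 127) (.b 9 106 (.l
    128) (.b 8 117 (.l 139) (.b 9 118 (.l 187) (.b 10 72 (.b 8 129 (.l 151) (.b 9 130 (.l 188)
    (.l 152))) (.l 140))))))) (.l 105))) (.l 93))))))) (.l 58))))))

def la_12_1 : List ℕ :=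
  [179, 167, 155, 143, 131, 119, 107, 95, 83, 71, 59, 47, 35, 23, 11]

def lb_12_1 : List ℕ :=
  [188, 187, 179, 178, 177, 176, 175, 167, 166, 165, 164, 155, 154, 153, 152, 143, 142, 141, 140,
  131, 130, 129, 128, 119, 118, 117, 116, 107, 106, 105, 95, 94, 93, 83, 82, 81, 71, 70, 69, 59,
  58, 47, 46, 35, 34, 23, 11]

def m_12_1 : ℕ :=
  589963243593763884474303430398524121341245350745831639040

theorem a_12_1_A : dsc (okAb 12 1) 188 = la_12_1 := by decide +kernel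

theorem a_12_1_B : dsc (fun e => m_12_1.testBit e) 188 = lb_12_1 := by decide +kernel

theorem a_12_1_C : fC la_12_1 m_12_1 188 = true := by decide +kernel

theorem a_12_1_K : fK 12 188 la_12_1 lb_12_1 t_12_1
    (List.replicate 12 1) (List.replicate 12 INF) = true := by decide +kernel

theorem c_12_1 {b : ℕ → ℕ} (hb : ∀ j, 1 ≤ j → j ≤ 12 → 1 ≤ b j)
    (hId : Identity 12 1 b) : False := by
  have h := final (N := 188) (mask := m_12_1) (t := t_12_1) (sols := []) (by norm_num) hb hId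
    (by decide +kernel) (fC_sound a_12_1_A 188 le_rfl a_12_1_C) (fK_root a_12_1_A a_12_1_B a_12_1_K)
  simp at h

def t_12_2 : Tree :=
    (.b 11 1 (.l 21) (.b 9 11 (.l 31) (.b 10 12 (.l 32) (.b 11 13 (.b 11 12 (.b 8 22 (.l 42) (.b
    9 23 (.l 43) (.b 10 24 (.b 11 2 (.l 44) (.b 10 23 (.b 7 33 (.l 53) (.b 8 34 (.l 54) (.b 9 35
    (.b 10 13 (.l 55) (.b 9 34 (.b 7 45 (.l 65) (.b 8 46 (.b 9 24 (.l 66) (.b 8 45 (.b 11 3 (.l
    67) (.b 6 56 (.l 76) (.b 7 57 (.l 77) (.b 8 35 (.l 77) (.b 10 14 (.l 78) (.b 5 67 (.l 87)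
    (.b 6 68 (.l 88) (.b 7 69 (.l 89) (.b 9 25 (.l 89) (.b 11 4 (.b 5 79 (.l 99) (.b 6 80 (.l
    100) (.b 8 36 (.l 100) (.b 7 81 (.b 10 15 (.l 101) (.l 125)) (.l 102))))) (.l 90)))))))))))
    (.b 11 3 (.b 6 56 (.l 76) (.b 7 57 (.l 77) (.b 10 14 (.l 78) (.l 102)))) (.l 67)))) (.b 9 24
    (.b 11 3 (.b 6 56 (.l 76) (.b 7 57 (.l 77) (.b 8 58 (.b 10 14 (.l 78) (.l 102)) (.l 79))))
    (.l 67)) (.l 66)))) (.l 56))) (.l 56)))) (.l 45))) (.l 45)))) (.l 34)) (.l 33)))))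

def la_12_2 : List ℕ :=
  [119, 118, 107, 106, 95, 94, 83, 82, 71, 70, 59, 58, 47, 46, 35, 34, 23, 22, 11, 10]

def lb_12_2 : List ℕ :=
  [125, 124, 123, 119, 118, 117, 116, 115, 114, 113, 112, 107, 106, 105, 104, 103, 102, 101, 100,
  95, 94, 93, 92, 91, 90, 89, 83, 82, 81, 80, 79, 78, 77, 71, 70, 69, 68, 67, 66, 59, 58, 57, 56,
  55, 47, 46, 45, 44, 43, 35, 34, 33, 32, 23, 22, 21, 11, 10]

def m_12_2 : ℕ :=
  75761126792413116968090555318928411648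

theorem a_12_2_A : dsc (okAb 12 2) 125 = la_12_2 := by decide +kernel

theorem a_12_2_B : dsc (fun e => m_12_2.testBit e) 125 = lb_12_2 := by decide +kernel

theorem a_12_2_C : fC la_12_2 m_12_2 125 = true := by decide +kernel

theorem a_12_2_K : fK 12 125 la_12_2 lb_12_2 t_12_2
    (List.replicate 12 1) (List.replicate 12 INF) = true := by decide +kernel

theorem c_12_2 {b : ℕ → ℕ} (hb : ∀ j, 1 ≤ j → j ≤ 12 → 1 ≤ b j)
    (hId : Identity 12 2 b) : False := by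
  have h := final (N := 125) (mask := m_12_2) (t := t_12_2) (sols := []) (by norm_num) hb hId
    (by decide +kernel) (fC_sound a_12_2_A 125 le_rfl a_12_2_C) (fK_root a_12_2_A a_12_2_B a_12_2_K)
  simp at h

def t_13_2 : Tree :=
    (.b 12 1 (.l 23) (.b 10 12 (.l 34) (.b 11 13 (.l 35) (.b 12 14 (.b 12 13 (.b 9 24 (.l 46)
    (.b 10 25 (.l 47) (.b 11 26 (.b 12 2 (.l 48) (.b 11 25 (.b 8 36 (.l 58) (.b 9 37 (.l 59) (.b
    10 38 (.b 11 14 (.l 60) (.b 10 37 (.b 8 49 (.l 71) (.b 9 50 (.b 10 26 (.l 72) (.b 9 49 (.b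
    12 3 (.l 73) (.b 7 61 (.l 83) (.b 8 62 (.l 84) (.b 9 38 (.l 84) (.b 11 15 (.l 85) (.b 6 73
    (.l 95) (.b 7 74 (.l 96) (.b 8 75 (.l 97) (.b 10 27 (.l 97) (.b 12 4 (.b 6 86 (.l 108) (.b 7
    87 (.l 109) (.b 9 39 (.l 109) (.b 8 88 (.b 11 16 (.l 110) (.l 136)) (.l 111))))) (.l
    98))))))))))) (.b 12 3 (.b 7 61 (.l 83) (.b 8 62 (.l 84) (.b 11 15 (.l 85) (.l 111)))) (.l
    73)))) (.b 10 26 (.b 12 3 (.b 7 61 (.l 83) (.b 8 62 (.l 84) (.b 9 63 (.b 11 15 (.l 85) (.l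
    111)) (.l 86)))) (.l 73)) (.l 72)))) (.l 61))) (.l 61)))) (.l 49))) (.l 49)))) (.l 37)) (.l
    36)))))

def la_13_2 : List ℕ :=
  [129, 128, 116, 115, 103, 102, 90, 89, 77, 76, 64, 63, 51, 50, 38, 37, 25, 24, 12, 11]

def lb_13_2 : List ℕ :=
  [136, 135, 134, 129, 128, 127, 126, 125, 124, 123, 122, 116, 115, 114, 113, 112, 111, 110, 109,
  103, 102, 101, 100, 99, 98, 97, 90, 89, 88, 87, 86, 85, 84, 77, 76, 75, 74, 73, 72, 64, 63, 62,
  61, 60, 51, 50, 49, 48, 47, 38, 37, 36, 35, 25, 24, 23, 12, 11]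

def m_13_2 : ℕ :=
  153802478460869821733017798766539824961536

theorem a_13_2_A : dsc (okAb 13 2) 136 = la_13_2 := by decide +kernel

theorem a_13_2_B : dsc (fun e => m_13_2.testBit e) 136 = lb_13_2 := by decide +kernel

theorem a_13_2_C : fC la_13_2 m_13_2 136 = true := by decide +kernel

theorem a_13_2_K : fK 13 136 la_13_2 lb_13_2 t_13_2
    (List.replicate 13 1) (List.replicate 13 INF) = true := by decide +kernel

theorem c_13_2 {b : ℕ → ℕ} (hb : ∀ j, 1 ≤ j → j ≤ 13 → 1 ≤ b j)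
    (hId : Identity 13 2 b) : False := by
  have h := final (N := 136) (mask := m_13_2) (t := t_13_2) (sols := []) (by norm_num) hb hId
    (by decide +kernel) (fC_sound a_13_2_A 136 le_rfl a_13_2_C) (fK_root a_13_2_A a_13_2_B a_13_2_K)
  simp at h

def t_14_2 : Tree :=
    (.b 13 1 (.l 25) (.b 11 13 (.l 37) (.b 12 14 (.l 38) (.b 13 15 (.b 13 14 (.b 10 26 (.l 50)
    (.b 11 27 (.l 51) (.b 12 28 (.b 13 2 (.l 52) (.b 12 27 (.b 9 39 (.l 63) (.b 10 40 (.l 64)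
    (.b 11 41 (.b 12 15 (.l 65) (.b 11 40 (.b 9 53 (.l 77) (.b 10 54 (.b 11 28 (.l 78) (.b 10 53
    (.b 13 3 (.l 79) (.b 8 66 (.l 90) (.b 9 67 (.l 91) (.b 10 41 (.l 91) (.b 12 16 (.l 92) (.b 7
    79 (.l 103) (.b 8 80 (.l 104) (.b 9 81 (.l 105) (.b 11 29 (.l 105) (.b 13 4 (.b 7 93 (.l
    117) (.b 8 94 (.l 118) (.b 10 42 (.l 118) (.b 9 95 (.b 12 17 (.l 119) (.l 147)) (.l 120)))))
    (.l 106))))))))))) (.b 13 3 (.b 8 66 (.l 90) (.b 9 67 (.l 91) (.b 12 16 (.l 92) (.l 120))))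
    (.l 79)))) (.b 11 28 (.b 13 3 (.b 8 66 (.l 90) (.b 9 67 (.l 91) (.b 10 68 (.b 12 16 (.l 92)
    (.l 120)) (.l 93)))) (.l 79)) (.l 78)))) (.l 66))) (.l 66)))) (.l 53))) (.l 53)))) (.l 40))
    (.l 39)))))

def la_14_2 : List ℕ :=
  [139, 138, 125, 124, 111, 110, 97, 96, 83, 82, 69, 68, 55, 54, 41, 40, 27, 26, 13, 12]

def lb_14_2 : List ℕ :=
  [147, 146, 145, 139, 138, 137, 136, 135, 134, 133, 132, 125, 124, 123, 122, 121, 120, 119, 118,
  111, 110, 109, 108, 107, 106, 105, 97, 96, 95, 94, 93, 92, 91, 83, 82, 81, 80, 79, 78, 69, 68,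
  67, 66, 65, 55, 54, 53, 52, 51, 41, 40, 39, 38, 27, 26, 25, 13, 12]

def m_14_2 : ℕ :=
  313598869579902930695956750034244091584196608

theorem a_14_2_A : dsc (okAb 14 2) 147 = la_14_2 := by decide +kernel

theorem a_14_2_B : dsc (fun e => m_14_2.testBit e) 147 = lb_14_2 := by decide +kernel

theorem a_14_2_C : fC la_14_2 m_14_2 147 = true := by decide +kernel

theorem a_14_2_K : fK 14 147 la_14_2 lb_14_2 t_14_2
    (List.replicate 14 1) (List.replicate 14 INF) = true := by decide +kernel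

theorem c_14_2 {b : ℕ → ℕ} (hb : ∀ j, 1 ≤ j → j ≤ 14 → 1 ≤ b j)
    (hId : Identity 14 2 b) : False := by
  have h := final (N := 147) (mask := m_14_2) (t := t_14_2) (sols := []) (by norm_num) hb hId
    (by decide +kernel) (fC_sound a_14_2_A 147 le_rfl a_14_2_C) (fK_root a_14_2_A a_14_2_B a_14_2_K)
  simp at h

def t_15_2 : Tree :=
    (.b 14 1 (.l 27) (.b 12 14 (.l 40) (.b 13 15 (.l 41) (.b 14 16 (.b 14 15 (.b 11 28 (.l 54)
    (.b 12 29 (.l 55) (.b 13 30 (.b 14 2 (.l 56) (.b 13 29 (.b 10 42 (.l 68) (.b 11 43 (.l 69)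
    (.b 12 44 (.b 13 16 (.l 70) (.b 12 43 (.b 10 57 (.l 83) (.b 11 58 (.b 12 30 (.l 84) (.b 11
    57 (.b 14 3 (.l 85) (.b 9 71 (.l 97) (.b 10 72 (.l 98) (.b 11 44 (.l 98) (.b 13 17 (.l 99)
    (.b 8 85 (.l 111) (.b 9 86 (.l 112) (.b 10 87 (.l 113) (.b 12 31 (.l 113) (.b 14 4 (.b 8 100
    (.l 126) (.b 9 101 (.l 127) (.b 11 45 (.l 127) (.b 10 102 (.b 13 18 (.l 128) (.l 158)) (.l
    129))))) (.l 114))))))))))) (.b 14 3 (.b 9 71 (.l 97) (.b 10 72 (.l 98) (.b 13 17 (.l 99)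
    (.l 129)))) (.l 85)))) (.b 12 30 (.b 14 3 (.b 9 71 (.l 97) (.b 10 72 (.l 98) (.b 11 73 (.b
    13 17 (.l 99) (.l 129)) (.l 100)))) (.l 85)) (.l 84)))) (.l 71))) (.l 71)))) (.l 57))) (.l
    57)))) (.l 43)) (.l 42)))))

def la_15_2 : List ℕ :=
  [149, 148, 134, 133, 119, 118, 104, 103, 89, 88, 74, 73, 59, 58, 44, 43, 29, 28, 14, 13]

def lb_15_2 : List ℕ :=
  [158, 157, 156, 149, 148, 147, 146, 145, 144, 143, 142, 134, 133, 132, 131, 130, 129, 128, 127,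
  119, 118, 117, 116, 115, 114, 113, 104, 103, 102, 101, 100, 99, 98, 89, 88, 87, 86, 85, 84, 74,
  73, 72, 71, 70, 59, 58, 57, 56, 55, 44, 43, 42, 41, 29, 28, 27, 14, 13]

def m_15_2 : ℕ :=
  640828682225997020010232145223076559425602871296

theorem a_15_2_A : dsc (okAb 15 2) 158 = la_15_2 := by decide +kernel

theorem a_15_2_B : dsc (fun e => m_15_2.testBit e) 158 = lb_15_2 := by decide +kernel

theorem a_15_2_C : fC la_15_2 m_15_2 158 = true := by decide +kernel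

theorem a_15_2_K : fK 15 158 la_15_2 lb_15_2 t_15_2
    (List.replicate 15 1) (List.replicate 15 INF) = true := by decide +kernel

theorem c_15_2 {b : ℕ → ℕ} (hb : ∀ j, 1 ≤ j → j ≤ 15 → 1 ≤ b j)
    (hId : Identity 15 2 b) : False := by
  have h := final (N := 158) (mask := m_15_2) (t := t_15_2) (sols := []) (by norm_num) hb hId
    (by decide +kernel) (fC_sound a_15_2_A 158 le_rfl a_15_2_C) (fK_root a_15_2_A a_15_2_B a_15_2_K)
  simp at h

end Pool.Agent.H978D
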