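import Pool.Agent.H978D.VDefs

/-!
Certificates with a check of small kernel memory (job X1 of helper978, by helper732); the trees are
those of the files `P01` to `P12`, `U1` to `U3`.
-/

set_option autoImplicit false
set_option maxRecDepth 1000000

namespace Pool.Agent.H978D

open Pool.Agent.MPe9218d Pool.Agent.H372R3.GE

def t_16_2 : Tree :=
    (.b 15 1 (.l 29) (.b 13 15 (.l 43) (.b 14 16 (.l 44) (.b 15 17 (.b 15 16 (.b 12 30 (.l 58)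
    (.b 13 31 (.l 59) (.b 14 32 (.b 15 2 (.l 60) (.b 14 31 (.b 11 45 (.l 73) (.b 12 46 (.l 74)
    (.b 13 47 (.b 14 17 (.l 75) (.b 13 46 (.b 11 61 (.l 89) (.b 12 62 (.b 13 32 (.l 90) (.b 12
    61 (.b 15 3 (.l 91) (.b 10 76 (.l 104) (.b 11 77 (.l 105) (.b 12 47 (.l 105) (.b 14 18 (.l
    106) (.b 9 91 (.l 119) (.b 10 92 (.l 120) (.b 11 93 (.l 121) (.b 13 33 (.l 121) (.b 15 4 (.b
    9 107 (.l 135) (.b 10 108 (.l 136) (.b 12 48 (.l 136) (.b 11 109 (.b 14 19 (.l 137) (.l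
    169)) (.l 138))))) (.l 122))))))))))) (.b 15 3 (.b 10 76 (.l 104) (.b 11 77 (.l 105) (.b 14
    18 (.l 106) (.l 138)))) (.l 91)))) (.b 13 32 (.b 15 3 (.b 10 76 (.l 104) (.b 11 77 (.l 105)
    (.b 12 78 (.b 14 18 (.l 106) (.l 138)) (.l 107)))) (.l 91)) (.l 90)))) (.l 76))) (.l 76))))
    (.l 61))) (.l 61)))) (.l 46)) (.l 45)))))

def la_16_2 : List ℕ :=
  [159, 158, 143, 142, 127, 126, 111, 110, 95, 94, 79, 78, 63, 62, 47, 46, 31, 30, 15, 14]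

def lb_16_2 : List ℕ :=
  [169, 168, 167, 159, 158, 157, 156, 155, 154, 153, 152, 143, 142, 141, 140, 139, 138, 137, 136,
  127, 126, 125, 124, 123, 122, 121, 111, 110, 109, 108, 107, 106, 105, 95, 94, 93, 92, 91, 90,
  79, 78, 77, 76, 75, 63, 62, 61, 60, 59, 47, 46, 45, 44, 31, 30, 29, 15, 14]

def m_16_2 : ℕ :=
  1310961281909019635450783356044604035728766450843648

theorem a_16_2_A : dsc (okAb 16 2) 169 = la_16_2 := by decide +kernel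

theorem a_16_2_B : dsc (fun e => m_16_2.testBit e) 169 = lb_16_2 := by decide +kernel

theorem a_16_2_C : fC la_16_2 m_16_2 169 = true := by decide +kernel

theorem a_16_2_K : fK 16 169 la_16_2 lb_16_2 t_16_2
    (List.replicate 16 1) (List.replicate 16 INF) = true := by decide +kernel

theorem c_16_2 {b : ℕ → ℕ} (hb : ∀ j, 1 ≤ j → j ≤ 16 → 1 ≤ b j)
    (hId : Identity 16 2 b) : False := by
  have h := final (N := 169) (mask := m_16_2) (t := t_16_2) (sols := []) (by norm_num) hb hId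
    (by decide +kernel) (fC_sound a_16_2_A 169 le_rfl a_16_2_C) (fK_root a_16_2_A a_16_2_B a_16_2_K)
  simp at h

def t_17_2 : Tree :=
    (.b 16 1 (.l 31) (.b 14 16 (.l 46) (.b 15 17 (.l 47) (.b 16 18 (.b 16 17 (.b 13 32 (.l 62)
    (.b 14 33 (.l 63) (.b 15 34 (.b 16 2 (.l 64) (.b 15 33 (.b 12 48 (.l 78) (.b 13 49 (.l 79)
    (.b 14 50 (.b 15 18 (.l 80) (.b 14 49 (.b 12 65 (.l 95) (.b 13 66 (.b 14 34 (.l 96) (.b 13
    65 (.b 16 3 (.l 97) (.b 11 81 (.l 111) (.b 12 82 (.l 112) (.b 13 50 (.l 112) (.b 15 19 (.l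
    113) (.b 10 97 (.l 127) (.b 11 98 (.l 128) (.b 12 99 (.l 129) (.b 14 35 (.l 129) (.b 16 4
    (.b 10 114 (.l 144) (.b 11 115 (.l 145) (.b 13 51 (.l 145) (.b 12 116 (.b 15 20 (.l 146) (.l
    180)) (.l 147))))) (.l 130))))))))))) (.b 16 3 (.b 11 81 (.l 111) (.b 12 82 (.l 112) (.b 15
    19 (.l 113) (.l 147)))) (.l 97)))) (.b 14 34 (.b 16 3 (.b 11 81 (.l 111) (.b 12 82 (.l 112)
    (.b 13 83 (.b 15 19 (.l 113) (.l 147)) (.l 114)))) (.l 97)) (.l 96)))) (.l 81))) (.l 81))))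
    (.l 65))) (.l 65)))) (.l 49)) (.l 48)))))

def la_17_2 : List ℕ :=
  [169, 168, 152, 151, 135, 134, 118, 117, 101, 100, 84, 83, 67, 66, 50, 49, 33, 32, 16, 15]

def lb_17_2 : List ℕ :=
  [180, 179, 178, 169, 168, 167, 166, 165, 164, 163, 162, 152, 151, 150, 149, 148, 147, 146, 145,
  135, 134, 133, 132, 131, 130, 129, 118, 117, 116, 115, 114, 113, 112, 101, 100, 99, 98, 97, 96,
  84, 83, 82, 81, 80, 67, 66, 65, 64, 63, 50, 49, 48, 47, 33, 32, 31, 16, 15]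

def m_17_2 : ℕ :=
  2683357939558849506734917469040986190025133703542439936

theorem a_17_2_A : dsc (okAb 17 2) 180 = la_17_2 := by decide +kernel

theorem a_17_2_B : dsc (fun e => m_17_2.testBit e) 180 = lb_17_2 := by decide +kernel

theorem a_17_2_C : fC la_17_2 m_17_2 180 = true := by decide +kernel

theorem a_17_2_K : fK 17 180 la_17_2 lb_17_2 t_17_2
    (List.replicate 17 1) (List.replicate 17 INF) = true := by decide +kernel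

theorem c_17_2 {b : ℕ → ℕ} (hb : ∀ j, 1 ≤ j → j ≤ 17 → 1 ≤ b j)
    (hId : Identity 17 2 b) : False := by
  have h := final (N := 180) (mask := m_17_2) (t := t_17_2) (sols := []) (by norm_num) hb hId
    (by decide +kernel) (fC_sound a_17_2_A 180 le_rfl a_17_2_C) (fK_root a_17_2_A a_17_2_B a_17_2_K)
  simp at h

def t_12_3 : Tree :=
    (.b 10 2 (.l 18) (.b 11 3 (.l 19) (.b 6 10 (.l 26) (.b 7 11 (.l 27) (.b 8 12 (.l 28) (.b 9
    13 (.l 29) (.b 10 14 (.b 11 15 (.b 10 12 (.b 11 13 (.b 10 11 (.l 33) (.b 11 12 (.b 4 20 (.l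
    36) (.b 5 21 (.l 37) (.b 6 22 (.l 38) (.b 7 23 (.l 39) (.b 8 24 (.b 9 25 (.b 11 5 (.b 8 22
    (.b 11 4 (.b 9 23 (.b 8 21 (.b 9 22 (.b 2 30 (.l 46) (.b 3 31 (.l 47) (.b 4 32 (.l 48) (.b 5
    33 (.l 49) (.b 6 34 (.b 8 14 (.l 50) (.b 7 35 (.b 9 15 (.b 6 32 (.b 9 14 (.b 7 33 (.b 6 31
    (.b 7 32 (.b 1 41 (.l 57) (.b 2 42 (.l 58) (.b 3 43 (.l 59) (.b 4 44 (.b 6 24 (.l 60) (.b 5
    45 (.b 7 25 (.b 4 42 (.b 7 24 (.b 5 43 (.b 4 41 (.b 5 42 (.b 0 52 (.l 68) (.b 1 53 (.l 69)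
    (.b 2 54 (.b 4 34 (.l 70) (.b 3 55 (.l 85) (.l 71))) (.b 4 34 (.b 3 55 (.l 86) (.l 73)) (.l
    70))))) (.l 64)) (.l 63)) (.l 63)) (.l 62)) (.l 62)) (.l 61)) (.l 61))) (.l 62))))) (.l 54))
    (.l 53)) (.l 53)) (.l 52)) (.l 52)) (.l 51)) (.l 51))) (.l 52)))))) (.l 44)) (.l 43)) (.l
    43)) (.l 42)) (.l 42)) (.l 41)) (.l 41)) (.l 40)))))) (.l 34))) (.l 34)) (.l 32)) (.l 31))
    (.l 30))))))))

def la_12_3 : List ℕ :=
  [83, 82, 80, 71, 70, 68, 59, 58, 56, 47, 46, 44, 35, 34, 32, 23, 22, 20, 11, 10, 8]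

def lb_12_3 : List ℕ :=
  [86, 85, 84, 83, 82, 81, 80, 79, 78, 77, 76, 75, 74, 73, 72, 71, 70, 69, 68, 67, 66, 65, 64,
  63, 62, 61, 60, 59, 58, 57, 56, 55, 54, 53, 52, 51, 50, 49, 47, 46, 45, 44, 43, 42, 41, 40, 39,
  38, 35, 34, 33, 32, 31, 30, 29, 28, 23, 22, 21, 20, 19, 18, 11, 10, 8]

def m_12_3 : ℕ :=
  154742504910390852975332608

theorem a_12_3_A : dsc (okAb 12 3) 86 = la_12_3 := by decide +kernel

theorem a_12_3_B : dsc (fun e => m_12_3.testBit e) 86 = lb_12_3 := by decide +kernel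

theorem a_12_3_C : fC la_12_3 m_12_3 86 = true := by decide +kernel

theorem a_12_3_K : fK 12 86 la_12_3 lb_12_3 t_12_3
    (List.replicate 12 1) (List.replicate 12 INF) = true := by decide +kernel

theorem c_12_3 {b : ℕ → ℕ} (hb : ∀ j, 1 ≤ j → j ≤ 12 → 1 ≤ b j)
    (hId : Identity 12 3 b) : False := by
  have h := final (N := 86) (mask := m_12_3) (t := t_12_3) (sols := []) (by norm_num) hb hId
    (by decide +kernel) (fC_sound a_12_3_A 86 le_rfl a_12_3_C) (fK_root a_12_3_A a_12_3_B a_12_3_K)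
  simp at h

def t_13_3 : Tree :=
    (.b 11 2 (.l 20) (.b 12 3 (.l 21) (.b 7 11 (.l 29) (.b 8 12 (.l 30) (.b 9 13 (.l 31) (.b 10
    14 (.l 32) (.b 11 15 (.b 12 16 (.b 11 13 (.b 12 14 (.b 11 12 (.l 36) (.b 12 13 (.b 5 22 (.l
    40) (.b 6 23 (.l 41) (.b 7 24 (.l 42) (.b 8 25 (.l 43) (.b 9 26 (.b 10 27 (.b 12 5 (.b 9 24
    (.b 12 4 (.b 10 25 (.b 9 23 (.b 10 24 (.b 3 33 (.l 51) (.b 4 34 (.l 52) (.b 5 35 (.l 53) (.b
    6 36 (.l 54) (.b 7 37 (.b 9 15 (.l 55) (.b 8 38 (.b 10 16 (.b 7 35 (.b 10 15 (.b 8 36 (.b 7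
    34 (.b 8 35 (.b 2 45 (.l 63) (.b 3 46 (.l 64) (.b 4 47 (.l 65) (.b 5 48 (.b 7 26 (.l 66) (.b
    6 49 (.b 8 27 (.b 5 46 (.b 8 26 (.b 6 47 (.b 5 45 (.b 6 46 (.b 1 57 (.l 75) (.b 2 58 (.l 76)
    (.b 3 59 (.b 5 37 (.l 77) (.b 4 60 (.l 93) (.l 81))) (.b 5 37 (.b 4 60 (.l 94) (.l 80)) (.l
    77))))) (.l 70)) (.l 69)) (.l 69)) (.l 68)) (.l 68)) (.l 67)) (.l 67))) (.l 68))))) (.l 59))
    (.l 58)) (.l 58)) (.l 57)) (.l 57)) (.l 56)) (.l 56))) (.l 57)))))) (.l 48)) (.l 47)) (.l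
    47)) (.l 46)) (.l 46)) (.l 45)) (.l 45)) (.l 44)))))) (.l 37))) (.l 37)) (.l 35)) (.l 34))
    (.l 33))))))))

def la_13_3 : List ℕ :=
  [90, 89, 87, 77, 76, 74, 64, 63, 61, 51, 50, 48, 38, 37, 35, 25, 24, 22, 12, 11, 9]

def lb_13_3 : List ℕ :=
  [94, 93, 92, 91, 90, 89, 88, 87, 86, 85, 84, 83, 82, 81, 80, 79, 78, 77, 76, 75, 74, 73, 72,
  71, 70, 69, 68, 67, 66, 64, 63, 62, 61, 60, 59, 58, 57, 56, 55, 54, 51, 50, 49, 48, 47, 46, 45,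
  44, 43, 42, 38, 37, 36, 35, 34, 33, 32, 31, 25, 24, 23, 22, 21, 20, 12, 11, 9]

def m_13_3 : ℕ :=
  39614081220225166000098646528

theorem a_13_3_A : dsc (okAb 13 3) 94 = la_13_3 := by decide +kernel

theorem a_13_3_B : dsc (fun e => m_13_3.testBit e) 94 = lb_13_3 := by decide +kernel

theorem a_13_3_C : fC la_13_3 m_13_3 94 = true := by decide +kernel

theorem a_13_3_K : fK 13 94 la_13_3 lb_13_3 t_13_3
    (List.replicate 13 1) (List.replicate 13 INF) = true := by decide +kernel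

theorem c_13_3 {b : ℕ → ℕ} (hb : ∀ j, 1 ≤ j → j ≤ 13 → 1 ≤ b j)
    (hId : Identity 13 3 b) : False := by
  have h := final (N := 94) (mask := m_13_3) (t := t_13_3) (sols := []) (by norm_num) hb hId
    (by decide +kernel) (fC_sound a_13_3_A 94 le_rfl a_13_3_C) (fK_root a_13_3_A a_13_3_B a_13_3_K)
  simp at h

def t_14_3 : Tree :=
    (.b 12 2 (.l 22) (.b 13 3 (.l 23) (.b 8 12 (.l 32) (.b 9 13 (.l 33) (.b 10 14 (.l 34) (.b 11
    15 (.l 35) (.b 12 16 (.b 13 17 (.b 12 14 (.b 13 15 (.b 12 13 (.l 39) (.b 13 14 (.b 6 24 (.l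
    44) (.b 7 25 (.l 45) (.b 8 26 (.l 46) (.b 9 27 (.l 47) (.b 10 28 (.b 11 29 (.b 13 5 (.b 10
    26 (.b 13 4 (.b 11 27 (.b 10 25 (.b 11 26 (.b 4 36 (.l 56) (.b 5 37 (.l 57) (.b 6 38 (.l 58)
    (.b 7 39 (.l 59) (.b 8 40 (.b 10 16 (.l 60) (.b 9 41 (.b 11 17 (.b 8 38 (.b 11 16 (.b 9 39
    (.b 8 37 (.b 9 38 (.b 3 49 (.l 69) (.b 4 50 (.l 70) (.b 5 51 (.l 71) (.b 6 52 (.b 8 28 (.l
    72) (.b 7 53 (.b 9 29 (.b 6 50 (.b 9 28 (.b 7 51 (.b 6 49 (.b 7 50 (.b 2 62 (.l 82) (.b 3 63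
    (.l 83) (.b 4 64 (.l 84) (.b 6 40 (.l 84) (.b 5 65 (.l 102) (.l 87)))))) (.l 76)) (.l 75))
    (.l 75)) (.l 74)) (.l 74)) (.l 73)) (.l 73))) (.l 74))))) (.l 64)) (.l 63)) (.l 63)) (.l
    62)) (.l 62)) (.l 61)) (.l 61))) (.l 62)))))) (.l 52)) (.l 51)) (.l 51)) (.l 50)) (.l 50))
    (.l 49)) (.l 49)) (.l 48)))))) (.l 40))) (.l 40)) (.l 38)) (.l 37)) (.l 36))))))))

def la_14_3 : List ℕ :=
  [97, 96, 94, 83, 82, 80, 69, 68, 66, 55, 54, 52, 41, 40, 38, 27, 26, 24, 13, 12, 10]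

def lb_14_3 : List ℕ :=
  [102, 101, 100, 99, 98, 97, 96, 95, 94, 93, 92, 91, 90, 89, 88, 87, 86, 85, 84, 83, 82, 81, 80,
  79, 78, 77, 76, 75, 74, 73, 72, 69, 68, 67, 66, 65, 64, 63, 62, 61, 60, 59, 55, 54, 53, 52, 51,
  50, 49, 48, 47, 46, 41, 40, 39, 38, 37, 36, 35, 34, 27, 26, 25, 24, 23, 22, 13, 12, 10]

def m_14_3 : ℕ :=
  10141204798283555880675512955904

theorem a_14_3_A : dsc (okAb 14 3) 102 = la_14_3 := by decide +kernel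

theorem a_14_3_B : dsc (fun e => m_14_3.testBit e) 102 = lb_14_3 := by decide +kernel

theorem a_14_3_C : fC la_14_3 m_14_3 102 = true := by decide +kernel

theorem a_14_3_K : fK 14 102 la_14_3 lb_14_3 t_14_3
    (List.replicate 14 1) (List.replicate 14 INF) = true := by decide +kernel

theorem c_14_3 {b : ℕ → ℕ} (hb : ∀ j, 1 ≤ j → j ≤ 14 → 1 ≤ b j)
    (hId : Identity 14 3 b) : False := by
  have h := final (N := 102) (mask := m_14_3) (t := t_14_3) (sols := []) (by norm_num) hb hId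
    (by decide +kernel) (fC_sound a_14_3_A 102 le_rfl a_14_3_C) (fK_root a_14_3_A a_14_3_B a_14_3_K)
  simp at h

end Pool.Agent.H978D
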