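import Pool.Agent.H978D.VDefs

/-!
Certificates with a check of small kernel memory (job X1 of helper978, by helper732); the trees are
those of the files `P01` to `P12`, `U1` to `U3`.
-/

set_option autoImplicit false
set_option maxRecDepth 1000000

namespace Pool.Agent.H978D

open Pool.Agent.MPe9218d Pool.Agent.H372R3.GE

def t_15_3 : Tree :=
    (.b 13 2 (.l 24) (.b 14 3 (.l 25) (.b 9 13 (.l 35) (.b 10 14 (.l 36) (.b 11 15 (.l 37) (.b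
    12 16 (.l 38) (.b 13 17 (.b 14 18 (.b 13 15 (.b 14 16 (.b 13 14 (.l 42) (.b 14 15 (.b 7 26
    (.l 48) (.b 8 27 (.l 49) (.b 9 28 (.l 50) (.b 10 29 (.l 51) (.b 11 30 (.b 12 31 (.b 14 5 (.b
    11 28 (.b 14 4 (.b 12 29 (.b 11 27 (.b 12 28 (.b 5 39 (.l 61) (.b 6 40 (.l 62) (.b 7 41 (.l
    63) (.b 8 42 (.l 64) (.b 9 43 (.b 11 17 (.l 65) (.b 10 44 (.b 12 18 (.b 9 41 (.b 12 17 (.b
    10 42 (.b 9 40 (.b 10 41 (.b 4 53 (.l 75) (.b 5 54 (.l 76) (.b 6 55 (.l 77) (.b 7 56 (.b 9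
    30 (.l 78) (.b 8 57 (.b 10 31 (.b 7 54 (.b 10 30 (.b 8 55 (.b 7 53 (.b 8 54 (.b 3 67 (.l 89)
    (.b 4 68 (.l 90) (.b 5 69 (.l 91) (.b 7 43 (.l 91) (.b 6 70 (.l 110) (.l 94)))))) (.l 82))
    (.l 81)) (.l 81)) (.l 80)) (.l 80)) (.l 79)) (.l 79))) (.l 80))))) (.l 69)) (.l 68)) (.l
    68)) (.l 67)) (.l 67)) (.l 66)) (.l 66))) (.l 67)))))) (.l 56)) (.l 55)) (.l 55)) (.l 54))
    (.l 54)) (.l 53)) (.l 53)) (.l 52)))))) (.l 43))) (.l 43)) (.l 41)) (.l 40)) (.l 39))))))))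

def la_15_3 : List ℕ :=
  [104, 103, 101, 89, 88, 86, 74, 73, 71, 59, 58, 56, 44, 43, 41, 29, 28, 26, 14, 13, 11]

def lb_15_3 : List ℕ :=
  [110, 109, 108, 107, 106, 105, 104, 103, 102, 101, 100, 99, 98, 97, 96, 95, 94, 93, 92, 91, 89,
  88, 87, 86, 85, 84, 83, 82, 81, 80, 79, 78, 74, 73, 72, 71, 70, 69, 68, 67, 66, 65, 64, 59, 58,
  57, 56, 55, 54, 53, 52, 51, 50, 44, 43, 42, 41, 40, 39, 38, 37, 29, 28, 27, 26, 25, 24, 14, 13,
  11]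

def m_15_3 : ℕ :=
  2596147191062904710930852114098176

theorem a_15_3_A : dsc (okAb 15 3) 110 = la_15_3 := by decide +kernel

theorem a_15_3_B : dsc (fun e => m_15_3.testBit e) 110 = lb_15_3 := by decide +kernel

theorem a_15_3_C : fC la_15_3 m_15_3 110 = true := by decide +kernel

theorem a_15_3_K : fK 15 110 la_15_3 lb_15_3 t_15_3
    (List.replicate 15 1) (List.replicate 15 INF) = true := by decide +kernel

theorem c_15_3 {b : ℕ → ℕ} (hb : ∀ j, 1 ≤ j → j ≤ 15 → 1 ≤ b j)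
    (hId : Identity 15 3 b) : False := by
  have h := final (N := 110) (mask := m_15_3) (t := t_15_3) (sols := []) (by norm_num) hb hId
    (by decide +kernel) (fC_sound a_15_3_A 110 le_rfl a_15_3_C) (fK_root a_15_3_A a_15_3_B a_15_3_K)
  simp at h

def t_16_3 : Tree :=
    (.b 14 2 (.l 26) (.b 15 3 (.l 27) (.b 10 14 (.l 38) (.b 11 15 (.l 39) (.b 12 16 (.l 40) (.b
    13 17 (.l 41) (.b 14 18 (.b 15 19 (.b 14 16 (.b 15 17 (.b 14 15 (.l 45) (.b 15 16 (.b 8 28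
    (.l 52) (.b 9 29 (.l 53) (.b 10 30 (.l 54) (.b 11 31 (.l 55) (.b 12 32 (.b 13 33 (.b 15 5
    (.b 12 30 (.b 15 4 (.b 13 31 (.b 12 29 (.b 13 30 (.b 6 42 (.l 66) (.b 7 43 (.l 67) (.b 8 44
    (.l 68) (.b 9 45 (.l 69) (.b 10 46 (.b 12 18 (.l 70) (.b 11 47 (.b 13 19 (.b 10 44 (.b 13 18
    (.b 11 45 (.b 10 43 (.b 11 44 (.b 5 57 (.l 81) (.b 6 58 (.l 82) (.b 7 59 (.l 83) (.b 8 60
    (.b 10 32 (.l 84) (.b 9 61 (.b 11 33 (.b 8 58 (.b 11 32 (.b 9 59 (.b 8 57 (.b 9 58 (.b 4 72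
    (.l 96) (.b 5 73 (.l 97) (.b 6 74 (.l 98) (.b 8 46 (.l 98) (.b 7 75 (.l 118) (.l 101))))))
    (.l 88)) (.l 87)) (.l 87)) (.l 86)) (.l 86)) (.l 85)) (.l 85))) (.l 86))))) (.l 74)) (.l
    73)) (.l 73)) (.l 72)) (.l 72)) (.l 71)) (.l 71))) (.l 72)))))) (.l 60)) (.l 59)) (.l 59))
    (.l 58)) (.l 58)) (.l 57)) (.l 57)) (.l 56)))))) (.l 46))) (.l 46)) (.l 44)) (.l 43)) (.l
    42))))))))

def la_16_3 : List ℕ :=
  [111, 110, 108, 95, 94, 92, 79, 78, 76, 63, 62, 60, 47, 46, 44, 31, 30, 28, 15, 14, 12]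

def lb_16_3 : List ℕ :=
  [118, 117, 116, 115, 114, 113, 111, 110, 109, 108, 107, 106, 105, 104, 103, 102, 101, 100, 99,
  98, 95, 94, 93, 92, 91, 90, 89, 88, 87, 86, 85, 84, 79, 78, 77, 76, 75, 74, 73, 72, 71, 70, 69,
  63, 62, 61, 60, 59, 58, 57, 56, 55, 54, 47, 46, 45, 44, 43, 42, 41, 40, 31, 30, 29, 28, 27, 26,
  15, 14, 12]

def m_16_3 : ℕ :=
  659421463331301106869340511745921024

theorem a_16_3_A : dsc (okAb 16 3) 118 = la_16_3 := by decide +kernel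

theorem a_16_3_B : dsc (fun e => m_16_3.testBit e) 118 = lb_16_3 := by decide +kernel

theorem a_16_3_C : fC la_16_3 m_16_3 118 = true := by decide +kernel

theorem a_16_3_K : fK 16 118 la_16_3 lb_16_3 t_16_3
    (List.replicate 16 1) (List.replicate 16 INF) = true := by decide +kernel

theorem c_16_3 {b : ℕ → ℕ} (hb : ∀ j, 1 ≤ j → j ≤ 16 → 1 ≤ b j)
    (hId : Identity 16 3 b) : False := by
  have h := final (N := 118) (mask := m_16_3) (t := t_16_3) (sols := []) (by norm_num) hb hId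
    (by decide +kernel) (fC_sound a_16_3_A 118 le_rfl a_16_3_C) (fK_root a_16_3_A a_16_3_B a_16_3_K)
  simp at h

def t_17_3 : Tree :=
    (.b 15 2 (.l 28) (.b 16 3 (.l 29) (.b 11 15 (.l 41) (.b 12 16 (.l 42) (.b 13 17 (.l 43) (.b
    14 18 (.l 44) (.b 15 19 (.b 16 20 (.b 15 17 (.b 16 18 (.b 15 16 (.l 48) (.b 16 17 (.b 9 30
    (.l 56) (.b 10 31 (.l 57) (.b 11 32 (.l 58) (.b 12 33 (.l 59) (.b 13 34 (.b 14 35 (.b 16 5
    (.b 13 32 (.b 16 4 (.b 14 33 (.b 13 31 (.b 14 32 (.b 7 45 (.l 71) (.b 8 46 (.l 72) (.b 9 47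
    (.l 73) (.b 10 48 (.l 74) (.b 11 49 (.b 13 19 (.l 75) (.b 12 50 (.b 14 20 (.b 11 47 (.b 14
    19 (.b 12 48 (.b 11 46 (.b 12 47 (.b 6 61 (.l 87) (.b 7 62 (.l 88) (.b 8 63 (.l 89) (.b 9 64
    (.b 11 34 (.l 90) (.b 10 65 (.b 12 35 (.b 9 62 (.b 12 34 (.b 10 63 (.b 9 61 (.b 10 62 (.b 5
    77 (.l 103) (.b 6 78 (.l 104) (.b 7 79 (.l 105) (.b 9 49 (.l 105) (.b 8 80 (.l 126) (.l
    108)))))) (.l 94)) (.l 93)) (.l 93)) (.l 92)) (.l 92)) (.l 91)) (.l 91))) (.l 92))))) (.l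
    79)) (.l 78)) (.l 78)) (.l 77)) (.l 77)) (.l 76)) (.l 76))) (.l 77)))))) (.l 64)) (.l 63))
    (.l 63)) (.l 62)) (.l 62)) (.l 61)) (.l 61)) (.l 60)))))) (.l 49))) (.l 49)) (.l 47)) (.l
    46)) (.l 45))))))))

def la_17_3 : List ℕ :=
  [118, 117, 115, 101, 100, 98, 84, 83, 81, 67, 66, 64, 50, 49, 47, 33, 32, 30, 16, 15, 13]

def lb_17_3 : List ℕ :=
  [126, 125, 124, 123, 122, 121, 118, 117, 116, 115, 114, 113, 112, 111, 110, 109, 108, 107, 106,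
  105, 101, 100, 99, 98, 97, 96, 95, 94, 93, 92, 91, 90, 84, 83, 82, 81, 80, 79, 78, 77, 76, 75,
  74, 67, 66, 65, 64, 63, 62, 61, 60, 59, 58, 50, 49, 48, 47, 46, 45, 44, 43, 33, 32, 31, 30, 29,
  28, 16, 15, 13]

def m_17_3 : ℕ :=
  168147305971375778524246625421717774336

theorem a_17_3_A : dsc (okAb 17 3) 126 = la_17_3 := by decide +kernel

theorem a_17_3_B : dsc (fun e => m_17_3.testBit e) 126 = lb_17_3 := by decide +kernel

theorem a_17_3_C : fC la_17_3 m_17_3 126 = true := by decide +kernel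

theorem a_17_3_K : fK 17 126 la_17_3 lb_17_3 t_17_3
    (List.replicate 17 1) (List.replicate 17 INF) = true := by decide +kernel

theorem c_17_3 {b : ℕ → ℕ} (hb : ∀ j, 1 ≤ j → j ≤ 17 → 1 ≤ b j)
    (hId : Identity 17 3 b) : False := by
  have h := final (N := 126) (mask := m_17_3) (t := t_17_3) (sols := []) (by norm_num) hb hId
    (by decide +kernel) (fC_sound a_17_3_A 126 le_rfl a_17_3_C) (fK_root a_17_3_A a_17_3_B a_17_3_K)
  simp at h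

def t_18_3 : Tree :=
    (.b 16 2 (.l 30) (.b 17 3 (.l 31) (.b 12 16 (.l 44) (.b 13 17 (.l 45) (.b 14 18 (.l 46) (.b
    15 19 (.l 47) (.b 16 20 (.b 17 21 (.b 16 18 (.b 17 19 (.b 16 17 (.l 51) (.b 17 18 (.b 10 32
    (.l 60) (.b 11 33 (.l 61) (.b 12 34 (.l 62) (.b 13 35 (.l 63) (.b 14 36 (.b 15 37 (.b 17 5
    (.b 14 34 (.b 17 4 (.b 15 35 (.b 14 33 (.b 15 34 (.b 8 48 (.l 76) (.b 9 49 (.l 77) (.b 10 50
    (.l 78) (.b 11 51 (.l 79) (.b 12 52 (.b 14 20 (.l 80) (.b 13 53 (.b 15 21 (.b 12 50 (.b 15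
    20 (.b 13 51 (.b 12 49 (.b 13 50 (.b 7 65 (.l 93) (.b 8 66 (.l 94) (.b 9 67 (.l 95) (.b 10
    68 (.b 12 36 (.l 96) (.b 11 69 (.b 13 37 (.b 10 66 (.b 13 36 (.b 11 67 (.b 10 65 (.b 11 66
    (.b 6 82 (.l 110) (.b 7 83 (.l 111) (.b 8 84 (.l 112) (.b 10 52 (.l 112) (.b 9 85 (.l 134)
    (.l 115)))))) (.l 100)) (.l 99)) (.l 99)) (.l 98)) (.l 98)) (.l 97)) (.l 97))) (.l 98)))))
    (.l 84)) (.l 83)) (.l 83)) (.l 82)) (.l 82)) (.l 81)) (.l 81))) (.l 82)))))) (.l 68)) (.l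
    67)) (.l 67)) (.l 66)) (.l 66)) (.l 65)) (.l 65)) (.l 64)))))) (.l 52))) (.l 52)) (.l 50))
    (.l 49)) (.l 48))))))))

def la_18_3 : List ℕ :=
  [125, 124, 122, 107, 106, 104, 89, 88, 86, 71, 70, 68, 53, 52, 50, 35, 34, 32, 17, 16, 14]

def lb_18_3 : List ℕ :=
  [134, 133, 132, 131, 130, 129, 125, 124, 123, 122, 121, 120, 119, 118, 117, 116, 115, 114, 113,
  112, 107, 106, 105, 104, 103, 102, 101, 100, 99, 98, 97, 96, 89, 88, 87, 86, 85, 84, 83, 82,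
  81, 80, 79, 71, 70, 69, 68, 67, 66, 65, 64, 63, 62, 53, 52, 51, 50, 49, 48, 47, 46, 35, 34, 33,
  32, 31, 30, 17, 16, 14]

def m_18_3 : ℕ :=
  42960643955912185313630026417235824951296

theorem a_18_3_A : dsc (okAb 18 3) 134 = la_18_3 := by decide +kernel

theorem a_18_3_B : dsc (fun e => m_18_3.testBit e) 134 = lb_18_3 := by decide +kernel

theorem a_18_3_C : fC la_18_3 m_18_3 134 = true := by decide +kernel

theorem a_18_3_K : fK 18 134 la_18_3 lb_18_3 t_18_3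
    (List.replicate 18 1) (List.replicate 18 INF) = true := by decide +kernel

theorem c_18_3 {b : ℕ → ℕ} (hb : ∀ j, 1 ≤ j → j ≤ 18 → 1 ≤ b j)
    (hId : Identity 18 3 b) : False := by
  have h := final (N := 134) (mask := m_18_3) (t := t_18_3) (sols := []) (by norm_num) hb hId
    (by decide +kernel) (fC_sound a_18_3_A 134 le_rfl a_18_3_C) (fK_root a_18_3_A a_18_3_B a_18_3_K)
  simp at h

def t_19_3 : Tree :=
    (.b 17 2 (.l 32) (.b 18 3 (.l 33) (.b 13 17 (.l 47) (.b 14 18 (.l 48) (.b 15 19 (.l 49) (.b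
    16 20 (.l 50) (.b 17 21 (.b 18 22 (.b 17 19 (.b 18 20 (.b 17 18 (.l 54) (.b 18 19 (.b 11 34
    (.l 64) (.b 12 35 (.l 65) (.b 13 36 (.l 66) (.b 14 37 (.l 67) (.b 15 38 (.b 16 39 (.b 18 5
    (.b 15 36 (.b 18 4 (.b 16 37 (.b 15 35 (.b 16 36 (.b 9 51 (.l 81) (.b 10 52 (.l 82) (.b 11
    53 (.l 83) (.b 12 54 (.l 84) (.b 13 55 (.b 15 21 (.l 85) (.b 14 56 (.b 16 22 (.b 13 53 (.b
    16 21 (.b 14 54 (.b 13 52 (.b 14 53 (.b 8 69 (.l 99) (.b 9 70 (.l 100) (.b 10 71 (.l 101)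
    (.b 11 72 (.b 13 38 (.l 102) (.b 12 73 (.b 14 39 (.b 11 70 (.b 14 38 (.b 12 71 (.b 11 69 (.b
    12 70 (.b 7 87 (.l 117) (.b 8 88 (.l 118) (.b 9 89 (.l 119) (.b 11 55 (.l 119) (.b 10 90 (.l
    142) (.l 122)))))) (.l 106)) (.l 105)) (.l 105)) (.l 104)) (.l 104)) (.l 103)) (.l 103)))
    (.l 104))))) (.l 89)) (.l 88)) (.l 88)) (.l 87)) (.l 87)) (.l 86)) (.l 86))) (.l 87))))))
    (.l 72)) (.l 71)) (.l 71)) (.l 70)) (.l 70)) (.l 69)) (.l 69)) (.l 68)))))) (.l 55))) (.l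
    55)) (.l 53)) (.l 52)) (.l 51))))))))

def la_19_3 : List ℕ :=
  [132, 131, 129, 113, 112, 110, 94, 93, 91, 75, 74, 72, 56, 55, 53, 37, 36, 34, 18, 17, 15]

def lb_19_3 : List ℕ :=
  [142, 141, 140, 139, 138, 137, 132, 131, 130, 129, 128, 127, 126, 125, 124, 123, 122, 121, 120,
  119, 113, 112, 111, 110, 109, 108, 107, 106, 105, 104, 103, 102, 94, 93, 92, 91, 90, 89, 88,
  87, 86, 85, 84, 75, 74, 73, 72, 71, 70, 69, 68, 67, 66, 56, 55, 54, 53, 52, 51, 50, 49, 37, 36,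
  35, 34, 33, 32, 18, 17, 15]

def m_19_3 : ℕ :=
  10987036419293419642399828708006258543067136

theorem a_19_3_A : dsc (okAb 19 3) 142 = la_19_3 := by decide +kernel

theorem a_19_3_B : dsc (fun e => m_19_3.testBit e) 142 = lb_19_3 := by decide +kernel

theorem a_19_3_C : fC la_19_3 m_19_3 142 = true := by decide +kernel

theorem a_19_3_K : fK 19 142 la_19_3 lb_19_3 t_19_3
    (List.replicate 19 1) (List.replicate 19 INF) = true := by decide +kernel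

theorem c_19_3 {b : ℕ → ℕ} (hb : ∀ j, 1 ≤ j → j ≤ 19 → 1 ≤ b j)
    (hId : Identity 19 3 b) : False := by
  have h := final (N := 142) (mask := m_19_3) (t := t_19_3) (sols := []) (by norm_num) hb hId
    (by decide +kernel) (fC_sound a_19_3_A 142 le_rfl a_19_3_C) (fK_root a_19_3_A a_19_3_B a_19_3_K)
  simp at h

end Pool.Agent.H978D
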