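import Pool.Agent.H978D.VDefs

/-!
Certificates with a check of small kernel memory (job X1 of helper978, by helper732); the trees are
those of the files `P01` to `P12`, `U1` to `U3`.
-/

set_option autoImplicit false
set_option maxRecDepth 1000000

namespace Pool.Agent.H978D

open Pool.Agent.MPe9218d Pool.Agent.H372R3.GE

def t_20_3 : Tree :=
    (.b 18 2 (.l 34) (.b 19 3 (.l 35) (.b 14 18 (.l 50) (.b 15 19 (.l 51) (.b 16 20 (.l 52) (.b
    17 21 (.l 53) (.b 18 22 (.b 19 23 (.b 18 20 (.b 19 21 (.b 18 19 (.l 57) (.b 19 20 (.b 12 36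
    (.l 68) (.b 13 37 (.l 69) (.b 14 38 (.l 70) (.b 15 39 (.l 71) (.b 16 40 (.b 17 41 (.b 19 5
    (.b 16 38 (.b 19 4 (.b 17 39 (.b 16 37 (.b 17 38 (.b 10 54 (.l 86) (.b 11 55 (.l 87) (.b 12
    56 (.l 88) (.b 13 57 (.l 89) (.b 14 58 (.b 16 22 (.l 90) (.b 15 59 (.b 17 23 (.b 14 56 (.b
    17 22 (.b 15 57 (.b 14 55 (.b 15 56 (.b 9 73 (.l 105) (.b 10 74 (.l 106) (.b 11 75 (.l 107)
    (.b 12 76 (.b 14 40 (.l 108) (.b 13 77 (.b 15 41 (.b 12 74 (.b 15 40 (.b 13 75 (.b 12 73 (.b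
    13 74 (.b 8 92 (.l 124) (.b 9 93 (.l 125) (.b 10 94 (.l 126) (.b 12 58 (.l 126) (.b 11 95
    (.l 150) (.l 129)))))) (.l 112)) (.l 111)) (.l 111)) (.l 110)) (.l 110)) (.l 109)) (.l
    109))) (.l 110))))) (.l 94)) (.l 93)) (.l 93)) (.l 92)) (.l 92)) (.l 91)) (.l 91))) (.l
    92)))))) (.l 76)) (.l 75)) (.l 75)) (.l 74)) (.l 74)) (.l 73)) (.l 73)) (.l 72)))))) (.l
    58))) (.l 58)) (.l 56)) (.l 55)) (.l 54))))))))

def la_20_3 : List ℕ :=
  [139, 138, 136, 119, 118, 116, 99, 98, 96, 79, 78, 76, 59, 58, 56, 39, 38, 36, 19, 18, 16]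

def lb_20_3 : List ℕ :=
  [150, 149, 148, 147, 146, 145, 139, 138, 137, 136, 135, 134, 133, 132, 131, 130, 129, 128, 127,
  126, 119, 118, 117, 116, 115, 114, 113, 112, 111, 110, 109, 108, 99, 98, 97, 96, 95, 94, 93,
  92, 91, 90, 89, 79, 78, 77, 76, 75, 74, 73, 72, 71, 70, 59, 58, 57, 56, 55, 54, 53, 52, 39, 38,
  37, 36, 35, 34, 19, 18, 16]

def m_20_3 : ℕ :=
  2811287607848079693809326020042230376994504704

theorem a_20_3_A : dsc (okAb 20 3) 150 = la_20_3 := by decide +kernel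

theorem a_20_3_B : dsc (fun e => m_20_3.testBit e) 150 = lb_20_3 := by decide +kernel

theorem a_20_3_C : fC la_20_3 m_20_3 150 = true := by decide +kernel

theorem a_20_3_K : fK 20 150 la_20_3 lb_20_3 t_20_3
    (List.replicate 20 1) (List.replicate 20 INF) = true := by decide +kernel

theorem c_20_3 {b : ℕ → ℕ} (hb : ∀ j, 1 ≤ j → j ≤ 20 → 1 ≤ b j)
    (hId : Identity 20 3 b) : False := by
  have h := final (N := 150) (mask := m_20_3) (t := t_20_3) (sols := []) (by norm_num) hb hId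
    (by decide +kernel) (fC_sound a_20_3_A 150 le_rfl a_20_3_C) (fK_root a_20_3_A a_20_3_B a_20_3_K)
  simp at h

def t_21_3 : Tree :=
    (.b 19 2 (.l 36) (.b 20 3 (.l 37) (.b 15 19 (.l 53) (.b 16 20 (.l 54) (.b 17 21 (.l 55) (.b
    18 22 (.l 56) (.b 19 23 (.b 20 24 (.b 19 21 (.b 20 22 (.b 19 20 (.l 60) (.b 20 21 (.b 13 38
    (.l 72) (.b 14 39 (.l 73) (.b 15 40 (.l 74) (.b 16 41 (.l 75) (.b 17 42 (.b 18 43 (.b 20 5
    (.b 17 40 (.b 20 4 (.b 18 41 (.b 17 39 (.b 18 40 (.b 11 57 (.l 91) (.b 12 58 (.l 92) (.b 13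
    59 (.l 93) (.b 14 60 (.l 94) (.b 15 61 (.b 17 23 (.l 95) (.b 16 62 (.b 18 24 (.b 15 59 (.b
    18 23 (.b 16 60 (.b 15 58 (.b 16 59 (.b 10 77 (.l 111) (.b 11 78 (.l 112) (.b 12 79 (.l 113)
    (.b 13 80 (.b 15 42 (.l 114) (.b 14 81 (.b 16 43 (.b 13 78 (.b 16 42 (.b 14 79 (.b 13 77 (.b
    14 78 (.b 9 97 (.l 131) (.b 10 98 (.l 132) (.b 11 99 (.l 133) (.b 13 61 (.l 133) (.b 12 100
    (.l 158) (.l 136)))))) (.l 118)) (.l 117)) (.l 117)) (.l 116)) (.l 116)) (.l 115)) (.l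
    115))) (.l 116))))) (.l 99)) (.l 98)) (.l 98)) (.l 97)) (.l 97)) (.l 96)) (.l 96))) (.l
    97)))))) (.l 80)) (.l 79)) (.l 79)) (.l 78)) (.l 78)) (.l 77)) (.l 77)) (.l 76)))))) (.l
    61))) (.l 61)) (.l 59)) (.l 58)) (.l 57))))))))

def la_21_3 : List ℕ :=
  [146, 145, 143, 125, 124, 122, 104, 103, 101, 83, 82, 80, 62, 61, 59, 41, 40, 38, 20, 19, 17]

def lb_21_3 : List ℕ :=
  [158, 157, 156, 155, 154, 153, 146, 145, 144, 143, 142, 141, 140, 139, 138, 137, 136, 135, 134,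
  133, 125, 124, 123, 122, 121, 120, 119, 118, 117, 116, 115, 114, 104, 103, 102, 101, 100, 99,
  98, 97, 96, 95, 94, 83, 82, 81, 80, 79, 78, 77, 76, 75, 74, 62, 61, 60, 59, 58, 57, 56, 55, 41,
  40, 39, 38, 37, 36, 20, 19, 17]

def m_21_3 : ℕ :=
  719511232281406146656309550683678841338490126336

theorem a_21_3_A : dsc (okAb 21 3) 158 = la_21_3 := by decide +kernel

theorem a_21_3_B : dsc (fun e => m_21_3.testBit e) 158 = lb_21_3 := by decide +kernel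

theorem a_21_3_C : fC la_21_3 m_21_3 158 = true := by decide +kernel

theorem a_21_3_K : fK 21 158 la_21_3 lb_21_3 t_21_3
    (List.replicate 21 1) (List.replicate 21 INF) = true := by decide +kernel

theorem c_21_3 {b : ℕ → ℕ} (hb : ∀ j, 1 ≤ j → j ≤ 21 → 1 ≤ b j)
    (hId : Identity 21 3 b) : False := by
  have h := final (N := 158) (mask := m_21_3) (t := t_21_3) (sols := []) (by norm_num) hb hId
    (by decide +kernel) (fC_sound a_21_3_A 158 le_rfl a_21_3_C) (fK_root a_21_3_A a_21_3_B a_21_3_K)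
  simp at h

def t_22_3 : Tree :=
    (.b 20 2 (.l 38) (.b 21 3 (.l 39) (.b 16 20 (.l 56) (.b 17 21 (.l 57) (.b 18 22 (.l 58) (.b
    19 23 (.l 59) (.b 20 24 (.b 21 25 (.b 20 22 (.b 21 23 (.b 20 21 (.l 63) (.b 21 22 (.b 14 40
    (.l 76) (.b 15 41 (.l 77) (.b 16 42 (.l 78) (.b 17 43 (.l 79) (.b 18 44 (.b 19 45 (.b 21 5
    (.b 18 42 (.b 21 4 (.b 19 43 (.b 18 41 (.b 19 42 (.b 12 60 (.l 96) (.b 13 61 (.l 97) (.b 14
    62 (.l 98) (.b 15 63 (.l 99) (.b 16 64 (.b 18 24 (.l 100) (.b 17 65 (.b 19 25 (.b 16 62 (.b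
    19 24 (.b 17 63 (.b 16 61 (.b 17 62 (.b 11 81 (.l 117) (.b 12 82 (.l 118) (.b 13 83 (.l 119)
    (.b 14 84 (.b 16 44 (.l 120) (.b 15 85 (.b 17 45 (.b 14 82 (.b 17 44 (.b 15 83 (.b 14 81 (.b
    15 82 (.b 10 102 (.l 138) (.b 11 103 (.l 139) (.b 12 104 (.l 140) (.b 14 64 (.l 140) (.b 13
    105 (.l 166) (.l 143)))))) (.l 124)) (.l 123)) (.l 123)) (.l 122)) (.l 122)) (.l 121)) (.l
    121))) (.l 122))))) (.l 104)) (.l 103)) (.l 103)) (.l 102)) (.l 102)) (.l 101)) (.l 101)))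
    (.l 102)))))) (.l 84)) (.l 83)) (.l 83)) (.l 82)) (.l 82)) (.l 81)) (.l 81)) (.l 80))))))
    (.l 64))) (.l 64)) (.l 62)) (.l 61)) (.l 60))))))))

def la_22_3 : List ℕ :=
  [153, 152, 150, 131, 130, 128, 109, 108, 106, 87, 86, 84, 65, 64, 62, 43, 42, 40, 21, 20, 18]

def lb_22_3 : List ℕ :=
  [166, 165, 164, 163, 162, 161, 153, 152, 151, 150, 149, 148, 147, 146, 145, 144, 143, 142, 141,
  140, 131, 130, 129, 128, 127, 126, 125, 124, 123, 122, 121, 120, 109, 108, 107, 106, 105, 104,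
  103, 102, 101, 100, 99, 87, 86, 85, 84, 83, 82, 81, 80, 79, 78, 65, 64, 63, 62, 61, 60, 59, 58,
  43, 42, 41, 40, 39, 38, 21, 20, 18]

def m_22_3 : ℕ :=
  184172040878423678083777204167766207906678201122816

theorem a_22_3_A : dsc (okAb 22 3) 166 = la_22_3 := by decide +kernel

theorem a_22_3_B : dsc (fun e => m_22_3.testBit e) 166 = lb_22_3 := by decide +kernel

theorem a_22_3_C : fC la_22_3 m_22_3 166 = true := by decide +kernel

theorem a_22_3_K : fK 22 166 la_22_3 lb_22_3 t_22_3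
    (List.replicate 22 1) (List.replicate 22 INF) = true := by decide +kernel

theorem c_22_3 {b : ℕ → ℕ} (hb : ∀ j, 1 ≤ j → j ≤ 22 → 1 ≤ b j)
    (hId : Identity 22 3 b) : False := by
  have h := final (N := 166) (mask := m_22_3) (t := t_22_3) (sols := []) (by norm_num) hb hId
    (by decide +kernel) (fC_sound a_22_3_A 166 le_rfl a_22_3_C) (fK_root a_22_3_A a_22_3_B a_22_3_K)
  simp at h

def t_23_3 : Tree :=
    (.b 21 2 (.l 40) (.b 22 3 (.l 41) (.b 17 21 (.l 59) (.b 18 22 (.l 60) (.b 19 23 (.l 61) (.b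
    20 24 (.l 62) (.b 21 25 (.b 22 26 (.b 21 23 (.b 22 24 (.b 21 22 (.l 66) (.b 22 23 (.b 15 42
    (.l 80) (.b 16 43 (.l 81) (.b 17 44 (.l 82) (.b 18 45 (.l 83) (.b 19 46 (.b 20 47 (.b 22 5
    (.b 19 44 (.b 22 4 (.b 20 45 (.b 19 43 (.b 20 44 (.b 13 63 (.l 101) (.b 14 64 (.l 102) (.b
    15 65 (.l 103) (.b 16 66 (.l 104) (.b 17 67 (.b 19 25 (.l 105) (.b 18 68 (.b 20 26 (.b 17 65
    (.b 20 25 (.b 18 66 (.b 17 64 (.b 18 65 (.b 12 85 (.l 123) (.b 13 86 (.l 124) (.b 14 87 (.l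
    125) (.b 15 88 (.b 17 46 (.l 126) (.b 16 89 (.b 18 47 (.b 15 86 (.b 18 46 (.b 16 87 (.b 15
    85 (.b 16 86 (.b 11 107 (.l 145) (.b 12 108 (.l 146) (.b 13 109 (.l 147) (.b 15 67 (.l 147)
    (.b 14 110 (.l 174) (.l 150)))))) (.l 130)) (.l 129)) (.l 129)) (.l 128)) (.l 128)) (.l
    127)) (.l 127))) (.l 128))))) (.l 109)) (.l 108)) (.l 108)) (.l 107)) (.l 107)) (.l 106))
    (.l 106))) (.l 107)))))) (.l 88)) (.l 87)) (.l 87)) (.l 86)) (.l 86)) (.l 85)) (.l 85)) (.l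
    84)))))) (.l 67))) (.l 67)) (.l 65)) (.l 64)) (.l 63))))))))

def la_23_3 : List ℕ :=
  [160, 159, 157, 137, 136, 134, 114, 113, 111, 91, 90, 88, 68, 67, 65, 45, 44, 42, 22, 21, 19]

def lb_23_3 : List ℕ :=
  [174, 173, 172, 171, 170, 169, 160, 159, 158, 157, 156, 155, 154, 153, 152, 151, 150, 149, 148,
  147, 137, 136, 135, 134, 133, 132, 131, 130, 129, 128, 127, 126, 114, 113, 112, 111, 110, 109,
  108, 107, 106, 105, 104, 91, 90, 89, 88, 87, 86, 85, 84, 83, 82, 68, 67, 66, 65, 64, 63, 62,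
  61, 45, 44, 43, 42, 41, 40, 22, 21, 19]

def m_23_3 : ℕ :=
  47145119638962668861822888359046752432151677641424896

theorem a_23_3_A : dsc (okAb 23 3) 174 = la_23_3 := by decide +kernel

theorem a_23_3_B : dsc (fun e => m_23_3.testBit e) 174 = lb_23_3 := by decide +kernel

theorem a_23_3_C : fC la_23_3 m_23_3 174 = true := by decide +kernel

theorem a_23_3_K : fK 23 174 la_23_3 lb_23_3 t_23_3
    (List.replicate 23 1) (List.replicate 23 INF) = true := by decide +kernel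

theorem c_23_3 {b : ℕ → ℕ} (hb : ∀ j, 1 ≤ j → j ≤ 23 → 1 ≤ b j)
    (hId : Identity 23 3 b) : False := by
  have h := final (N := 174) (mask := m_23_3) (t := t_23_3) (sols := []) (by norm_num) hb hId
    (by decide +kernel) (fC_sound a_23_3_A 174 le_rfl a_23_3_C) (fK_root a_23_3_A a_23_3_B a_23_3_K)
  simp at h

def t_24_3 : Tree :=
    (.b 22 2 (.l 42) (.b 23 3 (.l 43) (.b 18 22 (.l 62) (.b 19 23 (.l 63) (.b 20 24 (.l 64) (.b
    21 25 (.l 65) (.b 22 26 (.b 23 27 (.b 22 24 (.b 23 25 (.b 22 23 (.l 69) (.b 23 24 (.b 16 44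
    (.l 84) (.b 17 45 (.l 85) (.b 18 46 (.l 86) (.b 19 47 (.l 87) (.b 20 48 (.b 21 49 (.b 23 5
    (.b 20 46 (.b 23 4 (.b 21 47 (.b 20 45 (.b 21 46 (.b 14 66 (.l 106) (.b 15 67 (.l 107) (.b
    16 68 (.l 108) (.b 17 69 (.l 109) (.b 18 70 (.b 20 26 (.l 110) (.b 19 71 (.b 21 27 (.b 18 68
    (.b 21 26 (.b 19 69 (.b 18 67 (.b 19 68 (.b 13 89 (.l 129) (.b 14 90 (.l 130) (.b 15 91 (.l
    131) (.b 16 92 (.b 18 48 (.l 132) (.b 17 93 (.b 19 49 (.b 16 90 (.b 19 48 (.b 17 91 (.b 16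
    89 (.b 17 90 (.b 12 112 (.l 152) (.b 13 113 (.l 153) (.b 14 114 (.l 154) (.b 16 70 (.l 154)
    (.b 15 115 (.l 182) (.l 157)))))) (.l 136)) (.l 135)) (.l 135)) (.l 134)) (.l 134)) (.l
    133)) (.l 133))) (.l 134))))) (.l 114)) (.l 113)) (.l 113)) (.l 112)) (.l 112)) (.l 111))
    (.l 111))) (.l 112)))))) (.l 92)) (.l 91)) (.l 91)) (.l 90)) (.l 90)) (.l 89)) (.l 89)) (.l
    88)))))) (.l 70))) (.l 70)) (.l 68)) (.l 67)) (.l 66))))))))

def la_24_3 : List ℕ :=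
  [167, 166, 164, 143, 142, 140, 119, 118, 116, 95, 94, 92, 71, 70, 68, 47, 46, 44, 23, 22, 20]

def lb_24_3 : List ℕ :=
  [182, 181, 180, 179, 178, 177, 167, 166, 165, 164, 163, 162, 161, 160, 159, 158, 157, 156, 155,
  154, 143, 142, 141, 140, 139, 138, 137, 136, 135, 134, 133, 132, 119, 118, 117, 116, 115, 114,
  113, 112, 111, 110, 109, 95, 94, 93, 92, 91, 90, 89, 88, 87, 86, 71, 70, 69, 68, 67, 66, 65,
  64, 47, 46, 45, 44, 43, 42, 23, 22, 20]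

def m_24_3 : ℕ :=
  12068776505924363689432923811147799967716867724498960384

theorem a_24_3_A : dsc (okAb 24 3) 182 = la_24_3 := by decide +kernel

theorem a_24_3_B : dsc (fun e => m_24_3.testBit e) 182 = lb_24_3 := by decide +kernel

theorem a_24_3_C : fC la_24_3 m_24_3 182 = true := by decide +kernel

theorem a_24_3_K : fK 24 182 la_24_3 lb_24_3 t_24_3
    (List.replicate 24 1) (List.replicate 24 INF) = true := by decide +kernel

theorem c_24_3 {b : ℕ → ℕ} (hb : ∀ j, 1 ≤ j → j ≤ 24 → 1 ≤ b j)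
    (hId : Identity 24 3 b) : False := by
  have h := final (N := 182) (mask := m_24_3) (t := t_24_3) (sols := []) (by norm_num) hb hId
    (by decide +kernel) (fC_sound a_24_3_A 182 le_rfl a_24_3_C) (fK_root a_24_3_A a_24_3_B a_24_3_K)
  simp at h

end Pool.Agent.H978D
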