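import Pool.Agent.H978D.VDefs

/-!
Certificates with a check of small kernel memory (job X1 of helper978, by helper732); the trees are
those of the files `P01` to `P12`, `U1` to `U3`.
-/

set_option autoImplicit false
set_option maxRecDepth 1000000

namespace Pool.Agent.H978D

open Pool.Agent.MPe9218d Pool.Agent.H372R3.GE

def t_25_3 : Tree :=
    (.b 23 2 (.l 44) (.b 24 3 (.l 45) (.b 19 23 (.l 65) (.b 20 24 (.l 66) (.b 21 25 (.l 67) (.b
    22 26 (.l 68) (.b 23 27 (.b 24 28 (.b 23 25 (.b 24 26 (.b 23 24 (.l 72) (.b 24 25 (.b 17 46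
    (.l 88) (.b 18 47 (.l 89) (.b 19 48 (.l 90) (.b 20 49 (.l 91) (.b 21 50 (.b 22 51 (.b 24 5
    (.b 21 48 (.b 24 4 (.b 22 49 (.b 21 47 (.b 22 48 (.b 15 69 (.l 111) (.b 16 70 (.l 112) (.b
    17 71 (.l 113) (.b 18 72 (.l 114) (.b 19 73 (.b 21 27 (.l 115) (.b 20 74 (.b 22 28 (.b 19 71
    (.b 22 27 (.b 20 72 (.b 19 70 (.b 20 71 (.b 14 93 (.l 135) (.b 15 94 (.l 136) (.b 16 95 (.l
    137) (.b 17 96 (.b 19 50 (.l 138) (.b 18 97 (.b 20 51 (.b 17 94 (.b 20 50 (.b 18 95 (.b 17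
    93 (.b 18 94 (.b 13 117 (.l 159) (.b 14 118 (.l 160) (.b 15 119 (.l 161) (.b 17 73 (.l 161)
    (.b 16 120 (.l 190) (.l 164)))))) (.l 142)) (.l 141)) (.l 141)) (.l 140)) (.l 140)) (.l
    139)) (.l 139))) (.l 140))))) (.l 119)) (.l 118)) (.l 118)) (.l 117)) (.l 117)) (.l 116))
    (.l 116))) (.l 117)))))) (.l 96)) (.l 95)) (.l 95)) (.l 94)) (.l 94)) (.l 93)) (.l 93)) (.l
    92)))))) (.l 73))) (.l 73)) (.l 71)) (.l 70)) (.l 69))))))))

def la_25_3 : List ℕ :=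
  [174, 173, 171, 149, 148, 146, 124, 123, 121, 99, 98, 96, 74, 73, 71, 49, 48, 46, 24, 23, 21]

def lb_25_3 : List ℕ :=
  [190, 189, 188, 187, 186, 185, 174, 173, 172, 171, 170, 169, 168, 167, 166, 165, 164, 163, 162,
  161, 149, 148, 147, 146, 145, 144, 143, 142, 141, 140, 139, 138, 124, 123, 122, 121, 120, 119,
  118, 117, 116, 115, 114, 99, 98, 97, 96, 95, 94, 93, 92, 91, 90, 74, 73, 72, 71, 70, 69, 68,
  67, 49, 48, 47, 46, 45, 44, 24, 23, 21]

def m_25_3 : ℕ :=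
  3089558897949707622101522229456419661821362345454270939136

theorem a_25_3_A : dsc (okAb 25 3) 190 = la_25_3 := by decide +kernel

theorem a_25_3_B : dsc (fun e => m_25_3.testBit e) 190 = lb_25_3 := by decide +kernel

theorem a_25_3_C : fC la_25_3 m_25_3 190 = true := by decide +kernel

theorem a_25_3_K : fK 25 190 la_25_3 lb_25_3 t_25_3
    (List.replicate 25 1) (List.replicate 25 INF) = true := by decide +kernel

theorem c_25_3 {b : ℕ → ℕ} (hb : ∀ j, 1 ≤ j → j ≤ 25 → 1 ≤ b j)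
    (hId : Identity 25 3 b) : False := by
  have h := final (N := 190) (mask := m_25_3) (t := t_25_3) (sols := []) (by norm_num) hb hId
    (by decide +kernel) (fC_sound a_25_3_A 190 le_rfl a_25_3_C) (fK_root a_25_3_A a_25_3_B a_25_3_K)
  simp at h

def t_26_3 : Tree :=
    (.b 24 2 (.l 46) (.b 25 3 (.l 47) (.b 20 24 (.l 68) (.b 21 25 (.l 69) (.b 22 26 (.l 70) (.b
    23 27 (.l 71) (.b 24 28 (.b 25 29 (.b 24 26 (.b 25 27 (.b 24 25 (.l 75) (.b 25 26 (.b 18 48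
    (.l 92) (.b 19 49 (.l 93) (.b 20 50 (.l 94) (.b 21 51 (.l 95) (.b 22 52 (.b 23 53 (.b 25 5
    (.b 22 50 (.b 25 4 (.b 23 51 (.b 22 49 (.b 23 50 (.b 16 72 (.l 116) (.b 17 73 (.l 117) (.b
    18 74 (.l 118) (.b 19 75 (.l 119) (.b 20 76 (.b 22 28 (.l 120) (.b 21 77 (.b 23 29 (.b 20 74
    (.b 23 28 (.b 21 75 (.b 20 73 (.b 21 74 (.b 15 97 (.l 141) (.b 16 98 (.l 142) (.b 17 99 (.l
    143) (.b 18 100 (.b 20 52 (.l 144) (.b 19 101 (.b 21 53 (.b 18 98 (.b 21 52 (.b 19 99 (.b 18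
    97 (.b 19 98 (.b 14 122 (.l 166) (.b 15 123 (.l 167) (.b 16 124 (.l 168) (.b 18 76 (.l 168)
    (.b 17 125 (.l 198) (.l 171)))))) (.l 148)) (.l 147)) (.l 147)) (.l 146)) (.l 146)) (.l
    145)) (.l 145))) (.l 146))))) (.l 124)) (.l 123)) (.l 123)) (.l 122)) (.l 122)) (.l 121))
    (.l 121))) (.l 122)))))) (.l 100)) (.l 99)) (.l 99)) (.l 98)) (.l 98)) (.l 97)) (.l 97)) (.l
    96)))))) (.l 76))) (.l 76)) (.l 74)) (.l 73)) (.l 72))))))))

def la_26_3 : List ℕ :=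
  [181, 180, 178, 155, 154, 152, 129, 128, 126, 103, 102, 100, 77, 76, 74, 51, 50, 48, 25, 24, 22]

def lb_26_3 : List ℕ :=
  [198, 197, 196, 195, 194, 193, 181, 180, 179, 178, 177, 176, 175, 174, 173, 172, 171, 170, 169,
  168, 155, 154, 153, 152, 151, 150, 149, 148, 147, 146, 145, 144, 129, 128, 127, 126, 125, 124,
  123, 122, 121, 120, 119, 103, 102, 101, 100, 99, 98, 97, 96, 95, 94, 77, 76, 75, 74, 73, 72,
  71, 70, 51, 50, 49, 48, 47, 46, 25, 24, 22]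

def m_26_3 : ℕ :=
  790920948266832142194980201427844305516580321549321959899136

theorem a_26_3_A : dsc (okAb 26 3) 198 = la_26_3 := by decide +kernel

theorem a_26_3_B : dsc (fun e => m_26_3.testBit e) 198 = lb_26_3 := by decide +kernel

theorem a_26_3_C : fC la_26_3 m_26_3 198 = true := by decide +kernel

theorem a_26_3_K : fK 26 198 la_26_3 lb_26_3 t_26_3
    (List.replicate 26 1) (List.replicate 26 INF) = true := by decide +kernel

theorem c_26_3 {b : ℕ → ℕ} (hb : ∀ j, 1 ≤ j → j ≤ 26 → 1 ≤ b j)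
    (hId : Identity 26 3 b) : False := by
  have h := final (N := 198) (mask := m_26_3) (t := t_26_3) (sols := []) (by norm_num) hb hId
    (by decide +kernel) (fC_sound a_26_3_A 198 le_rfl a_26_3_C) (fK_root a_26_3_A a_26_3_B a_26_3_K)
  simp at h

def t_27_3 : Tree :=
    (.b 25 2 (.l 48) (.b 26 3 (.l 49) (.b 21 25 (.l 71) (.b 22 26 (.l 72) (.b 23 27 (.l 73) (.b
    24 28 (.l 74) (.b 25 29 (.b 26 30 (.b 25 27 (.b 26 28 (.b 25 26 (.l 78) (.b 26 27 (.b 19 50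
    (.l 96) (.b 20 51 (.l 97) (.b 21 52 (.l 98) (.b 22 53 (.l 99) (.b 23 54 (.b 24 55 (.b 26 5
    (.b 23 52 (.b 26 4 (.b 24 53 (.b 23 51 (.b 24 52 (.b 17 75 (.l 121) (.b 18 76 (.l 122) (.b
    19 77 (.l 123) (.b 20 78 (.l 124) (.b 21 79 (.b 23 29 (.l 125) (.b 22 80 (.b 24 30 (.b 21 77
    (.b 24 29 (.b 22 78 (.b 21 76 (.b 22 77 (.b 16 101 (.l 147) (.b 17 102 (.l 148) (.b 18 103
    (.l 149) (.b 19 104 (.b 21 54 (.l 150) (.b 20 105 (.b 22 55 (.b 19 102 (.b 22 54 (.b 20 103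
    (.b 19 101 (.b 20 102 (.b 15 127 (.l 173) (.b 16 128 (.l 174) (.b 17 129 (.l 175) (.b 19 79
    (.l 175) (.b 18 130 (.l 206) (.l 178)))))) (.l 154)) (.l 153)) (.l 153)) (.l 152)) (.l 152))
    (.l 151)) (.l 151))) (.l 152))))) (.l 129)) (.l 128)) (.l 128)) (.l 127)) (.l 127)) (.l
    126)) (.l 126))) (.l 127)))))) (.l 104)) (.l 103)) (.l 103)) (.l 102)) (.l 102)) (.l 101))
    (.l 101)) (.l 100)))))) (.l 79))) (.l 79)) (.l 77)) (.l 76)) (.l 75))))))))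

def la_27_3 : List ℕ :=
  [188, 187, 185, 161, 160, 158, 134, 133, 131, 107, 106, 104, 80, 79, 77, 53, 52, 50, 26, 25, 23]

def lb_27_3 : List ℕ :=
  [206, 205, 204, 203, 202, 201, 188, 187, 186, 185, 184, 183, 182, 181, 180, 179, 178, 177, 176,
  175, 161, 160, 159, 158, 157, 156, 155, 154, 153, 152, 151, 150, 134, 133, 132, 131, 130, 129,
  128, 127, 126, 125, 124, 107, 106, 105, 104, 103, 102, 101, 100, 99, 98, 80, 79, 78, 77, 76,
  75, 74, 73, 53, 52, 51, 50, 49, 48, 26, 25, 23]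

def m_27_3 : ℕ :=
  202474978166465056980668842066321127166783445787827871422611456

theorem a_27_3_A : dsc (okAb 27 3) 206 = la_27_3 := by decide +kernel

theorem a_27_3_B : dsc (fun e => m_27_3.testBit e) 206 = lb_27_3 := by decide +kernel

theorem a_27_3_C : fC la_27_3 m_27_3 206 = true := by decide +kernel

theorem a_27_3_K : fK 27 206 la_27_3 lb_27_3 t_27_3
    (List.replicate 27 1) (List.replicate 27 INF) = true := by decide +kernel

theorem c_27_3 {b : ℕ → ℕ} (hb : ∀ j, 1 ≤ j → j ≤ 27 → 1 ≤ b j)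
    (hId : Identity 27 3 b) : False := by
  have h := final (N := 206) (mask := m_27_3) (t := t_27_3) (sols := []) (by norm_num) hb hId
    (by decide +kernel) (fC_sound a_27_3_A 206 le_rfl a_27_3_C) (fK_root a_27_3_A a_27_3_B a_27_3_K)
  simp at h

def ut_13_1 : Tree :=
    (.b 12 13 (.l 37) (.b 11 25 (.l 49) (.b 12 26 (.l 50) (.b 11 38 (.l 62) (.b 12 39 (.b 11 51
    (.l 75) (.b 10 63 (.l 87) (.b 11 64 (.l 88) (.b 10 76 (.l 100) (.b 11 77 (.b 12 27 (.l 101)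
    (.b 10 89 (.l 113) (.b 10 102 (.l 126) (.b 9 114 (.l 138) (.b 10 115 (.l 139) (.b 11 65 (.l
    139) (.b 9 127 (.l 151) (.b 10 128 (.l 152) (.b 9 140 (.l 164) (.b 10 141 (.l 191) (.l
    165))))))))))) (.b 12 27 (.b 10 89 (.l 113) (.b 11 90 (.b 10 102 (.l 126) (.b 9 114 (.l 138)
    (.b 10 115 (.l 139) (.b 9 127 (.l 151) (.b 10 128 (.l 203) (.b 11 78 (.b 9 140 (.l 164) (.b
    10 141 (.l 204) (.l 165))) (.l 152))))))) (.l 114))) (.l 101))))))) (.l 63))))))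

def ula_13_1 : List ℕ :=
  [194, 181, 168, 155, 142, 129, 116, 103, 90, 77, 64, 51, 38, 25, 12]

def ulb_13_1 : List ℕ :=
  [204, 203, 194, 193, 192, 191, 190, 181, 180, 179, 178, 168, 167, 166, 165, 155, 154, 153, 152,
  142, 141, 140, 139, 129, 128, 127, 126, 116, 115, 114, 103, 102, 101, 90, 89, 88, 77, 76, 75,
  64, 63, 51, 50, 38, 37, 25, 12]

def um_13_1 : ℕ :=
  38615166348224898067245182702438990336649859846403406579109888

theorem ua_13_1_A : dsc (okAb 13 1) 204 = ula_13_1 := by decide +kernel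

theorem ua_13_1_B : dsc (fun e => um_13_1.testBit e) 204 = ulb_13_1 := by decide +kernel

theorem ua_13_1_C : fC ula_13_1 um_13_1 204 = true := by decide +kernel

theorem ua_13_1_K : fK 13 204 ula_13_1 ulb_13_1 ut_13_1
    (List.replicate 13 1) (List.replicate 13 INF) = true := by decide +kernel

theorem u_13_1 {b : ℕ → ℕ} (hb : ∀ j, 1 ≤ j → j ≤ 13 → 1 ≤ b j)
    (hId : ∀ n, good 13 16 n = true → A (a 13) 1 13 n = B0 b 13 (C 13 1) n) : False := by
  have h := final' (N := 204) (mask := um_13_1) (t := ut_13_1) (sols := []) (by norm_num) hb hId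
    (by decide +kernel) (fC_sound ua_13_1_A 204 le_rfl ua_13_1_C) (by decide +kernel)
    (fK_root ua_13_1_A ua_13_1_B ua_13_1_K)
  simp at h

def ut_18_2 : Tree :=
    (.b 17 1 (.l 33) (.b 15 17 (.l 49) (.b 16 18 (.l 50) (.b 17 19 (.b 17 18 (.b 14 34 (.l 66)
    (.b 15 35 (.l 67) (.b 16 36 (.b 17 2 (.l 68) (.b 16 35 (.b 13 51 (.l 83) (.b 14 52 (.l 84)
    (.b 15 53 (.b 16 19 (.l 85) (.b 15 52 (.b 13 69 (.l 101) (.b 14 70 (.b 15 36 (.l 102) (.b 14
    69 (.b 17 3 (.l 103) (.b 12 86 (.l 118) (.b 13 87 (.l 119) (.b 14 53 (.l 119) (.b 16 20 (.l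
    120) (.b 11 103 (.l 135) (.b 12 104 (.l 136) (.b 13 105 (.l 137) (.b 15 37 (.l 137) (.b 17 4
    (.b 11 121 (.l 153) (.b 12 122 (.l 154) (.b 14 54 (.l 154) (.b 13 123 (.b 16 21 (.l 155) (.l
    191)) (.l 156))))) (.l 138))))))))))) (.b 17 3 (.b 12 86 (.l 118) (.b 13 87 (.l 119) (.b 16
    20 (.l 120) (.l 156)))) (.l 103)))) (.b 15 36 (.b 17 3 (.b 12 86 (.l 118) (.b 13 87 (.l 119)
    (.b 14 88 (.b 16 20 (.l 120) (.l 156)) (.l 121)))) (.l 103)) (.l 102)))) (.l 86))) (.l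
    86)))) (.l 69))) (.l 69)))) (.l 52)) (.l 51)))))

def ula_18_2 : List ℕ :=
  [179, 178, 161, 160, 143, 142, 125, 124, 107, 106, 89, 88, 71, 70, 53, 52, 35, 34, 17, 16]

def ulb_18_2 : List ℕ :=
  [191, 190, 189, 179, 178, 177, 176, 175, 174, 173, 172, 161, 160, 159, 158, 157, 156, 155, 154,
  143, 142, 141, 140, 139, 138, 137, 125, 124, 123, 122, 121, 120, 119, 107, 106, 105, 104, 103,
  102, 89, 88, 87, 86, 85, 71, 70, 69, 68, 67, 53, 52, 51, 50, 35, 34, 33, 17, 16]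

def um_18_2 : ℕ :=
  5493990533516697762681670409042731289633413098543325052928

theorem ua_18_2_A : dsc (okAb 18 2) 191 = ula_18_2 := by decide +kernel

theorem ua_18_2_B : dsc (fun e => um_18_2.testBit e) 191 = ulb_18_2 := by decide +kernel

theorem ua_18_2_C : fC ula_18_2 um_18_2 191 = true := by decide +kernel

theorem ua_18_2_K : fK 18 191 ula_18_2 ulb_18_2 ut_18_2
    (List.replicate 18 1) (List.replicate 18 INF) = true := by decide +kernel

theorem u_18_2 {b : ℕ → ℕ} (hb : ∀ j, 1 ≤ j → j ≤ 18 → 1 ≤ b j)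
    (hId : ∀ n, good 18 11 n = true → A (a 18) 2 18 n = B0 b 18 (C 18 2) n) : False := by
  have h := final' (N := 191) (mask := um_18_2) (t := ut_18_2) (sols := []) (by norm_num) hb hId
    (by decide +kernel) (fC_sound ua_18_2_A 191 le_rfl ua_18_2_C) (by decide +kernel)
    (fK_root ua_18_2_A ua_18_2_B ua_18_2_K)
  simp at h

end Pool.Agent.H978D
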