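import Pool.Agent.H978D.VDefs

/-!
Certificates with a check of small kernel memory (job X1 of helper978, by helper732); the trees are
those of the files `P01` to `P12`, `U1` to `U3`.
-/

set_option autoImplicit false
set_option maxRecDepth 1000000

namespace Pool.Agent.H978D

open Pool.Agent.MPe9218d Pool.Agent.H372R3.GE

def ut_28_3 : Tree :=
    (.b 26 2 (.l 50) (.b 27 3 (.l 51) (.b 22 26 (.l 74) (.b 23 27 (.l 75) (.b 24 28 (.l 76) (.b
    25 29 (.l 77) (.b 26 30 (.b 27 31 (.b 26 28 (.b 27 29 (.b 26 27 (.l 81) (.b 27 28 (.b 20 52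
    (.l 100) (.b 21 53 (.l 101) (.b 22 54 (.l 102) (.b 23 55 (.l 103) (.b 24 56 (.b 25 57 (.b 27
    5 (.b 24 54 (.b 27 4 (.b 25 55 (.b 24 53 (.b 25 54 (.b 18 78 (.l 126) (.b 19 79 (.l 127) (.b
    20 80 (.l 128) (.b 21 81 (.l 129) (.b 22 82 (.b 24 30 (.l 130) (.b 23 83 (.b 25 31 (.b 22 80
    (.b 25 30 (.b 23 81 (.b 22 79 (.b 23 80 (.b 17 105 (.l 153) (.b 18 106 (.l 154) (.b 19 107
    (.l 155) (.b 20 108 (.b 22 56 (.l 156) (.b 21 109 (.b 23 57 (.b 20 106 (.b 23 56 (.b 21 107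
    (.b 20 105 (.b 21 106 (.b 16 132 (.l 180) (.b 17 133 (.l 181) (.b 18 134 (.l 182) (.b 20 82
    (.l 182) (.b 19 135 (.l 214) (.l 185)))))) (.l 160)) (.l 159)) (.l 159)) (.l 158)) (.l 158))
    (.l 157)) (.l 157))) (.l 158))))) (.l 134)) (.l 133)) (.l 133)) (.l 132)) (.l 132)) (.l
    131)) (.l 131))) (.l 132)))))) (.l 108)) (.l 107)) (.l 107)) (.l 106)) (.l 106)) (.l 105))
    (.l 105)) (.l 104)))))) (.l 82))) (.l 82)) (.l 80)) (.l 79)) (.l 78))))))))

def ula_28_3 : List ℕ :=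
  [195, 194, 192, 167, 166, 164, 139, 138, 136, 111, 110, 108, 83, 82, 80, 55, 54, 52, 27, 26, 24]

def ulb_28_3 : List ℕ :=
  [214, 213, 212, 211, 210, 209, 195, 194, 193, 192, 191, 190, 189, 188, 187, 186, 185, 184, 183,
  182, 167, 166, 165, 164, 163, 162, 161, 160, 159, 158, 157, 156, 139, 138, 137, 136, 135, 134,
  133, 132, 131, 130, 129, 111, 110, 109, 108, 107, 106, 105, 104, 103, 102, 83, 82, 81, 80, 79,
  78, 77, 76, 55, 54, 53, 52, 51, 50, 27, 26, 24]

def um_28_3 : ℕ :=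
  51833493983116148404386892683734913424949294220030053836929368064

theorem ua_28_3_A : dsc (okAb 28 3) 214 = ula_28_3 := by decide +kernel

theorem ua_28_3_B : dsc (fun e => um_28_3.testBit e) 214 = ulb_28_3 := by decide +kernel

theorem ua_28_3_C : fC ula_28_3 um_28_3 214 = true := by decide +kernel

theorem ua_28_3_K : fK 28 214 ula_28_3 ulb_28_3 ut_28_3
    (List.replicate 28 1) (List.replicate 28 INF) = true := by decide +kernel

theorem u_28_3 {b : ℕ → ℕ} (hb : ∀ j, 1 ≤ j → j ≤ 28 → 1 ≤ b j)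
    (hId : ∀ n, good 28 8 n = true → A (a 28) 3 28 n = B0 b 28 (C 28 3) n) : False := by
  have h := final' (N := 214) (mask := um_28_3) (t := ut_28_3) (sols := []) (by norm_num) hb hId
    (by decide +kernel) (fC_sound ua_28_3_A 214 le_rfl ua_28_3_C) (by decide +kernel)
    (fK_root ua_28_3_A ua_28_3_B ua_28_3_K)
  simp at h

end Pool.Agent.H978D
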