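import Pool.Agent.H372R3.GE12
import Pool.Agent.H978D.E5
import Pool.Agent.H978D.V01
import Pool.Agent.H978D.V02
import Pool.Agent.H978D.V03
import Pool.Agent.H978D.V04
import Pool.Agent.H978D.V05
import Pool.Agent.H978D.V06

set_option autoImplicit false

namespace Pool.Agent.H978D

open Pool.Agent.MPe9218d Pool.Agent.H372R3.GE

/-- passing from the no-wrap range of a large modulus `M` to the base modulus `W` -/
theorem toBase {k M W Q0 : ℕ} {b : ℕ → ℕ} (hb : ∀ j, 1 ≤ j → j ≤ M → 1 ≤ b j)
    (hWM : W ≤ M) (hkW : 2 ^ k < W) (hQ0 : 1 ≤ Q0) (h1 : 2 ^ k * (Q0 + 2) ≤ 2 * W)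
    (h2 : 2 ^ k * (3 * Q0 + 4) < 4 * (W + 1)) (hId : Identity M (k + 1) b) :
    ∃ b' : ℕ → ℕ, (∀ j, 1 ≤ j → j ≤ W → 1 ≤ b' j) ∧ ∀ n, good W Q0 n = true →
      A (a W) (k + 1) W n = B0 b' W (C W (k + 1)) n := by
  obtain ⟨b', hb', h⟩ := transfer_id hb hWM hkW hQ0 h1 h2 hId
  refine ⟨b', fun j _ _ => hb' j, fun n hn => ?_⟩
  unfold good at hn
  rw [Bool.and_eq_true, Nat.blt_eq, Nat.ble_eq] at hn
  obtain ⟨hn1, hn2⟩ := hn
  have hW0 : 0 < W := lt_of_le_of_lt (Nat.zero_le _) hkW
  have hlt : n % W < W := Nat.mod_lt _ hW0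
  have hdm : W * (n / W) + n % W = n := Nat.div_add_mod n W
  have key : (n / W + 1) * W - (W - n % W) = n := by
    have h5 : (n / W + 1) * W = W * (n / W) + W := by ring
    rw [h5]
    clear h5 h1 h2 h hId
    generalize W * (n / W) = z at *
    omega
  have h6 := h (n / W + 1) (W - n % W) (Nat.le_add_left 1 _) hn2 (by clear h1 h2 h key; omega)
    (by clear h1 h2 h key; omega)
  rwa [key] at h6

/-- for `s ≤ 3` the identity fails for every `M ≥ 12` -/
theorem noId_small {M s : ℕ} {b : ℕ → ℕ} (hs1 : 1 ≤ s) (hs3 : s ≤ 3) (hM : 12 ≤ M)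
    (hb : ∀ j, 1 ≤ j → j ≤ M → 1 ≤ b j) : ¬ Identity M s b := by
  intro hId
  interval_cases s
  · by_cases h : M < 13
    · have : M = 12 := by omega
      subst this
      exact c_12_1 hb hId
    · obtain ⟨b', hb', h'⟩ := toBase (k := 0) (W := 13) (Q0 := 16) hb (by omega) (by norm_num)
        (by norm_num) (by norm_num) (by norm_num) hId
      exact u_13_1 hb' h'
  · by_cases h : M < 18
    · interval_cases M
      · exact c_12_2 hb hId
      · exact c_13_2 hb hId
      · exact c_14_2 hb hId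
      · exact c_15_2 hb hId
      · exact c_16_2 hb hId
      · exact c_17_2 hb hId
    · obtain ⟨b', hb', h'⟩ := toBase (k := 1) (W := 18) (Q0 := 11) hb (by omega) (by norm_num)
        (by norm_num) (by norm_num) (by norm_num) hId
      exact u_18_2 hb' h'
  · by_cases h : M < 28
    · interval_cases M
      · exact c_12_3 hb hId
      · exact c_13_3 hb hId
      · exact c_14_3 hb hId
      · exact c_15_3 hb hId
      · exact c_16_3 hb hId
      · exact c_17_3 hb hId
      · exact c_18_3 hb hId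
      · exact c_19_3 hb hId
      · exact c_20_3 hb hId
      · exact c_21_3 hb hId
      · exact c_22_3 hb hId
      · exact c_23_3 hb hId
      · exact c_24_3 hb hId
      · exact c_25_3 hb hId
      · exact c_26_3 hb hId
      · exact c_27_3 hb hId
    · obtain ⟨b', hb', h'⟩ := toBase (k := 2) (W := 28) (Q0 := 8) hb (by omega) (by norm_num)
        (by norm_num) (by norm_num) (by norm_num) hId
      exact u_28_3 hb' h'

end Pool.Agent.H978D
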