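import Pool.Agent.H978D.SmallV

set_option autoImplicit false

namespace Pool.Agent.H978D

open Pool.Agent.MPe9218d

theorem three {M s : ℕ} {b : ℕ → ℕ} (hs : 1 ≤ s) (hs3 : s ≤ 3) (hsM : 2 ^ (s - 1) ≤ M)
    (hb : ∀ j, 1 ≤ j → j ≤ M → 1 ≤ b j) (h : Identity M s b) :
    (M = 1 ∧ s = 1 ∧ b 1 = 1) ∨
    (M = 2 ∧ s = 1 ∧ b 1 = 6 ∧ b 2 = 7) ∨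
    (M = 2 ∧ s = 2 ∧ b 1 = 1 ∧ b 2 = 1) ∨
    (M = 3 ∧ s = 2 ∧ b 1 = 3 ∧ b 2 = 3 ∧ b 3 = 4) ∨
    (M = 3 ∧ s = 2 ∧ b 1 = 3 ∧ b 2 = 2 ∧ b 3 = 5) ∨
    (M = 4 ∧ s = 3 ∧ b 1 = 3 ∧ b 2 = 2 ∧ b 3 = 3 ∧ b 4 = 2) ∨
    (M = 4 ∧ s = 3 ∧ b 1 = 4 ∧ b 2 = 1 ∧ b 3 = 4 ∧ b 4 = 1) ∨
    (M = 6 ∧ s = 3 ∧ b 1 = 7 ∧ b 2 = 6 ∧ b 3 = 7 ∧ b 4 = 6 ∧ b 5 = 6 ∧ b 6 = 7) ∨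
    (M = 6 ∧ s = 3 ∧ b 1 = 7 ∧ b 2 = 6 ∧ b 3 = 7 ∧ b 4 = 6 ∧ b 5 = 5 ∧ b 6 = 8) ∨
    (M = 7 ∧ s = 3 ∧ b 1 = 10 ∧ b 2 = 10 ∧ b 3 = 7 ∧ b 4 = 12 ∧ b 5 = 7 ∧ b 6 = 7 ∧
      b 7 = 15) := by
  rcases Nat.lt_or_ge M 12 with h12 | h12
  · exact Pool.Agent.H372R3.GE.list11 M s b hs hsM (by omega) hb h
  · exact absurd h (noId_small hs hs3 h12 hb)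

end Pool.Agent.H978D
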