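import Pool.Agent.H978D.D22
import Pool.Agent.H978D.D18
import Pool.Agent.H978D.Q18
import Pool.Agent.H978D.P13

set_option autoImplicit false

namespace Pool.Agent.H978D

open Pool.Agent.MPe9218d

/-- no identity for `s ≥ 4`, `M ≥ 2 ^ s + 2` -/
theorem beyond {M s : ℕ} {b : ℕ → ℕ} (hs : 4 ≤ s) (hM : 2 ^ s + 2 ≤ M)
    (hb : ∀ j, 1 ≤ j → j ≤ M → 1 ≤ b j) : ¬ Identity M s b := by
  intro hId
  obtain ⟨m, rfl⟩ : ∃ m, s = m + 3 + 1 := ⟨s - 4, by omega⟩
  refine main_II (M := M) (m := m) hb ?_ hId
  have : 2 ^ (m + 3 + 1) = 16 * 2 ^ m := by ring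
  omega

/-- no identity for `3 * 2 ^ (s - 2) < M < 2 ^ s` with at least three ones in `2 ^ s - M` -/
theorem between {M s : ℕ} {b : ℕ → ℕ} (hs : 2 ≤ s) (hM : 3 * 2 ^ (s - 2) < M)
    (hpc : 3 ≤ pc (2 ^ s - M)) (hb : ∀ j, 1 ≤ j → j ≤ M → 1 ≤ b j) : ¬ Identity M s b := by
  have pc0 : pc 0 = 0 := by decide
  have hlt : M < 2 ^ s := by
    by_contra hc
    rw [Nat.sub_eq_zero_of_le (by omega), pc0] at hpc
    omega
  rcases Nat.lt_or_ge s 4 with h | h
  · interval_cases s
    · norm_num at hM hlt; omega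
    · norm_num at hM hlt
      have : M = 7 := by omega
      subst this
      have : pc (2 ^ 3 - 7) = 1 := by decide
      omega
  · obtain ⟨m, rfl⟩ : ∃ m, s = m + 3 + 1 := ⟨s - 4, by omega⟩
    have e1 : 2 ^ (m + 3 + 1) = 16 * 2 ^ m := by ring
    have e2 : 2 ^ (m + 3 + 1 - 2) = 4 * 2 ^ m := by
      have : m + 3 + 1 - 2 = m + 2 := by omega
      rw [this]; ring
    rw [e1] at hpc hlt
    rw [e2] at hM
    rcases Nat.lt_trichotomy (16 * 2 ^ m - M) (2 * 2 ^ m) with h1 | h1 | h1
    · exact main_III (E := 16 * 2 ^ m - M) hb (by omega) h1 hpc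
    · exfalso
      rw [h1] at hpc
      have : pc (2 * 2 ^ m) = 1 := by
        have : 2 * 2 ^ m = 2 ^ (m + 1) := by ring
        rw [this]
        unfold pc
        have h3 : Nat.digits 2 (2 ^ (m + 1)) = List.replicate (m + 1) 0 ++ [1] := by
          have := Nat.digits_base_pow_mul (b := 2) (k := m + 1) (m := 1) (by norm_num) (by norm_num)
          simpa using this
        rw [h3]; simp
      omega
    · by_cases hE : 2 * (16 * 2 ^ m - M) = 7 * 2 ^ m ∧ m < 3
      · obtain ⟨hE1, hE2⟩ := hE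
        interval_cases m
        · norm_num at hE1; omega
        · norm_num at hE1 hlt
          have : M = 25 := by omega
          subst this
          intro hId
          exact c_25_5 hb hId
        · norm_num at hE1 hlt
          have : M = 50 := by omega
          subst this
          intro hId
          exact c_50_6 hb hId
      · refine q_main (E := 16 * 2 ^ m - M) (g := 4 * 2 ^ m - (16 * 2 ^ m - M)) ?_ ?_ hb
        · exact ⟨by omega, by omega, by omega, by omega, hpc⟩
        · intro hh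
          by_contra hc
          exact hE ⟨hh, by omega⟩

end Pool.Agent.H978D
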