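import Pool.Agent.H978D.R18

set_option autoImplicit false

namespace Pool.Agent.H978D

open Pool.Agent.MPe9218d

/-- no identity for `2 ^ (s - 1) < M < 3 * 2 ^ (s - 2)` if `2 ^ s - M` has at least three ones and
`M` has at least six ones -/
theorem lower_half' {M s : ℕ} {b : ℕ → ℕ} (hs : 2 ≤ s) (h1 : 2 ^ (s - 1) < M)
    (h2 : M < 3 * 2 ^ (s - 2)) (h3 : 3 ≤ pc (2 ^ s - M)) (h6 : 6 ≤ pc M)
    (hb : ∀ j, 1 ≤ j → j ≤ M → 1 ≤ b j) : ¬ Identity M s b := by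
  obtain ⟨t, rfl⟩ : ∃ t, s = t + 1 + 1 := ⟨s - 2, by omega⟩
  have e1 : t + 1 + 1 - 1 = t + 1 := by omega
  have e2 : t + 1 + 1 - 2 = t := by omega
  rw [e1] at h1
  rw [e2] at h2
  have e3 : 2 ^ (t + 1) = 2 * 2 ^ t := by ring
  have e4 : 2 ^ (t + 1 + 1) = 2 * 2 ^ (t + 1) := by ring
  rw [e4] at h3
  exact lower_half (k := t + 1) hb h1 (by rw [e3]; omega) h3 h6

end Pool.Agent.H978D
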