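import Pool.Agent.H978D.Final

/-!
A cheaper form of the certificate check `ck`: the partitions are counted along an explicit
descending list of the allowed parts, by the recursor of lists (small kernel memory).
Job X1 of helper978, by helper732.
-/

set_option autoImplicit false

namespace Pool.Agent.H978D

open Pool.Agent.MPe9218d Pool.Agent.H372R3.GE Pool.Agent.H372R3.GD

/-- counting along a descending list of the allowed parts; `c` is the largest part allowed -/
noncomputable def cl (d : ℕ → ℕ) (L : List ℕ) : ℕ → ℕ → ℕ :=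
  List.rec (motive := fun _ => ℕ → ℕ → ℕ) (fun _ n => bif Nat.beq n 0 then 1 else 0)
    (fun p _ ih c n => bif Nat.beq n 0 then 1 else bif Nat.beq c 0 then 0 else
      bif Nat.ble p c then (bif Nat.ble p n then ih c n + ih (p - d p) (n - p) else ih c n)
      else ih c n) L

theorem cl_nil (d : ℕ → ℕ) (c n : ℕ) : cl d [] c n = if n = 0 then 1 else 0 := by
  change (bif Nat.beq n 0 then 1 else 0) = _
  rcases n with _ | n
  · rfl
  · rfl

theorem cl_cons (d : ℕ → ℕ) (p : ℕ) (L : List ℕ) (c n : ℕ) : cl d (p :: L) c n =
    bif Nat.beq n 0 then 1 else bif Nat.beq c 0 then 0 else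
      bif Nat.ble p c then
        (bif Nat.ble p n then cl d L c n + cl d L (p - d p) (n - p) else cl d L c n)
      else cl d L c n := rfl

/-- the allowed parts `≤ m`, descending -/
noncomputable def dsc (ok : ℕ → Bool) (m : ℕ) : List ℕ :=
  Nat.rec (motive := fun _ => List ℕ) [] (fun k ih => bif ok (k + 1) then (k + 1) :: ih else ih) m

theorem dsc_zero (ok : ℕ → Bool) : dsc ok 0 = [] := rfl

theorem dsc_succ (ok : ℕ → Bool) (m : ℕ) :
    dsc ok (m + 1) = bif ok (m + 1) then (m + 1) :: dsc ok m else dsc ok m := rfl

theorem cnt_zero_n (ok : ℕ → Bool) (d : ℕ → ℕ) : ∀ f m, cnt ok d f m 0 = 1 := by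
  intro f
  induction f with
  | zero => intro m; rw [cnt]; rfl
  | succ f ih =>
    intro m
    rcases m with _ | m
    · rw [cnt]; rfl
    · rw [cnt, ih]
      simp

theorem cnt_m_zero (ok : ℕ → Bool) (d : ℕ → ℕ) (f n : ℕ) :
    cnt ok d f 0 n = if n = 0 then 1 else 0 := by
  rcases f with _ | f <;> rw [cnt]

theorem cl_eq (ok : ℕ → Bool) (d : ℕ → ℕ) (hd : ∀ e, 1 ≤ d e) :
    ∀ m c n f, min c m ≤ f → cl d (dsc ok m) c n = cnt ok d f (min c m) n := by
  intro m
  induction m with
  | zero =>
    intro c n f _
    rw [dsc_zero, cl_nil, Nat.min_zero, cnt_m_zero]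
  | succ m ih =>
    intro c n f hf
    rw [dsc_succ]
    rcases Nat.eq_zero_or_pos n with rfl | hn
    · -- nothing left
      cases h : ok (m + 1)
      · rw [cond_false, ih c 0 (min c m) le_rfl, cnt_zero_n, cnt_zero_n]
      · rw [cond_true, cl_cons, cnt_zero_n]
        rfl
    · have hb : Nat.beq n 0 = false := by
        rcases n with _ | n
        · omega
        · rfl
      by_cases hc : m + 1 ≤ c
      · -- the part `m + 1` is allowed
        have e1 : min c (m + 1) = m + 1 := by omega
        have e2 : min c m = m := by omega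
        rw [e1] at hf ⊢
        obtain ⟨g, rfl⟩ : ∃ g, f = g + 1 := ⟨f - 1, by omega⟩
        rw [cnt]
        have i1 := ih c n g (by omega)
        rw [e2] at i1
        have hd1 := hd (m + 1)
        have i2 := ih (m + 1 - d (m + 1)) (n - (m + 1)) g (by omega)
        rw [show min (m + 1 - d (m + 1)) m = m + 1 - d (m + 1) by omega] at i2
        cases h : ok (m + 1)
        · rw [cond_false, i1]
          simp
        · rw [cond_true, cl_cons, hb, cond_false, i1, i2]
          have hc0 : Nat.beq c 0 = false := by
            rcases c with _ | c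
            · omega
            · rfl
          have hc1 : Nat.ble (m + 1) c = true := Nat.ble_eq_true_of_le hc
          rw [hc0, cond_false, hc1, cond_true]
          by_cases hmn : m + 1 ≤ n
          · rw [Nat.ble_eq_true_of_le hmn, cond_true]
            simp [hmn]
          · have : Nat.ble (m + 1) n = false := by
              rw [← Bool.not_eq_true, Nat.ble_eq]; exact hmn
            rw [this, cond_false]
            simp [hmn]
      · -- the part `m + 1` is too large
        have e1 : min c (m + 1) = min c m := by omega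
        rw [e1] at hf ⊢
        have i1 := ih c n f hf
        cases h : ok (m + 1)
        · rw [cond_false, i1]
        · rw [cond_true, cl_cons, hb, cond_false]
          rcases Nat.eq_zero_or_pos c with rfl | hc0
          · have : Nat.beq 0 0 = true := rfl
            rw [this, cond_true, Nat.zero_min, cnt_m_zero, if_neg (by omega)]
          · have hc0' : Nat.beq c 0 = false := by
              rcases c with _ | c
              · omega
              · rfl
            have hc1 : Nat.ble (m + 1) c = false := by
              rw [← Bool.not_eq_true, Nat.ble_eq]; exact hc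
            rw [hc0', cond_false, hc1, cond_false, i1]

theorem cl_cnt {ok : ℕ → Bool} {d : ℕ → ℕ} {N : ℕ} {L : List ℕ} (hL : dsc ok N = L)
    (hd : ∀ e, 1 ≤ d e) {n : ℕ} (hn : n ≤ N) : cnt ok d n n n = cl d L n n := by
  rw [← hL, cl_eq ok d hd N n n n (by omega), show min n N = n by omega]

/-- the fast check of the set of attained numbers -/
noncomputable def fC (LA : List ℕ) (mask N : ℕ) : Bool :=
  Nat.rec (motive := fun _ => Bool) true
    (fun k ih => ih && (mask.testBit (k + 1) == !(Nat.beq (cl (fun _ => 1) LA (k + 1) (k + 1)) 0)))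
    N

theorem beq0 (x : ℕ) : (x == 0) = Nat.beq x 0 := by
  cases x <;> rfl

theorem fC_sound {M s mask : ℕ} {LA : List ℕ} {N : ℕ} (hA : dsc (okAb M s) N = LA) :
    ∀ k, k ≤ N → fC LA mask k = true → ckC M s mask k = true := by
  intro k
  induction k with
  | zero => intro _ _; rw [ckC]
  | succ k ih =>
    intro hk h
    have h1 : (fC LA mask k && (mask.testBit (k + 1) ==
        !(Nat.beq (cl (fun _ => 1) LA (k + 1) (k + 1)) 0))) = true := h
    rw [Bool.and_eq_true] at h1
    rw [ckC, Bool.and_eq_true]
    refine ⟨ih (by omega) h1.1, ?_⟩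
    rw [cl_cnt hA (fun _ => le_rfl) hk, beq0]
    exact h1.2

/-- every entry is positive -/
def posl (xs : List ℕ) : Prop := ∀ r, 1 ≤ xs.getD r 1

theorem posl_set {xs : List ℕ} (h : posl xs) (j g : ℕ) (hg : 1 ≤ g) : posl (xs.set j g) := by
  intro r
  have h1 := h r
  rw [List.getD_eq_getElem?_getD] at h1 ⊢
  rw [List.getElem?_set]
  split_ifs with h2 h3
  · simpa using hg
  · simp
  · exact h1

theorem posl_replicate (M x : ℕ) (hx : 1 ≤ x) : posl (List.replicate M x) := by
  intro r
  rw [List.getD_eq_getElem?_getD, List.getElem?_replicate]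
  split_ifs
  · simpa using hx
  · simp

/-- the fast check of a certificate without solutions -/
noncomputable def fK (M N : ℕ) (LA LB : List ℕ) (t : Tree) : List ℕ → List ℕ → Bool :=
  Tree.rec (motive := fun _ => List ℕ → List ℕ → Bool) (fun _ _ => false)
    (fun n lo hi => Nat.ble n N && (Nat.ble 1 n &&
      (Nat.blt (cl (fun _ => 1) LA n n) (cl (dl M hi) LB n n) ||
       Nat.blt (cl (dl M lo) LB n n) (cl (fun _ => 1) LA n n))))
    (fun j g _ _ it iu lo hi => Nat.blt j M && (Nat.ble 1 g && (it lo (hi.set j g) &&
      iu (lo.set j (g + 1)) hi))) t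

theorem fK_sound {M s N mask : ℕ} {LA LB : List ℕ} (hA : dsc (okAb M s) N = LA)
    (hB : dsc (fun e => mask.testBit e) N = LB) : ∀ (t : Tree) (lo hi : List ℕ), posl lo →
      posl hi → fK M N LA LB t lo hi = true → ck M s N mask [] t lo hi = true := by
  intro t
  induction t with
  | s => intro lo hi _ _ h; exact absurd h (by change ¬ (false = true); simp)
  | l n =>
    intro lo hi hlo hhi h
    have h1 : (Nat.ble n N && (Nat.ble 1 n &&
      (Nat.blt (cl (fun _ => 1) LA n n) (cl (dl M hi) LB n n) ||
       Nat.blt (cl (dl M lo) LB n n) (cl (fun _ => 1) LA n n)))) = true := h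
    rw [Bool.and_eq_true, Bool.and_eq_true] at h1
    obtain ⟨h2, h3, h4⟩ := h1
    have hn : n ≤ N := Nat.le_of_ble_eq_true h2
    rw [ck, h2, h3, cl_cnt hA (fun _ => le_rfl) hn, cl_cnt (d := dl M hi) hB
      (fun e => hhi _) hn, cl_cnt (d := dl M lo) hB (fun e => hlo _) hn]
    exact h4
  | b j g t u iht ihu =>
    intro lo hi hlo hhi h
    have h1 : (Nat.blt j M && (Nat.ble 1 g && (fK M N LA LB t lo (hi.set j g) &&
      fK M N LA LB u (lo.set j (g + 1)) hi))) = true := h
    rw [Bool.and_eq_true, Bool.and_eq_true, Bool.and_eq_true] at h1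
    obtain ⟨h2, h3, h4, h5⟩ := h1
    have hg : 1 ≤ g := Nat.le_of_ble_eq_true h3
    rw [ck, h2, iht lo (hi.set j g) hlo (posl_set hhi j g hg) h4,
      ihu (lo.set j (g + 1)) hi (posl_set hlo j _ (by omega)) hhi h5]
    rfl

theorem fK_root {M s N mask : ℕ} {LA LB : List ℕ} {t : Tree} (hA : dsc (okAb M s) N = LA)
    (hB : dsc (fun e => mask.testBit e) N = LB)
    (h : fK M N LA LB t (List.replicate M 1) (List.replicate M INF) = true) :
    ck M s N mask [] t (List.replicate M 1) (List.replicate M INF) = true :=
  fK_sound hA hB t _ _ (posl_replicate M 1 le_rfl) (posl_replicate M INF (by norm_num [INF])) h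

end Pool.Agent.H978D
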